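import Pool.Agent.Work.MP_a8fbd7_nt.VK.Stmts
import Pool.Agent.Work.MP_37bd4f_nt.ZetaApprox

set_option autoImplicit false

namespace Pool.Agent.Work.MP_a8fbd7_nt.VK

open Finset

theorem prf_AP : AP := by
  intro s X hs hs1 hX
  have h0 := Pool.Agent.Work.MP_37bd4f_nt.zeta₁_approx hs hX
  have hs0 : s - 1 ≠ 0 := sub_ne_zero.2 hs1
  have hz : riemannZeta₁ s = (s - 1) * riemannZeta s := by
    rw [riemannZeta_eq_inv_sub_mul hs1]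
    field_simp
  have hn : 0 < ‖s - 1‖ := norm_pos_iff.2 hs0
  have hXc : ‖(X : ℂ) ^ (1 - s)‖ = (X : ℝ) ^ (1 - s.re) := by
    rw [Complex.norm_natCast_cpow_of_pos (by omega)]
    simp
  set D : ℂ := riemannZeta s - ∑ n ∈ Icc 1 X, (n : ℂ) ^ (-s) with hD
  have h1 : (s - 1) * D = (riemannZeta₁ s - ((s - 1) * ∑ n ∈ Finset.Icc 1 X, (n : ℂ) ^ (-s) +
      (X : ℂ) ^ (1 - s))) + (X : ℂ) ^ (1 - s) := by
    rw [hz, hD]; ring
  have h2 : ‖s - 1‖ * ‖D‖ ≤ ‖s - 1‖ * ‖s‖ * ((X : ℝ) ^ (-s.re) / s.re) +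
      (X : ℝ) ^ (1 - s.re) := by
    rw [← norm_mul, h1]
    refine (norm_add_le _ _).trans ?_
    rw [hXc]
    gcongr
  have h3 : ‖D‖ ≤ (‖s - 1‖ * ‖s‖ * ((X : ℝ) ^ (-s.re) / s.re) + (X : ℝ) ^ (1 - s.re)) /
      ‖s - 1‖ := by
    rw [le_div_iff₀ hn]
    linarith
  refine h3.trans (le_of_eq ?_)
  field_simp
  ring

end Pool.Agent.Work.MP_a8fbd7_nt.VK
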