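/-
Block VK (problem MP_a8fbd7_nt): Vinogradov's mean value theorem with explicit constants and the
zero-free region of Chudakov type.  Author: helper44.
-/
import Mathlib

set_option autoImplicit false

namespace Pool.Agent.Work.MP_a8fbd7_nt.VK

open Finset

/-! ## Vinogradov's system -/

/-- The vector `(x, x ^ 2, …, x ^ k)`. -/
def pv (k : ℕ) (x : ℤ) : Fin k → ℤ := fun j => x ^ (j.val + 1)

/-- The power sums of a tuple. -/
def ps (k : ℕ) {s : ℕ} (x : Fin s → ℤ) : Fin k → ℤ := ∑ i, pv k (x i)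

/-- The tuples of length `s` with entries in `A`. -/
def tup (s : ℕ) (A : Finset ℤ) : Finset (Fin s → ℤ) := Fintype.piFinset fun _ => A

/-- The number of pairs of `s`-tuples from `A` whose power sums differ by `w`. -/
def Rn (k s : ℕ) (A : Finset ℤ) (w : Fin k → ℤ) : ℕ :=
  ((tup s A ×ˢ tup s A).filter fun z => ps k z.1 = ps k z.2 + w).card

/-- The number of pairs of `s`-tuples from `A` with equal power sums. -/
def En (k s : ℕ) (A : Finset ℤ) : ℕ :=
  ((tup s A ×ˢ tup s A).filter fun z => ps k z.1 = ps k z.2).card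

/-- `0, 1, …, X - 1`. -/
noncomputable def ivl (X : ℕ) : Finset ℤ := Finset.Ico 0 (X : ℤ)

/-- Vinogradov's mean value: solutions in `0, …, X - 1`. -/
noncomputable def J (k s X : ℕ) : ℕ := En k s (ivl X)

/-- The elements of `A` in the residue class of `a` modulo `p`. -/
def cls (p a : ℕ) (A : Finset ℤ) : Finset ℤ := A.filter fun x => x % (p : ℤ) = (a : ℤ)

/-- The `k`-tuples from `A` whose entries are pairwise incongruent modulo `p`. -/
def Dst (k p : ℕ) (A : Finset ℤ) : Finset (Fin k → ℤ) :=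
  (tup k A).filter fun x => ∀ i j : Fin k, i ≠ j → ¬ (p : ℤ) ∣ x i - x j

/-- The number of solutions of `ps x + ps u = ps y + ps v` with `x, y ∈ D` and `u, v` tuples of
length `m` from `A`. -/
def Nn (k m : ℕ) (D : Finset (Fin k → ℤ)) (A : Finset ℤ) : ℕ :=
  (((D ×ˢ tup m A) ×ˢ (D ×ˢ tup m A)).filter fun z =>
    ps k z.1.1 + ps k z.1.2 = ps k z.2.1 + ps k z.2.2).card

/-- The number of residue classes modulo `p` met by a tuple. -/
def ncl (p : ℕ) {s : ℕ} (x : Fin s → ℤ) : ℕ := (Finset.univ.image fun i => x i % (p : ℤ)).card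

/-- A finite family of characters of `ℤ ^ k` that detects `0` among the vectors with entries
smaller than `q` in absolute value. -/
structure Chars (k q : ℕ) where
  /-- index set -/
  Ψ : Type
  /-- finiteness -/
  fin : Fintype Ψ
  /-- there is at least one -/
  ne : Nonempty Ψ
  /-- the characters -/
  e : Ψ → (Fin k → ℤ) → ℂ
  /-- value at `0` -/
  e_zero : ∀ ψ, e ψ 0 = 1
  /-- additivity -/
  e_add : ∀ ψ a b, e ψ (a + b) = e ψ a * e ψ b
  /-- the value at `-a` is the conjugate -/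
  e_neg : ∀ ψ a, e ψ (-a) = (starRingEnd ℂ) (e ψ a)
  /-- the values have modulus one -/
  e_norm : ∀ ψ a, ‖e ψ a‖ = 1
  /-- orthogonality -/
  orth : ∀ a : Fin k → ℤ, (∀ j, |a j| < (q : ℤ)) →
    (∑ ψ : Ψ, e ψ a) = if a = 0 then (Fintype.card Ψ : ℂ) else 0

/-! ## Exponential sums -/

/-- `exp (2 π i x)`. -/
noncomputable def ee (x : ℝ) : ℂ := Complex.exp (2 * Real.pi * Complex.I * x)

/-- The double sum over `u, v < Y` of `ee (∑ α_j (u v) ^ j)`. -/
noncomputable def T (k Y : ℕ) (α : Fin k → ℝ) : ℂ :=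
  ∑ u ∈ range Y, ∑ v ∈ range Y, ee (∑ j : Fin k, α j * ((u : ℝ) * (v : ℝ)) ^ (j.val + 1))

/-- The sum over `|μ| ≤ H` of the modulus of the sum over `|l| ≤ H` of `ee (a l μ)`. -/
noncomputable def W (H : ℕ) (a : ℝ) : ℝ :=
  ∑ μ ∈ Icc (-(H : ℤ)) (H : ℤ), ‖∑ l ∈ Icc (-(H : ℤ)) (H : ℤ), ee (a * l * μ)‖

/-- The Taylor coefficients of `- (t / 2 π) log (n + x)` at `x = 0`. -/
noncomputable def al (k : ℕ) (t : ℝ) (n : ℕ) : Fin k → ℝ := fun j =>
  (-1) ^ (j.val + 1) * t / (2 * Real.pi * ((j.val : ℝ) + 1) * (n : ℝ) ^ (j.val + 1))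

/-- The sum of `n ^ (- i t)` over `N < n ≤ N'`. -/
noncomputable def zs (N N' : ℕ) (t : ℝ) : ℂ :=
  ∑ n ∈ Ioc N N', (n : ℂ) ^ (-((t : ℂ) * Complex.I))

end Pool.Agent.Work.MP_a8fbd7_nt.VK
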