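/-
Block VK (problem MP_a8fbd7_nt): common lemmas about the characters.  Author: helper44.
-/
import Pool.Agent.Work.MP_a8fbd7_nt.VK.Defs

set_option autoImplicit false

namespace Pool.Agent.Work.MP_a8fbd7_nt.VK

open Finset

attribute [instance] Chars.fin Chars.ne

namespace Chars

variable {k q : ℕ} (S : Chars k q)

lemma e_sub (ψ : S.Ψ) (a b : Fin k → ℤ) :
    S.e ψ (a - b) = S.e ψ a * (starRingEnd ℂ) (S.e ψ b) := by
  rw [sub_eq_add_neg, S.e_add, S.e_neg]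

lemma e_sum {ι : Type} (t : Finset ι) (f : ι → Fin k → ℤ) (ψ : S.Ψ) :
    S.e ψ (∑ i ∈ t, f i) = ∏ i ∈ t, S.e ψ (f i) := by
  classical
  induction t using Finset.induction_on with
  | empty => simp [S.e_zero]
  | insert a t ha ih => rw [Finset.sum_insert ha, Finset.prod_insert ha, S.e_add, ih]

lemma e_ps {s : ℕ} (ψ : S.Ψ) (x : Fin s → ℤ) : S.e ψ (ps k x) = ∏ i, S.e ψ (pv k (x i)) :=
  S.e_sum _ _ _

/-- The exponential sum over `A`. -/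
noncomputable def F (A : Finset ℤ) (ψ : S.Ψ) : ℂ := ∑ x ∈ A, S.e ψ (pv k x)

lemma F_pow (A : Finset ℤ) (ψ : S.Ψ) (s : ℕ) :
    S.F A ψ ^ s = ∑ x ∈ tup s A, S.e ψ (ps k x) := by
  have h := Finset.prod_univ_sum (fun _ : Fin s => A) (fun _ x => S.e ψ (pv k x))
  rw [Finset.prod_const, Finset.card_univ, Fintype.card_fin] at h
  rw [F, h, tup]
  exact Finset.sum_congr rfl fun x _ => (S.e_ps ψ x).symm

lemma mul_conj {γ δ : Type} (X : Finset γ) (Y : Finset δ) (P : γ → Fin k → ℤ)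
    (Q : δ → Fin k → ℤ) (ψ : S.Ψ) :
    (∑ x ∈ X, S.e ψ (P x)) * (starRingEnd ℂ) (∑ y ∈ Y, S.e ψ (Q y)) =
      ∑ z ∈ X ×ˢ Y, S.e ψ (P z.1 - Q z.2) := by
  rw [map_sum, Finset.sum_mul_sum, Finset.sum_product]
  exact Finset.sum_congr rfl fun x _ => Finset.sum_congr rfl fun y _ => (S.e_sub ψ _ _).symm

/-- `|∑ e (P x)| ^ 2` as a double sum. -/
lemma norm_sq_sum {γ : Type} (X : Finset γ) (P : γ → Fin k → ℤ) (ψ : S.Ψ) :
    ((‖∑ x ∈ X, S.e ψ (P x)‖ ^ 2 : ℝ) : ℂ) = ∑ z ∈ X ×ˢ X, S.e ψ (P z.1 - P z.2) := by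
  rw [← S.mul_conj, Complex.mul_conj']
  push_cast
  rfl

/-- `|F| ^ (2 s)` as a double sum over tuples. -/
lemma norm_F_pow (A : Finset ℤ) (ψ : S.Ψ) (s : ℕ) :
    ((‖S.F A ψ‖ ^ (2 * s) : ℝ) : ℂ) =
      ∑ z ∈ tup s A ×ˢ tup s A, S.e ψ (ps k z.1 - ps k z.2) := by
  rw [← S.norm_sq_sum, ← S.F_pow, norm_pow, ← pow_mul, mul_comm s 2]

/-- The mean over the characters counts the zeros. -/
lemma count {γ : Type} (R : Finset γ) (Φ : γ → Fin k → ℤ)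
    (h : ∀ z ∈ R, ∀ j, |Φ z j| < (q : ℤ)) :
    (∑ ψ : S.Ψ, ∑ z ∈ R, S.e ψ (Φ z)) =
      (Fintype.card S.Ψ : ℂ) * ((R.filter fun z => Φ z = 0).card : ℂ) := by
  rw [Finset.sum_comm]
  rw [Finset.sum_congr rfl fun z hz => S.orth (Φ z) (h z hz)]
  rw [← Finset.sum_filter, Finset.sum_const, nsmul_eq_mul, mul_comm]

lemma card_pos : (0 : ℝ) < Fintype.card S.Ψ := by
  exact_mod_cast Fintype.card_pos

/-- The mean of `|F| ^ (2 s)` is the number of solutions. -/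
lemma mean_F (A : Finset ℤ) (s : ℕ)
    (h : ∀ z ∈ tup s A ×ˢ tup s A, ∀ j, |(ps k z.1 - ps k z.2) j| < (q : ℤ)) :
    ∑ ψ : S.Ψ, ‖S.F A ψ‖ ^ (2 * s) = (Fintype.card S.Ψ : ℝ) * (En k s A : ℝ) := by
  have h1 := S.count (tup s A ×ˢ tup s A) (fun z => ps k z.1 - ps k z.2) h
  have h2 : (∑ ψ : S.Ψ, ∑ z ∈ tup s A ×ˢ tup s A, S.e ψ (ps k z.1 - ps k z.2)) =
      ((∑ ψ : S.Ψ, ‖S.F A ψ‖ ^ (2 * s) : ℝ) : ℂ) := by
    rw [Complex.ofReal_sum]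
    exact Finset.sum_congr rfl fun ψ _ => (S.norm_F_pow A ψ s).symm
  rw [h2] at h1
  have h3 : ((tup s A ×ˢ tup s A).filter fun z => ps k z.1 - ps k z.2 = 0).card = En k s A := by
    unfold En
    congr 1
    exact Finset.filter_congr fun z _ => sub_eq_zero
  rw [h3] at h1
  exact_mod_cast h1

end Chars

/-- There is a bound `q` for finitely many vectors. -/
lemma exists_q {γ : Type} {k : ℕ} (R : Finset γ) (Φ : γ → Fin k → ℤ) :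
    ∃ q : ℕ, 0 < q ∧ ∀ z ∈ R, ∀ j, |Φ z j| < (q : ℤ) := by
  classical
  refine ⟨(∑ z ∈ R, ∑ j, (Φ z j).natAbs) + 1, Nat.succ_pos _, fun z hz j => ?_⟩
  have h1 : (Φ z j).natAbs ≤ ∑ j, (Φ z j).natAbs :=
    Finset.single_le_sum (f := fun j => (Φ z j).natAbs) (fun _ _ => Nat.zero_le _)
      (Finset.mem_univ j)
  have h2 : (∑ j, (Φ z j).natAbs) ≤ ∑ z ∈ R, ∑ j, (Φ z j).natAbs :=
    Finset.single_le_sum (f := fun z => ∑ j, (Φ z j).natAbs) (fun _ _ => Nat.zero_le _) hz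
  rw [Int.abs_eq_natAbs]
  exact_mod_cast Nat.lt_succ_of_le (h1.trans h2)

/-- Two bounds at once. -/
lemma exists_q₂ {γ δ : Type} {k : ℕ} (R : Finset γ) (Φ : γ → Fin k → ℤ) (R' : Finset δ)
    (Φ' : δ → Fin k → ℤ) :
    ∃ q : ℕ, 0 < q ∧ (∀ z ∈ R, ∀ j, |Φ z j| < (q : ℤ)) ∧ ∀ z ∈ R', ∀ j, |Φ' z j| < (q : ℤ) := by
  obtain ⟨q, hq, h⟩ := exists_q R Φ
  obtain ⟨q', hq', h'⟩ := exists_q R' Φ'
  refine ⟨max q q', lt_of_lt_of_le hq (le_max_left _ _), fun z hz j => ?_, fun z hz j => ?_⟩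
  · exact (h z hz j).trans_le (by exact_mod_cast le_max_left q q')
  · exact (h' z hz j).trans_le (by exact_mod_cast le_max_right q q')

lemma mem_tup {s : ℕ} {A : Finset ℤ} {x : Fin s → ℤ} : x ∈ tup s A ↔ ∀ i, x i ∈ A := by
  simp [tup]

lemma card_tup (s : ℕ) (A : Finset ℤ) : (tup s A).card = A.card ^ s := by
  simp [tup]

lemma mem_ivl {X : ℕ} {x : ℤ} : x ∈ ivl X ↔ 0 ≤ x ∧ x < X := by
  simp [ivl]

lemma card_ivl (X : ℕ) : (ivl X).card = X := by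
  simp [ivl]

end Pool.Agent.Work.MP_a8fbd7_nt.VK
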