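import Pool.Agent.Work.MP_a8fbd7_nt.VK.Stmts
import Pool.Agent.Work.MP_a8fbd7_nt.VK.Basic

/-!
Block VK (problem MP_a8fbd7_nt), item BA: tuples with few residue classes.
-/

set_option autoImplicit false
set_option linter.dupNamespace false

namespace Pool.Agent.Work.MP_a8fbd7_nt.VK

open Finset

namespace BA


variable {k q : ℕ}

lemma e_ps (S : Chars k q) (ψ : S.Ψ) {s : ℕ} (x : Fin s → ℤ) :
    S.e ψ (ps k x) = ∏ i, S.e ψ (pv k (x i)) := by
  unfold ps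
  have h : ∀ t : Finset (Fin s), S.e ψ (∑ i ∈ t, pv k (x i)) = ∏ i ∈ t, S.e ψ (pv k (x i)) := by
    intro t
    induction t using Finset.induction_on with
    | empty => simp [S.e_zero]
    | insert a t ha ih => rw [sum_insert ha, prod_insert ha, S.e_add, ih]
  exact h univ

/-- the exponential sum over `B` -/
noncomputable def ff (S : Chars k q) (B : Finset ℤ) (ψ : S.Ψ) : ℂ := ∑ x ∈ B, S.e ψ (pv k x)

lemma ff_pow (S : Chars k q) (B : Finset ℤ) (ψ : S.Ψ) (s : ℕ) :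
    ff S B ψ ^ s = ∑ x ∈ tup s B, S.e ψ (ps k x) := by
  simp_rw [e_ps]
  unfold ff tup
  rw [← Finset.prod_univ_sum (fun _ : Fin s => B) (fun _ x => S.e ψ (pv k x))]
  simp

lemma count (S : Chars k q) {s : ℕ} (U V : Finset (Fin s → ℤ))
    (h : ∀ x ∈ U, ∀ y ∈ V, ∀ j, |(ps k x - ps k y) j| < (q : ℤ)) :
    (Fintype.card S.Ψ : ℂ) * (((U ×ˢ V).filter fun z => ps k z.1 = ps k z.2).card : ℂ) =
      ∑ ψ, (∑ x ∈ U, S.e ψ (ps k x)) * (starRingEnd ℂ) (∑ y ∈ V, S.e ψ (ps k y)) := by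
  have h1 : ∀ ψ, (∑ x ∈ U, S.e ψ (ps k x)) * (starRingEnd ℂ) (∑ y ∈ V, S.e ψ (ps k y)) =
      ∑ z ∈ U ×ˢ V, S.e ψ (ps k z.1 - ps k z.2) := by
    intro ψ
    rw [map_sum, sum_mul_sum, sum_product]
    refine sum_congr rfl (fun x _ => sum_congr rfl (fun y _ => ?_))
    rw [← S.e_neg, ← S.e_add, ← sub_eq_add_neg]
  simp_rw [h1]
  rw [sum_comm]
  have h2 : ∀ z ∈ U ×ˢ V, ∑ ψ, S.e ψ (ps k z.1 - ps k z.2) =
      if ps k z.1 = ps k z.2 then (Fintype.card S.Ψ : ℂ) else 0 := by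
    intro z hz
    rw [mem_product] at hz
    rw [S.orth _ (h _ hz.1 _ hz.2)]
    simp only [sub_eq_zero]
  rw [sum_congr rfl h2, ← sum_filter, sum_const, nsmul_eq_mul, mul_comm]

lemma cardPsi_pos (S : Chars k q) : (0 : ℝ) < Fintype.card S.Ψ := by
  have h : 0 < Fintype.card S.Ψ := Fintype.card_pos_iff.mpr S.ne
  exact_mod_cast h

/-- mean value as a moment -/
lemma moment (S : Chars k q) (s : ℕ) (B : Finset ℤ)
    (h : ∀ x ∈ tup s B, ∀ y ∈ tup s B, ∀ j, |(ps k x - ps k y) j| < (q : ℤ)) :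
    (Fintype.card S.Ψ : ℝ) * (En k s B : ℝ) = ∑ ψ, ‖ff S B ψ‖ ^ (2 * s) := by
  have h1 := count S (tup s B) (tup s B) h
  have h2 : ∀ ψ, (∑ x ∈ tup s B, S.e ψ (ps k x)) *
      (starRingEnd ℂ) (∑ y ∈ tup s B, S.e ψ (ps k y)) = ((‖ff S B ψ‖ ^ (2 * s) : ℝ) : ℂ) := by
    intro ψ
    rw [← ff_pow, Complex.mul_conj']
    push_cast
    rw [norm_pow]
    push_cast
    rw [← pow_mul, mul_comm s 2]
  simp_rw [h2] at h1
  have h3 : ((Fintype.card S.Ψ : ℝ) * (En k s B : ℝ) : ℝ) = ∑ ψ, ‖ff S B ψ‖ ^ (2 * s) := by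
    have : (((Fintype.card S.Ψ : ℝ) * (En k s B : ℝ) : ℝ) : ℂ) =
        ((∑ ψ, ‖ff S B ψ‖ ^ (2 * s) : ℝ) : ℂ) := by
      push_cast
      unfold En
      rw [h1]
      push_cast
      rfl
    exact_mod_cast this
  exact h3

/-- Cauchy-Schwarz -/
lemma cs (S : Chars k q) (s : ℕ) (B A : Finset ℤ) (hBA : B ⊆ A)
    (h : ∀ x ∈ tup s A, ∀ y ∈ tup s A, ∀ j, |(ps k x - ps k y) j| < (q : ℤ)) :
    (((tup s B ×ˢ tup s A).filter fun z => ps k z.1 = ps k z.2).card) ^ 2 ≤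
      En k s B * En k s A := by
  have hsub : tup s B ⊆ tup s A := Fintype.piFinset_subset _ _ (fun _ => hBA)
  have h1 := count S (tup s B) (tup s A) (fun x hx y hy => h x (hsub hx) y hy)
  have hB := moment S s B (fun x hx y hy => h x (hsub hx) y (hsub hy))
  have hA := moment S s A h
  set c : ℝ := (Fintype.card S.Ψ : ℝ) with hc
  have hc0 : 0 < c := cardPsi_pos S
  set n := ((tup s B ×ˢ tup s A).filter fun z => ps k z.1 = ps k z.2).card with hn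
  have h2 : c * n ≤ ∑ ψ, ‖ff S B ψ‖ ^ s * ‖ff S A ψ‖ ^ s := by
    have e1 : c * n = ‖(Fintype.card S.Ψ : ℂ) * (n : ℂ)‖ := by
      rw [norm_mul, Complex.norm_natCast, Complex.norm_natCast]
    rw [e1, h1]
    refine (norm_sum_le _ _).trans (le_of_eq (sum_congr rfl (fun ψ _ => ?_)))
    rw [← ff_pow, ← ff_pow, norm_mul, RCLike.norm_conj, norm_pow, norm_pow]
  have h3 : (∑ ψ, ‖ff S B ψ‖ ^ s * ‖ff S A ψ‖ ^ s) ^ 2 ≤
      (∑ ψ, (‖ff S B ψ‖ ^ s) ^ 2) * ∑ ψ, (‖ff S A ψ‖ ^ s) ^ 2 :=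
    sum_mul_sq_le_sq_mul_sq _ _ _
  have h4 : ∀ D : Finset ℤ, ∑ ψ, (‖ff S D ψ‖ ^ s) ^ 2 = ∑ ψ, ‖ff S D ψ‖ ^ (2 * s) := by
    intro D
    refine sum_congr rfl (fun ψ _ => ?_)
    rw [← pow_mul, mul_comm s 2]
  rw [h4, h4, ← hB, ← hA] at h3
  have h5 : (c * n) ^ 2 ≤ (c * (En k s B : ℝ)) * (c * (En k s A : ℝ)) := by
    refine le_trans ?_ h3
    have h0 : 0 ≤ c * n := by positivity
    gcongr
  have h6 : c ^ 2 * ((n : ℝ) ^ 2) ≤ c ^ 2 * ((En k s B : ℝ) * (En k s A : ℝ)) := by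
    calc c ^ 2 * ((n : ℝ) ^ 2) = (c * n) ^ 2 := by ring
      _ ≤ _ := h5
      _ = _ := by ring
  have h7 := le_of_mul_le_mul_left h6 (by positivity)
  exact_mod_cast h7

/-- union of classes -/
lemma union_cls (S : Chars k q) (s p E : ℕ) (hs : 1 ≤ s) (A : Finset ℤ) (C : Finset ℕ)
    (hCp : ∀ a ∈ C, a < p) (hE : ∀ a < p, En k s (cls p a A) ≤ E)
    (h : ∀ x ∈ tup s A, ∀ y ∈ tup s A, ∀ j, |(ps k x - ps k y) j| < (q : ℤ)) :
    En k s (C.biUnion fun a => cls p a A) ≤ C.card ^ (2 * s) * E := by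
  classical
  have hsubA : (C.biUnion fun a => cls p a A) ⊆ A := by
    intro x hx
    rw [mem_biUnion] at hx
    obtain ⟨a, _, hx⟩ := hx
    exact (mem_filter.mp hx).1
  have hsubtup : ∀ B : Finset ℤ, B ⊆ A → tup s B ⊆ tup s A :=
    fun B hB => Fintype.piFinset_subset _ _ (fun _ => hB)
  have hmom : ∀ B : Finset ℤ, B ⊆ A →
      (Fintype.card S.Ψ : ℝ) * (En k s B : ℝ) = ∑ ψ, ‖ff S B ψ‖ ^ (2 * s) := by
    intro B hB
    exact moment S s B (fun x hx y hy => h x (hsubtup B hB hx) y (hsubtup B hB hy))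
  have hcls : ∀ a, cls p a A ⊆ A := fun a => filter_subset _ _
  have hff : ∀ ψ, ff S (C.biUnion fun a => cls p a A) ψ = ∑ a ∈ C, ff S (cls p a A) ψ := by
    intro ψ
    unfold ff
    rw [sum_biUnion]
    intro a _ b _ hab
    rw [Function.onFun, disjoint_left]
    intro x hx hx'
    have h1 := (mem_filter.mp hx).2
    have h2 := (mem_filter.mp hx').2
    apply hab
    exact_mod_cast (h1.symm.trans h2)
  have hpt : ∀ ψ, ‖ff S (C.biUnion fun a => cls p a A) ψ‖ ^ (2 * s) ≤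
      (C.card : ℝ) ^ (2 * s - 1) * ∑ a ∈ C, ‖ff S (cls p a A) ψ‖ ^ (2 * s) := by
    intro ψ
    have h1 : ‖ff S (C.biUnion fun a => cls p a A) ψ‖ ≤ ∑ a ∈ C, ‖ff S (cls p a A) ψ‖ := by
      rw [hff]; exact norm_sum_le _ _
    have h2 := pow_sum_le_card_mul_sum_pow (s := C) (f := fun a => ‖ff S (cls p a A) ψ‖)
      (fun a _ => norm_nonneg _) (2 * s - 1)
    rw [show 2 * s - 1 + 1 = 2 * s by omega] at h2
    refine le_trans ?_ h2
    gcongr
  have hc0 : 0 < (Fintype.card S.Ψ : ℝ) := cardPsi_pos S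
  have h8 : (Fintype.card S.Ψ : ℝ) * (En k s (C.biUnion fun a => cls p a A) : ℝ) ≤
      (Fintype.card S.Ψ : ℝ) * ((C.card : ℝ) ^ (2 * s) * E) := by
    rw [hmom _ hsubA]
    calc ∑ ψ, ‖ff S (C.biUnion fun a => cls p a A) ψ‖ ^ (2 * s)
        ≤ ∑ ψ, (C.card : ℝ) ^ (2 * s - 1) * ∑ a ∈ C, ‖ff S (cls p a A) ψ‖ ^ (2 * s) :=
          sum_le_sum (fun ψ _ => hpt ψ)
      _ = (C.card : ℝ) ^ (2 * s - 1) * ∑ a ∈ C, ∑ ψ, ‖ff S (cls p a A) ψ‖ ^ (2 * s) := by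
          rw [← mul_sum, sum_comm]
      _ = (C.card : ℝ) ^ (2 * s - 1) *
            ∑ a ∈ C, (Fintype.card S.Ψ : ℝ) * (En k s (cls p a A) : ℝ) := by
          congr 1
          exact sum_congr rfl (fun a _ => (hmom _ (hcls a)).symm)
      _ ≤ (C.card : ℝ) ^ (2 * s - 1) * ∑ a ∈ C, (Fintype.card S.Ψ : ℝ) * (E : ℝ) := by
          gcongr with a ha
          exact hE a (hCp a ha)
      _ = (Fintype.card S.Ψ : ℝ) * ((C.card : ℝ) ^ (2 * s) * E) := by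
          rw [sum_const, nsmul_eq_mul]
          have : (C.card : ℝ) ^ (2 * s) = (C.card : ℝ) ^ (2 * s - 1) * C.card := by
            rw [← pow_succ]; congr 1; omega
          rw [this]; ring
  have h9 := le_of_mul_le_mul_left h8 hc0
  exact_mod_cast h9

/-- a large modulus -/
lemma exists_q' (k s : ℕ) (A : Finset ℤ) : ∃ q : ℕ, 0 < q ∧
    ∀ x ∈ tup s A, ∀ y ∈ tup s A, ∀ j, |(ps k x - ps k y) j| < (q : ℤ) := by
  obtain ⟨q, hq, h⟩ := exists_q (tup s A ×ˢ tup s A) (fun z => ps k z.1 - ps k z.2)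
  exact ⟨q, hq, fun x hx y hy j => h (x, y) (mem_product.mpr ⟨hx, hy⟩) j⟩

/-- the union of the classes given by `g` -/
def Ag (k p : ℕ) (A : Finset ℤ) (g : Fin (k - 1) → Fin p) : Finset ℤ :=
  (univ.image fun i => (g i : ℕ)).biUnion fun a => cls p a A

/-- a tuple with few classes lies in a union of few classes -/
lemma exists_g {k s p : ℕ} (hs : 1 ≤ s) (hp : 0 < p) (A : Finset ℤ) (x : Fin s → ℤ)
    (hx : x ∈ tup s A) (hn : ncl p x < k) :
    ∃ g : Fin (k - 1) → Fin p,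
      x ∈ tup s (Ag k p A g) := by
  classical
  set I : Finset ℤ := univ.image fun i => x i % (p : ℤ) with hI
  have hp' : (0 : ℤ) < p := by exact_mod_cast hp
  have hIne : I.Nonempty := ⟨x ⟨0, by omega⟩ % (p : ℤ), mem_image_of_mem _ (mem_univ _)⟩
  have hcard : I.card ≤ k - 1 := by
    have : I.card < k := hn
    omega
  have hIpos : 0 < I.card := card_pos.mpr hIne
  -- a surjection from Fin (k-1) to I
  obtain ⟨e⟩ : Nonempty (Fin I.card ≃ I) := ⟨I.equivFin.symm⟩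
  have hk1 : 0 < k - 1 := by omega
  let g0 : Fin (k - 1) → I := fun i => if h : (i : ℕ) < I.card then e ⟨i, h⟩ else e ⟨0, hIpos⟩
  have hg0 : Function.Surjective g0 := by
    intro y
    refine ⟨⟨(e.symm y : ℕ), lt_of_lt_of_le (e.symm y).2 hcard⟩, ?_⟩
    simp only [g0]
    rw [dif_pos (e.symm y).2]
    simp
  have hval : ∀ y : I, 0 ≤ (y : ℤ) ∧ (y : ℤ) < p := by
    intro y
    obtain ⟨i, _, hi⟩ := mem_image.mp y.2
    rw [← hi]
    exact ⟨Int.emod_nonneg _ hp'.ne', Int.emod_lt_of_pos _ hp'⟩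
  refine ⟨fun i => ⟨((g0 i : ℤ)).toNat, ?_⟩, ?_⟩
  · have := hval (g0 i)
    omega
  · rw [mem_tup]
    intro i
    unfold Ag
    have hxi : x i % (p : ℤ) ∈ I := mem_image_of_mem _ (mem_univ i)
    obtain ⟨l, hl⟩ := hg0 ⟨_, hxi⟩
    rw [mem_biUnion]
    refine ⟨(x i % (p : ℤ)).toNat, mem_image.mpr ⟨l, mem_univ _, ?_⟩, ?_⟩
    · show ((g0 l : ℤ)).toNat = _
      rw [hl]
    unfold cls
    rw [mem_filter]
    refine ⟨mem_tup.mp hx i, ?_⟩
    rw [Int.toNat_of_nonneg (Int.emod_nonneg _ hp'.ne')]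

lemma Ag_sub (k p : ℕ) (A : Finset ℤ) (g : Fin (k - 1) → Fin p) : Ag k p A g ⊆ A := by
  intro x hx
  unfold Ag at hx
  rw [mem_biUnion] at hx
  obtain ⟨a, _, hx⟩ := hx
  exact (mem_filter.mp hx).1

lemma final {ι : Type} [Fintype ι] (B : ι → ℕ) (N M c : ℕ) (hc : Fintype.card ι = c)
    (h1 : N ≤ ∑ g, B g) (h2 : ∀ g, (B g) ^ 2 ≤ M) : N ^ 2 ≤ c ^ 2 * M := by
  have e1 : (∑ g, B g) ^ 2 ≤ (univ : Finset ι).card * ∑ g, (B g) ^ 2 := sq_sum_le_card_mul_sum_sq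
  have e2 : ∑ g, (B g) ^ 2 ≤ ∑ _g : ι, M := sum_le_sum (fun g _ => h2 g)
  rw [sum_const, card_univ, hc, smul_eq_mul] at e2
  rw [card_univ, hc] at e1
  calc N ^ 2 ≤ (∑ g, B g) ^ 2 := Nat.pow_le_pow_left h1 2
    _ ≤ c * ∑ g, (B g) ^ 2 := e1
    _ ≤ c * (c * M) := Nat.mul_le_mul_left _ e2
    _ = c ^ 2 * M := by ring

lemma cover {γ ι : Type} [DecidableEq γ] [Fintype ι] (X : Finset γ) (t : ι → Finset γ)
    (h : ∀ z ∈ X, ∃ g, z ∈ t g) : X.card ≤ ∑ g, (t g).card := by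
  refine le_trans (card_le_card ?_) (card_biUnion_le (s := (univ : Finset ι)) (t := t))
  intro z hz
  obtain ⟨g, hg⟩ := h z hz
  rw [mem_biUnion]
  exact ⟨g, mem_univ _, hg⟩

end BA

open BA in
theorem prf_BA (h : CH) : Pool.Agent.Work.MP_a8fbd7_nt.VK.BA := by
  intro k s p E hk hs hp A hE
  obtain ⟨q, hq, hqA⟩ := exists_q' k s A
  obtain ⟨S⟩ := h k q hq
  have hB : ∀ g : Fin (k - 1) → Fin p,
      (((tup s (Ag k p A g) ×ˢ tup s A).filter fun z => ps k z.1 = ps k z.2).card) ^ 2 ≤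
        k ^ (2 * s) * E * En k s A := by
    intro g
    refine (cs S s (Ag k p A g) A (Ag_sub k p A g) hqA).trans ?_
    refine Nat.mul_le_mul_right _ ?_
    refine (union_cls S s p E hs A _ ?_ hE hqA).trans ?_
    · intro a ha
      obtain ⟨i, _, rfl⟩ := mem_image.mp ha
      exact (g i).2
    · refine Nat.mul_le_mul_right _ (Nat.pow_le_pow_left ?_ _)
      refine card_image_le.trans ?_
      rw [card_univ, Fintype.card_fin]
      omega
  have hcov : ((tup s A ×ˢ tup s A).filter fun z => ps k z.1 = ps k z.2 ∧ ncl p z.1 < k).card ≤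
      ∑ g : Fin (k - 1) → Fin p,
        ((tup s (Ag k p A g) ×ˢ tup s A).filter fun z => ps k z.1 = ps k z.2).card := by
    apply cover
    intro z hz
    rw [mem_filter, mem_product] at hz
    obtain ⟨g, hg⟩ := exists_g hs hp A z.1 hz.1.1 hz.2.2
    refine ⟨g, ?_⟩
    rw [mem_filter, mem_product]
    exact ⟨⟨hg, hz.1.2⟩, hz.2.1⟩
  have hcardG : Fintype.card (Fin (k - 1) → Fin p) = p ^ (k - 1) := by
    simp
  refine (final _ _ _ _ hcardG hcov hB).trans (le_of_eq ?_)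
  rw [← pow_mul, mul_comm (k - 1) 2]
  ring

end Pool.Agent.Work.MP_a8fbd7_nt.VK
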