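/-
Block VK (problem MP_a8fbd7_nt): statements of the items, with proofs in words.
Author: helper44.

Dependencies: every item is a closed proposition `X : Prop`; the file `I_X.lean` proves
`theorem prf_X : X`, or `theorem prf_X (h : Y) : X` if the docstring says `uses Y`.
-/
import Pool.Agent.Work.MP_a8fbd7_nt.VK.Defs

set_option autoImplicit false
set_option linter.dupNamespace false

namespace Pool.Agent.Work.MP_a8fbd7_nt.VK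

open Finset

/-! ## Part A: Vinogradov's mean value theorem with explicit constants -/

/-- ITEM CH. Characters exist. Proof: `Ψ = Fin k → ZMod q` (or `Fin k → Fin q`) and
`e ψ a = exp (2 π i (∑ j, ψ j * a j) / q)`, that is the product over `j` of
`ZMod.stdAddChar (ψ j * (a j : ZMod q))`. The sum over `ψ` is the product over `j` of
`∑ c : ZMod q, stdAddChar (c * a j)`, which is `q` if `q ∣ a j` and `0` otherwise
(`AddChar.sum_mulShift` or a geometric sum); for `|a j| < q`, `q ∣ a j` iff `a j = 0`. -/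
def CH : Prop := ∀ k q : ℕ, 0 < q → Nonempty (Chars k q)

/-- ITEM TD (translation and dilation, monotonicity).
(1) `A ⊆ B` implies `En k s A ≤ En k s B`.
(2) for `b ≠ 0`: `En k s (A.image (fun x => a + b * x)) ≤ En k s A`.
(3) for `p > 0`, `a < p`: `En k s (cls p a (ivl X)) ≤ J k s (X / p + 1)`.
Proof of (2): choose for every element `y` of the image its unique preimage `(y - a) / b`; if
`∑ (a + b x_i) ^ l = ∑ (a + b y_i) ^ l` for `l = 1..k` (and trivially for `l = 0`: both sums are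
`s`), then `∑ x_i ^ l = ∑ y_i ^ l` for `l = 1..k` by strong induction on `l` (binomial theorem: the
left side is `b ^ l ∑ x_i ^ l` plus a combination of lower power sums, the same combination on both
sides). (3): the elements of `cls p a (ivl X)` are `a + p x` with `0 ≤ x`, `p x < X`, so
`x < X / p + 1`. -/
def TD : Prop := (∀ k s : ℕ, ∀ A B : Finset ℤ, A ⊆ B → En k s A ≤ En k s B) ∧
  (∀ k s : ℕ, ∀ a b : ℤ, b ≠ 0 → ∀ A : Finset ℤ,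
    En k s (A.image fun x => a + b * x) ≤ En k s A) ∧
  (∀ k s p a X : ℕ, 0 < p → a < p → En k s (cls p a (ivl X)) ≤ J k s (X / p + 1))

/-- ITEM PO (positivity; uses CH). (1) For every `w` at most `En k s A` pairs of tuples have
difference of power sums `w`. (2) `En k (n + m) A ≤ |A| ^ (2 n) * En k m A`.
Proof. Let `q` exceed all `|entries|` of all vectors `ps x - ps y - w` and `ps x - ps y`
(`x, y ∈ tup s A`), `S : Chars k q`, `f ψ = ∑ x ∈ A, S.e ψ (pv k x)`. Then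
`card Ψ * Rn k s A w = ∑_ψ ∑_(x,y) e ψ (ps x - ps y - w) = ∑_ψ |f ψ| ^ (2 s) * conj (e ψ w)`, whose
modulus is at most `∑_ψ |f ψ| ^ (2 s) = card Ψ * En k s A` (here
`f ψ ^ s = ∑ x ∈ tup s A, e ψ (ps k x)` by `Finset.prod_univ_sum`). (2): fix the first `n`
entries of both tuples (`|A| ^ (2 n)` choices); the remaining ones have a prescribed difference of
power sums, so (1) applies. -/
def PO : Prop := (∀ k s : ℕ, ∀ A : Finset ℤ, ∀ w : Fin k → ℤ, Rn k s A w ≤ En k s A) ∧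
  (∀ k n m : ℕ, ∀ A : Finset ℤ, En k (n + m) A ≤ A.card ^ (2 * n) * En k m A)

/-- ITEM HO (Hoelder over the residue classes; uses CH). Proof. With characters as in PO,
`F ψ = ∑ x ∈ D, e ψ (ps x)` and `f ψ = ∑ x ∈ A, e ψ (pv x) = ∑_(a < p) f_a ψ`:
`card Ψ * Nn k m D A = ∑_ψ |F ψ| ^ 2 * |f ψ| ^ (2 m)` and
`|f ψ| ^ (2 m) ≤ p ^ (2 m - 1) * ∑_(a < p) |f_a ψ| ^ (2 m)` (`inner_le_nnorm_mul_nnorm` is not
needed: `inner` power mean inequality `Finset.inner_mul_le_norm_mul_norm`, or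
`inner_le_Lp_mul_Lq`; in Mathlib `inv_mul_sum_pow`: `(∑ a_i) ^ n ≤ card ^ (n - 1) * ∑ a_i ^ n`,
`inner_le...`, e.g. `inner` `pow_arith_mean_le_arith_mean_pow` or `Finset.pow_sum_le`). -/
def HO : Prop := ∀ k m p : ℕ, 0 < p → 1 ≤ m → ∀ (D : Finset (Fin k → ℤ)) (A : Finset ℤ),
  Nn k m D A ≤ p ^ (2 * m - 1) * ∑ a ∈ range p, Nn k m D (cls p a A)

/-- ITEM BA (tuples with few residue classes; uses CH). If every class has
`En k s (cls p a A) ≤ E`, then the number `B` of solutions `(x, y)` in which `x` meets fewer than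
`k` classes satisfies `B ^ 2 ≤ p ^ (2 (k - 1)) * k ^ (2 s) * E * En k s A`.
Proof. If `x` meets fewer than `k` classes then there is `g : Fin (k - 1) → Fin p` with all `x_i`
in `A_g = {x ∈ A : x mod p ∈ range g}` (for `k = 1` there is no such `x` unless `s = 0`; note `s ≥ 1`).
So `B ≤ ∑_g B_g`, `B_g` = number of solutions with `x ∈ tup s A_g`, `y ∈ tup s A`, and by
Cauchy-Schwarz over the characters `B_g ^ 2 ≤ En k s A_g * En k s A`. By the power mean inequality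
for `f_(A_g) = ∑_(a ∈ range g) f_a` one has `En k s A_g ≤ k ^ (2 s - 1) * ∑_(a ∈ range g) En (cls p a A)
≤ k ^ (2 s) E`. There are `p ^ (k - 1)` functions `g`, hence
`B ≤ p ^ (k - 1) * sqrt (k ^ (2 s) * E * En k s A)`. -/
def BA : Prop := ∀ k s p E : ℕ, 1 ≤ k → 1 ≤ s → 0 < p → ∀ A : Finset ℤ,
  (∀ a < p, En k s (cls p a A) ≤ E) →
  (((tup s A ×ˢ tup s A).filter fun z => ps k z.1 = ps k z.2 ∧ ncl p z.1 < k).card) ^ 2 ≤
    p ^ (2 * (k - 1)) * k ^ (2 * s) * E * En k s A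

/-- ITEM LN (Newton and Hensel). Two tuples with entries pairwise incongruent modulo `p > k`, with
congruent power sums of orders `1..k` modulo `p ^ k`, are equal modulo `p ^ k` up to order: there is
a permutation `σ` with `x i ≡ y (σ i)` modulo `p ^ k`.
Proof. In `R = ZMod (p ^ k)` the numbers `1, …, k` are units, so Newton's identities
(`MvPolynomial.mul_esymm_eq_sum`) show by induction that the elementary symmetric functions agree,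
hence `∏ (X - x_i) = ∏ (X - y_i)` in `R[X]` (`Multiset.prod_X_sub_C_coeff` or
`Finset.prod_X_sub...`). Evaluating at `x_i`: `∏_j (x_i - y_j) = 0` in `R`. Modulo `p` one factor
vanishes, and only one, since the `y_j` are incongruent modulo `p`; the other factors are units in `R`, so
`x_i = y_(σ i)` in `R`. `σ` is injective because the `x_i` are incongruent modulo `p`. (Only
`x` and `y` themselves, no counting, in this item.) -/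
def LN : Prop := ∀ k p : ℕ, p.Prime → k < p → ∀ x y : Fin k → ℤ,
  (∀ i j : Fin k, i ≠ j → ¬ (p : ℤ) ∣ x i - x j) → (∀ i j : Fin k, i ≠ j → ¬ (p : ℤ) ∣ y i - y j) →
  (∀ j : Fin k, (p : ℤ) ^ k ∣ ps k x j - ps k y j) →
  ∃ σ : Equiv.Perm (Fin k), ∀ i, (p : ℤ) ^ k ∣ x i - y (σ i)

/-- ITEM LI (Linnik's lemma; uses LN). Number of `k`-tuples in an interval of length `p ^ k`,
pairwise incongruent modulo `p`, with `∑ x_i ^ j ≡ w_j` modulo `p ^ j`, `j = 1..k`: at most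
`k! p ^ (k (k - 1) / 2)`.
Proof. Map `x` to the vector `(ps k x j mod p ^ k)_j`. Its `j`-th entry (order `j + 1`) lies in the
set of the residues modulo `p ^ k` which are `w_j` modulo `p ^ (j + 1)`; this set has
`p ^ (k - j - 1)` elements, and the product over `j : Fin k` is `p ^ (k (k - 1) / 2)`. Every fibre
has at most `k!` elements: by LN all its members arise from one of them by a permutation and
reduction into the interval (in an interval of length `p ^ k` congruent modulo `p ^ k` means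
equal). -/
def LI : Prop := ∀ k p : ℕ, p.Prime → k < p → ∀ (a : ℤ) (w : Fin k → ℤ),
  ((Dst k p (Finset.Ico a (a + (p : ℤ) ^ k))).filter fun x =>
    ∀ j : Fin k, (p : ℤ) ^ (j.val + 1) ∣ ps k x j - w j).card ≤
    Nat.factorial k * p ^ (k * (k - 1) / 2)

/-- ITEM MO (the congruence step; uses TD, PO, LI). For a prime `p > k` with `X ≤ p ^ k`:
`Nn k m (Dst k p (ivl X)) (cls p a (ivl X)) ≤ X ^ k * (k! p ^ (k (k - 1) / 2)) * J k m (X / p + 1)`.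
Proof. Let `((x, u), (y, v))` be counted, so `∑ x_i ^ l + ∑ u_i ^ l = ∑ y_i ^ l + ∑ v_i ^ l` for
`l = 1..k` (also `l = 0`). By the binomial theorem the same holds with all variables shifted by `-a`;
the shifted `u_i - a`, `v_i - a` are divisible by `p`, so `∑ (x_i - a) ^ l ≡ ∑ (y_i - a) ^ l` modulo
`p ^ l`. There are at most `X ^ k` tuples `y`; given `y`, the tuple `(x_i - a)_i` lies in the interval
`[-a, -a + p ^ k)`, is pairwise incongruent modulo `p`, and satisfies the congruences of LI with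
`w = ps k (y - a)`: at most `k! p ^ (k (k - 1) / 2)` choices. Given `x, y` the number of `(u, v)` is
at most `En k m (cls p a (ivl X))` by PO (1), and this is at most `J k m (X / p + 1)` by TD (3). -/
def MO : Prop := ∀ k m p X a : ℕ, p.Prime → k < p → X ≤ p ^ k → a < p →
  Nn k m (Dst k p (ivl X)) (cls p a (ivl X)) ≤
    X ^ k * (Nat.factorial k * p ^ (k * (k - 1) / 2)) * J k m (X / p + 1)

/-- ITEM GG (solutions in which both tuples meet at least `k` classes). Proof. If a tuple `x` of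
length `k + m` meets at least `k` classes modulo `p` there is a permutation `π` of `Fin (k + m)` such
that the first `k` entries of `x ∘ π` are pairwise incongruent modulo `p`. Map the solution `(x, y)`
to `(π, τ, ((x∘π first, x∘π rest), (y∘τ first, y∘τ rest)))`; this is injective, power sums are
invariant under permutations and split over first and rest (`Fin.sum_univ_add`). -/
def GG : Prop := ∀ k m p : ℕ, 0 < p → ∀ A : Finset ℤ,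
  ((tup (k + m) A ×ˢ tup (k + m) A).filter fun z =>
    ps k z.1 = ps k z.2 ∧ k ≤ ncl p z.1 ∧ k ≤ ncl p z.2).card ≤
    (Nat.factorial (k + m)) ^ 2 * Nn k m (Dst k p A) A

/-- ITEM RE (the recursion; uses TD, PO, HO, BA, MO, GG). For a prime `p > k` with `X ≤ p ^ k`,
`k, m ≥ 1`.
Proof. `A = ivl X`, `s = k + m`. The solutions counted by `J k s X` are those of GG (their number is
`G`) and those in which `x` or `y` meets fewer than `k` classes (at most `2 B`, `B` as in BA, by the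
symmetry `(x, y) ↔ (y, x)`). If `J ≤ 2 G`: use GG, HO, MO and
`p ^ (2 m - 1) * ∑_(a < p) ≤ p ^ (2 m) * max`. Otherwise `J ≤ 4 B`, `J ^ 2 ≤ 16 B ^ 2 ≤
16 p ^ (2 (k - 1)) k ^ (2 s) E J` with `E = (X / p + 1) ^ (2 k) * J k m (X / p + 1)` (TD (3) gives
`En k s (cls p a A) ≤ J k s (X / p + 1)`, and PO (2) with `n = k`). Cancel `J` (if `J = 0` nothing is
to be shown). -/
def RE : Prop := ∀ k m p X : ℕ, 1 ≤ k → 1 ≤ m → p.Prime → k < p → X ≤ p ^ k →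
  J k (k + m) X ≤
    2 * (Nat.factorial (k + m)) ^ 2 * p ^ (2 * m) *
      (X ^ k * (Nat.factorial k * p ^ (k * (k - 1) / 2)) * J k m (X / p + 1)) +
    16 * p ^ (2 * (k - 1)) * k ^ (2 * (k + m)) * ((X / p + 1) ^ (2 * k) * J k m (X / p + 1))

/-- ITEM IN (the induction; uses RE). With `m = k ^ 2 + k l`, `κ = k (k + 1) / 2`,
`δ_l = κ (1 - 1 / k) ^ l`. Induction on `l`.
`l = 0`: `J k m X ≤ X ^ (2 m)` trivially and `δ_0 = κ`.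
Step: `s = m + k = k ^ 2 + k (l + 1)`. If `X ≤ (k + 2) ^ k` then `J k s X ≤ X ^ (2 s) ≤
X ^ (2 s - κ) * (k + 2) ^ (k κ)` and `(k + 2) ^ (k κ) ≤ exp (100 k ^ 4)`. Let `X > (k + 2) ^ k`,
`n = ⌈X ^ (1 / k)⌉`, `p` a prime with `n < p ≤ 2 n` (Bertrand, `Nat.exists_prime_lt_and_le_two_mul`):
then `p > k`, `X ≤ p ^ k`, `p ≤ 4 X ^ (1 / k) ≤ X`, and `M = X / p + 1 ≤ 2 X / p` (real division).
In RE the second summand is at most `16 * 4 ^ k * k ^ (2 s) * X ^ k * p ^ (2 m + k (k - 1) / 2) *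
J k m M`, because `p ^ (2 (k - 1)) M ^ (2 k) ≤ 4 ^ k X ^ (2 k) ≤ 4 ^ k X ^ k p ^ (k ^ 2)` and
`k ^ 2 ≤ 2 m`. So `J k s X ≤ K X ^ k p ^ (2 m + k (k - 1) / 2) J k m M`,
`K = 2 (s!) ^ 2 k! + 16 * 4 ^ k * k ^ (2 s)`. Insert `J k m M ≤ exp (100 k ^ 4 (l + 1)) *
(2 X / p) ^ (2 m - κ + δ_l)` (the exponent is nonnegative): the power of `p` is
`k (k - 1) / 2 + κ - δ_l = k ^ 2 - δ_l ≥ 0` and `p ≤ 4 X ^ (1 / k)` gives
`p ^ (k ^ 2 - δ_l) ≤ 4 ^ (k ^ 2) * X ^ (k - δ_l / k)`; the total power of `X` is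
`k + 2 m - κ + δ_l + k - δ_l / k = 2 s - κ + δ_(l + 1)`. The constant: `K * 2 ^ (2 m) *
4 ^ (k ^ 2) ≤ exp (100 k ^ 4)` because `s ≤ 2 k ^ 3` (here `l < k ^ 2` is used), `s! ≤ s ^ s`,
`log s ≤ 1 + 3 log k ≤ 3 k`, so `2 s log s ≤ 12 k ^ 4`, etc. -/
def IN : Prop := ∀ k : ℕ, 2 ≤ k → ∀ l : ℕ, l ≤ k ^ 2 → ∀ X : ℕ, 1 ≤ X →
  (J k (k ^ 2 + k * l) X : ℝ) ≤ Real.exp (100 * (k : ℝ) ^ 4 * ((l : ℝ) + 1)) *
    (X : ℝ) ^ (2 * ((k : ℝ) ^ 2 + k * l) - (k : ℝ) * (k + 1) / 2 +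
      (k : ℝ) * (k + 1) / 2 * (1 - 1 / (k : ℝ)) ^ l)

/-- ITEM VM (the mean value theorem; uses IN with `l = k ^ 2`). Proof:
`(1 - 1 / k) ^ (k ^ 2) ≤ exp (-k)` (`Real.one_sub_le_exp_neg` or `1 - x ≤ exp (-x)`) and
`k (k + 1) / 2 * exp (-k) ≤ 1 / 100` for `k ≥ 20`
(e.g. `exp k ≥ k ^ 4 / 24`, `100 k (k + 1) / 2 ≤ k ^ 4 / 24` for `k ≥ 36`, or
`exp k ≥ 2 ^ k` and `50 k (k + 1) ≤ 2 ^ k` for `k ≥ 20` by induction);
`100 k ^ 4 (k ^ 2 + 1) ≤ 200 k ^ 6`. -/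
def VM : Prop := ∀ k : ℕ, 20 ≤ k → ∀ X : ℕ, 1 ≤ X →
  (J k (k ^ 3 + k ^ 2) X : ℝ) ≤ Real.exp (200 * (k : ℝ) ^ 6) *
    (X : ℝ) ^ (2 * ((k : ℝ) ^ 3 + (k : ℝ) ^ 2) - (k : ℝ) * (k + 1) / 2 + 1 / 100)

/-! ## Part B: the double sum and the sum of `n ^ (- i t)` -/

/-- ITEM DB (the double sum; uses PO (1)). Proof. Write `g u = ∑_(v < Y) ee (∑ α_j u ^ j v ^ j)`
(`j` = order `1..k`), `σ(v) = ∑_(i ≤ s) pv v_i - ∑_(i > s) pv v_i` for pairs of `s`-tuples; then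
`|g u| ^ (2 s) = ∑_v ee (∑ α_j u ^ j σ_j(v))` and by Hoelder (power mean)
`|T| ^ (2 s) ≤ Y ^ (2 s - 1) ∑_u |g u| ^ (2 s) ≤ Y ^ (2 s - 1) ∑_v |U (σ(v))|`,
`U(λ) = ∑_(u < Y) ee (∑ α_j λ_j u ^ j)`. Again by Hoelder (there are `Y ^ (2 s)` pairs `v`)
`(∑_v |U (σ(v))|) ^ (2 s) ≤ Y ^ (2 s (2 s - 1)) ∑_v |U (σ(v))| ^ (2 s)` and
`∑_v |U (σ(v))| ^ (2 s) ≤ J k s Y * ∑_λ |U(λ)| ^ (2 s)` by PO (1), `λ` over the integer vectors with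
`|λ_j| ≤ s Y ^ j` (all `σ(v)` are such). Expanding once more,
`∑_λ |U(λ)| ^ (2 s) = ∑_u ∑_λ ee (∑ α_j λ_j σ_j(u)) ≤ ∑_u ∏_j |∑_(|l| ≤ s Y ^ j) ee (α_j l σ_j(u))|
≤ J k s Y * ∑_μ ∏_j |∑_l ee (α_j l μ_j)| = J k s Y * ∏_j W (s Y ^ j) (α_j)`. Powers of `Y`:
`2 s (2 s - 1) + 2 s (2 s - 1) = 8 s ^ 2 - 4 s`. -/
def DB : Prop := ∀ k s Y : ℕ, 1 ≤ s → 1 ≤ Y → ∀ α : Fin k → ℝ,
  ‖T k Y α‖ ^ (4 * s ^ 2) ≤ (Y : ℝ) ^ (8 * s ^ 2 - 4 * s) * (J k s Y : ℝ) ^ 2 *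
    ∏ j : Fin k, W (s * Y ^ (j.val + 1)) (α j)

/-- ITEM WB (bounds for `W`). (1) trivial; (2) for `0 < |a| ≤ 1`, `H ≥ 1`.
Proof of (2), `a > 0` without loss. The inner sum is geometric: its modulus is at most `2 H + 1`
and at most `1 / (2 ‖a μ‖)` (`‖.‖` = distance to the nearest integer;
`|sin (π θ)| ≥ 2 ‖θ‖`). Let `Δ = min (sqrt a) (1 / sqrt H) / 2 ≤ 1 / 2`. The number of `μ` with
`|μ| ≤ H` and `‖a μ‖ < Δ` is at most `(2 H a + 2) (2 Δ / a + 1)` (for each integer `n` with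
`|n| ≤ H a + 1 / 2` the `μ` with `|a μ - n| < Δ` lie in an interval of length `2 Δ / a`). So
`W ≤ (2 H + 1) ((2 H a + 2) (2 Δ / a + 1) + 1 / (2 Δ))
≤ 3 H (4 H Δ + 2 H a + 4 Δ / a + 2 + 1 / (2 Δ))
≤ 3 H (2 sqrt H + 2 H a + 2 / sqrt a + 2 + 1 / sqrt a + sqrt H)`. -/
def WB : Prop := (∀ (H : ℕ) (a : ℝ), W H a ≤ (2 * (H : ℝ) + 1) ^ 2) ∧
  ∀ (H : ℕ) (a : ℝ), 1 ≤ H → a ≠ 0 → |a| ≤ 1 →
    W H a ≤ 100 * (H : ℝ) ^ 2 * (1 / Real.sqrt H + |a| + 1 / (H * Real.sqrt |a|))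

/-- ITEM SH (shift by `u v` and Taylor). Proof. Put `a(n) = n ^ (- i t) = exp (- i t log n)`. For
`x = u v < Y ^ 2`, the sums of `a(n)` and of `a(n + x)` over `N < n ≤ N'` differ by at most `2 x`
terms of modulus one. Averaging over `u, v < Y`:
`Y ^ 2 |zs N N' t| ≤ ∑_n |∑_(u, v) a(n + u v)| + 2 Y ^ 4`. Moreover
`log (n + x) = log n - ∑_(j = 1..k) (-1) ^ j (x / n) ^ j / j + R`, `|R| ≤ 2 (x / n) ^ (k + 1)`
(`Real.abs_log_sub_add_sum_range_le` at `- x / n`, `x / n ≤ 1 / 2`), so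
`|a(n + x) - a(n) ee (∑ al_j x ^ j)| ≤ 2 |t| (Y ^ 2 / N) ^ (k + 1)`, with `al` from `Defs`
(`- t * (-(-1) ^ j / j) n ^ (-j) = 2 π al_j`). Hence
`|∑_(u, v) a(n + u v)| ≤ |T k Y (al k t n)| + 2 Y ^ 2 |t| (Y ^ 2 / N) ^ (k + 1)`; divide by `Y ^ 2`
and use that there are at most `N` values of `n`. -/
def SH : Prop := ∀ (k Y N N' : ℕ) (t : ℝ), 1 ≤ Y → 2 * Y ^ 2 ≤ N → N ≤ N' → N' ≤ 2 * N →
  ‖zs N N' t‖ ≤ (∑ n ∈ Ioc N N', ‖T k Y (al k t n)‖) / (Y : ℝ) ^ 2 +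
    2 * N * |t| * ((Y : ℝ) ^ 2 / N) ^ (k + 1) + 2 * (Y : ℝ) ^ 2

/-- ITEM GA (one good index; uses WB). `N ≥ 8`, `N ^ (1 / 2) ≤ t ≤ N ^ K`, `k = 5 K + 15`, `Y = ⌊N ^ (2/5)⌋`,
`N < n ≤ 2 N`, `s ≥ 1`. Then the product of the `W (s Y ^ j) (al_j)` is at most
`(2400 s ^ 2) ^ k * Y ^ (k (k + 1)) * N ^ (- 1/20)`.
Proof. Let `κ = log t / log N ∈ [1/2, K]` and `j = ⌈κ + 1/20⌉`, so `1 ≤ j ≤ K + 2 ≤ k` and
`κ + 1/20 ≤ j < κ + 21/20`. Let `a = |al_j| = t / (2 π j n ^ j)`: `a ≤ N ^ (κ - j) ≤ N ^ (-1/20)` and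
`a ≥ N ^ (κ - j) / (2 π j 2 ^ j) ≥ N ^ (κ - j) / 16 ^ j` (as `2 π j ≤ 8 ^ j`). Put `H = s Y ^ j`;
`Y ≥ N ^ (2/5) / 2` so `H ≥ Y ^ j ≥ N ^ (2 j / 5) / 2 ^ j`. Then
`1 / sqrt H ≤ 2 ^ j N ^ (- j / 5) ≤ 2 ^ j N ^ (-1/5)` and
`1 / (H sqrt a) ≤ 2 ^ j 4 ^ j N ^ (- 2 j / 5 - (κ - j) / 2) = 8 ^ j N ^ (- (κ - j / 5) / 2)` with
`κ - j / 5 ≥ 4 κ / 5 - 21 / 100 ≥ 19 / 100`, hence it is at most `8 ^ j N ^ (-19/200)
≤ 8 ^ j N ^ (-1/20)`. So by WB (2)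
`W H a ≤ 100 H ^ 2 * 3 * 8 ^ j * N ^ (-1/20) ≤ 300 * 8 ^ k * s ^ 2 * Y ^ (2 j) * N ^ (-1/20)`.
For the other indices WB (1): `W (s Y ^ i) _ ≤ (3 s Y ^ i) ^ 2`. Multiply:
`∏ Y ^ (2 i) = Y ^ (k (k + 1))`, constants `9 ^ (k - 1) * 300 * 8 ^ k ≤ 2400 ^ k`. -/
def GA : Prop := ∀ (K N n s : ℕ) (t : ℝ), 1 ≤ K → 8 ≤ N → N < n → n ≤ 2 * N → 1 ≤ s →
  Real.sqrt N ≤ t → t ≤ (N : ℝ) ^ K →
  ∏ j : Fin (5 * K + 15), W (s * ⌊(N : ℝ) ^ ((2 : ℝ) / 5)⌋₊ ^ (j.val + 1))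
      (al (5 * K + 15) t n j) ≤
    (2400 * (s : ℝ) ^ 2) ^ (5 * K + 15) *
      ((⌊(N : ℝ) ^ ((2 : ℝ) / 5)⌋₊ : ℕ) : ℝ) ^ ((5 * K + 15) * (5 * K + 16)) *
      (N : ℝ) ^ (-(1 / 20 : ℝ))

/-- ITEM EX (VK2, the exponential sum; uses VM, DB, SH, GA). There are absolute constants `A, C₀`.
Proof. `k = 5 K + 15 ≥ 20`, `s = k ^ 3 + k ^ 2`, `Y = ⌊N ^ (2/5)⌋`. By DB, VM and GA, for
`N < n ≤ 2 N`:
`|T| ^ (4 s ^ 2) ≤ Y ^ (8 s ^ 2 - 4 s) * exp (400 k ^ 6) * Y ^ (4 s - k (k + 1) + 1/50) *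
(2400 s ^ 2) ^ k * Y ^ (k (k + 1)) * N ^ (-1/20) = exp (400 k ^ 6) (2400 s ^ 2) ^ k *
Y ^ (8 s ^ 2) * Y ^ (1/50) * N ^ (-1/20)`, and `Y ^ (1/50) ≤ N ^ (1/125)`, so
`|T| ≤ Y ^ 2 * C₁ * N ^ (- 1 / (100 s ^ 2))`, `C₁ = (exp (400 k ^ 6) (2400 s ^ 2) ^ k) ^ (1 / (4 s ^ 2))
≤ exp 200` say (`4 s ^ 2 ≥ 4 k ^ 6`); any bound `exp (c k ^ 7)` is enough here. By SH
`|zs| ≤ N C₁ N ^ (-1 / (100 s ^ 2)) + 2 N t (Y ^ 2 / N) ^ (k + 1) + 2 Y ^ 2`, where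
`t (Y ^ 2 / N) ^ (k + 1) ≤ N ^ (K - (5 K + 16) / 5) ≤ N ^ (-3)` and `Y ^ 2 ≤ N ^ (4/5)`. Finally
`100 s ^ 2 ≤ 400 k ^ 6 ≤ 400 * 20 ^ 6 * K ^ 6`. SH needs `2 Y ^ 2 ≤ N`, true for `N ≥ 32`
(`2 N ^ (4/5) ≤ N`); for `N < 32` the trivial bound `|zs| ≤ N` is enough by the choice of `C₀`
(`N ^ (1 / (A K ^ 6)) ≤ 32 ≤ exp C₀`). -/
def EX : Prop := ∃ A C₀ : ℝ, 1 ≤ A ∧ 1 ≤ C₀ ∧ ∀ (K N N' : ℕ) (t : ℝ), 1 ≤ K → 1 ≤ N → N ≤ N' →
  N' ≤ 2 * N → Real.sqrt N ≤ t → t ≤ (N : ℝ) ^ K →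
  ‖zs N N' t‖ ≤ Real.exp (C₀ * (K : ℝ) ^ 7) * (N : ℝ) ^ (1 - 1 / (A * (K : ℝ) ^ 6))

/-! ## Part C: the zeta function near the line one -/

/-- ITEM AP (approximation; from `zeta₁_approx` of `Work/MP_37bd4f_nt/ZetaApprox.lean`, and
`riemannZeta₁ s = (s - 1) * riemannZeta s` for `s ≠ 1` (`riemannZeta_eq_inv_sub_mul`)): divide by
`s - 1` and use `|X ^ (1 - s)| = X ^ (1 - Re s)`. -/
def AP : Prop := ∀ (s : ℂ) (X : ℕ), 0 < s.re → s ≠ 1 → 1 ≤ X →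
  ‖riemannZeta s - ∑ n ∈ Icc 1 X, (n : ℂ) ^ (-s)‖ ≤
    (X : ℝ) ^ (1 - s.re) / ‖s - 1‖ + ‖s‖ * ((X : ℝ) ^ (-s.re) / s.re)

/-- ITEM AB (Abel summation). If all the sums `zs N M t`, `N ≤ M ≤ N'`, have modulus at most `G`,
then for `σ ≥ 0`, `N ≥ 1` the sum of `n ^ (- σ - i t)` over `N < n ≤ N'` has modulus at most
`N ^ (- σ) G`. The same bound holds for `- t` (conjugation). Proof: the weights `n ^ (- σ)` are
nonnegative and nonincreasing; Abel summation gives at most `(N + 1) ^ (- σ) G`. -/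
def AB : Prop := ∀ (N N' : ℕ) (s : ℂ) (G : ℝ), 1 ≤ N → N ≤ N' → 0 ≤ s.re →
  (∀ M, N ≤ M → M ≤ N' → ‖zs N M |s.im|‖ ≤ G) →
  ‖∑ n ∈ Ioc N N', (n : ℂ) ^ (-s)‖ ≤ (N : ℝ) ^ (-s.re) * G

/-- ITEM GR (growth of zeta; uses EX, AP, AB). For every `B` there is `T₀` with
`|ζ(s)| ≤ (log |t|) ^ 3` for `|t| ≥ T₀`, `Re s ≥ 1 - B (loglog |t|) ^ 2 / log |t|`.
Proof. Write `t` for `|t|`, `L = log t`, `ℓ = log L`, `θ = B ℓ ^ 2 / L`, `σ = Re s`. If `σ ≥ 2`,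
`|ζ| ≤ ζ(2) ≤ 2`. Let `1 - θ ≤ σ ≤ 2`, `T₀` so large that `θ ≤ 1/8`. AP with `X = ⌈t ^ 2⌉`:
the error is at most `X ^ (1 - σ) / t + 2 (t + 2) X ^ (- σ) ≤ 10`. Let `K = ⌈B ℓ⌉`,
`P = ⌈exp (L / K)⌉` (so `P ^ K ≥ t`, `P ≤ 2 exp (L / K)`).
Terms `n ≤ P`: `∑ n ^ (- σ) ≤ P ^ θ ∑ 1 / n ≤ 2 exp (θ L / K) (2 + L) ≤ 2 L (2 + L)`, because
`θ L / K ≤ B ℓ ^ 2 / (B ℓ) = ℓ`.
Terms `P < n ≤ X`: split into blocks `(N, N']`, `N = 2 ^ i P`, `N' = min (2 N) X`, at most `4 L` of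
them. In each `t ≤ P ^ K ≤ N ^ K`, and `sqrt N ≤ t` because `N < X = ⌈t ^ 2⌉` and `N` is an
integer. By EX and AB the block is at most
`N ^ (1 - σ) exp (C₀ K ^ 7) N ^ (- 1 / (A K ^ 6)) ≤ exp (3 θ L + C₀ K ^ 7 - (L / K) / (A K ^ 6))
= exp (3 B ℓ ^ 2 + C₀ K ^ 7 - L / (A K ^ 7)) ≤ 1` for large `t`, since `K ≤ B ℓ + 1`. So this part
is at most `4 L`. Total `≤ 10 + 2 L (2 + L) + 4 L ≤ L ^ 3` for large `t`. -/
def GR : Prop := ∀ B : ℝ, 1 ≤ B → ∃ T₀ : ℝ, 3 ≤ T₀ ∧ ∀ s : ℂ, T₀ ≤ |s.im| →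
  1 - B * (Real.log (Real.log |s.im|)) ^ 2 / Real.log |s.im| ≤ s.re →
  ‖riemannZeta s‖ ≤ (Real.log |s.im|) ^ 3

/-- ITEM LA (Landau's local lemma, for entire functions). Let `f` be entire, `f c ≠ 0`,
`|f z| ≤ exp M * |f c|` on the closed disc of radius `r` about `c`, and let `f` have no zero with
`Re z ≥ Re c` in this disc. (1) `- Re (f'/f)(c) ≤ 2 M / r`. (2) If moreover `f (c - d) = 0` with
`0 < d < r`, then `- Re (f'/f)(c) ≤ 2 M / r - 1 / d + d / r ^ 2`.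
Proof. `exists_fac` (in `Work/MP_37bd4f_nt/Factor.lean`) with `K` the closed disc:
`f = ∏_(ρ ∈ Z) (s - ρ) * g`, `g` entire without zeros in the closed disc, all `ρ ∈ Z` in the closed
disc. Put `G(s) = ∏_ρ ((r ^ 2 - conj (ρ - c) (s - c)) / r) * g(s)`: entire, `|G| = |f|` on the circle
`|s - c| = r` (see the proof of `count_zeros`), so `|G| ≤ exp M |f c|` on the disc (`max_ball`), and
`|G c| = r ^ |Z| |g c| ≥ |f c|`. `G` has no zero in the open disc (the zeros of the new factors are the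
reflections of `ρ`, outside or on the circle). By `exists_log`, `G = G(c) exp F`, `F c = 0`,
`Re F ≤ M` (one may replace `M` by `M + η`, `η > 0`, to have it positive), and Borel-Caratheodory
(`Complex.borelCaratheodory_zero`) gives `|F(z)| ≤ 2 M |z - c| / (r - |z - c|)`, so
`|F'(c)| = |G'/G (c)| ≤ 2 M / r`. Logarithmic derivative at `c`, with `w = c - ρ`, `0 < Re w`,
`|w| ≤ r`: `f'/f (c) = G'/G (c) + ∑_ρ (1 / w - conj w / r ^ 2)` and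
`Re (1 / w - conj w / r ^ 2) = Re w (1 / |w| ^ 2 - 1 / r ^ 2) ≥ 0`; for `ρ = c - d` the term is
`1 / d - d / r ^ 2`. -/
def LA : Prop := ∀ (f : ℂ → ℂ) (c : ℂ) (r M : ℝ), Differentiable ℂ f → f c ≠ 0 → 0 < r → 0 ≤ M →
  (∀ z, ‖z - c‖ ≤ r → ‖f z‖ ≤ Real.exp M * ‖f c‖) →
  (∀ z, ‖z - c‖ ≤ r → c.re ≤ z.re → f z ≠ 0) →
  (-(deriv f c / f c).re ≤ 2 * M / r) ∧
  ∀ d : ℝ, 0 < d → d < r → f (c - (d : ℂ)) = 0 →
    -(deriv f c / f c).re ≤ 2 * M / r - 1 / d + d / r ^ 2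

/-- ITEM TF (three four one). For `σ > 1` and real `t`. Proof: `- ζ'/ζ (s) = ∑ Λ(n) n ^ (- s)`
(`ArithmeticFunction.LSeries_vonMangoldt_eq_deriv_riemannZeta_div`) and
`3 + 4 cos x + cos 2 x = 2 (1 + cos x) ^ 2 ≥ 0` with `x = t log n`. -/
def TF : Prop := ∀ σ t : ℝ, 1 < σ →
  0 ≤ 3 * (-(deriv riemannZeta (σ : ℂ) / riemannZeta (σ : ℂ))).re +
    4 * (-(deriv riemannZeta (σ + t * Complex.I) / riemannZeta (σ + t * Complex.I))).re +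
    (-(deriv riemannZeta (σ + 2 * t * Complex.I) / riemannZeta (σ + 2 * t * Complex.I))).re

/-- ITEM PZ (near the pole, lower bound, and `ζ₁`). (1) There is `C` with
`- Re (ζ'/ζ)(σ) ≤ 1 / (σ - 1) + C` for `1 < σ ≤ 2`: on `[1, 2]` the function
`ζ₁ = riemannZeta₁` (entire, `ζ₁(s) = (s - 1) ζ(s)`) does not vanish, so `ζ₁'/ζ₁` is bounded there,
and `ζ'/ζ = ζ₁'/ζ₁ - 1 / (s - 1)`. (2) For `1 < σ ≤ 2` and all `t`:
`|ζ(σ + i t)| ≥ (σ - 1) / 2`: `1 / ζ(s) = ∑ μ(n) n ^ (- s)`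
(`ArithmeticFunction.LSeries_zeta_mul_Lseries_moebius`), so
`|1 / ζ(s)| ≤ ∑ n ^ (- σ) = ζ(σ) ≤ 1 + 1 / (σ - 1) ≤ 2 / (σ - 1)`.
(3) For `s ≠ 1` with `ζ(s) ≠ 0`: `(ζ₁'/ζ₁)(s) = (ζ'/ζ)(s) + 1 / (s - 1)`. -/
def PZ : Prop := (∃ C : ℝ, ∀ σ : ℝ, 1 < σ → σ ≤ 2 →
    (-(deriv riemannZeta (σ : ℂ) / riemannZeta (σ : ℂ))).re ≤ 1 / (σ - 1) + C) ∧
  (∀ σ t : ℝ, 1 < σ → σ ≤ 2 → (σ - 1) / 2 ≤ ‖riemannZeta (σ + t * Complex.I)‖) ∧
  (∀ s : ℂ, s ≠ 1 → riemannZeta s ≠ 0 →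
    deriv riemannZeta₁ s / riemannZeta₁ s = deriv riemannZeta s / riemannZeta s + 1 / (s - 1))

/-- ITEM LG (local bounds at height `γ`; uses GR, LA, PZ). For every `B ≥ 1` there is `T₀` such that
for `|γ| ≥ T₀`, `L = log |γ|`, `ℓ = log L`, `r = B ℓ ^ 2 / (4 L)`, and every `σ` with
`1 + 1 / L ≤ σ ≤ 1 + r`:
(1) `- Re (ζ'/ζ)(σ + i γ) ≤ 10 ℓ / r + 1` and the same at `σ + 2 i γ`;
(2) if `ζ(β + i γ) = 0` with `σ - r < β < 1`, then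
`- Re (ζ'/ζ)(σ + i γ) ≤ 10 ℓ / r + 1 - 1 / (σ - β) + (σ - β) / r ^ 2`.
Proof. LA for `f = riemannZeta₁`, `c = σ + i γ` (or `σ + 2 i γ`): zeros of `ζ₁` have real part `< 1`
(`riemannZeta_ne_zero_of_one_le_re`). On the disc `|z - c| ≤ r ≤ 1`: `Re z ≥ σ - r ≥ 1 - r` and
`|γ| - 1 ≤ |Im z| ≤ 2 |γ| + 1`; since `log (2 |γ| + 1) ≤ 2 L` and
`log (log (|γ| - 1)) ^ 2 ≥ ℓ ^ 2 / 2` for large `|γ|`,
`B (loglog |Im z|) ^ 2 / log |Im z| ≥ B ℓ ^ 2 / (4 L) = r`, so GR gives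
`|ζ(z)| ≤ (log |Im z|) ^ 3 ≤ 8 L ^ 3`. Also `|z - 1| ≤ |c - 1| + 1 ≤ 2 |c - 1|` and
`|ζ(c)| ≥ (σ - 1) / 2 ≥ 1 / (2 L)` (PZ (2); `σ ≤ 2`), so `|ζ₁ z| ≤ 32 L ^ 4 |ζ₁ c| ≤ exp (5 ℓ) |ζ₁ c|`
for large `|γ|`: `M = 5 ℓ`, `2 M / r = 10 ℓ / r`. Pass from `ζ₁'/ζ₁` to `ζ'/ζ` by PZ (3):
`|1 / (c - 1)| ≤ 1`. -/
def LG : Prop := ∀ B : ℝ, 1 ≤ B → ∃ T₀ : ℝ, 3 ≤ T₀ ∧ ∀ γ σ : ℝ, T₀ ≤ |γ| →
  1 + 1 / Real.log |γ| ≤ σ →
  σ ≤ 1 + B * (Real.log (Real.log |γ|)) ^ 2 / (4 * Real.log |γ|) →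
  ((-(deriv riemannZeta (σ + γ * Complex.I) / riemannZeta (σ + γ * Complex.I))).re ≤
      10 * Real.log (Real.log |γ|) / (B * (Real.log (Real.log |γ|)) ^ 2 / (4 * Real.log |γ|)) + 1 ∧
    (-(deriv riemannZeta (σ + 2 * γ * Complex.I) / riemannZeta (σ + 2 * γ * Complex.I))).re ≤
      10 * Real.log (Real.log |γ|) / (B * (Real.log (Real.log |γ|)) ^ 2 / (4 * Real.log |γ|)) + 1) ∧
  ∀ β : ℝ, β < 1 → σ - B * (Real.log (Real.log |γ|)) ^ 2 / (4 * Real.log |γ|) < β →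
    riemannZeta (β + γ * Complex.I) = 0 →
    (-(deriv riemannZeta (σ + γ * Complex.I) / riemannZeta (σ + γ * Complex.I))).re ≤
      10 * Real.log (Real.log |γ|) / (B * (Real.log (Real.log |γ|)) ^ 2 / (4 * Real.log |γ|)) + 1 -
        1 / (σ - β) + (σ - β) / (B * (Real.log (Real.log |γ|)) ^ 2 / (4 * Real.log |γ|)) ^ 2

/-- ITEM VK (VK1, the zero-free region; uses TF, PZ (1), LG). For every `C` there is `T₀` such that
`ζ(s) ≠ 0` for `|t| ≥ T₀`, `Re s ≥ 1 - C loglog |t| / log |t|`.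
Proof. `C ≥ 1` without loss. Let `η = C ℓ / L`, `B = 10 ^ 4 C`, `r = B ℓ ^ 2 / (4 L)`,
`σ = 1 + 6 η` (so `1 + 1 / L ≤ σ ≤ 1 + r` for large `|t|`). Suppose `ζ(β + i γ) = 0`, `β ≥ 1 - η`;
`β < 1`. Then `σ - β ≤ 7 η < r`. TF, PZ (1) and LG give
`0 ≤ 3 / (6 η) + 3 C' + 4 (10 ℓ / r + 1 - 1 / (7 η) + 7 η / r ^ 2) + 10 ℓ / r + 1`, that is
`4 / (7 η) - 1 / (2 η) = 1 / (14 η) ≤ 50 ℓ / r + 28 η / r ^ 2 + 3 C' + 5`. Here
`50 ℓ / r = 200 L / (B ℓ) = (200 C / B) / η = 1 / (50 η)`, and `28 η / r ^ 2 + 3 C' + 5 ≤ 1 / (50 η)`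
for large `|t|` (`η → 0`, `η ^ 2 / r ^ 2 → 0`). `1 / 14 > 1 / 25`, contradiction. -/
def VK : Prop := ∀ C : ℝ, ∃ T₀ : ℝ, 3 ≤ T₀ ∧ ∀ s : ℂ, T₀ ≤ |s.im| →
  1 - C * Real.log (Real.log |s.im|) / Real.log |s.im| ≤ s.re → riemannZeta s ≠ 0

/-- ITEM V3 (VK3, the logarithmic derivative; uses GR, PZ, VK). Proof. Write `t = s.im`,
`L = log |t|`, `ℓ = log L`, `η = C ℓ / L`. VK with `16 C`, at the heights between `|t| - 1` and
`2 |t| + 1`, shows (as in LG: `log (2 |t| + 1) ≤ 2 L`, `loglog (|t| - 1) ≥ ℓ / 2`) that `ζ` has no zero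
with `Re z ≥ 1 - 4 η`. Let `1 - η ≤ Re s ≤ 1 + 2 η`, `c = 1 + η + i t`, `R = 4 η`; on the ball of centre `c`
and radius `R` write `ζ = ζ(c) exp F`, `F c = 0` (`exists_log`), `Re F ≤ M = 5 ℓ` by GR (with
`B = 1`: `3 η ≤ ℓ ^ 2 / (4 L)` for large `|t|`) and PZ (2). Borel-Caratheodory
(`Complex.borelCaratheodory_zero`): `|F| ≤ 6 M` on `|z - c| ≤ 3 η`, and Cauchy's estimate on the
circle of radius `η` about `s`: `|ζ'/ζ (s)| = |F'(s)| ≤ 6 M / η ≤ 30 L`. For `Re s ≥ 1 + 2 η`: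
`|ζ'/ζ (s)| ≤ ∑ Λ(n) n ^ (- σ)`, which is nonincreasing in `σ` and at most `1 / (σ - 1) + C''` for
`σ ≤ 2` (PZ (1), `LSeries_vonMangoldt`). -/
def V3 : Prop := ∀ C : ℝ, 1 ≤ C → ∃ C' T₀ : ℝ, 1 ≤ C' ∧ 3 ≤ T₀ ∧ ∀ s : ℂ, T₀ ≤ |s.im| →
  1 - C * Real.log (Real.log |s.im|) / Real.log |s.im| ≤ s.re →
  riemannZeta s ≠ 0 ∧
    ‖deriv riemannZeta s / riemannZeta s‖ ≤ C' * (Real.log |s.im|) ^ 2

end Pool.Agent.Work.MP_a8fbd7_nt.VK
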