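/-
Block VK (problem MP_a8fbd7_nt), item CH: finite families of characters of ℤ ^ k.
-/
import Pool.Agent.Work.MP_a8fbd7_nt.VK.Stmts

set_option autoImplicit false
set_option linter.dupNamespace false

namespace Pool.Agent.Work.MP_a8fbd7_nt.VK

open Finset

namespace CHa

/-- The characters. -/
noncomputable def chr (k q : ℕ) [NeZero q] (ψ : Fin k → ZMod q) (a : Fin k → ℤ) : ℂ :=
  ∏ j, ZMod.stdAddChar (ψ j * ((a j : ℤ) : ZMod q))

theorem chr_zero (k q : ℕ) [NeZero q] (ψ : Fin k → ZMod q) : chr k q ψ 0 = 1 := by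
  unfold chr
  simp

theorem chr_add (k q : ℕ) [NeZero q] (ψ : Fin k → ZMod q) (a b : Fin k → ℤ) :
    chr k q ψ (a + b) = chr k q ψ a * chr k q ψ b := by
  unfold chr
  rw [← Finset.prod_mul_distrib]
  refine Finset.prod_congr rfl fun j _ => ?_
  rw [← AddChar.map_add_eq_mul]
  congr 1
  rw [Pi.add_apply, Int.cast_add, mul_add]

theorem chr_neg (k q : ℕ) [NeZero q] (ψ : Fin k → ZMod q) (a : Fin k → ℤ) :
    chr k q ψ (-a) = (starRingEnd ℂ) (chr k q ψ a) := by
  unfold chr
  rw [map_prod]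
  refine Finset.prod_congr rfl fun j _ => ?_
  rw [← AddChar.map_neg_eq_conj]
  congr 1
  rw [Pi.neg_apply, Int.cast_neg, mul_neg]

theorem chr_norm (k q : ℕ) [NeZero q] (ψ : Fin k → ZMod q) (a : Fin k → ℤ) :
    ‖chr k q ψ a‖ = 1 := by
  unfold chr
  rw [norm_prod]
  refine Finset.prod_eq_one fun j _ => ?_
  exact AddChar.norm_apply _ _

theorem cast_eq_zero (q : ℕ) (x : ℤ) (hx : |x| < (q : ℤ)) : ((x : ℤ) : ZMod q) = 0 ↔ x = 0 := by
  constructor
  · intro h
    rw [ZMod.intCast_zmod_eq_zero_iff_dvd] at h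
    exact Int.eq_zero_of_abs_lt_dvd h hx
  · intro h
    rw [h, Int.cast_zero]

theorem chr_orth (k q : ℕ) [NeZero q] (a : Fin k → ℤ) (ha : ∀ j, |a j| < (q : ℤ)) :
    (∑ ψ : Fin k → ZMod q, chr k q ψ a) =
      if a = 0 then (Fintype.card (Fin k → ZMod q) : ℂ) else 0 := by
  classical
  have h1 : (∑ ψ : Fin k → ZMod q, chr k q ψ a) =
      ∏ j : Fin k, ∑ c : ZMod q, ZMod.stdAddChar (c * ((a j : ℤ) : ZMod q)) := by
    rw [Finset.prod_univ_sum, Fintype.piFinset_univ]
    rfl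
  rw [h1]
  have h2 : ∀ j : Fin k, (∑ c : ZMod q, ZMod.stdAddChar (c * ((a j : ℤ) : ZMod q))) =
      if a j = 0 then (q : ℂ) else 0 := by
    intro j
    rw [AddChar.sum_mulShift _ (ZMod.isPrimitive_stdAddChar q)]
    by_cases h : a j = 0
    · simp [h]
    · rw [if_neg h, if_neg (fun h' => h ((cast_eq_zero q (a j) (ha j)).1 h'))]
      simp
  rw [Finset.prod_congr rfl fun j _ => h2 j]
  by_cases h : a = 0
  · rw [if_pos h]
    rw [Finset.prod_congr rfl fun j _ => if_pos (by rw [h]; rfl)]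
    simp
  · rw [if_neg h]
    obtain ⟨j, hj⟩ := Function.ne_iff.1 h
    exact Finset.prod_eq_zero (Finset.mem_univ j) (if_neg hj)

end CHa

theorem prf_CH : CH := by
  intro k q hq
  haveI : NeZero q := ⟨hq.ne'⟩
  exact ⟨{ Ψ := Fin k → ZMod q
           fin := inferInstance
           ne := ⟨0⟩
           e := CHa.chr k q
           e_zero := CHa.chr_zero k q
           e_add := CHa.chr_add k q
           e_neg := CHa.chr_neg k q
           e_norm := CHa.chr_norm k q
           orth := fun a ha => CHa.chr_orth k q a ha }⟩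

end Pool.Agent.Work.MP_a8fbd7_nt.VK
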