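/-
Block VK (problem MP_a8fbd7_nt), item DB: the double sum.  Statement: helper44.  Proof: helper57.
-/
import Pool.Agent.Work.MP_a8fbd7_nt.VK.Stmts

set_option autoImplicit false

namespace Pool.Agent.Work.MP_a8fbd7_nt.VK

open Finset

namespace DB_aux

lemma ee_add (x y : ℝ) : ee (x + y) = ee x * ee y := by
  unfold ee
  rw [← Complex.exp_add]
  congr 1
  push_cast
  ring

lemma ee_zero : ee 0 = 1 := by
  unfold ee
  simp

lemma ee_neg (x : ℝ) : ee (-x) = (starRingEnd ℂ) (ee x) := by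
  unfold ee
  rw [← Complex.exp_conj]
  congr 1
  simp only [map_mul, Complex.conj_ofReal, Complex.conj_I, map_ofNat]
  push_cast
  ring

lemma norm_ee (x : ℝ) : ‖ee x‖ = 1 := by
  unfold ee
  have h : (2 * Real.pi * Complex.I * (x : ℂ) : ℂ) = ((2 * Real.pi * x : ℝ) : ℂ) * Complex.I := by
    push_cast
    ring
  rw [h, Complex.norm_exp_ofReal_mul_I]

lemma ee_sum {ι : Type} (t : Finset ι) (f : ι → ℝ) : ee (∑ i ∈ t, f i) = ∏ i ∈ t, ee (f i) := by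
  classical
  induction t using Finset.induction_on with
  | empty => simp [ee_zero]
  | insert a t ha ih => rw [Finset.sum_insert ha, Finset.prod_insert ha, ee_add, ih]

/-- The sum over `v < Y` of `ee (∑ β_j v ^ j)`. -/
noncomputable def G (k Y : ℕ) (β : Fin k → ℝ) : ℂ :=
  ∑ v ∈ range Y, ee (∑ j : Fin k, β j * (v : ℝ) ^ (j.val + 1))

/-- The phase of the integer vector `a`. -/
noncomputable def ph {k : ℕ} (β : Fin k → ℝ) (a : Fin k → ℤ) : ℝ := ∑ j, β j * ((a j : ℤ) : ℝ)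

lemma ph_add {k : ℕ} (β : Fin k → ℝ) (a b : Fin k → ℤ) : ph β (a + b) = ph β a + ph β b := by
  unfold ph
  rw [← Finset.sum_add_distrib]
  refine Finset.sum_congr rfl fun j _ => ?_
  rw [Pi.add_apply]
  push_cast
  ring

lemma ph_neg {k : ℕ} (β : Fin k → ℝ) (a : Fin k → ℤ) : ph β (-a) = -ph β a := by
  unfold ph
  rw [← Finset.sum_neg_distrib]
  refine Finset.sum_congr rfl fun j _ => ?_
  rw [Pi.neg_apply]
  push_cast
  ring

lemma ph_sum {k : ℕ} (β : Fin k → ℝ) {ι : Type} (t : Finset ι) (f : ι → Fin k → ℤ) :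
    ph β (∑ i ∈ t, f i) = ∑ i ∈ t, ph β (f i) := by
  classical
  induction t using Finset.induction_on with
  | empty => simp [ph]
  | insert a t ha ih => rw [Finset.sum_insert ha, Finset.sum_insert ha, ph_add, ih]

lemma G_eq (k Y : ℕ) (β : Fin k → ℝ) : G k Y β = ∑ x ∈ ivl Y, ee (ph β (pv k x)) := by
  unfold G ivl ph pv
  refine Finset.sum_nbij' (fun v : ℕ => (v : ℤ)) (fun x : ℤ => x.toNat) ?_ ?_ ?_ ?_ ?_
  · intro v hv
    rw [Finset.mem_range] at hv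
    rw [Finset.mem_Ico]
    constructor <;> omega
  · intro x hx
    rw [Finset.mem_Ico] at hx
    rw [Finset.mem_range]
    omega
  · intro v _
    simp
  · intro x hx
    rw [Finset.mem_Ico] at hx
    exact Int.toNat_of_nonneg hx.1
  · intro v _
    congr 1
    refine Finset.sum_congr rfl fun j _ => ?_
    push_cast
    rfl

lemma G_pow (k Y s : ℕ) (β : Fin k → ℝ) :
    G k Y β ^ s = ∑ x ∈ tup s (ivl Y), ee (ph β (ps k x)) := by
  have h := Finset.prod_univ_sum (fun _ : Fin s => ivl Y) (fun _ x => ee (ph β (pv k x)))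
  rw [Finset.prod_const, Finset.card_univ, Fintype.card_fin] at h
  rw [G_eq, h, tup]
  refine Finset.sum_congr rfl fun x _ => ?_
  unfold ps
  rw [ph_sum, ee_sum]

/-- `|G| ^ (2 s)` as a sum over pairs of tuples. -/
lemma norm_G_pow (k Y s : ℕ) (β : Fin k → ℝ) :
    ((‖G k Y β‖ ^ (2 * s) : ℝ) : ℂ) =
      ∑ z ∈ tup s (ivl Y) ×ˢ tup s (ivl Y), ee (ph β (ps k z.1 - ps k z.2)) := by
  have h1 : ((‖G k Y β‖ ^ (2 * s) : ℝ) : ℂ) = G k Y β ^ s * (starRingEnd ℂ) (G k Y β ^ s) := by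
    rw [Complex.mul_conj, Complex.normSq_eq_norm_sq, norm_pow, ← pow_mul, mul_comm s 2]
  rw [h1, G_pow, map_sum, Finset.sum_mul_sum, Finset.sum_product]
  refine Finset.sum_congr rfl fun x _ => Finset.sum_congr rfl fun y _ => ?_
  rw [sub_eq_add_neg, ph_add, ph_neg, ee_add, ee_neg]

/-- the box of the differences of power sums -/
noncomputable def Box (k s Y : ℕ) : Finset (Fin k → ℤ) :=
  Fintype.piFinset fun j : Fin k =>
    Icc (-((s * Y ^ (j.val + 1) : ℕ) : ℤ)) ((s * Y ^ (j.val + 1) : ℕ) : ℤ)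

lemma ps_bound (k s Y : ℕ) (x : Fin s → ℤ) (hx : x ∈ tup s (ivl Y)) (j : Fin k) :
    0 ≤ ps k x j ∧ ps k x j ≤ ((s * Y ^ (j.val + 1) : ℕ) : ℤ) := by
  rw [tup, Fintype.mem_piFinset] at hx
  unfold ps
  rw [Finset.sum_apply]
  constructor
  · refine Finset.sum_nonneg fun i _ => ?_
    have := hx i
    rw [ivl, Finset.mem_Ico] at this
    exact pow_nonneg this.1 _
  · have h : ∀ i ∈ (Finset.univ : Finset (Fin s)), pv k (x i) j ≤ ((Y ^ (j.val + 1) : ℕ) : ℤ) := by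
      intro i _
      have := hx i
      rw [ivl, Finset.mem_Ico] at this
      unfold pv
      push_cast
      exact pow_le_pow_left₀ this.1 this.2.le _
    refine (Finset.sum_le_card_nsmul _ _ _ h).trans (le_of_eq ?_)
    rw [Finset.card_univ, Fintype.card_fin, nsmul_eq_mul]
    push_cast
    rfl

lemma mem_Box (k s Y : ℕ) (z : (Fin s → ℤ) × (Fin s → ℤ))
    (hz : z ∈ tup s (ivl Y) ×ˢ tup s (ivl Y)) : ps k z.1 - ps k z.2 ∈ Box k s Y := by
  rw [Finset.mem_product] at hz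
  rw [Box, Fintype.mem_piFinset]
  intro j
  have h1 := ps_bound k s Y z.1 hz.1 j
  have h2 := ps_bound k s Y z.2 hz.2 j
  rw [Finset.mem_Icc, Pi.sub_apply]
  constructor <;> linarith [h1.1, h1.2, h2.1, h2.2]

/-- passing from the differences of power sums to all vectors of the box -/
lemma sum_le_box (h : PO) (k s Y : ℕ) (f : (Fin k → ℤ) → ℝ) (hf : ∀ a, 0 ≤ f a) :
    ∑ z ∈ tup s (ivl Y) ×ˢ tup s (ivl Y), f (ps k z.1 - ps k z.2) ≤
      (J k s Y : ℝ) * ∑ a ∈ Box k s Y, f a := by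
  classical
  rw [← Finset.sum_fiberwise_of_maps_to (g := fun z => ps k z.1 - ps k z.2)
    (fun z hz => mem_Box k s Y z hz), Finset.mul_sum]
  refine Finset.sum_le_sum fun a _ => ?_
  have h1 : ∑ z ∈ (tup s (ivl Y) ×ˢ tup s (ivl Y)).filter (fun z => ps k z.1 - ps k z.2 = a),
      f (ps k z.1 - ps k z.2) =
      ((Rn k s (ivl Y) a : ℕ) : ℝ) * f a := by
    have h2 : ∀ z ∈ (tup s (ivl Y) ×ˢ tup s (ivl Y)).filter (fun z => ps k z.1 - ps k z.2 = a),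
        f (ps k z.1 - ps k z.2) = f a := by
      intro z hz
      rw [(Finset.mem_filter.1 hz).2]
    rw [Finset.sum_congr rfl h2, Finset.sum_const, nsmul_eq_mul]
    congr 3
    refine Finset.filter_congr fun z _ => ?_
    rw [sub_eq_iff_eq_add, add_comm]
  rw [h1]
  refine mul_le_mul_of_nonneg_right ?_ (hf a)
  exact_mod_cast h.1 k s (ivl Y) a

/-- the power mean inequality -/
lemma power_mean {ι : Type} (t : Finset ι) (f : ι → ℝ) (hf : ∀ i ∈ t, 0 ≤ f i) (n : ℕ)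
    (hn : 1 ≤ n) : (∑ i ∈ t, f i) ^ n ≤ (t.card : ℝ) ^ (n - 1) * ∑ i ∈ t, f i ^ n := by
  obtain ⟨m, rfl⟩ : ∃ m, n = m + 1 := ⟨n - 1, by omega⟩
  rw [Nat.add_sub_cancel]
  exact pow_sum_le_card_mul_sum_pow hf m

lemma card_tup (s Y : ℕ) : (tup s (ivl Y)).card = Y ^ s := by
  rw [tup, Fintype.card_piFinset, Finset.prod_const, Finset.card_univ, Fintype.card_fin, ivl,
    Int.card_Ico]
  simp

lemma T_eq (k Y : ℕ) (α : Fin k → ℝ) :
    T k Y α = ∑ u ∈ range Y, G k Y (fun j => α j * (u : ℝ) ^ (j.val + 1)) := by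
  unfold T G
  refine Finset.sum_congr rfl fun u _ => Finset.sum_congr rfl fun v _ => ?_
  congr 1
  refine Finset.sum_congr rfl fun j _ => ?_
  rw [mul_pow]
  ring

/-- `U(λ) = G(α λ)`, summed over `u`. -/
lemma sum_G (k Y s : ℕ) (α : Fin k → ℝ) :
    ∑ u ∈ range Y, ‖G k Y (fun j => α j * (u : ℝ) ^ (j.val + 1))‖ ^ (2 * s) ≤
      ∑ z ∈ tup s (ivl Y) ×ˢ tup s (ivl Y),
        ‖G k Y (fun j => α j * (((ps k z.1 - ps k z.2) j : ℤ) : ℝ))‖ := by
  have h1 : ((∑ u ∈ range Y, ‖G k Y (fun j => α j * (u : ℝ) ^ (j.val + 1))‖ ^ (2 * s) : ℝ) : ℂ) =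
      ∑ z ∈ tup s (ivl Y) ×ˢ tup s (ivl Y),
        G k Y (fun j => α j * (((ps k z.1 - ps k z.2) j : ℤ) : ℝ)) := by
    rw [Complex.ofReal_sum]
    simp only [norm_G_pow]
    rw [Finset.sum_comm]
    refine Finset.sum_congr rfl fun z _ => ?_
    unfold G ph
    refine Finset.sum_congr rfl fun u _ => ?_
    congr 1
    refine Finset.sum_congr rfl fun j _ => ?_
    ring
  have h2 : ‖((∑ u ∈ range Y, ‖G k Y (fun j => α j * (u : ℝ) ^ (j.val + 1))‖ ^ (2 * s) : ℝ) : ℂ)‖ =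
      ∑ u ∈ range Y, ‖G k Y (fun j => α j * (u : ℝ) ^ (j.val + 1))‖ ^ (2 * s) := by
    rw [Complex.norm_real, Real.norm_of_nonneg]
    positivity
  rw [← h2, h1]
  exact norm_sum_le _ _

/-- the inner sum of `W` -/
noncomputable def inn (H : ℕ) (a : ℝ) (m : ℤ) : ℂ :=
  ∑ l ∈ Icc (-(H : ℤ)) (H : ℤ), ee (a * l * m)

lemma W_eq (H : ℕ) (a : ℝ) : W H a = ∑ m ∈ Icc (-(H : ℤ)) (H : ℤ), ‖inn H a m‖ := rfl

lemma box_sum (k s Y : ℕ) (α : Fin k → ℝ) (c : Fin k → ℤ) :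
    ∑ a ∈ Box k s Y, ee (ph (fun j => α j * ((a j : ℤ) : ℝ)) c) =
      ∏ j : Fin k, inn (s * Y ^ (j.val + 1)) (α j) (c j) := by
  unfold inn
  rw [Finset.prod_univ_sum]
  unfold Box
  refine Finset.sum_congr rfl fun a _ => ?_
  unfold ph
  rw [ee_sum]

lemma box_norm (k s Y : ℕ) (α : Fin k → ℝ) :
    ∑ a ∈ Box k s Y, ∏ j : Fin k, ‖inn (s * Y ^ (j.val + 1)) (α j) (a j)‖ =
      ∏ j : Fin k, W (s * Y ^ (j.val + 1)) (α j) := by
  simp only [W_eq]
  rw [Finset.prod_univ_sum]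
  rfl

/-- the sum over the box of the `2 s`-th powers -/
lemma sum_box (h : PO) (k Y s : ℕ) (α : Fin k → ℝ) :
    ∑ a ∈ Box k s Y, ‖G k Y (fun j => α j * ((a j : ℤ) : ℝ))‖ ^ (2 * s) ≤
      (J k s Y : ℝ) * ∏ j : Fin k, W (s * Y ^ (j.val + 1)) (α j) := by
  have h1 : ((∑ a ∈ Box k s Y, ‖G k Y (fun j => α j * ((a j : ℤ) : ℝ))‖ ^ (2 * s) : ℝ) : ℂ) =
      ∑ z ∈ tup s (ivl Y) ×ˢ tup s (ivl Y), ∏ j : Fin k,
        inn (s * Y ^ (j.val + 1)) (α j) ((ps k z.1 - ps k z.2) j) := by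
    rw [Complex.ofReal_sum]
    simp only [norm_G_pow]
    rw [Finset.sum_comm]
    exact Finset.sum_congr rfl fun z _ => box_sum k s Y α _
  have h2 : ‖((∑ a ∈ Box k s Y, ‖G k Y (fun j => α j * ((a j : ℤ) : ℝ))‖ ^ (2 * s) : ℝ) : ℂ)‖ =
      ∑ a ∈ Box k s Y, ‖G k Y (fun j => α j * ((a j : ℤ) : ℝ))‖ ^ (2 * s) := by
    rw [Complex.norm_real, Real.norm_of_nonneg]
    positivity
  rw [← h2, h1]
  refine (norm_sum_le _ _).trans ?_
  simp only [norm_prod]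
  have h3 := sum_le_box h k s Y
    (fun a : Fin k → ℤ => ∏ j : Fin k, ‖inn (s * Y ^ (j.val + 1)) (α j) (a j)‖)
    (fun a => Finset.prod_nonneg fun j _ => norm_nonneg _)
  rw [box_norm] at h3
  exact h3

end DB_aux

open DB_aux in
theorem prf_DB (h : PO) : DB := by
  intro k s Y hs hY α
  set A := tup s (ivl Y) ×ˢ tup s (ivl Y) with hA
  set V : (Fin s → ℤ) × (Fin s → ℤ) → ℝ := fun z =>
    ‖G k Y (fun j => α j * (((ps k z.1 - ps k z.2) j : ℤ) : ℝ))‖ with hV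
  have hY0 : (0 : ℝ) ≤ (Y : ℝ) := Nat.cast_nonneg _
  have hcard : (A.card : ℝ) = (Y : ℝ) ^ (2 * s) := by
    rw [hA, Finset.card_product, card_tup]
    push_cast
    ring
  -- first Hoelder
  have h1 : ‖T k Y α‖ ^ (2 * s) ≤ (Y : ℝ) ^ (2 * s - 1) * ∑ z ∈ A, V z := by
    rw [T_eq]
    have h2 := power_mean (range Y)
      (fun u : ℕ => ‖G k Y (fun j => α j * (u : ℝ) ^ (j.val + 1))‖) (fun _ _ => norm_nonneg _)
      (2 * s) (by omega)
    rw [Finset.card_range] at h2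
    calc ‖∑ u ∈ range Y, G k Y (fun j => α j * (u : ℝ) ^ (j.val + 1))‖ ^ (2 * s)
        ≤ (∑ u ∈ range Y, ‖G k Y (fun j => α j * (u : ℝ) ^ (j.val + 1))‖) ^ (2 * s) :=
          pow_le_pow_left₀ (norm_nonneg _) (norm_sum_le _ _) _
      _ ≤ _ := h2
      _ ≤ _ := mul_le_mul_of_nonneg_left (sum_G k Y s α) (pow_nonneg hY0 _)
  -- second Hoelder
  have h3 : (∑ z ∈ A, V z) ^ (2 * s) ≤ ((Y : ℝ) ^ (2 * s)) ^ (2 * s - 1) *
      ((J k s Y : ℝ) * ((J k s Y : ℝ) * ∏ j : Fin k, W (s * Y ^ (j.val + 1)) (α j))) := by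
    have h4 := power_mean A V (fun _ _ => norm_nonneg _) (2 * s) (by omega)
    rw [hcard] at h4
    refine h4.trans (mul_le_mul_of_nonneg_left ?_ (by positivity))
    refine (sum_le_box h k s Y
      (fun a => ‖G k Y (fun j => α j * ((a j : ℤ) : ℝ))‖ ^ (2 * s)) (fun a => by positivity)).trans ?_
    exact mul_le_mul_of_nonneg_left (sum_box h k Y s α) (Nat.cast_nonneg _)
  have hW : 0 ≤ ∏ j : Fin k, W (s * Y ^ (j.val + 1)) (α j) := by
    refine Finset.prod_nonneg fun j _ => ?_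
    unfold W
    exact Finset.sum_nonneg fun _ _ => norm_nonneg _
  obtain ⟨r, rfl⟩ : ∃ r, s = r + 1 := ⟨s - 1, by omega⟩
  have e1 : 4 * (r + 1) ^ 2 = (2 * (r + 1)) * (2 * (r + 1)) := by ring
  have e2 : 8 * (r + 1) ^ 2 - 4 * (r + 1) =
      (2 * (r + 1) - 1) * (2 * (r + 1)) + 2 * (r + 1) * (2 * (r + 1) - 1) := by
    have : 2 * (r + 1) - 1 = 2 * r + 1 := by omega
    rw [this]
    have h5 : 8 * (r + 1) ^ 2 =
      ((2 * r + 1) * (2 * (r + 1)) + 2 * (r + 1) * (2 * r + 1)) + 4 * (r + 1) := by ring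
    omega
  calc ‖T k Y α‖ ^ (4 * (r + 1) ^ 2) = (‖T k Y α‖ ^ (2 * (r + 1))) ^ (2 * (r + 1)) := by
        rw [e1, pow_mul]
    _ ≤ ((Y : ℝ) ^ (2 * (r + 1) - 1) * ∑ z ∈ A, V z) ^ (2 * (r + 1)) :=
        pow_le_pow_left₀ (by positivity) h1 _
    _ = ((Y : ℝ) ^ (2 * (r + 1) - 1)) ^ (2 * (r + 1)) * (∑ z ∈ A, V z) ^ (2 * (r + 1)) := by
        rw [mul_pow]
    _ ≤ ((Y : ℝ) ^ (2 * (r + 1) - 1)) ^ (2 * (r + 1)) * (((Y : ℝ) ^ (2 * (r + 1))) ^ (2 * (r + 1) - 1) *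
        ((J k (r + 1) Y : ℝ) * ((J k (r + 1) Y : ℝ) *
          ∏ j : Fin k, W ((r + 1) * Y ^ (j.val + 1)) (α j)))) :=
        mul_le_mul_of_nonneg_left h3 (by positivity)
    _ = _ := by
        rw [e2, pow_add, ← pow_mul, ← pow_mul]
        ring

end Pool.Agent.Work.MP_a8fbd7_nt.VK
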