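/-
Block VK (problem MP_a8fbd7_nt), item EX: the exponential sum.  Author: helper30.
-/
import Pool.Agent.Work.MP_a8fbd7_nt.VK.Stmts

set_option autoImplicit false

namespace Pool.Agent.Work.MP_a8fbd7_nt.VK

open Finset

namespace EX

/-- the `4 s ^ 2`-th root -/
lemma root_bound (k s : ℕ) (Y N J P X : ℝ) (hk : 20 ≤ k) (hs : s = k ^ 3 + k ^ 2) (hY : 1 ≤ Y)
    (hN : 1 ≤ N) (hYN : Y ≤ N ^ ((2 : ℝ) / 5)) (hJ0 : 0 ≤ J)
    (hJ : J ≤ Real.exp (200 * (k : ℝ) ^ 6) *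
      Y ^ (2 * ((k : ℝ) ^ 3 + (k : ℝ) ^ 2) - (k : ℝ) * (k + 1) / 2 + 1 / 100))
    (hP : P ≤ (2400 * (s : ℝ) ^ 2) ^ k * Y ^ (k * (k + 1)) * N ^ (-(1 / 20 : ℝ)))
    (hX0 : 0 ≤ X) (hX : X ^ (4 * s ^ 2) ≤ Y ^ (8 * s ^ 2 - 4 * s) * J ^ 2 * P) :
    X ≤ Y ^ 2 * Real.exp (100 + 600 * k) * N ^ (-(1 / (100 * (s : ℝ) ^ 2))) := by
  have hY0 : 0 < Y := by linarith
  have hN0 : 0 < N := by linarith
  have hkR : (20 : ℝ) ≤ k := by exact_mod_cast hk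
  have hs1 : 1 ≤ s := by rw [hs]; have : 1 ≤ k ^ 2 := Nat.one_le_pow _ _ (by omega); omega
  have hsR : (1 : ℝ) ≤ s := by exact_mod_cast hs1
  have hsk : (s : ℝ) = (k : ℝ) ^ 3 + (k : ℝ) ^ 2 := by rw [hs]; push_cast; ring
  have hs2 : (k : ℝ) ^ 6 ≤ (s : ℝ) ^ 2 := by
    rw [hsk]
    have : 0 ≤ (k : ℝ) ^ 2 := by positivity
    have h3 : 0 ≤ (k : ℝ) ^ 3 := by positivity
    nlinarith
  have hne : 4 * s ^ 2 ≠ 0 := by positivity
  -- the square of the mean value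
  have hJ2 : J ^ 2 ≤ Real.exp (400 * (k : ℝ) ^ 6) *
      Y ^ (4 * (s : ℝ) - (k : ℝ) * (k + 1) + 1 / 50) := by
    refine (pow_le_pow_left₀ hJ0 hJ 2).trans (le_of_eq ?_)
    rw [mul_pow, ← Real.exp_nat_mul, ← Real.rpow_natCast (Y ^ _) 2, ← Real.rpow_mul hY0.le]
    congr 1
    · congr 1; push_cast; ring
    · congr 1; rw [hsk]; push_cast; ring
  have hQ0 : 0 ≤ (2400 * (s : ℝ) ^ 2) ^ k * Y ^ (k * (k + 1)) * N ^ (-(1 / 20 : ℝ)) := by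
    positivity
  have h1 : Y ^ (8 * s ^ 2 - 4 * s) * J ^ 2 * P ≤
      Y ^ (8 * s ^ 2 - 4 * s) * (Real.exp (400 * (k : ℝ) ^ 6) *
      Y ^ (4 * (s : ℝ) - (k : ℝ) * (k + 1) + 1 / 50)) *
      ((2400 * (s : ℝ) ^ 2) ^ k * Y ^ (k * (k + 1)) * N ^ (-(1 / 20 : ℝ))) := by
    have a1 : Y ^ (8 * s ^ 2 - 4 * s) * J ^ 2 * P ≤ Y ^ (8 * s ^ 2 - 4 * s) * J ^ 2 *
        ((2400 * (s : ℝ) ^ 2) ^ k * Y ^ (k * (k + 1)) * N ^ (-(1 / 20 : ℝ))) :=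
      mul_le_mul_of_nonneg_left hP (by positivity)
    refine a1.trans (mul_le_mul_of_nonneg_right ?_ hQ0)
    exact mul_le_mul_of_nonneg_left hJ2 (by positivity)
  -- collect the powers of `Y`
  have h48 : 4 * s ≤ 8 * s ^ 2 := by nlinarith
  have h2 : Y ^ (8 * s ^ 2 - 4 * s) * Y ^ (4 * (s : ℝ) - (k : ℝ) * (k + 1) + 1 / 50) *
      Y ^ (k * (k + 1)) = Y ^ (8 * s ^ 2) * Y ^ ((1 : ℝ) / 50) := by
    rw [← Real.rpow_natCast Y (8 * s ^ 2 - 4 * s), ← Real.rpow_natCast Y (k * (k + 1)),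
      ← Real.rpow_natCast Y (8 * s ^ 2), ← Real.rpow_add hY0, ← Real.rpow_add hY0,
      ← Real.rpow_add hY0]
    congr 1
    rw [Nat.cast_sub h48]
    push_cast
    ring
  have h3 : Y ^ ((1 : ℝ) / 50) ≤ N ^ ((1 : ℝ) / 125) := by
    calc Y ^ ((1 : ℝ) / 50) ≤ (N ^ ((2 : ℝ) / 5)) ^ ((1 : ℝ) / 50) :=
          Real.rpow_le_rpow hY0.le hYN (by norm_num)
      _ = N ^ ((1 : ℝ) / 125) := by
          rw [← Real.rpow_mul hN0.le]; norm_num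
  have h4 : N ^ ((1 : ℝ) / 125) * N ^ (-(1 / 20 : ℝ)) ≤ N ^ (-(1 / 25 : ℝ)) := by
    rw [← Real.rpow_add hN0]
    exact Real.rpow_le_rpow_of_exponent_le hN (by norm_num)
  have h5 : (2400 * (s : ℝ) ^ 2) ^ k ≤ Real.exp (2400 * (s : ℝ) ^ 2 * k) := by
    have b1 : 2400 * (s : ℝ) ^ 2 ≤ Real.exp (2400 * (s : ℝ) ^ 2) := by
      have := Real.add_one_le_exp (2400 * (s : ℝ) ^ 2)
      linarith
    calc (2400 * (s : ℝ) ^ 2) ^ k ≤ (Real.exp (2400 * (s : ℝ) ^ 2)) ^ k :=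
          pow_le_pow_left₀ (by positivity) b1 k
      _ = Real.exp (2400 * (s : ℝ) ^ 2 * k) := by
          rw [← Real.exp_nat_mul]; congr 1; ring
  have h6 : Real.exp (400 * (k : ℝ) ^ 6) * (2400 * (s : ℝ) ^ 2) ^ k ≤
      Real.exp (100 + 600 * k) ^ (4 * s ^ 2) := by
    calc Real.exp (400 * (k : ℝ) ^ 6) * (2400 * (s : ℝ) ^ 2) ^ k ≤
          Real.exp (400 * (k : ℝ) ^ 6) * Real.exp (2400 * (s : ℝ) ^ 2 * k) :=
          mul_le_mul_of_nonneg_left h5 (by positivity)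
      _ = Real.exp (400 * (k : ℝ) ^ 6 + 2400 * (s : ℝ) ^ 2 * k) := by rw [← Real.exp_add]
      _ ≤ Real.exp (((4 * s ^ 2 : ℕ) : ℝ) * (100 + 600 * k)) := by
          apply Real.exp_le_exp.mpr
          push_cast
          nlinarith
      _ = _ := by rw [Real.exp_nat_mul]
  -- the right-hand side to the power `4 s ^ 2`
  have h7 : (Y ^ 2 * Real.exp (100 + 600 * k) * N ^ (-(1 / (100 * (s : ℝ) ^ 2)))) ^ (4 * s ^ 2) =
      Y ^ (8 * s ^ 2) * Real.exp (100 + 600 * k) ^ (4 * s ^ 2) * N ^ (-(1 / 25 : ℝ)) := by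
    rw [mul_pow, mul_pow, ← pow_mul]
    congr 1
    · congr 2; ring
    · rw [← Real.rpow_natCast (N ^ _) (4 * s ^ 2), ← Real.rpow_mul hN0.le]
      congr 1
      push_cast
      field_simp
      norm_num
  have h8 : X ^ (4 * s ^ 2) ≤
      (Y ^ 2 * Real.exp (100 + 600 * k) * N ^ (-(1 / (100 * (s : ℝ) ^ 2)))) ^ (4 * s ^ 2) := by
    rw [h7]
    calc X ^ (4 * s ^ 2) ≤ Y ^ (8 * s ^ 2 - 4 * s) * (Real.exp (400 * (k : ℝ) ^ 6) *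
          Y ^ (4 * (s : ℝ) - (k : ℝ) * (k + 1) + 1 / 50)) *
          ((2400 * (s : ℝ) ^ 2) ^ k * Y ^ (k * (k + 1)) * N ^ (-(1 / 20 : ℝ))) := hX.trans h1
      _ = (Real.exp (400 * (k : ℝ) ^ 6) * (2400 * (s : ℝ) ^ 2) ^ k) *
          (Y ^ (8 * s ^ 2 - 4 * s) * Y ^ (4 * (s : ℝ) - (k : ℝ) * (k + 1) + 1 / 50) *
          Y ^ (k * (k + 1))) * N ^ (-(1 / 20 : ℝ)) := by ring
      _ = (Real.exp (400 * (k : ℝ) ^ 6) * (2400 * (s : ℝ) ^ 2) ^ k) *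
          Y ^ (8 * s ^ 2) * (Y ^ ((1 : ℝ) / 50) * N ^ (-(1 / 20 : ℝ))) := by rw [h2]; ring
      _ ≤ (Real.exp (400 * (k : ℝ) ^ 6) * (2400 * (s : ℝ) ^ 2) ^ k) *
          Y ^ (8 * s ^ 2) * (N ^ ((1 : ℝ) / 125) * N ^ (-(1 / 20 : ℝ))) := by
          refine mul_le_mul_of_nonneg_left ?_ (by positivity)
          exact mul_le_mul_of_nonneg_right h3 (by positivity)
      _ ≤ (Real.exp (400 * (k : ℝ) ^ 6) * (2400 * (s : ℝ) ^ 2) ^ k) *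
          Y ^ (8 * s ^ 2) * N ^ (-(1 / 25 : ℝ)) :=
          mul_le_mul_of_nonneg_left h4 (by positivity)
      _ ≤ Real.exp (100 + 600 * k) ^ (4 * s ^ 2) *
          Y ^ (8 * s ^ 2) * N ^ (-(1 / 25 : ℝ)) := by
          refine mul_le_mul_of_nonneg_right (mul_le_mul_of_nonneg_right h6 (by positivity)) ?_
          positivity
      _ = _ := by ring
  exact (pow_le_pow_iff_left₀ hX0 (by positivity) hne).mp h8

/-- the double sum -/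
lemma T_bound (h1 : VM) (h2 : DB) (h4 : GA) (K N n : ℕ) (t : ℝ) (hK : 1 ≤ K) (hN : 32 ≤ N)
    (hn1 : N < n) (hn2 : n ≤ 2 * N) (ht1 : Real.sqrt N ≤ t) (ht2 : t ≤ (N : ℝ) ^ K)
    (hY1 : 1 ≤ ⌊(N : ℝ) ^ ((2 : ℝ) / 5)⌋₊) :
    ‖T (5 * K + 15) ⌊(N : ℝ) ^ ((2 : ℝ) / 5)⌋₊ (al (5 * K + 15) t n)‖ ≤
      ((⌊(N : ℝ) ^ ((2 : ℝ) / 5)⌋₊ : ℕ) : ℝ) ^ 2 *
        Real.exp (100 + 600 * ((5 * K + 15 : ℕ) : ℝ)) *
        (N : ℝ) ^ (-(1 / (100 * (((5 * K + 15) ^ 3 + (5 * K + 15) ^ 2 : ℕ) : ℝ) ^ 2))) := by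
  have hs1 : 1 ≤ (5 * K + 15) ^ 3 + (5 * K + 15) ^ 2 := by
    have : 1 ≤ (5 * K + 15) ^ 2 := Nat.one_le_pow _ _ (by omega)
    omega
  have hN1 : (1 : ℝ) ≤ N := by exact_mod_cast (by omega : 1 ≤ N)
  refine root_bound (5 * K + 15) ((5 * K + 15) ^ 3 + (5 * K + 15) ^ 2) _ _
    (J (5 * K + 15) ((5 * K + 15) ^ 3 + (5 * K + 15) ^ 2) ⌊(N : ℝ) ^ ((2 : ℝ) / 5)⌋₊ : ℝ)
    _ _ (by omega) rfl (by exact_mod_cast hY1) hN1 (Nat.floor_le (by positivity))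
    (Nat.cast_nonneg _) ?_ ?_ (norm_nonneg _)
    (h2 (5 * K + 15) ((5 * K + 15) ^ 3 + (5 * K + 15) ^ 2) _ hs1 hY1 (al (5 * K + 15) t n))
  · exact h1 (5 * K + 15) (by omega) _ hY1
  · exact h4 K N n ((5 * K + 15) ^ 3 + (5 * K + 15) ^ 2) t hK (by omega) hn1 hn2 hs1 ht1 ht2

lemma norm_zs_le (N N' : ℕ) (t : ℝ) (hNN : N ≤ N') : ‖zs N N' t‖ ≤ (N' : ℝ) - N := by
  unfold zs
  refine (norm_sum_le _ _).trans ?_
  have : ∀ n ∈ Ioc N N', ‖(n : ℂ) ^ (-((t : ℂ) * Complex.I))‖ ≤ 1 := by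
    intro n hn
    rw [mem_Ioc] at hn
    have hn0 : 0 < n := by omega
    rw [Complex.norm_natCast_cpow_of_pos hn0]
    simp
  refine (sum_le_card_nsmul _ _ _ this).trans ?_
  rw [Nat.card_Ioc, nsmul_eq_mul, mul_one, Nat.cast_sub hNN]

end EX

theorem prf_EX (h1 : VM) (h2 : DB) (h3 : SH) (h4 : GA) : EX := by
  refine ⟨25600000000, 12102, by norm_num, by norm_num, ?_⟩
  intro K N N' t hK hN hNN hN2 ht1 ht2
  have hKR : (1 : ℝ) ≤ K := by exact_mod_cast hK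
  have hNR : (1 : ℝ) ≤ N := by exact_mod_cast hN
  have hN0 : (0 : ℝ) < N := by linarith
  have hK6 : (1 : ℝ) ≤ (K : ℝ) ^ 6 := one_le_pow₀ hKR
  have hK7 : (K : ℝ) ≤ (K : ℝ) ^ 7 := le_self_pow₀ hKR (by norm_num)
  have hδ : 1 / (25600000000 * (K : ℝ) ^ 6) ≤ 1 := by
    rw [div_le_one (by positivity)]
    nlinarith
  have hcount : (N' : ℝ) - N ≤ N := by
    have : (N' : ℝ) ≤ 2 * N := by exact_mod_cast hN2
    linarith
  rcases Nat.lt_or_ge N 32 with hlt | hge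
  · -- few terms
    have a1 : ‖zs N N' t‖ ≤ 32 := by
      have b1 := EX.norm_zs_le N N' t hNN
      have b2 : (N : ℝ) ≤ 32 := by exact_mod_cast hlt.le
      linarith
    have a2 : (1 : ℝ) ≤ (N : ℝ) ^ (1 - 1 / (25600000000 * (K : ℝ) ^ 6)) :=
      Real.one_le_rpow hNR (by linarith)
    have a3 : (32 : ℝ) ≤ Real.exp (12102 * (K : ℝ) ^ 7) := by
      have := Real.add_one_le_exp (12102 * (K : ℝ) ^ 7)
      have h7 : (1 : ℝ) ≤ (K : ℝ) ^ 7 := one_le_pow₀ hKR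
      linarith
    calc ‖zs N N' t‖ ≤ 32 * 1 := by linarith
      _ ≤ _ := mul_le_mul a3 a2 (by norm_num) (by positivity)
  · set Y : ℕ := ⌊(N : ℝ) ^ ((2 : ℝ) / 5)⌋₊ with hYdef
    set s : ℕ := (5 * K + 15) ^ 3 + (5 * K + 15) ^ 2 with hsdef
    have hYle : (Y : ℝ) ≤ (N : ℝ) ^ ((2 : ℝ) / 5) := Nat.floor_le (by positivity)
    have hY1 : 1 ≤ Y := by
      rw [hYdef]
      apply Nat.le_floor
      rw [Nat.cast_one]
      exact Real.one_le_rpow hNR (by norm_num)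
    have hY0 : (0 : ℝ) < Y := by exact_mod_cast hY1
    have hY2 : (Y : ℝ) ^ 2 ≤ (N : ℝ) ^ ((4 : ℝ) / 5) := by
      calc (Y : ℝ) ^ 2 ≤ ((N : ℝ) ^ ((2 : ℝ) / 5)) ^ 2 := pow_le_pow_left₀ hY0.le hYle 2
        _ = (N : ℝ) ^ ((4 : ℝ) / 5) := by
          rw [← Real.rpow_natCast, ← Real.rpow_mul hN0.le]; norm_num
    have h25 : (2 : ℝ) ≤ (N : ℝ) ^ ((1 : ℝ) / 5) := by
      have b1 : (32 : ℝ) ≤ N := by exact_mod_cast hge
      calc (2 : ℝ) = (32 : ℝ) ^ ((1 : ℝ) / 5) := by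
            rw [show (32 : ℝ) = 2 ^ (5 : ℝ) by norm_num, ← Real.rpow_mul (by norm_num)]
            norm_num
        _ ≤ _ := Real.rpow_le_rpow (by norm_num) b1 (by norm_num)
    have hNsplit : (N : ℝ) ^ ((4 : ℝ) / 5) * (N : ℝ) ^ ((1 : ℝ) / 5) = N := by
      rw [← Real.rpow_add hN0]; norm_num
    have h2Y : 2 * Y ^ 2 ≤ N := by
      have b1 : (2 : ℝ) * (Y : ℝ) ^ 2 ≤ N := by
        calc (2 : ℝ) * (Y : ℝ) ^ 2 ≤ (N : ℝ) ^ ((1 : ℝ) / 5) * (N : ℝ) ^ ((4 : ℝ) / 5) :=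
              mul_le_mul h25 hY2 (by positivity) (by positivity)
          _ = N := by rw [mul_comm, hNsplit]
      exact_mod_cast b1
    have hmain := h3 (5 * K + 15) Y N N' t hY1 h2Y hNN hN2
    have hs1 : 1 ≤ s := by
      have : 1 ≤ (5 * K + 15) ^ 2 := Nat.one_le_pow _ _ (by omega)
      omega
    have hsR : (1 : ℝ) ≤ s := by exact_mod_cast hs1
    have hs2R : (1 : ℝ) ≤ (s : ℝ) ^ 2 := one_le_pow₀ hsR
    -- comparison of the exponents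
    have hexp : 1 / (25600000000 * (K : ℝ) ^ 6) ≤ 1 / (100 * (s : ℝ) ^ 2) := by
      apply one_div_le_one_div_of_le (by positivity)
      have c1 : ((5 * K + 15 : ℕ) : ℝ) ≤ 20 * K := by push_cast; linarith
      have c0 : (0 : ℝ) ≤ ((5 * K + 15 : ℕ) : ℝ) := Nat.cast_nonneg _
      have c2 : (1 : ℝ) ≤ ((5 * K + 15 : ℕ) : ℝ) := by push_cast; linarith
      have c3 : (s : ℝ) ≤ 2 * ((5 * K + 15 : ℕ) : ℝ) ^ 3 := by
        have e1 : ((5 * K + 15 : ℕ) : ℝ) ^ 2 ≤ ((5 * K + 15 : ℕ) : ℝ) ^ 3 :=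
          pow_le_pow_right₀ c2 (by norm_num)
        have e2 : (s : ℝ) = ((5 * K + 15 : ℕ) : ℝ) ^ 3 + ((5 * K + 15 : ℕ) : ℝ) ^ 2 := by
          rw [hsdef]; push_cast; ring
        linarith
      have c4 : (s : ℝ) ≤ 2 * (20 * (K : ℝ)) ^ 3 :=
        c3.trans (mul_le_mul_of_nonneg_left (pow_le_pow_left₀ c0 c1 3) (by norm_num))
      have c5 : (s : ℝ) ^ 2 ≤ (2 * (20 * (K : ℝ)) ^ 3) ^ 2 :=
        pow_le_pow_left₀ (by positivity) c4 2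
      have c6 : (2 * (20 * (K : ℝ)) ^ 3) ^ 2 = 256000000 * (K : ℝ) ^ 6 := by ring
      rw [c6] at c5
      linarith
    have hδ5 : 1 / (100 * (s : ℝ) ^ 2) ≤ 1 / 5 := by
      apply one_div_le_one_div_of_le (by norm_num)
      linarith
    -- first part
    have p1 : (∑ n ∈ Ioc N N', ‖T (5 * K + 15) Y (al (5 * K + 15) t n)‖) / (Y : ℝ) ^ 2 ≤
        Real.exp (100 + 600 * ((5 * K + 15 : ℕ) : ℝ)) *
          (N : ℝ) ^ (1 - 1 / (100 * (s : ℝ) ^ 2)) := by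
      have b1 : ∀ n ∈ Ioc N N', ‖T (5 * K + 15) Y (al (5 * K + 15) t n)‖ ≤
          (Y : ℝ) ^ 2 * Real.exp (100 + 600 * ((5 * K + 15 : ℕ) : ℝ)) *
            (N : ℝ) ^ (-(1 / (100 * (s : ℝ) ^ 2))) := by
        intro n hn
        rw [mem_Ioc] at hn
        exact EX.T_bound h1 h2 h4 K N n t hK hge hn.1 (by omega) ht1 ht2 hY1
      have b2 := sum_le_card_nsmul _ _ _ b1
      rw [Nat.card_Ioc, nsmul_eq_mul, Nat.cast_sub hNN] at b2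
      rw [div_le_iff₀ (by positivity)]
      refine b2.trans ?_
      have b3 : (N : ℝ) ^ (1 - 1 / (100 * (s : ℝ) ^ 2)) =
          N * (N : ℝ) ^ (-(1 / (100 * (s : ℝ) ^ 2))) := by
        rw [sub_eq_add_neg, Real.rpow_add hN0, Real.rpow_one]
      rw [b3]
      calc ((N' : ℝ) - N) * ((Y : ℝ) ^ 2 * Real.exp (100 + 600 * ((5 * K + 15 : ℕ) : ℝ)) *
            (N : ℝ) ^ (-(1 / (100 * (s : ℝ) ^ 2)))) ≤
          N * ((Y : ℝ) ^ 2 * Real.exp (100 + 600 * ((5 * K + 15 : ℕ) : ℝ)) *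
            (N : ℝ) ^ (-(1 / (100 * (s : ℝ) ^ 2)))) :=
            mul_le_mul_of_nonneg_right hcount (by positivity)
        _ = _ := by ring
    -- second part
    have ht0 : 0 ≤ t := (Real.sqrt_nonneg _).trans ht1
    have p2 : 2 * N * |t| * ((Y : ℝ) ^ 2 / N) ^ (5 * K + 15 + 1) ≤ 2 := by
      rw [abs_of_nonneg ht0]
      have b1 : (Y : ℝ) ^ 2 / N ≤ (N : ℝ) ^ (-(1 / 5 : ℝ)) := by
        rw [div_le_iff₀ hN0]
        refine hY2.trans (le_of_eq ?_)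
        nth_rewrite 3 [← Real.rpow_one (N : ℝ)]
        rw [← Real.rpow_add hN0]; norm_num
      have b2 : ((Y : ℝ) ^ 2 / N) ^ (5 * K + 15 + 1) ≤
          (N : ℝ) ^ (-((K : ℝ) + 1)) := by
        calc ((Y : ℝ) ^ 2 / N) ^ (5 * K + 15 + 1) ≤
              ((N : ℝ) ^ (-(1 / 5 : ℝ))) ^ (5 * K + 15 + 1) :=
              pow_le_pow_left₀ (by positivity) b1 _
          _ = (N : ℝ) ^ (-(1 / 5 : ℝ) * ((5 * K + 15 + 1 : ℕ) : ℝ)) := by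
              rw [← Real.rpow_natCast, ← Real.rpow_mul hN0.le]
          _ ≤ (N : ℝ) ^ (-((K : ℝ) + 1)) := by
              apply Real.rpow_le_rpow_of_exponent_le hNR
              push_cast
              linarith
      calc 2 * N * t * ((Y : ℝ) ^ 2 / N) ^ (5 * K + 15 + 1) ≤
            2 * N * (N : ℝ) ^ K * (N : ℝ) ^ (-((K : ℝ) + 1)) := by
            apply mul_le_mul _ b2 (by positivity) (by positivity)
            exact mul_le_mul_of_nonneg_left ht2 (by positivity)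
        _ = 2 * ((N : ℝ) ^ ((K : ℝ) + 1) * (N : ℝ) ^ (-((K : ℝ) + 1))) := by
            rw [Real.rpow_add hN0, Real.rpow_natCast, Real.rpow_one]; ring
        _ = 2 := by rw [← Real.rpow_add hN0]; simp
    have q1 : (1 : ℝ) ≤ (N : ℝ) ^ (1 - 1 / (100 * (s : ℝ) ^ 2)) :=
      Real.one_le_rpow hNR (by linarith)
    have q2 : (N : ℝ) ^ ((4 : ℝ) / 5) ≤ (N : ℝ) ^ (1 - 1 / (100 * (s : ℝ) ^ 2)) :=
      Real.rpow_le_rpow_of_exponent_le hNR (by linarith)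
    have q3 : (N : ℝ) ^ (1 - 1 / (100 * (s : ℝ) ^ 2)) ≤
        (N : ℝ) ^ (1 - 1 / (25600000000 * (K : ℝ) ^ 6)) :=
      Real.rpow_le_rpow_of_exponent_le hNR (by linarith)
    have q4 : Real.exp (100 + 600 * ((5 * K + 15 : ℕ) : ℝ)) + 4 ≤
        Real.exp (12102 * (K : ℝ) ^ 7) := by
      have c1 : (1 : ℝ) ≤ Real.exp (100 + 600 * ((5 * K + 15 : ℕ) : ℝ)) :=
        Real.one_le_exp (by positivity)
      have c2 : (5 : ℝ) ≤ Real.exp 2 := by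
        have := Real.exp_one_gt_d9
        have e2 : Real.exp 2 = Real.exp 1 * Real.exp 1 := by rw [← Real.exp_add]; norm_num
        rw [e2]; nlinarith
      calc Real.exp (100 + 600 * ((5 * K + 15 : ℕ) : ℝ)) + 4 ≤
            Real.exp (100 + 600 * ((5 * K + 15 : ℕ) : ℝ)) * 5 := by linarith
        _ ≤ Real.exp (100 + 600 * ((5 * K + 15 : ℕ) : ℝ)) * Real.exp 2 :=
            mul_le_mul_of_nonneg_left c2 (by positivity)
        _ = Real.exp (100 + 600 * ((5 * K + 15 : ℕ) : ℝ) + 2) := by rw [← Real.exp_add]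
        _ ≤ _ := by
            apply Real.exp_le_exp.mpr
            push_cast
            linarith
    calc ‖zs N N' t‖ ≤ (∑ n ∈ Ioc N N', ‖T (5 * K + 15) Y (al (5 * K + 15) t n)‖) /
            (Y : ℝ) ^ 2 + 2 * N * |t| * ((Y : ℝ) ^ 2 / N) ^ (5 * K + 15 + 1) +
            2 * (Y : ℝ) ^ 2 := hmain
      _ ≤ Real.exp (100 + 600 * ((5 * K + 15 : ℕ) : ℝ)) *
          (N : ℝ) ^ (1 - 1 / (100 * (s : ℝ) ^ 2)) + 2 + 2 * (N : ℝ) ^ ((4 : ℝ) / 5) := by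
          linarith
      _ ≤ (Real.exp (100 + 600 * ((5 * K + 15 : ℕ) : ℝ)) + 4) *
          (N : ℝ) ^ (1 - 1 / (100 * (s : ℝ) ^ 2)) := by linarith
      _ ≤ _ := mul_le_mul q4 q3 (by positivity) (by positivity)

end Pool.Agent.Work.MP_a8fbd7_nt.VK
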