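import Mathlib
import Pool.Agent.Work.MP_a8fbd7_nt.VK.Stmts

/-!
Block VK (MP_a8fbd7_nt), item GA: one good index, product bound with real powers.  helper73.
-/

set_option autoImplicit false

namespace Pool.Agent.Work.MP_a8fbd7_nt.VK

open Finset

namespace GA

lemma W_nonneg (H : ℕ) (a : ℝ) : 0 ≤ W H a := by
  unfold W
  exact Finset.sum_nonneg fun _ _ => norm_nonneg _

/-- the exponents add up -/
lemma prod_pow_eq (k : ℕ) (c Y : ℝ) :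
    ∏ i : Fin k, (c * Y ^ (2 * (i.val + 1))) = c ^ k * Y ^ (k * (k + 1)) := by
  rw [Finset.prod_mul_distrib, Finset.prod_const, Finset.card_univ, Fintype.card_fin]
  congr 1
  rw [Finset.prod_pow_eq_pow_sum]
  congr 1
  rw [Fin.sum_univ_eq_sum_range (fun i => 2 * (i + 1)) k]
  induction k with
  | zero => simp
  | succ n ih => rw [Finset.sum_range_succ, ih]; ring

/-- the floor is at least half -/
lemma half_le_floor {x : ℝ} (hx : 1 ≤ x) : x / 2 ≤ (⌊x⌋₊ : ℝ) := by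
  have h1 : (1 : ℝ) ≤ (⌊x⌋₊ : ℝ) := by
    have : 1 ≤ ⌊x⌋₊ := (Nat.one_le_floor_iff x).2 hx
    exact_mod_cast this
  have h2 := Nat.lt_floor_add_one x
  linarith

lemma two_pi_le (j : ℕ) (hj : 1 ≤ j) : 2 * Real.pi * (j : ℝ) ≤ 8 ^ j := by
  have hp : Real.pi ≤ 4 := Real.pi_le_four
  have hj8 : (j : ℝ) ≤ 8 ^ (j - 1) := by
    have : j ≤ 8 ^ (j - 1) := by
      obtain ⟨m, rfl⟩ : ∃ m, j = m + 1 := ⟨j - 1, by omega⟩
      have h3 : m < 8 ^ m := Nat.lt_pow_self (by norm_num)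
      have h4 : m + 1 - 1 = m := by omega
      rw [h4]
      omega
    exact_mod_cast this
  have h8 : (8 : ℝ) ^ j = 8 * 8 ^ (j - 1) := by
    rw [← pow_succ']
    congr 1
    omega
  rw [h8]
  have hj0 : (0 : ℝ) ≤ (j : ℝ) := Nat.cast_nonneg _
  nlinarith

/-- the good index, with `t = N ^ κ`, `j` its value plus one -/
lemma good {N n s j : ℕ} {κ a : ℝ} (h : WB) (hN : 8 ≤ N) (hNn : N < n) (hn : n ≤ 2 * N)
    (hs : 1 ≤ s) (hj : 1 ≤ j) (hκ : 1 / 2 ≤ κ) (hj1 : κ + 1 / 20 ≤ j) (hj2 : (j : ℝ) < κ + 21 / 20)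
    (ha : |a| = (N : ℝ) ^ κ / (2 * Real.pi * j * (n : ℝ) ^ j)) :
    W (s * ⌊(N : ℝ) ^ ((2 : ℝ) / 5)⌋₊ ^ j) a ≤
      300 * 8 ^ j * (s : ℝ) ^ 2 * ((⌊(N : ℝ) ^ ((2 : ℝ) / 5)⌋₊ : ℕ) : ℝ) ^ (2 * j) *
        (N : ℝ) ^ (-(1 / 20 : ℝ)) := by
  have hN1 : (1 : ℝ) ≤ (N : ℝ) := by exact_mod_cast (by omega : 1 ≤ N)
  have hN0 : (0 : ℝ) < (N : ℝ) := by linarith
  have hn0 : (0 : ℝ) < (n : ℝ) := by
    have : (N : ℝ) < n := by exact_mod_cast hNn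
    linarith
  set x : ℝ := (N : ℝ) ^ ((2 : ℝ) / 5) with hx
  have hx1 : 1 ≤ x := Real.one_le_rpow hN1 (by norm_num)
  have hx0 : 0 < x := by linarith
  set Y : ℕ := ⌊x⌋₊ with hY
  have hYx : x / 2 ≤ (Y : ℝ) := half_le_floor hx1
  have hY1 : 1 ≤ Y := (Nat.one_le_floor_iff x).2 hx1
  have hY1' : (1 : ℝ) ≤ (Y : ℝ) := by exact_mod_cast hY1
  have hs1 : (1 : ℝ) ≤ (s : ℝ) := by exact_mod_cast hs
  have hjr : (1 : ℝ) ≤ (j : ℝ) := by exact_mod_cast hj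
  have hpi := Real.pi_gt_three
  -- bounds for `|a|`
  have hnj : (N : ℝ) ^ j ≤ (n : ℝ) ^ j :=
    pow_le_pow_left₀ hN0.le (by exact_mod_cast hNn.le) j
  have hnj2 : (n : ℝ) ^ j ≤ 2 ^ j * (N : ℝ) ^ j := by
    rw [← mul_pow]
    exact pow_le_pow_left₀ hn0.le (by exact_mod_cast hn) j
  have hNj0 : 0 < (N : ℝ) ^ j := pow_pos hN0 j
  have hnj0 : 0 < (n : ℝ) ^ j := pow_pos hn0 j
  have hNκ : 0 < (N : ℝ) ^ κ := Real.rpow_pos_of_pos hN0 κ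
  have hsub : (N : ℝ) ^ (κ - j) = (N : ℝ) ^ κ / (N : ℝ) ^ j := by
    rw [Real.rpow_sub hN0, Real.rpow_natCast]
  have haU : |a| ≤ (N : ℝ) ^ (κ - j) := by
    rw [ha, hsub]
    apply div_le_div_of_nonneg_left hNκ.le hNj0
    have : (1 : ℝ) ≤ 2 * Real.pi * j := by nlinarith
    nlinarith
  have haL : (N : ℝ) ^ (κ - j) / 16 ^ j ≤ |a| := by
    rw [ha, hsub, div_div]
    apply div_le_div_of_nonneg_left hNκ.le (by positivity)
    have h8 := two_pi_le j hj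
    have h16 : (16 : ℝ) ^ j = 8 ^ j * 2 ^ j := by rw [← mul_pow]; norm_num
    calc 2 * Real.pi * j * (n : ℝ) ^ j ≤ 8 ^ j * (2 ^ j * (N : ℝ) ^ j) :=
          mul_le_mul h8 hnj2 hnj0.le (by positivity)
      _ = (N : ℝ) ^ j * 16 ^ j := by rw [h16]; ring
  have ha0 : 0 < |a| := by
    refine lt_of_lt_of_le ?_ haL
    have := Real.rpow_pos_of_pos hN0 (κ - j)
    positivity
  have ha20 : |a| ≤ (N : ℝ) ^ (-(1 / 20 : ℝ)) :=
    haU.trans (Real.rpow_le_rpow_of_exponent_le hN1 (by linarith))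
  have ha1 : |a| ≤ 1 := by
    refine ha20.trans ?_
    exact Real.rpow_le_one_of_one_le_of_nonpos hN1 (by norm_num)
  have hane : a ≠ 0 := abs_pos.1 ha0
  -- `H`
  have hH1 : 1 ≤ s * Y ^ j := Nat.mul_pos hs (Nat.pow_pos hY1)
  have hmain := h.2 (s * Y ^ j) a hH1 hane ha1
  refine hmain.trans ?_
  have hHc : ((s * Y ^ j : ℕ) : ℝ) = (s : ℝ) * (Y : ℝ) ^ j := by push_cast; ring
  rw [hHc]
  set H : ℝ := (s : ℝ) * (Y : ℝ) ^ j with hH
  have hxj : x ^ j = (N : ℝ) ^ ((2 : ℝ) / 5 * j) := by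
    rw [hx, ← Real.rpow_natCast, ← Real.rpow_mul hN0.le]
  have hHge : (N : ℝ) ^ ((2 : ℝ) / 5 * j) / 2 ^ j ≤ H := by
    rw [← hxj, ← div_pow]
    calc (x / 2) ^ j ≤ (Y : ℝ) ^ j := pow_le_pow_left₀ (by linarith) hYx j
      _ ≤ (s : ℝ) * (Y : ℝ) ^ j := by
          have : 0 ≤ (Y : ℝ) ^ j := by positivity
          nlinarith
  have hH0 : 0 < H := by
    refine lt_of_lt_of_le ?_ hHge
    have := Real.rpow_pos_of_pos hN0 ((2 : ℝ) / 5 * j)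
    positivity
  have h8j : (1 : ℝ) ≤ 8 ^ j := one_le_pow₀ (by norm_num)
  have hN20 : 0 < (N : ℝ) ^ (-(1 / 20 : ℝ)) := Real.rpow_pos_of_pos hN0 _
  -- first term
  have hfst : 1 / Real.sqrt H ≤ 8 ^ j * (N : ℝ) ^ (-(1 / 20 : ℝ)) := by
    have hlow : (N : ℝ) ^ ((1 : ℝ) / 5 * j) / 2 ^ j ≤ Real.sqrt H := by
      apply Real.le_sqrt_of_sq_le
      refine le_trans ?_ hHge
      rw [div_pow, ← Real.rpow_natCast ((N : ℝ) ^ ((1 : ℝ) / 5 * j)) 2, ← Real.rpow_mul hN0.le]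
      have e1 : (1 : ℝ) / 5 * j * ((2 : ℕ) : ℝ) = 2 / 5 * j := by push_cast; ring
      rw [e1]
      apply div_le_div_of_nonneg_left (Real.rpow_pos_of_pos hN0 _).le (by positivity)
      have : (1 : ℝ) ≤ 2 ^ j := one_le_pow₀ (by norm_num)
      nlinarith
    have hpos : 0 < (N : ℝ) ^ ((1 : ℝ) / 5 * j) / 2 ^ j := by
      have := Real.rpow_pos_of_pos hN0 ((1 : ℝ) / 5 * j)
      positivity
    calc 1 / Real.sqrt H ≤ 1 / ((N : ℝ) ^ ((1 : ℝ) / 5 * j) / 2 ^ j) :=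
          one_div_le_one_div_of_le hpos hlow
      _ = 2 ^ j * (N : ℝ) ^ (-((1 : ℝ) / 5 * j)) := by
          rw [one_div_div, Real.rpow_neg hN0.le, div_eq_mul_inv]
      _ ≤ 8 ^ j * (N : ℝ) ^ (-(1 / 20 : ℝ)) := by
          apply mul_le_mul
          · exact pow_le_pow_left₀ (by norm_num) (by norm_num) j
          · exact Real.rpow_le_rpow_of_exponent_le hN1 (by linarith)
          · exact (Real.rpow_pos_of_pos hN0 _).le
          · positivity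
  -- second term
  have hsnd : |a| ≤ 8 ^ j * (N : ℝ) ^ (-(1 / 20 : ℝ)) := by
    refine ha20.trans ?_
    nlinarith
  -- third term
  have hthd : 1 / (H * Real.sqrt |a|) ≤ 8 ^ j * (N : ℝ) ^ (-(1 / 20 : ℝ)) := by
    have hsq : (N : ℝ) ^ ((κ - j) / 2) / 4 ^ j ≤ Real.sqrt |a| := by
      apply Real.le_sqrt_of_sq_le
      refine le_trans (le_of_eq ?_) haL
      rw [div_pow, ← Real.rpow_natCast ((N : ℝ) ^ ((κ - j) / 2)) 2, ← Real.rpow_mul hN0.le]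
      have e1 : (κ - j) / 2 * ((2 : ℕ) : ℝ) = κ - j := by push_cast; ring
      rw [e1, ← pow_mul, mul_comm j 2, pow_mul]
      norm_num
    have hp1 : 0 < (N : ℝ) ^ ((2 : ℝ) / 5 * j) / 2 ^ j := by
      have := Real.rpow_pos_of_pos hN0 ((2 : ℝ) / 5 * j)
      positivity
    have hp2 : 0 < (N : ℝ) ^ ((κ - j) / 2) / 4 ^ j := by
      have := Real.rpow_pos_of_pos hN0 ((κ - j) / 2)
      positivity
    calc 1 / (H * Real.sqrt |a|)
        ≤ 1 / ((N : ℝ) ^ ((2 : ℝ) / 5 * j) / 2 ^ j * ((N : ℝ) ^ ((κ - j) / 2) / 4 ^ j)) :=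
          one_div_le_one_div_of_le (mul_pos hp1 hp2) (mul_le_mul hHge hsq hp2.le hH0.le)
      _ = 8 ^ j * (N : ℝ) ^ (-((2 : ℝ) / 5 * j + (κ - j) / 2)) := by
          rw [Real.rpow_neg hN0.le, Real.rpow_add hN0]
          have e8 : (8 : ℝ) ^ j = 2 ^ j * 4 ^ j := by rw [← mul_pow]; norm_num
          rw [e8]
          have := (Real.rpow_pos_of_pos hN0 ((2 : ℝ) / 5 * j)).ne'
          have := (Real.rpow_pos_of_pos hN0 ((κ - j) / 2)).ne'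
          field_simp
      _ ≤ 8 ^ j * (N : ℝ) ^ (-(1 / 20 : ℝ)) := by
          apply mul_le_mul_of_nonneg_left _ (by positivity)
          exact Real.rpow_le_rpow_of_exponent_le hN1 (by linarith)
  have hsum : 1 / Real.sqrt H + |a| + 1 / (H * Real.sqrt |a|) ≤
      3 * (8 ^ j * (N : ℝ) ^ (-(1 / 20 : ℝ))) := by linarith
  calc 100 * H ^ 2 * (1 / Real.sqrt H + |a| + 1 / (H * Real.sqrt |a|))
      ≤ 100 * H ^ 2 * (3 * (8 ^ j * (N : ℝ) ^ (-(1 / 20 : ℝ)))) :=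
        mul_le_mul_of_nonneg_left hsum (by positivity)
    _ = 300 * 8 ^ j * (s : ℝ) ^ 2 * (Y : ℝ) ^ (2 * j) * (N : ℝ) ^ (-(1 / 20 : ℝ)) := by
        rw [hH, mul_pow, ← pow_mul, mul_comm j 2]
        ring

end GA

theorem prf_GA (h : WB) : GA := by
  intro K N n s t hK hN hNn hn hs ht1 ht2
  have hN1 : (1 : ℝ) ≤ (N : ℝ) := by exact_mod_cast (by omega : 1 ≤ N)
  have hN0 : (0 : ℝ) < (N : ℝ) := by linarith
  have hN1' : (1 : ℝ) < (N : ℝ) := by exact_mod_cast (by omega : 1 < N)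
  have hlog : 0 < Real.log N := Real.log_pos hN1'
  have ht0 : 0 < t := lt_of_lt_of_le (Real.sqrt_pos.2 hN0) ht1
  have hs1 : (1 : ℝ) ≤ (s : ℝ) := by exact_mod_cast hs
  obtain ⟨κ, hκ⟩ : ∃ κ : ℝ, κ = Real.log t / Real.log N := ⟨_, rfl⟩
  have htκ : (N : ℝ) ^ κ = t := by
    rw [Real.rpow_def_of_pos hN0, hκ]
    rw [mul_div_cancel₀ _ hlog.ne']
    exact Real.exp_log ht0
  have hκ1 : 1 / 2 ≤ κ := by
    rw [hκ, le_div_iff₀ hlog]
    have := Real.log_le_log (Real.sqrt_pos.2 hN0) ht1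
    rw [Real.log_sqrt hN0.le] at this
    linarith
  have hκ2 : κ ≤ K := by
    rw [hκ, div_le_iff₀ hlog]
    have := Real.log_le_log ht0 ht2
    rwa [Real.log_pow] at this
  set k : ℕ := 5 * K + 15 with hk
  obtain ⟨j, hjdef⟩ : ∃ j : ℕ, j = ⌈κ + 1 / 20⌉₊ := ⟨_, rfl⟩
  have hj1 : κ + 1 / 20 ≤ j := by rw [hjdef]; exact Nat.le_ceil _
  have hj2 : (j : ℝ) < κ + 21 / 20 := by
    rw [hjdef]
    have := Nat.ceil_lt_add_one (a := κ + 1 / 20) (by linarith)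
    linarith
  have hjpos : 1 ≤ j := by
    by_contra hcon
    have : j = 0 := by omega
    rw [this] at hj1
    norm_num at hj1
    linarith
  have hjk : j ≤ k := by
    have : (j : ℝ) < (K + 2 : ℕ) := by push_cast; linarith
    have : j < K + 2 := by exact_mod_cast this
    omega
  set Y : ℕ := ⌊(N : ℝ) ^ ((2 : ℝ) / 5)⌋₊ with hY
  have hx1 : 1 ≤ (N : ℝ) ^ ((2 : ℝ) / 5) := Real.one_le_rpow hN1 (by norm_num)
  have hY1 : 1 ≤ Y := (Nat.one_le_floor_iff _).2 hx1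
  have hY1' : (1 : ℝ) ≤ (Y : ℝ) := by exact_mod_cast hY1
  have hN20 : 0 < (N : ℝ) ^ (-(1 / 20 : ℝ)) := Real.rpow_pos_of_pos hN0 _
  let j0 : Fin k := ⟨j - 1, by omega⟩
  have hj0 : j0.val + 1 = j := by
    show j - 1 + 1 = j
    omega
  set C : ℝ := 100 / 3 * 8 ^ k * (N : ℝ) ^ (-(1 / 20 : ℝ)) with hC
  have key : ∀ i : Fin k, W (s * Y ^ (i.val + 1)) (al k t n i) ≤
      (9 * (s : ℝ) ^ 2 * (Y : ℝ) ^ (2 * (i.val + 1))) * (if i = j0 then C else 1) := by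
    intro i
    by_cases hi : i = j0
    · rw [if_pos hi, hi, hj0]
      have ha : |al k t n j0| = (N : ℝ) ^ κ / (2 * Real.pi * j * (n : ℝ) ^ j) := by
        unfold al
        have e : ((j0.val : ℝ) + 1) = (j : ℝ) := by exact_mod_cast hj0
        rw [e, hj0, htκ, abs_div, abs_mul, abs_pow, abs_neg, abs_one, one_pow, one_mul,
          abs_of_pos ht0, abs_of_nonneg]
        positivity
      have hg := GA.good h hN hNn hn hs hjpos hκ1 hj1 hj2 ha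
      refine hg.trans ?_
      have h8 : (8 : ℝ) ^ j ≤ 8 ^ k := pow_le_pow_right₀ (by norm_num) hjk
      rw [hC]
      have hYp : 0 ≤ (Y : ℝ) ^ (2 * j) := by positivity
      calc 300 * 8 ^ j * (s : ℝ) ^ 2 * (Y : ℝ) ^ (2 * j) * (N : ℝ) ^ (-(1 / 20 : ℝ))
          = 8 ^ j * (300 * (s : ℝ) ^ 2 * (Y : ℝ) ^ (2 * j) * (N : ℝ) ^ (-(1 / 20 : ℝ))) := by ring
        _ ≤ 8 ^ k * (300 * (s : ℝ) ^ 2 * (Y : ℝ) ^ (2 * j) * (N : ℝ) ^ (-(1 / 20 : ℝ))) :=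
            mul_le_mul_of_nonneg_right h8 (by positivity)
        _ = 9 * (s : ℝ) ^ 2 * (Y : ℝ) ^ (2 * j) *
            (100 / 3 * 8 ^ k * (N : ℝ) ^ (-(1 / 20 : ℝ))) := by ring
    · rw [if_neg hi, mul_one]
      refine (h.1 _ _).trans ?_
      have hc : ((s * Y ^ (i.val + 1) : ℕ) : ℝ) = (s : ℝ) * (Y : ℝ) ^ (i.val + 1) := by
        push_cast; ring
      rw [hc]
      have hge : (1 : ℝ) ≤ (s : ℝ) * (Y : ℝ) ^ (i.val + 1) := by
        have : (1 : ℝ) ≤ (Y : ℝ) ^ (i.val + 1) := one_le_pow₀ hY1'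
        nlinarith
      calc (2 * ((s : ℝ) * (Y : ℝ) ^ (i.val + 1)) + 1) ^ 2
          ≤ (3 * ((s : ℝ) * (Y : ℝ) ^ (i.val + 1))) ^ 2 :=
            pow_le_pow_left₀ (by positivity) (by linarith) 2
        _ = 9 * (s : ℝ) ^ 2 * (Y : ℝ) ^ (2 * (i.val + 1)) := by
            rw [mul_comm 2 (i.val + 1), pow_mul]
            ring
  have hprod : ∏ i : Fin k, W (s * Y ^ (i.val + 1)) (al k t n i) ≤
      ∏ i : Fin k, ((9 * (s : ℝ) ^ 2 * (Y : ℝ) ^ (2 * (i.val + 1))) * (if i = j0 then C else 1)) :=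
    Finset.prod_le_prod (fun i _ => GA.W_nonneg _ _) (fun i _ => key i)
  refine hprod.trans ?_
  rw [Finset.prod_mul_distrib, GA.prod_pow_eq, Finset.prod_ite_eq' Finset.univ j0 (fun _ => C),
    if_pos (Finset.mem_univ _)]
  have hk1 : 1 ≤ k := by omega
  have hkk : (100 / 3 : ℝ) ≤ (100 / 3) ^ k := le_self_pow₀ (by norm_num) (by omega)
  have e2400 : (2400 * (s : ℝ) ^ 2) ^ k = (9 * (s : ℝ) ^ 2) ^ k * ((100 / 3) ^ k * 8 ^ k) := by
    rw [← mul_pow, ← mul_pow]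
    congr 1
    ring
  have ek : k * (k + 1) = k * (5 * K + 16) := by rw [hk]
  rw [e2400, hC, ← ek]
  have hY0 : 0 ≤ (Y : ℝ) ^ (k * (k + 1)) := by positivity
  calc (9 * (s : ℝ) ^ 2) ^ k * (Y : ℝ) ^ (k * (k + 1)) *
        (100 / 3 * 8 ^ k * (N : ℝ) ^ (-(1 / 20 : ℝ)))
      = (100 / 3 : ℝ) * ((9 * (s : ℝ) ^ 2) ^ k * (Y : ℝ) ^ (k * (k + 1)) *
        (8 ^ k * (N : ℝ) ^ (-(1 / 20 : ℝ)))) := by ring
    _ ≤ (100 / 3 : ℝ) ^ k * ((9 * (s : ℝ) ^ 2) ^ k * (Y : ℝ) ^ (k * (k + 1)) *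
        (8 ^ k * (N : ℝ) ^ (-(1 / 20 : ℝ)))) :=
        mul_le_mul_of_nonneg_right hkk (by positivity)
    _ = (9 * (s : ℝ) ^ 2) ^ k * ((100 / 3) ^ k * 8 ^ k) * (Y : ℝ) ^ (k * (k + 1)) *
        (N : ℝ) ^ (-(1 / 20 : ℝ)) := by ring

end Pool.Agent.Work.MP_a8fbd7_nt.VK
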