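/-
Block VK (problem MP_a8fbd7_nt), item GR: growth of the zeta function near the line one.
Author: helper18.
-/
import Pool.Agent.Work.MP_a8fbd7_nt.VK.Stmts

set_option autoImplicit false

namespace Pool.Agent.Work.MP_a8fbd7_nt.VK

open Finset

namespace GR

theorem evp (c : ℝ) (k : ℕ) : ∀ᶠ l : ℝ in Filter.atTop, c * l ^ k ≤ Real.exp l := by
  have h := (Real.tendsto_pow_mul_exp_neg_atTop_nhds_zero k).const_mul c
  rw [mul_zero] at h
  filter_upwards [h.eventually (ge_mem_nhds (show (0 : ℝ) < 1 by norm_num))] with l hl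
  have he : 0 < Real.exp l := Real.exp_pos l
  have h2 : c * l ^ k = (c * (l ^ k * Real.exp (-l))) * Real.exp l := by
    rw [mul_assoc c, mul_assoc (l ^ k), ← Real.exp_add, neg_add_cancel, Real.exp_zero, mul_one]
  rw [h2]
  calc _ ≤ 1 * Real.exp l := mul_le_mul_of_nonneg_right hl he.le
    _ = _ := one_mul _

theorem ev (A C₀ B : ℝ) : ∀ᶠ l : ℝ in Filter.atTop,
    8 * B * l ^ 2 ≤ Real.exp l ∧
    (3 * B * l ^ 2 + C₀ * (2 * B * l) ^ 7) * (A * (2 * B * l) ^ 7) ≤ Real.exp l ∧ 2 ≤ l := by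
  filter_upwards [evp (8 * B) 2, evp (2 * (3 * B * A * (2 * B) ^ 7)) 9,
    evp (2 * (C₀ * A * (2 * B) ^ 14)) 14, Filter.eventually_ge_atTop 2] with l h1 h2 h3 h4
  refine ⟨h1, ?_, h4⟩
  have : (3 * B * l ^ 2 + C₀ * (2 * B * l) ^ 7) * (A * (2 * B * l) ^ 7) =
      (2 * (3 * B * A * (2 * B) ^ 7) * l ^ 9) / 2 + (2 * (C₀ * A * (2 * B) ^ 14) * l ^ 14) / 2 := by
    ring
  rw [this]
  linarith

/-- the sum of `1 / n` -/
theorem harm (P : ℕ) : ∑ n ∈ Icc 1 P, (n : ℝ)⁻¹ ≤ 1 + Real.log P := by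
  have h := harmonic_le_one_add_log P
  rw [harmonic_eq_sum_Icc] at h
  push_cast at h
  exact h

/-- the short part -/
theorem part1 (s : ℂ) (θ : ℝ) (P : ℕ) (_ : 1 ≤ P) (hθ : 0 ≤ θ) (hs : 1 - θ ≤ s.re) :
    ‖∑ n ∈ Icc 1 P, (n : ℂ) ^ (-s)‖ ≤ (P : ℝ) ^ θ * (1 + Real.log P) := by
  calc ‖∑ n ∈ Icc 1 P, (n : ℂ) ^ (-s)‖ ≤ ∑ n ∈ Icc 1 P, ‖(n : ℂ) ^ (-s)‖ := norm_sum_le _ _
    _ ≤ ∑ n ∈ Icc 1 P, (P : ℝ) ^ θ * (n : ℝ)⁻¹ := by
        refine Finset.sum_le_sum fun n hn => ?_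
        obtain ⟨h1, h2⟩ := Finset.mem_Icc.mp hn
        have hn0 : 0 < n := h1
        have hnr : (1 : ℝ) ≤ n := by exact_mod_cast h1
        rw [Complex.norm_natCast_cpow_of_pos hn0, Complex.neg_re]
        calc (n : ℝ) ^ (-s.re) ≤ (n : ℝ) ^ (θ + (-1)) :=
              Real.rpow_le_rpow_of_exponent_le hnr (by linarith)
          _ = (n : ℝ) ^ θ * (n : ℝ)⁻¹ := by
              rw [Real.rpow_add (by positivity), Real.rpow_neg_one]
          _ ≤ (P : ℝ) ^ θ * (n : ℝ)⁻¹ := by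
              refine mul_le_mul_of_nonneg_right ?_ (by positivity)
              exact Real.rpow_le_rpow (by positivity) (by exact_mod_cast h2) hθ
    _ = (P : ℝ) ^ θ * ∑ n ∈ Icc 1 P, (n : ℝ)⁻¹ := by rw [Finset.mul_sum]
    _ ≤ _ := mul_le_mul_of_nonneg_left (harm P) (by positivity)

/-- adding up dyadic blocks -/
theorem blocks (f : ℕ → ℂ) (P X : ℕ) (_ : 1 ≤ P) (hPX : P ≤ X)
    (hb : ∀ N N', P ≤ N → N < X → N ≤ N' → N' ≤ 2 * N → N' ≤ X → ‖∑ n ∈ Ioc N N', f n‖ ≤ 1) :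
    ∀ j : ℕ, ‖∑ n ∈ Ioc P (min (2 ^ j * P) X), f n‖ ≤ j := by
  intro j
  induction j with
  | zero => simp [min_eq_left hPX]
  | succ j ih =>
    by_cases h : X ≤ 2 ^ j * P
    · have h' : X ≤ 2 ^ (j + 1) * P := by
        refine h.trans (Nat.mul_le_mul_right _ (Nat.pow_le_pow_right (by norm_num) (by omega)))
      rw [min_eq_right h] at ih
      rw [min_eq_right h']
      push_cast
      linarith
    · push Not at h
      rw [min_eq_left h.le] at ih
      have hPj : P ≤ 2 ^ j * P := Nat.le_mul_of_pos_left _ (by positivity)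
      have e : 2 ^ (j + 1) * P = 2 * (2 ^ j * P) := by ring
      have h2 : 2 ^ j * P ≤ min (2 ^ (j + 1) * P) X := by
        refine le_min ?_ h.le
        rw [e]; omega
      have hsplit : ∑ n ∈ Ioc P (min (2 ^ (j + 1) * P) X), f n =
          ∑ n ∈ Ioc P (2 ^ j * P), f n + ∑ n ∈ Ioc (2 ^ j * P) (min (2 ^ (j + 1) * P) X), f n := by
        rw [← Finset.sum_Ioc_consecutive f hPj h2]
      rw [hsplit]
      have hb' := hb (2 ^ j * P) (min (2 ^ (j + 1) * P) X) hPj h h2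
        (by rw [← e]; exact min_le_left _ _) (min_le_right _ _)
      push_cast
      calc _ ≤ _ := norm_add_le _ _
        _ ≤ _ := add_le_add ih hb'

end GR

open GR in
theorem prf_GR (h1 : EX) (h2 : AP) (h3 : AB) : GR := by
  obtain ⟨A, C₀, hA, hC, hE⟩ := h1
  intro B hB
  have ev1 := (Real.tendsto_log_atTop.comp Real.tendsto_log_atTop).eventually (ev A C₀ B)
  obtain ⟨T, hT⟩ := Filter.eventually_atTop.mp ev1
  refine ⟨max T 3, le_max_right _ _, fun s hs hre => ?_⟩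
  obtain ⟨c1, c2, c3⟩ := hT |s.im| ((le_max_left _ _).trans hs)
  have ht3 : 3 ≤ |s.im| := (le_max_right _ _).trans hs
  set t : ℝ := |s.im| with ht
  simp only [Function.comp_apply] at c1 c2 c3
  have ht0 : 0 < t := by linarith
  have hL0 : 0 < Real.log t := Real.log_pos (by linarith)
  set L : ℝ := Real.log t with hL
  have heL : Real.exp L = t := Real.exp_log ht0
  set l : ℝ := Real.log L with hl
  have hel : Real.exp l = L := Real.exp_log hL0
  rw [hel] at c1 c2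
  have hL7 : 7 ≤ L := by
    rw [← hel]
    have : Real.exp 2 ≤ Real.exp l := Real.exp_le_exp.mpr c3
    have h2' : (7 : ℝ) ≤ Real.exp 2 := by
      have h1' : (2.7182818283 : ℝ) < Real.exp 1 := Real.exp_one_gt_d9
      have : Real.exp 2 = Real.exp 1 * Real.exp 1 := by rw [← Real.exp_add]; norm_num
      rw [this]
      nlinarith
    linarith
  have hBl : 2 ≤ B * l := by nlinarith
  set θ : ℝ := B * l ^ 2 / L with hθ
  have hθ0 : 0 ≤ θ := by positivity
  have hθ8 : θ ≤ 1 / 8 := by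
    rw [hθ, div_le_iff₀ hL0]; linarith
  have hθL : θ * L = B * l ^ 2 := by rw [hθ]; field_simp
  set K : ℕ := ⌈B * l⌉₊ with hK
  have hK1 : B * l ≤ K := Nat.le_ceil _
  have hK2 : (K : ℝ) ≤ 2 * B * l := by
    have := Nat.ceil_lt_add_one (show 0 ≤ B * l by linarith)
    linarith
  have hKpos : (0 : ℝ) < K := by linarith
  have hKn : 1 ≤ K := by exact_mod_cast hKpos
  set P : ℕ := ⌈Real.exp (L / K)⌉₊ with hP
  have hPl : Real.exp (L / K) ≤ P := Nat.le_ceil _
  have hLK : 0 ≤ L / K := by positivity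
  have he1 : 1 ≤ Real.exp (L / K) := Real.one_le_exp hLK
  have hPu : (P : ℝ) ≤ 2 * Real.exp (L / K) := by
    have := Nat.ceil_lt_add_one (Real.exp_pos (L / K)).le
    linarith
  have hP1 : 1 ≤ P := by
    have : (1 : ℝ) ≤ P := he1.trans hPl
    exact_mod_cast this
  set X : ℕ := ⌈t ^ 2⌉₊ with hX
  have hXl : t ^ 2 ≤ X := Nat.le_ceil _
  have hXu : (X : ℝ) ≤ t ^ 3 := by
    have := Nat.ceil_lt_add_one (show 0 ≤ t ^ 2 by positivity)
    nlinarith [sq_nonneg t]
  have hX1r : (1 : ℝ) ≤ X := by nlinarith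
  have hX1 : 1 ≤ X := by exact_mod_cast hX1r
  have hLKL : L / K ≤ L := div_le_self hL0.le (by exact_mod_cast hKn)
  have hPX : P ≤ X := by
    have : (P : ℝ) ≤ X := by
      calc (P : ℝ) ≤ 2 * Real.exp (L / K) := hPu
        _ ≤ 2 * Real.exp L := by gcongr
        _ = 2 * t := by rw [heL]
        _ ≤ t ^ 2 := by nlinarith
        _ ≤ X := hXl
    exact_mod_cast this
  have hσ : 7 / 8 ≤ s.re := by linarith
  have hs1 : s ≠ 1 := by
    intro h
    rw [h] at ht
    simp at ht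
    linarith
  -- the error
  have herr : (X : ℝ) ^ (1 - s.re) / ‖s - 1‖ + ‖s‖ * ((X : ℝ) ^ (-s.re) / s.re) ≤ 4 := by
    have a1 : t ≤ ‖s - 1‖ := by
      have := Complex.abs_im_le_norm (s - 1)
      simpa using this
    have a2 : (X : ℝ) ^ (1 - s.re) ≤ t := by
      calc (X : ℝ) ^ (1 - s.re) ≤ (X : ℝ) ^ ((1 : ℝ) / 3) :=
            Real.rpow_le_rpow_of_exponent_le hX1r (by linarith)
        _ ≤ (t ^ 3) ^ ((1 : ℝ) / 3) := Real.rpow_le_rpow (by positivity) hXu (by norm_num)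
        _ = t := by
            rw [← Real.rpow_natCast, ← Real.rpow_mul ht0.le]; norm_num
    have a3 : (X : ℝ) ^ (1 - s.re) / ‖s - 1‖ ≤ 1 := by
      rw [div_le_one (by linarith)]; linarith
    have a4 : (X : ℝ) ^ (-s.re) ≤ 1 / t := by
      calc (X : ℝ) ^ (-s.re) ≤ (X : ℝ) ^ (-(1 / 2 : ℝ)) :=
            Real.rpow_le_rpow_of_exponent_le hX1r (by linarith)
        _ ≤ (t ^ 2) ^ (-(1 / 2 : ℝ)) :=
            Real.rpow_le_rpow_of_nonpos (by positivity) hXl (by norm_num)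
        _ = 1 / t := by
            rw [← Real.rpow_natCast, ← Real.rpow_mul ht0.le]
            norm_num
            rw [Real.rpow_neg_one]
    have a5 : ‖s‖ ≤ s.re + t := by
      have := Complex.norm_le_abs_re_add_abs_im s
      rwa [abs_of_nonneg (by linarith : 0 ≤ s.re)] at this
    have hσ0 : 0 < s.re := by linarith
    have a6 : ‖s‖ * ((X : ℝ) ^ (-s.re) / s.re) ≤ 3 := by
      calc ‖s‖ * ((X : ℝ) ^ (-s.re) / s.re) ≤ (s.re + t) * ((1 / t) / s.re) := by
            gcongr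
        _ = 1 / t + 1 / s.re := by field_simp
        _ ≤ 1 + 2 := by
            refine add_le_add ?_ ?_
            · rw [div_le_iff₀ ht0]; linarith
            · rw [div_le_iff₀ hσ0]; linarith
        _ = 3 := by norm_num
    linarith
  -- the short part
  have hshort : ‖∑ n ∈ Icc 1 P, (n : ℂ) ^ (-s)‖ ≤ 2 * L * (2 + L) := by
    refine (part1 s θ P hP1 hθ0 hre).trans ?_
    have b1 : (P : ℝ) ^ θ ≤ 2 * L := by
      calc (P : ℝ) ^ θ ≤ (2 * Real.exp (L / K)) ^ θ :=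
            Real.rpow_le_rpow (by positivity) hPu hθ0
        _ = 2 ^ θ * Real.exp (L / K) ^ θ := Real.mul_rpow (by norm_num) (Real.exp_pos _).le
        _ = 2 ^ θ * Real.exp (L / K * θ) := by rw [← Real.exp_mul]
        _ ≤ 2 ^ (1 : ℝ) * Real.exp l := by
            gcongr
            · norm_num
            · linarith
            · rw [div_mul_eq_mul_div, div_le_iff₀ hKpos, mul_comm L θ, hθL]
              nlinarith
        _ = 2 * L := by rw [Real.rpow_one, hel]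
    have b2 : Real.log P ≤ 1 + L := by
      calc Real.log P ≤ Real.log (2 * Real.exp (L / K)) :=
            Real.log_le_log (by linarith) hPu
        _ = Real.log 2 + L / K := by
            rw [Real.log_mul (by norm_num) (Real.exp_pos _).ne', Real.log_exp]
        _ ≤ 1 + L := by
            have := Real.log_two_lt_d9
            linarith
    calc (P : ℝ) ^ θ * (1 + Real.log P) ≤ (2 * L) * (2 + L) := by
          refine mul_le_mul b1 (by linarith) ?_ (by positivity)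
          have : 0 ≤ Real.log P := Real.log_nonneg (by exact_mod_cast hP1)
          linarith
      _ = _ := rfl
  -- the blocks
  have hblock : ∀ N N', P ≤ N → N < X → N ≤ N' → N' ≤ 2 * N → N' ≤ X →
      ‖∑ n ∈ Ioc N N', (n : ℂ) ^ (-s)‖ ≤ 1 := by
    intro N N' hPN hNX hNN hN2 _
    have hN1 : 1 ≤ N := hP1.trans hPN
    have hN1r : (1 : ℝ) ≤ N := by exact_mod_cast hN1
    have hN0 : (0 : ℝ) < N := by linarith
    have hNt : (N : ℝ) < t ^ 2 := Nat.lt_ceil.mp hNX
    have hNe : Real.exp (L / K) ≤ N := hPl.trans (by exact_mod_cast hPN)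
    have hsq : Real.sqrt N ≤ t := by
      rw [Real.sqrt_le_left ht0.le]; exact hNt.le
    have htK : t ≤ (N : ℝ) ^ K := by
      calc t = Real.exp (L / K) ^ K := by
            rw [← Real.exp_nat_mul]
            rw [mul_div_cancel₀ _ hKpos.ne', heL]
        _ ≤ (N : ℝ) ^ K := pow_le_pow_left₀ (Real.exp_pos _).le hNe K
    have hG := h3 N N' s (Real.exp (C₀ * (K : ℝ) ^ 7) * (N : ℝ) ^ (1 - 1 / (A * (K : ℝ) ^ 6)))
      hN1 hNN (by linarith) (fun M hM1 hM2 => hE K N M t hKn hN1 hM1 (hM2.trans hN2) hsq htK)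
    refine hG.trans ?_
    set κ : ℝ := 1 / (A * (K : ℝ) ^ 6) with hκ
    have hκ0 : 0 ≤ κ := by positivity
    have e1 : (N : ℝ) ^ (-s.re) * (Real.exp (C₀ * (K : ℝ) ^ 7) * (N : ℝ) ^ (1 - κ)) =
        Real.exp (C₀ * (K : ℝ) ^ 7) * (N : ℝ) ^ (1 - s.re - κ) := by
      rw [mul_left_comm, ← Real.rpow_add hN0]
      congr 2; ring
    rw [e1]
    have e2 : (N : ℝ) ^ (1 - s.re - κ) ≤ (N : ℝ) ^ θ * (N : ℝ) ^ (-κ) := by
      rw [← Real.rpow_add hN0]
      exact Real.rpow_le_rpow_of_exponent_le hN1r (by linarith)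
    have e3 : (N : ℝ) ^ θ ≤ Real.exp (3 * B * l ^ 2) := by
      calc (N : ℝ) ^ θ ≤ (t ^ 3) ^ θ := by
            refine Real.rpow_le_rpow hN0.le ?_ hθ0
            nlinarith [sq_nonneg t]
        _ = Real.exp (3 * B * l ^ 2) := by
            rw [← heL, ← Real.exp_nat_mul, ← Real.exp_mul]
            congr 1
            push_cast
            rw [mul_assoc, mul_comm L θ, hθL]; ring
    have e4 : (N : ℝ) ^ (-κ) ≤ Real.exp (-(L / K * κ)) := by
      calc (N : ℝ) ^ (-κ) ≤ Real.exp (L / K) ^ (-κ) :=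
            Real.rpow_le_rpow_of_nonpos (Real.exp_pos _) hNe (by linarith)
        _ = _ := by rw [← Real.exp_mul]; congr 1; ring
    have e5 : 3 * B * l ^ 2 + C₀ * (K : ℝ) ^ 7 ≤ L / K * κ := by
      have hA0 : 0 < A := by linarith
      have : L / K * κ = L / (A * (K : ℝ) ^ 7) := by
        rw [hκ]; field_simp
      rw [this, le_div_iff₀ (by positivity)]
      have hC0 : 0 ≤ C₀ := by linarith
      have hB0 : 0 ≤ B := by linarith
      have hl0 : 0 ≤ l := by linarith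
      calc (3 * B * l ^ 2 + C₀ * (K : ℝ) ^ 7) * (A * (K : ℝ) ^ 7) ≤
            (3 * B * l ^ 2 + C₀ * (2 * B * l) ^ 7) * (A * (2 * B * l) ^ 7) := by
            gcongr
        _ ≤ L := c2
    calc Real.exp (C₀ * (K : ℝ) ^ 7) * (N : ℝ) ^ (1 - s.re - κ) ≤
          Real.exp (C₀ * (K : ℝ) ^ 7) * (Real.exp (3 * B * l ^ 2) * Real.exp (-(L / K * κ))) := by
          gcongr
          exact e2.trans (mul_le_mul e3 e4 (by positivity) (by positivity))
      _ = Real.exp (C₀ * (K : ℝ) ^ 7 + (3 * B * l ^ 2 + -(L / K * κ))) := by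
          rw [← Real.exp_add, ← Real.exp_add]
      _ ≤ Real.exp 0 := Real.exp_le_exp.mpr (by linarith)
      _ = 1 := Real.exp_zero
  -- the number of blocks
  have hlong : ‖∑ n ∈ Ioc P X, (n : ℂ) ^ (-s)‖ ≤ 5 * L := by
    have hj := blocks (fun n => (n : ℂ) ^ (-s)) P X hP1 hPX hblock (Nat.clog 2 X)
    have hX2 : X ≤ 2 ^ Nat.clog 2 X * P := by
      calc X ≤ 2 ^ Nat.clog 2 X := Nat.le_pow_clog (by norm_num) X
        _ ≤ _ := Nat.le_mul_of_pos_right _ hP1
    rw [min_eq_right hX2] at hj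
    refine hj.trans ?_
    have hcl : (Nat.clog 2 X : ℝ) ≤ 1 + Real.log X / Real.log 2 := by
      have h0 : Nat.clog 2 X ≤ Nat.log 2 X + 1 := Nat.clog_le_of_le_pow
        (Nat.lt_pow_succ_log_self (by norm_num) X).le
      have h1' : ((Nat.log 2 X : ℕ) : ℝ) ≤ Real.log X / Real.log 2 := by
        rw [le_div_iff₀ (Real.log_pos (by norm_num)), ← Real.log_pow]
        refine Real.log_le_log (by positivity) ?_
        exact_mod_cast Nat.pow_log_le_self 2 (by omega)
      have h2' : (Nat.clog 2 X : ℝ) ≤ (Nat.log 2 X : ℝ) + 1 := by exact_mod_cast h0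
      linarith
    have hlX : Real.log X ≤ 3 * L := by
      calc Real.log X ≤ Real.log (t ^ 3) := Real.log_le_log (by linarith) hXu
        _ = 3 * L := by rw [Real.log_pow, hL]; norm_num
    have hl2 := Real.log_two_gt_d9
    have : Real.log X / Real.log 2 ≤ 3 * L / 0.69 := by
      refine div_le_div₀ (by positivity) hlX (by norm_num) (by linarith)
    have h3' : 3 * L / 0.69 ≤ 5 * L - 1 := by
      rw [div_le_iff₀ (by norm_num)]; nlinarith
    linarith
  have hmain : ‖∑ n ∈ Icc 1 X, (n : ℂ) ^ (-s)‖ ≤ 2 * L * (2 + L) + 5 * L := by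
    have hsplit : ∑ n ∈ Icc 1 X, (n : ℂ) ^ (-s) =
        ∑ n ∈ Icc 1 P, (n : ℂ) ^ (-s) + ∑ n ∈ Ioc P X, (n : ℂ) ^ (-s) := by
      have e0 : ∀ M : ℕ, Icc 1 M = Ioc 0 M := fun M => by ext x; simp [Nat.succ_le_iff]
      rw [e0, e0, Finset.sum_Ioc_consecutive _ (Nat.zero_le P) hPX]
    rw [hsplit]
    exact (norm_add_le _ _).trans (add_le_add hshort hlong)
  have hap := h2 s X (by linarith) hs1 hX1
  have hz : ‖riemannZeta s‖ ≤ 4 + (2 * L * (2 + L) + 5 * L) := by
    calc ‖riemannZeta s‖ = ‖(riemannZeta s - ∑ n ∈ Icc 1 X, (n : ℂ) ^ (-s)) +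
          ∑ n ∈ Icc 1 X, (n : ℂ) ^ (-s)‖ := by rw [sub_add_cancel]
      _ ≤ _ := norm_add_le _ _
      _ ≤ _ := add_le_add (hap.trans herr) hmain
  refine hz.trans ?_
  nlinarith [mul_nonneg hL0.le hL0.le, mul_nonneg (mul_nonneg hL0.le hL0.le) (sub_nonneg.mpr hL7),
    mul_nonneg hL0.le (sub_nonneg.mpr hL7)]

end Pool.Agent.Work.MP_a8fbd7_nt.VK
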