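/-
Block VK (problem MP_a8fbd7_nt), item HO: Hoelder over the residue classes.
-/
import Pool.Agent.Work.MP_a8fbd7_nt.VK.Stmts
import Pool.Agent.Work.MP_a8fbd7_nt.VK.Basic

set_option autoImplicit false
set_option linter.dupNamespace false

namespace Pool.Agent.Work.MP_a8fbd7_nt.VK

open Finset

namespace HO

/-- The set of pairs counted by `Nn`. -/
def big (k m : ℕ) (D : Finset (Fin k → ℤ)) (A : Finset ℤ) :
    Finset (((Fin k → ℤ) × (Fin m → ℤ)) × ((Fin k → ℤ) × (Fin m → ℤ))) :=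
  (D ×ˢ tup m A) ×ˢ (D ×ˢ tup m A)

/-- The difference of power sums. -/
def dif (k m : ℕ) (z : ((Fin k → ℤ) × (Fin m → ℤ)) × ((Fin k → ℤ) × (Fin m → ℤ))) : Fin k → ℤ :=
  (ps k z.1.1 + ps k z.1.2) - (ps k z.2.1 + ps k z.2.2)

theorem tup_mono {m : ℕ} {A B : Finset ℤ} (h : A ⊆ B) : tup m A ⊆ tup m B := by
  intro x hx
  rw [mem_tup] at hx ⊢
  exact fun i => h (hx i)

theorem big_mono {k m : ℕ} (D : Finset (Fin k → ℤ)) {A B : Finset ℤ} (h : A ⊆ B) :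
    big k m D A ⊆ big k m D B := by
  unfold big
  exact Finset.product_subset_product (Finset.product_subset_product le_rfl (tup_mono h))
    (Finset.product_subset_product le_rfl (tup_mono h))

/-- The exponential sum over a set of tuples. -/
noncomputable def G {k q : ℕ} (S : Chars k q) (D : Finset (Fin k → ℤ)) (ψ : S.Ψ) : ℂ :=
  ∑ x ∈ D, S.e ψ (ps k x)

theorem mean_N {k q : ℕ} (S : Chars k q) (m : ℕ) (D : Finset (Fin k → ℤ)) (A : Finset ℤ)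
    (h : ∀ z ∈ big k m D A, ∀ j, |dif k m z j| < (q : ℤ)) :
    ∑ ψ : S.Ψ, ‖G S D ψ‖ ^ 2 * ‖S.F A ψ‖ ^ (2 * m) =
      (Fintype.card S.Ψ : ℝ) * (Nn k m D A : ℝ) := by
  have h1 := S.count (big k m D A) (dif k m) h
  have h2 : (∑ ψ : S.Ψ, ∑ z ∈ big k m D A, S.e ψ (dif k m z)) =
      ((∑ ψ : S.Ψ, ‖G S D ψ‖ ^ 2 * ‖S.F A ψ‖ ^ (2 * m) : ℝ) : ℂ) := by
    rw [Complex.ofReal_sum]
    refine Finset.sum_congr rfl fun ψ _ => ?_
    have h3 := S.norm_sq_sum (D ×ˢ tup m A) (fun z => ps k z.1 + ps k z.2) ψ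
    have h4 : (∑ z ∈ D ×ˢ tup m A, S.e ψ (ps k z.1 + ps k z.2)) = G S D ψ * S.F A ψ ^ m := by
      rw [S.F_pow, G, Finset.sum_mul_sum, Finset.sum_product]
      exact Finset.sum_congr rfl fun x _ => Finset.sum_congr rfl fun y _ => S.e_add ψ _ _
    rw [h4] at h3
    rw [norm_mul, mul_pow, norm_pow, ← pow_mul, mul_comm m 2] at h3
    exact h3.symm
  rw [h2] at h1
  have h3 : ((big k m D A).filter fun z => dif k m z = 0).card = Nn k m D A := by
    unfold Nn big dif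
    congr 1
    exact Finset.filter_congr fun z _ => sub_eq_zero
  rw [h3] at h1
  exact_mod_cast h1

theorem F_split {k q : ℕ} (S : Chars k q) (p : ℕ) (hp : 0 < p) (A : Finset ℤ) (ψ : S.Ψ) :
    S.F A ψ = ∑ a ∈ range p, S.F (cls p a A) ψ := by
  classical
  unfold Chars.F
  have hp' : (0 : ℤ) < p := by exact_mod_cast hp
  have h1 : ∀ x ∈ A, (x % (p : ℤ)).toNat ∈ range p := by
    intro x _
    rw [Finset.mem_range]
    have h2 := Int.emod_nonneg x hp'.ne'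
    have h3 := Int.emod_lt_of_pos x hp'
    omega
  rw [← Finset.sum_fiberwise_of_maps_to h1 (fun x => S.e ψ (pv k x))]
  refine Finset.sum_congr rfl fun a _ => ?_
  refine Finset.sum_congr ?_ fun x _ => rfl
  unfold cls
  refine Finset.filter_congr fun x _ => ?_
  have h2 := Int.emod_nonneg x hp'.ne'
  constructor
  · intro h
    rw [← h]
    exact (Int.toNat_of_nonneg h2).symm
  · intro h
    rw [h]
    exact Int.toNat_natCast a

theorem pow_mean {ι : Type} (t : Finset ι) (f : ι → ℝ) (hf : ∀ a ∈ t, 0 ≤ f a) (n : ℕ)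
    (hn : 1 ≤ n) : (∑ a ∈ t, f a) ^ n ≤ (t.card : ℝ) ^ (n - 1) * ∑ a ∈ t, f a ^ n := by
  obtain ⟨n, rfl⟩ := Nat.exists_eq_add_of_le' hn
  rw [Nat.add_sub_cancel]
  rcases t.eq_empty_or_nonempty with h | h
  · subst h
    simp
  · have h1 := pow_sum_div_card_le_sum_pow (s := t) (f := f) hf n
    have h2 : (0 : ℝ) < (t.card : ℝ) ^ n := pow_pos (by exact_mod_cast h.card_pos) n
    rw [div_le_iff₀ h2] at h1
    rw [mul_comm]
    exact h1

theorem F_bound {k q : ℕ} (S : Chars k q) (p : ℕ) (hp : 0 < p) (m : ℕ) (hm : 1 ≤ m)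
    (A : Finset ℤ) (ψ : S.Ψ) :
    ‖S.F A ψ‖ ^ (2 * m) ≤ (p : ℝ) ^ (2 * m - 1) * ∑ a ∈ range p, ‖S.F (cls p a A) ψ‖ ^ (2 * m) := by
  have h1 : ‖S.F A ψ‖ ≤ ∑ a ∈ range p, ‖S.F (cls p a A) ψ‖ := by
    rw [F_split S p hp A ψ]
    exact norm_sum_le _ _
  have h2 := pow_mean (range p) (fun a => ‖S.F (cls p a A) ψ‖) (fun a _ => norm_nonneg _)
    (2 * m) (by omega)
  rw [Finset.card_range] at h2
  exact (pow_le_pow_left₀ (norm_nonneg _) h1 _).trans h2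

end HO

theorem prf_HO (h : CH) : HO := by
  intro k m p hp hm D A
  obtain ⟨q, hq, hb⟩ := exists_q (HO.big k m D A) (HO.dif k m)
  obtain ⟨S⟩ := h k q hq
  have h1 := HO.mean_N S m D A hb
  have h2 : ∀ a, ∑ ψ : S.Ψ, ‖HO.G S D ψ‖ ^ 2 * ‖S.F (cls p a A) ψ‖ ^ (2 * m) =
      (Fintype.card S.Ψ : ℝ) * (Nn k m D (cls p a A) : ℝ) := fun a =>
    HO.mean_N S m D (cls p a A) fun z hz =>
      hb z (HO.big_mono D (Finset.filter_subset _ _) hz)
  have h3 : (Fintype.card S.Ψ : ℝ) * (Nn k m D A : ℝ) ≤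
      (Fintype.card S.Ψ : ℝ) * ((p : ℝ) ^ (2 * m - 1) *
        ∑ a ∈ range p, (Nn k m D (cls p a A) : ℝ)) := by
    calc (Fintype.card S.Ψ : ℝ) * (Nn k m D A : ℝ)
        = ∑ ψ : S.Ψ, ‖HO.G S D ψ‖ ^ 2 * ‖S.F A ψ‖ ^ (2 * m) := h1.symm
      _ ≤ ∑ ψ : S.Ψ, ‖HO.G S D ψ‖ ^ 2 * ((p : ℝ) ^ (2 * m - 1) *
            ∑ a ∈ range p, ‖S.F (cls p a A) ψ‖ ^ (2 * m)) :=
          Finset.sum_le_sum fun ψ _ =>
            mul_le_mul_of_nonneg_left (HO.F_bound S p hp m hm A ψ) (sq_nonneg _)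
      _ = (p : ℝ) ^ (2 * m - 1) * ∑ a ∈ range p,
            ∑ ψ : S.Ψ, ‖HO.G S D ψ‖ ^ 2 * ‖S.F (cls p a A) ψ‖ ^ (2 * m) := by
          rw [Finset.sum_comm, Finset.mul_sum]
          refine Finset.sum_congr rfl fun ψ _ => ?_
          rw [← Finset.mul_sum]
          ring
      _ = (p : ℝ) ^ (2 * m - 1) * ∑ a ∈ range p,
            (Fintype.card S.Ψ : ℝ) * (Nn k m D (cls p a A) : ℝ) := by
          rw [Finset.sum_congr rfl fun a _ => h2 a]
      _ = _ := by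
          rw [← Finset.mul_sum]
          ring
  have h4 := le_of_mul_le_mul_left h3 S.card_pos
  exact_mod_cast h4

end Pool.Agent.Work.MP_a8fbd7_nt.VK
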