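/-
Block VK (problem MP_a8fbd7_nt), item IN: the induction of the mean value theorem.
Author: helper81.
-/
import Pool.Agent.Work.MP_a8fbd7_nt.VK.Stmts
import Pool.Agent.Work.MP_a8fbd7_nt.VK.Basic

set_option autoImplicit false
set_option linter.dupNamespace false

namespace Pool.Agent.Work.MP_a8fbd7_nt.VK

open Finset

namespace IN

lemma J_triv (k s X : ℕ) : J k s X ≤ X ^ (2 * s) := by
  unfold J En
  refine (Finset.card_filter_le _ _).trans ?_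
  rw [Finset.card_product, card_tup, card_ivl, two_mul, pow_add]

/-- `log x ≤ x - 1` for naturals, in the form `x ≤ exp (x - 1)`. -/
lemma le_exp (x : ℝ) : x ≤ Real.exp (x - 1) := by
  have := Real.add_one_le_exp (x - 1)
  linarith

/-- small `X`. -/
lemma small (k s X : ℕ) (g : ℝ) (hk : 2 ≤ k) (hX : 1 ≤ X) (hXs : X ≤ (k + 2) ^ k)
    (hg : 0 ≤ g) :
    (X : ℝ) ^ (2 * s) ≤ Real.exp (100 * (k : ℝ) ^ 4) *
      (X : ℝ) ^ (2 * (s : ℝ) - (k : ℝ) * (k + 1) / 2 + g) := by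
  have hk2 : (2 : ℝ) ≤ k := by exact_mod_cast hk
  have hX1 : (1 : ℝ) ≤ X := by exact_mod_cast hX
  have hX0 : (0 : ℝ) < X := by linarith
  have h1 : (X : ℝ) ^ (2 * s) = (X : ℝ) ^ (2 * (s : ℝ) - (k : ℝ) * (k + 1) / 2 + g) *
      (X : ℝ) ^ ((k : ℝ) * (k + 1) / 2 - g) := by
    rw [← Real.rpow_add hX0, ← Real.rpow_natCast]
    congr 1
    push_cast
    ring
  have h2 : (X : ℝ) ^ ((k : ℝ) * (k + 1) / 2 - g) ≤ (X : ℝ) ^ ((k : ℝ) * (k + 1) / 2) :=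
    Real.rpow_le_rpow_of_exponent_le hX1 (by linarith)
  have h3 : (X : ℝ) ≤ Real.exp (((k : ℝ) + 1) * k) := by
    have h4 : (X : ℝ) ≤ ((k : ℝ) + 2) ^ k := by exact_mod_cast hXs
    have h5 : (k : ℝ) + 2 ≤ Real.exp ((k : ℝ) + 1) := by
      have := Real.add_one_le_exp ((k : ℝ) + 1)
      linarith
    calc (X : ℝ) ≤ ((k : ℝ) + 2) ^ k := h4
      _ ≤ (Real.exp ((k : ℝ) + 1)) ^ k := pow_le_pow_left₀ (by linarith) h5 k
      _ = Real.exp (((k : ℝ) + 1) * k) := by rw [← Real.exp_nat_mul]; ring_nf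
  have h6 : (X : ℝ) ^ ((k : ℝ) * (k + 1) / 2) ≤ Real.exp (100 * (k : ℝ) ^ 4) := by
    calc (X : ℝ) ^ ((k : ℝ) * (k + 1) / 2) ≤
        (Real.exp (((k : ℝ) + 1) * k)) ^ ((k : ℝ) * (k + 1) / 2) :=
          Real.rpow_le_rpow hX0.le h3 (by positivity)
      _ = Real.exp ((((k : ℝ) + 1) * k) * ((k : ℝ) * (k + 1) / 2)) := by rw [← Real.exp_mul]
      _ ≤ Real.exp (100 * (k : ℝ) ^ 4) := by
          apply Real.exp_le_exp.mpr
          have h7 : ((k : ℝ) + 1) * k ≤ 2 * (k : ℝ) ^ 2 := by nlinarith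
          have h8 : (0 : ℝ) ≤ ((k : ℝ) + 1) * k := by positivity
          have h9 : (((k : ℝ) + 1) * k) * (((k : ℝ) + 1) * k) ≤ 2 * (k : ℝ) ^ 2 * (2 * (k : ℝ) ^ 2) :=
            mul_le_mul h7 h7 h8 (by positivity)
          have h10 : (0 : ℝ) ≤ (k : ℝ) ^ 4 := by positivity
          nlinarith
  rw [h1, mul_comm]
  exact mul_le_mul_of_nonneg_right (h2.trans h6) (Real.rpow_nonneg hX0.le _)

/-- the prime. -/
lemma prime (k X : ℕ) (hk : 2 ≤ k) (hX : (k + 2) ^ k < X) :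
    ∃ p : ℕ, p.Prime ∧ k < p ∧ X ≤ p ^ k ∧ (p : ℝ) ≤ 4 * (X : ℝ) ^ (1 / (k : ℝ)) ∧
      (p : ℝ) ≤ X := by
  obtain ⟨y, hy⟩ : ∃ y : ℝ, y = (X : ℝ) ^ (1 / (k : ℝ)) := ⟨_, rfl⟩
  have hk2 : (2 : ℝ) ≤ k := by exact_mod_cast hk
  have hk0 : k ≠ 0 := by omega
  have hXr : ((k : ℝ) + 2) ^ k < X := by exact_mod_cast hX
  have hX0 : (0 : ℝ) ≤ X := Nat.cast_nonneg X
  have hy0 : 0 ≤ y := by rw [hy]; exact Real.rpow_nonneg hX0 _
  have hyk : y ^ k = X := by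
    rw [hy, one_div]
    exact Real.rpow_inv_natCast_pow hX0 hk0
  have hyk2 : (k : ℝ) + 2 < y := by
    by_contra hcon
    push Not at hcon
    have := pow_le_pow_left₀ hy0 hcon k
    rw [hyk] at this
    linarith
  have hn1 : y ≤ (⌈y⌉₊ : ℝ) := Nat.le_ceil y
  have hn2 : (⌈y⌉₊ : ℝ) < y + 1 := Nat.ceil_lt_add_one hy0
  have hn0 : ⌈y⌉₊ ≠ 0 := by
    intro h0
    rw [h0] at hn1
    simp at hn1
    linarith
  obtain ⟨p, hp, hnp, hp2⟩ := Nat.exists_prime_lt_and_le_two_mul ⌈y⌉₊ hn0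
  have hnp' : (⌈y⌉₊ : ℝ) < p := by exact_mod_cast hnp
  have hp2' : (p : ℝ) ≤ 2 * (⌈y⌉₊ : ℝ) := by exact_mod_cast hp2
  have hyp : y ≤ p := by linarith
  have hp4 : (p : ℝ) ≤ 4 * y := by linarith
  refine ⟨p, hp, ?_, ?_, ?_, ?_⟩
  · have : (k : ℝ) < p := by linarith
    exact_mod_cast this
  · have h1 : (X : ℝ) ≤ (p : ℝ) ^ k := by
      rw [← hyk]
      exact pow_le_pow_left₀ hy0 hyp k
    exact_mod_cast h1
  · rw [← hy]; exact hp4
  · refine hp4.trans ?_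
    obtain ⟨j, rfl⟩ : ∃ j, k = j + 2 := ⟨k - 2, by omega⟩
    rw [← hyk, pow_succ]
    refine mul_le_mul_of_nonneg_right ?_ hy0
    have hy4 : 4 ≤ y := by linarith
    calc (4 : ℝ) ≤ y := hy4
      _ = y ^ 1 := (pow_one y).symm
      _ ≤ y ^ (j + 1) := pow_le_pow_right₀ (by linarith) (by omega)

/-- the second term of the recursion. -/
lemma second (k m : ℕ) (P X M : ℝ) (hP : 1 ≤ P) (hX : 0 ≤ X) (hM : 0 ≤ M)
    (hXP : X ≤ P ^ k) (hMX : M ≤ 2 * X / P) (hm : k ^ 2 ≤ m) (q : ℕ) :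
    P ^ (2 * (k - 1)) * M ^ (2 * k) ≤ 4 ^ k * (X ^ k * P ^ (2 * m + q)) := by
  have hP0 : 0 < P := by linarith
  have h1 : M ^ (2 * k) ≤ (2 * X / P) ^ (2 * k) := pow_le_pow_left₀ hM hMX _
  have h2 : (2 * X / P) ^ (2 * k) = 4 ^ k * (X ^ k * X ^ k) / P ^ (2 * k) := by
    have h0 : (X ^ 2) ^ k = X ^ k * X ^ k := by rw [← mul_pow, sq]
    rw [div_pow, mul_pow, pow_mul (2 : ℝ), pow_mul X 2 k, h0]
    norm_num
  have h3 : P ^ (2 * (k - 1)) ≤ P ^ (2 * k) := pow_le_pow_right₀ hP (by omega)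
  have h4 : X ^ k ≤ P ^ (k ^ 2) := by
    calc X ^ k ≤ (P ^ k) ^ k := pow_le_pow_left₀ hX hXP k
      _ = P ^ (k ^ 2) := by rw [← pow_mul, sq]
  have h5 : P ^ (k ^ 2) ≤ P ^ (2 * m + q) := pow_le_pow_right₀ hP (by omega)
  have hPk : 0 < P ^ (2 * k) := by positivity
  calc P ^ (2 * (k - 1)) * M ^ (2 * k)
      ≤ P ^ (2 * k) * (4 ^ k * (X ^ k * X ^ k) / P ^ (2 * k)) := by
        rw [← h2]
        exact mul_le_mul h3 h1 (by positivity) hPk.le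
    _ = 4 ^ k * (X ^ k * X ^ k) := by field_simp
    _ ≤ 4 ^ k * (X ^ k * P ^ (2 * m + q)) := by
        refine mul_le_mul_of_nonneg_left ?_ (by positivity)
        exact mul_le_mul_of_nonneg_left (h4.trans h5) (by positivity)

/-- the cast of the triangular number. -/
lemma tri (k : ℕ) (hk : 1 ≤ k) : ((k * (k - 1) / 2 : ℕ) : ℝ) = (k : ℝ) * (k - 1) / 2 := by
  have h1 : k * (k - 1) / 2 * 2 = k * (k - 1) := Nat.div_mul_cancel (Nat.even_mul_pred_self k).two_dvd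
  have h2 : ((k * (k - 1) / 2 * 2 : ℕ) : ℝ) = ((k * (k - 1) : ℕ) : ℝ) := by rw [h1]
  push_cast [Nat.cast_sub hk] at h2
  rw [eq_div_iff (by norm_num : (2 : ℝ) ≠ 0)]
  exact h2

/-- the powers. -/
lemma powers (k m : ℕ) (P X g : ℝ) (hk : 2 ≤ k) (hP : 1 ≤ P) (hX : 1 ≤ X)
    (hPX : P ≤ 4 * X ^ (1 / (k : ℝ))) (hm : k ^ 2 ≤ m) (hg : 0 ≤ g)
    (hgk : g ≤ (k : ℝ) * (k + 1) / 2) :
    X ^ k * P ^ (2 * m + k * (k - 1) / 2) *
      (2 * X / P) ^ (2 * (m : ℝ) - (k : ℝ) * (k + 1) / 2 + g) ≤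
      2 ^ (2 * m) * 4 ^ (k ^ 2) *
        X ^ (2 * ((m : ℝ) + k) - (k : ℝ) * (k + 1) / 2 + g * (1 - 1 / (k : ℝ))) := by
  have hk2 : (2 : ℝ) ≤ k := by exact_mod_cast hk
  have hk0 : (k : ℝ) ≠ 0 := by linarith
  have hP0 : 0 < P := by linarith
  have hX0 : 0 < X := by linarith
  have hmr : (k : ℝ) ^ 2 ≤ m := by exact_mod_cast hm
  obtain ⟨E, hE⟩ : ∃ E : ℝ, E = 2 * (m : ℝ) - (k : ℝ) * (k + 1) / 2 + g := ⟨_, rfl⟩
  have hE0 : 0 ≤ E := by nlinarith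
  have hEm : E ≤ ((2 * m : ℕ) : ℝ) := by push_cast; linarith
  have h1 : (2 * X / P) ^ E = 2 ^ E * X ^ E * P ^ (-E) := by
    rw [Real.div_rpow (by positivity) hP0.le, Real.mul_rpow (by norm_num) hX0.le,
      Real.rpow_neg hP0.le, div_eq_mul_inv]
  have h2 : P ^ (2 * m + k * (k - 1) / 2) = P ^ (2 * (m : ℝ) + (k : ℝ) * (k - 1) / 2) := by
    rw [← Real.rpow_natCast]
    congr 1
    rw [Nat.cast_add, tri k (by omega)]
    push_cast
    ring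
  have h3 : P ^ (2 * (m : ℝ) + (k : ℝ) * (k - 1) / 2) * P ^ (-E) = P ^ ((k : ℝ) ^ 2 - g) := by
    rw [← Real.rpow_add hP0]
    congr 1
    rw [hE]
    ring
  have hkg : 0 ≤ (k : ℝ) ^ 2 - g := by nlinarith
  have h4 : P ^ ((k : ℝ) ^ 2 - g) ≤ 4 ^ (k ^ 2) * X ^ ((k : ℝ) - g / k) := by
    calc P ^ ((k : ℝ) ^ 2 - g) ≤ (4 * X ^ (1 / (k : ℝ))) ^ ((k : ℝ) ^ 2 - g) :=
          Real.rpow_le_rpow hP0.le hPX hkg
      _ = 4 ^ ((k : ℝ) ^ 2 - g) * X ^ ((k : ℝ) - g / k) := by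
          rw [Real.mul_rpow (by norm_num) (Real.rpow_nonneg hX0.le _), ← Real.rpow_mul hX0.le]
          congr 2
          field_simp
      _ ≤ 4 ^ (k ^ 2) * X ^ ((k : ℝ) - g / k) := by
          refine mul_le_mul_of_nonneg_right ?_ (Real.rpow_nonneg hX0.le _)
          rw [← Real.rpow_natCast (4 : ℝ) (k ^ 2)]
          apply Real.rpow_le_rpow_of_exponent_le (by norm_num)
          push_cast
          linarith
  have h5 : (2 : ℝ) ^ E ≤ 2 ^ (2 * m) := by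
    rw [← Real.rpow_natCast]
    exact Real.rpow_le_rpow_of_exponent_le (by norm_num) hEm
  have h6 : X ^ k * X ^ E * X ^ ((k : ℝ) - g / k) =
      X ^ (2 * ((m : ℝ) + k) - (k : ℝ) * (k + 1) / 2 + g * (1 - 1 / (k : ℝ))) := by
    rw [← Real.rpow_natCast, ← Real.rpow_add hX0, ← Real.rpow_add hX0]
    congr 1
    rw [hE]
    ring
  have hXE : 0 ≤ X ^ k * X ^ E := mul_nonneg (by positivity) (Real.rpow_nonneg hX0.le _)
  rw [← hE, h1, h2]
  calc X ^ k * P ^ (2 * (m : ℝ) + (k : ℝ) * (k - 1) / 2) * (2 ^ E * X ^ E * P ^ (-E))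
      = 2 ^ E * (X ^ k * X ^ E * (P ^ (2 * (m : ℝ) + (k : ℝ) * (k - 1) / 2) * P ^ (-E))) := by ring
    _ = 2 ^ E * (X ^ k * X ^ E * P ^ ((k : ℝ) ^ 2 - g)) := by rw [h3]
    _ ≤ 2 ^ (2 * m) * (X ^ k * X ^ E * (4 ^ (k ^ 2) * X ^ ((k : ℝ) - g / k))) := by
        refine mul_le_mul h5 (mul_le_mul_of_nonneg_left h4 hXE) ?_ (by positivity)
        exact mul_nonneg hXE (Real.rpow_nonneg hP0.le _)
    _ = 2 ^ (2 * m) * 4 ^ (k ^ 2) * (X ^ k * X ^ E * X ^ ((k : ℝ) - g / k)) := by ring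
    _ = _ := by rw [h6]

/-- the constant. -/
lemma const (k m : ℕ) (hk : 2 ≤ k) (hs : k + m ≤ 2 * k ^ 3) :
    (2 * ((Nat.factorial (k + m) : ℝ)) ^ 2 * Nat.factorial k +
      16 * 4 ^ k * (k : ℝ) ^ (2 * (k + m))) * (2 ^ (2 * m) * 4 ^ (k ^ 2)) ≤
      Real.exp (100 * (k : ℝ) ^ 4) := by
  have hk2 : (2 : ℝ) ≤ k := by exact_mod_cast hk
  have hk1 : (1 : ℝ) ≤ k := by linarith
  have hsr : ((k + m : ℕ) : ℝ) ≤ 2 * (k : ℝ) ^ 3 := by exact_mod_cast hs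
  have hmr : (m : ℝ) ≤ 2 * (k : ℝ) ^ 3 := by
    have : (m : ℝ) ≤ ((k + m : ℕ) : ℝ) := by push_cast; linarith
    linarith
  have hk34 : (k : ℝ) ^ 3 ≤ (k : ℝ) ^ 4 := pow_le_pow_right₀ hk1 (by norm_num)
  have hk24 : (k : ℝ) ^ 2 ≤ (k : ℝ) ^ 4 := pow_le_pow_right₀ hk1 (by norm_num)
  have hk14 : (k : ℝ) ≤ (k : ℝ) ^ 4 := by
    calc (k : ℝ) = (k : ℝ) ^ 1 := (pow_one _).symm
      _ ≤ (k : ℝ) ^ 4 := pow_le_pow_right₀ hk1 (by norm_num)
  have hk04 : 1 ≤ (k : ℝ) ^ 4 := hk1.trans hk14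
  have hexpk : (k : ℝ) ≤ Real.exp k := by
    have := Real.add_one_le_exp (k : ℝ)
    linarith
  have h2 : (2 : ℝ) ≤ Real.exp 1 := by
    have := Real.add_one_le_exp (1 : ℝ)
    linarith
  -- `s ≤ exp (3 k)`
  have hs1 : ((k + m : ℕ) : ℝ) ≤ Real.exp (3 * (k : ℝ)) := by
    have h3 : (k : ℝ) ≤ Real.exp ((k : ℝ) - 1) := le_exp k
    calc ((k + m : ℕ) : ℝ) ≤ 2 * (k : ℝ) ^ 3 := hsr
      _ ≤ Real.exp 1 * (Real.exp ((k : ℝ) - 1)) ^ 3 :=
          mul_le_mul h2 (pow_le_pow_left₀ (by linarith) h3 3) (by positivity) (by positivity)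
      _ = Real.exp (1 + 3 * ((k : ℝ) - 1)) := by
          rw [← Real.exp_nat_mul, ← Real.exp_add]
          push_cast
          rfl
      _ ≤ Real.exp (3 * (k : ℝ)) := Real.exp_le_exp.mpr (by linarith)
  have hfac : (Nat.factorial (k + m) : ℝ) ≤ Real.exp (6 * (k : ℝ) ^ 4) := by
    calc (Nat.factorial (k + m) : ℝ) ≤ ((k + m : ℕ) : ℝ) ^ (k + m) := by
          exact_mod_cast Nat.factorial_le_pow (k + m)
      _ ≤ (Real.exp (3 * (k : ℝ))) ^ (k + m) := pow_le_pow_left₀ (Nat.cast_nonneg _) hs1 _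
      _ = Real.exp (((k + m : ℕ) : ℝ) * (3 * (k : ℝ))) := by rw [← Real.exp_nat_mul]
      _ ≤ Real.exp (6 * (k : ℝ) ^ 4) := by
          apply Real.exp_le_exp.mpr
          calc ((k + m : ℕ) : ℝ) * (3 * (k : ℝ)) ≤ 2 * (k : ℝ) ^ 3 * (3 * (k : ℝ)) :=
                mul_le_mul_of_nonneg_right hsr (by positivity)
            _ = 6 * (k : ℝ) ^ 4 := by ring
  have hfk : (Nat.factorial k : ℝ) ≤ Real.exp ((k : ℝ) ^ 4) := by
    calc (Nat.factorial k : ℝ) ≤ (k : ℝ) ^ k := by exact_mod_cast Nat.factorial_le_pow k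
      _ ≤ (Real.exp k) ^ k := pow_le_pow_left₀ (Nat.cast_nonneg _) hexpk _
      _ = Real.exp ((k : ℝ) * k) := by rw [← Real.exp_nat_mul]
      _ ≤ Real.exp ((k : ℝ) ^ 4) := Real.exp_le_exp.mpr (by nlinarith)
  have ht2 : (2 : ℝ) ≤ Real.exp ((k : ℝ) ^ 4) := h2.trans (Real.exp_le_exp.mpr hk04)
  have hA : 2 * ((Nat.factorial (k + m) : ℝ)) ^ 2 * Nat.factorial k ≤
      Real.exp (14 * (k : ℝ) ^ 4) := by
    calc 2 * ((Nat.factorial (k + m) : ℝ)) ^ 2 * Nat.factorial k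
        ≤ Real.exp ((k : ℝ) ^ 4) * (Real.exp (6 * (k : ℝ) ^ 4)) ^ 2 * Real.exp ((k : ℝ) ^ 4) := by
          refine mul_le_mul (mul_le_mul ht2 (pow_le_pow_left₀ (Nat.cast_nonneg _) hfac 2)
            (by positivity) (by positivity)) hfk (Nat.cast_nonneg _) (by positivity)
      _ = Real.exp (14 * (k : ℝ) ^ 4) := by
          rw [← Real.exp_nat_mul, ← Real.exp_add, ← Real.exp_add]
          congr 1
          push_cast
          ring
  have h4e : (4 : ℝ) ≤ Real.exp 2 := by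
    have : Real.exp 2 = Real.exp 1 * Real.exp 1 := by rw [← Real.exp_add]; norm_num
    rw [this]
    nlinarith
  have h4k : (4 : ℝ) ^ k ≤ Real.exp (2 * (k : ℝ) ^ 4) := by
    calc (4 : ℝ) ^ k ≤ (Real.exp 2) ^ k := pow_le_pow_left₀ (by norm_num) h4e _
      _ = Real.exp ((k : ℝ) * 2) := by rw [← Real.exp_nat_mul]
      _ ≤ Real.exp (2 * (k : ℝ) ^ 4) := Real.exp_le_exp.mpr (by linarith)
  have h16 : (16 : ℝ) ≤ Real.exp (4 * (k : ℝ) ^ 4) := by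
    calc (16 : ℝ) = 2 ^ 4 := by norm_num
      _ ≤ (Real.exp ((k : ℝ) ^ 4)) ^ 4 := pow_le_pow_left₀ (by norm_num) ht2 4
      _ = Real.exp (4 * (k : ℝ) ^ 4) := by
          rw [← Real.exp_nat_mul]
          push_cast
          rfl
  have hkp : (k : ℝ) ^ (2 * (k + m)) ≤ Real.exp (4 * (k : ℝ) ^ 4) := by
    calc (k : ℝ) ^ (2 * (k + m)) ≤ (Real.exp k) ^ (2 * (k + m)) :=
          pow_le_pow_left₀ (Nat.cast_nonneg _) hexpk _
      _ = Real.exp (2 * ((k + m : ℕ) : ℝ) * k) := by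
          rw [← Real.exp_nat_mul]
          push_cast
          rfl
      _ ≤ Real.exp (4 * (k : ℝ) ^ 4) := by
          apply Real.exp_le_exp.mpr
          calc 2 * ((k + m : ℕ) : ℝ) * k ≤ 2 * (2 * (k : ℝ) ^ 3) * k :=
                mul_le_mul_of_nonneg_right (by linarith) (by linarith)
            _ = 4 * (k : ℝ) ^ 4 := by ring
  have hB : 16 * 4 ^ k * (k : ℝ) ^ (2 * (k + m)) ≤ Real.exp (14 * (k : ℝ) ^ 4) := by
    calc 16 * 4 ^ k * (k : ℝ) ^ (2 * (k + m))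
        ≤ Real.exp (4 * (k : ℝ) ^ 4) * Real.exp (2 * (k : ℝ) ^ 4) * Real.exp (4 * (k : ℝ) ^ 4) :=
          mul_le_mul (mul_le_mul h16 h4k (by positivity) (by positivity)) hkp (by positivity)
            (by positivity)
      _ = Real.exp (10 * (k : ℝ) ^ 4) := by
          rw [← Real.exp_add, ← Real.exp_add]
          congr 1
          ring
      _ ≤ Real.exp (14 * (k : ℝ) ^ 4) := Real.exp_le_exp.mpr (by linarith)
  have hC : (2 : ℝ) ^ (2 * m) ≤ Real.exp (4 * (k : ℝ) ^ 4) := by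
    calc (2 : ℝ) ^ (2 * m) ≤ (Real.exp 1) ^ (2 * m) := pow_le_pow_left₀ (by norm_num) h2 _
      _ = Real.exp (2 * (m : ℝ)) := by
          rw [← Real.exp_nat_mul]
          push_cast
          ring_nf
      _ ≤ Real.exp (4 * (k : ℝ) ^ 4) := Real.exp_le_exp.mpr (by linarith)
  have hD : (4 : ℝ) ^ (k ^ 2) ≤ Real.exp (2 * (k : ℝ) ^ 4) := by
    calc (4 : ℝ) ^ (k ^ 2) ≤ (Real.exp 2) ^ (k ^ 2) := pow_le_pow_left₀ (by norm_num) h4e _
      _ = Real.exp ((k : ℝ) ^ 2 * 2) := by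
          rw [← Real.exp_nat_mul]
          push_cast
          rfl
      _ ≤ Real.exp (2 * (k : ℝ) ^ 4) := Real.exp_le_exp.mpr (by linarith)
  have hAB : 2 * ((Nat.factorial (k + m) : ℝ)) ^ 2 * Nat.factorial k +
      16 * 4 ^ k * (k : ℝ) ^ (2 * (k + m)) ≤ Real.exp (15 * (k : ℝ) ^ 4) := by
    calc 2 * ((Nat.factorial (k + m) : ℝ)) ^ 2 * Nat.factorial k +
        16 * 4 ^ k * (k : ℝ) ^ (2 * (k + m)) ≤ 2 * Real.exp (14 * (k : ℝ) ^ 4) := by linarith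
      _ ≤ Real.exp ((k : ℝ) ^ 4) * Real.exp (14 * (k : ℝ) ^ 4) :=
          mul_le_mul_of_nonneg_right ht2 (Real.exp_nonneg _)
      _ = Real.exp (15 * (k : ℝ) ^ 4) := by
          rw [← Real.exp_add]
          congr 1
          ring
  calc (2 * ((Nat.factorial (k + m) : ℝ)) ^ 2 * Nat.factorial k +
      16 * 4 ^ k * (k : ℝ) ^ (2 * (k + m))) * (2 ^ (2 * m) * 4 ^ (k ^ 2))
      ≤ Real.exp (15 * (k : ℝ) ^ 4) * (Real.exp (4 * (k : ℝ) ^ 4) * Real.exp (2 * (k : ℝ) ^ 4)) :=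
        mul_le_mul hAB (mul_le_mul hC hD (by positivity) (by positivity)) (by positivity)
          (by positivity)
    _ = Real.exp (21 * (k : ℝ) ^ 4) := by
        rw [← Real.exp_add, ← Real.exp_add]
        congr 1
        ring
    _ ≤ Real.exp (100 * (k : ℝ) ^ 4) := Real.exp_le_exp.mpr (by linarith)

/-- bounds for `δ_l`. -/
lemma delta (k l : ℕ) (hk : 2 ≤ k) : 0 ≤ (k : ℝ) * (k + 1) / 2 * (1 - 1 / (k : ℝ)) ^ l ∧
    (k : ℝ) * (k + 1) / 2 * (1 - 1 / (k : ℝ)) ^ l ≤ (k : ℝ) * (k + 1) / 2 := by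
  have hk2 : (2 : ℝ) ≤ k := by exact_mod_cast hk
  have h1 : 1 / (k : ℝ) ≤ 1 := by
    rw [div_le_one (by linarith)]
    linarith
  have h2 : 0 ≤ 1 / (k : ℝ) := by positivity
  have h3 : 0 ≤ (1 - 1 / (k : ℝ)) ^ l := pow_nonneg (by linarith) _
  have h4 : (1 - 1 / (k : ℝ)) ^ l ≤ 1 := pow_le_one₀ (by linarith) (by linarith)
  have h5 : 0 ≤ (k : ℝ) * (k + 1) / 2 := by positivity
  exact ⟨mul_nonneg h5 h3, mul_le_of_le_one_right h5 h4⟩

end IN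

theorem prf_IN (h : RE) : IN := by
  intro k hk l
  have hk2 : (2 : ℝ) ≤ k := by exact_mod_cast hk
  induction l with
  | zero =>
    intro _ X hX
    have hX1 : (1 : ℝ) ≤ X := by exact_mod_cast hX
    have h1 : (J k (k ^ 2 + k * 0) X : ℝ) ≤ (X : ℝ) ^ (2 * (k ^ 2)) := by
      have := IN.J_triv k (k ^ 2 + k * 0) X
      simp only [mul_zero, add_zero] at this ⊢
      exact_mod_cast this
    have h2 : (X : ℝ) ^ (2 * (k ^ 2)) = (X : ℝ) ^ (2 * ((k : ℝ) ^ 2 + k * ((0 : ℕ) : ℝ)) -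
        (k : ℝ) * (k + 1) / 2 + (k : ℝ) * (k + 1) / 2 * (1 - 1 / (k : ℝ)) ^ 0) := by
      rw [← Real.rpow_natCast]
      congr 1
      push_cast
      ring
    rw [h2] at h1
    refine h1.trans ?_
    refine le_mul_of_one_le_left (Real.rpow_nonneg (by linarith) _) ?_
    exact Real.one_le_exp (by positivity)
  | succ l ih =>
    intro hl X hX
    have hl' : l ≤ k ^ 2 := by omega
    have hX1 : (1 : ℝ) ≤ X := by exact_mod_cast hX
    have hX0 : (0 : ℝ) < X := by linarith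
    obtain ⟨hd0, _⟩ := IN.delta k (l + 1) hk
    obtain ⟨he0, he1⟩ := IN.delta k l hk
    by_cases hXs : X ≤ (k + 2) ^ k
    · have h1 : (J k (k ^ 2 + k * (l + 1)) X : ℝ) ≤ (X : ℝ) ^ (2 * (k ^ 2 + k * (l + 1))) := by
        exact_mod_cast IN.J_triv k (k ^ 2 + k * (l + 1)) X
      have h2 := IN.small k (k ^ 2 + k * (l + 1)) X _ hk hX hXs hd0
      refine h1.trans (h2.trans ?_)
      have h3 : (2 * ((k ^ 2 + k * (l + 1) : ℕ) : ℝ) - (k : ℝ) * (k + 1) / 2 +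
          (k : ℝ) * (k + 1) / 2 * (1 - 1 / (k : ℝ)) ^ (l + 1)) =
          (2 * ((k : ℝ) ^ 2 + k * ((l + 1 : ℕ) : ℝ)) - (k : ℝ) * (k + 1) / 2 +
          (k : ℝ) * (k + 1) / 2 * (1 - 1 / (k : ℝ)) ^ (l + 1)) := by
        push_cast
        ring
      rw [h3]
      refine mul_le_mul_of_nonneg_right ?_ (Real.rpow_nonneg hX0.le _)
      apply Real.exp_le_exp.mpr
      have h4 : 0 ≤ 100 * (k : ℝ) ^ 4 * ((l + 1 : ℕ) : ℝ) := by positivity
      linarith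
    · push Not at hXs
      obtain ⟨p, hp, hkp, hXp, hp4, hpX⟩ := IN.prime k X hk hXs
      obtain ⟨m, hm⟩ : ∃ m, m = k ^ 2 + k * l := ⟨_, rfl⟩
      have hs : k ^ 2 + k * (l + 1) = k + m := by rw [hm]; ring
      have hmk : k ^ 2 ≤ m := by rw [hm]; exact Nat.le_add_right _ _
      have hm1 : 1 ≤ m := le_trans (Nat.one_le_pow _ _ (by omega)) hmk
      have hs2 : k + m ≤ 2 * k ^ 3 := by
        rw [← hs]
        have h1 : k * (l + 1) ≤ k * k ^ 2 := Nat.mul_le_mul_left k hl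
        have h2 : k * k ^ 2 = k ^ 3 := by ring
        have h3 : k ^ 2 ≤ k ^ 3 := Nat.pow_le_pow_right (by omega) (by norm_num)
        omega
      have hR := h k m p X (by omega) hm1 hp hkp hXp
      obtain ⟨M, hM⟩ : ∃ M : ℕ, M = X / p + 1 := ⟨_, rfl⟩
      rw [← hM] at hR
      obtain ⟨P, hP⟩ : ∃ P : ℝ, P = (p : ℝ) := ⟨_, rfl⟩
      have hP1 : 1 ≤ P := by rw [hP]; exact_mod_cast hp.one_lt.le
      have hP0 : 0 < P := by linarith
      rw [← hP] at hp4 hpX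
      have hXPr : (X : ℝ) ≤ P ^ k := by rw [hP]; exact_mod_cast hXp
      have hM0 : (0 : ℝ) ≤ M := Nat.cast_nonneg M
      have hMX : (M : ℝ) ≤ 2 * X / P := by
        have h1 : ((X / p : ℕ) : ℝ) ≤ (X : ℝ) / P := by rw [hP]; exact Nat.cast_div_le
        have h2 : 1 ≤ (X : ℝ) / P := by rw [le_div_iff₀ hP0]; linarith
        rw [hM]
        push_cast
        have h3 : 2 * (X : ℝ) / P = X / P + X / P := by ring
        rw [h3]
        linarith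
      have hM1 : 1 ≤ M := by rw [hM]; exact Nat.le_add_left _ _
      have hih := ih hl' M hM1
      rw [← hm] at hih
      obtain ⟨Jm, hJm⟩ : ∃ Jm : ℝ, Jm = (J k m M : ℝ) := ⟨_, rfl⟩
      have hJ0 : 0 ≤ Jm := by rw [hJm]; exact Nat.cast_nonneg _
      rw [← hJm] at hih
      -- the recursion in real form
      have hRr : (J k (k + m) X : ℝ) ≤
          2 * ((Nat.factorial (k + m) : ℝ)) ^ 2 * P ^ (2 * m) *
            ((X : ℝ) ^ k * ((Nat.factorial k : ℝ) * P ^ (k * (k - 1) / 2)) * Jm) +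
          16 * P ^ (2 * (k - 1)) * (k : ℝ) ^ (2 * (k + m)) * ((M : ℝ) ^ (2 * k) * Jm) := by
        rw [hP, hJm]
        exact_mod_cast hR
      have hsec := IN.second k m P X M hP1 hX0.le hM0 hXPr hMX hmk (k * (k - 1) / 2)
      have hR2 : (J k (k + m) X : ℝ) ≤
          (2 * ((Nat.factorial (k + m) : ℝ)) ^ 2 * Nat.factorial k +
            16 * 4 ^ k * (k : ℝ) ^ (2 * (k + m))) *
          ((X : ℝ) ^ k * P ^ (2 * m + k * (k - 1) / 2)) * Jm := by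
        refine hRr.trans ?_
        have h1 : 16 * P ^ (2 * (k - 1)) * (k : ℝ) ^ (2 * (k + m)) * ((M : ℝ) ^ (2 * k) * Jm) ≤
            16 * 4 ^ k * (k : ℝ) ^ (2 * (k + m)) *
              ((X : ℝ) ^ k * P ^ (2 * m + k * (k - 1) / 2)) * Jm := by
          have h2 : 16 * P ^ (2 * (k - 1)) * (k : ℝ) ^ (2 * (k + m)) * ((M : ℝ) ^ (2 * k) * Jm) =
              (16 * (k : ℝ) ^ (2 * (k + m)) * Jm) * (P ^ (2 * (k - 1)) * (M : ℝ) ^ (2 * k)) := by
            ring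
          have h3 : 16 * 4 ^ k * (k : ℝ) ^ (2 * (k + m)) *
              ((X : ℝ) ^ k * P ^ (2 * m + k * (k - 1) / 2)) * Jm =
              (16 * (k : ℝ) ^ (2 * (k + m)) * Jm) *
                (4 ^ k * ((X : ℝ) ^ k * P ^ (2 * m + k * (k - 1) / 2))) := by
            ring
          rw [h2, h3]
          exact mul_le_mul_of_nonneg_left hsec (by positivity)
        have h4 : 2 * ((Nat.factorial (k + m) : ℝ)) ^ 2 * P ^ (2 * m) *
            ((X : ℝ) ^ k * ((Nat.factorial k : ℝ) * P ^ (k * (k - 1) / 2)) * Jm) =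
            2 * ((Nat.factorial (k + m) : ℝ)) ^ 2 * Nat.factorial k *
              ((X : ℝ) ^ k * P ^ (2 * m + k * (k - 1) / 2)) * Jm := by
          rw [pow_add]
          ring
        rw [h4]
        refine (add_le_add_right h1 _).trans (le_of_eq ?_)
        ring
      -- insert the induction hypothesis
      obtain ⟨g, hg⟩ : ∃ g : ℝ, g = (k : ℝ) * (k + 1) / 2 * (1 - 1 / (k : ℝ)) ^ l := ⟨_, rfl⟩
      rw [← hg] at hih he0 he1
      have hmr : (k : ℝ) ^ 2 + k * (l : ℝ) = m := by rw [hm]; push_cast; ring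
      rw [hmr] at hih
      have hkm : (k : ℝ) ^ 2 ≤ m := by exact_mod_cast hmk
      have hE0 : 0 ≤ 2 * (m : ℝ) - (k : ℝ) * (k + 1) / 2 + g := by nlinarith
      have hih2 : Jm ≤ Real.exp (100 * (k : ℝ) ^ 4 * ((l : ℝ) + 1)) *
          (2 * X / P) ^ (2 * (m : ℝ) - (k : ℝ) * (k + 1) / 2 + g) :=
        hih.trans (mul_le_mul_of_nonneg_left (Real.rpow_le_rpow hM0 hMX hE0) (Real.exp_nonneg _))
      have hpow := IN.powers k m P X g hk hP1 hX1 hp4 hmk he0 he1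
      have hcon := IN.const k m hk hs2
      obtain ⟨K, hK⟩ : ∃ K : ℝ, K = 2 * ((Nat.factorial (k + m) : ℝ)) ^ 2 * Nat.factorial k +
            16 * 4 ^ k * (k : ℝ) ^ (2 * (k + m)) := ⟨_, rfl⟩
      have hK0 : 0 ≤ K := by rw [hK]; positivity
      rw [← hK] at hcon hR2
      have hexp : (2 * ((k : ℝ) ^ 2 + k * ((l + 1 : ℕ) : ℝ)) - (k : ℝ) * (k + 1) / 2 +
          (k : ℝ) * (k + 1) / 2 * (1 - 1 / (k : ℝ)) ^ (l + 1)) =
          2 * ((m : ℝ) + k) - (k : ℝ) * (k + 1) / 2 + g * (1 - 1 / (k : ℝ)) := by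
        rw [← hmr, hg, pow_succ]
        push_cast
        ring
      rw [hs, hexp]
      obtain ⟨Q, hQ⟩ : ∃ Q : ℝ, Q = (X : ℝ) ^ (2 * ((m : ℝ) + k) - (k : ℝ) * (k + 1) / 2 +
        g * (1 - 1 / (k : ℝ))) := ⟨_, rfl⟩
      have hQ0 : 0 ≤ Q := by rw [hQ]; exact Real.rpow_nonneg hX0.le _
      rw [← hQ] at hpow ⊢
      have hXP0 : 0 ≤ (X : ℝ) ^ k * P ^ (2 * m + k * (k - 1) / 2) := by positivity
      calc (J k (k + m) X : ℝ) ≤ K * ((X : ℝ) ^ k * P ^ (2 * m + k * (k - 1) / 2)) * Jm := hR2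
        _ ≤ K * ((X : ℝ) ^ k * P ^ (2 * m + k * (k - 1) / 2)) *
            (Real.exp (100 * (k : ℝ) ^ 4 * ((l : ℝ) + 1)) *
              (2 * X / P) ^ (2 * (m : ℝ) - (k : ℝ) * (k + 1) / 2 + g)) :=
            mul_le_mul_of_nonneg_left hih2 (mul_nonneg hK0 hXP0)
        _ = Real.exp (100 * (k : ℝ) ^ 4 * ((l : ℝ) + 1)) * (K *
            ((X : ℝ) ^ k * P ^ (2 * m + k * (k - 1) / 2) *
              (2 * X / P) ^ (2 * (m : ℝ) - (k : ℝ) * (k + 1) / 2 + g))) := by ring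
        _ ≤ Real.exp (100 * (k : ℝ) ^ 4 * ((l : ℝ) + 1)) * (K *
            (2 ^ (2 * m) * 4 ^ (k ^ 2) * Q)) :=
            mul_le_mul_of_nonneg_left (mul_le_mul_of_nonneg_left hpow hK0) (Real.exp_nonneg _)
        _ = Real.exp (100 * (k : ℝ) ^ 4 * ((l : ℝ) + 1)) *
            (K * (2 ^ (2 * m) * 4 ^ (k ^ 2))) * Q := by ring
        _ ≤ Real.exp (100 * (k : ℝ) ^ 4 * ((l : ℝ) + 1)) * Real.exp (100 * (k : ℝ) ^ 4) * Q :=
            mul_le_mul_of_nonneg_right (mul_le_mul_of_nonneg_left hcon (Real.exp_nonneg _)) hQ0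
        _ = Real.exp (100 * (k : ℝ) ^ 4 * (((l + 1 : ℕ) : ℝ) + 1)) * Q := by
            rw [← Real.exp_add]
            congr 2
            push_cast
            ring

end Pool.Agent.Work.MP_a8fbd7_nt.VK
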