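/-
Block VK (problem MP_a8fbd7_nt), item LA: Landau's local lemma.  Author: helper20.
-/
import Pool.Agent.Work.MP_a8fbd7_nt.VK.Stmts
import Pool.Agent.Work.MP_37bd4f_nt.Factor

set_option autoImplicit false

namespace Pool.Agent.Work.MP_a8fbd7_nt.VK

open Finset

namespace LA

open Complex Pool.Agent.Work.MP_37bd4f_nt

/-- logarithmic derivative of a product over a multiset -/
lemma ld_mprod (Z : Multiset ℂ) (F : ℂ → ℂ → ℂ) (c : ℂ) (hd : ∀ ρ, Differentiable ℂ (F ρ))
    (h0 : ∀ ρ ∈ Z, F ρ c ≠ 0) :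
    logDeriv (fun s => (Z.map (fun ρ => F ρ s)).prod) c =
      (Z.map (fun ρ => logDeriv (F ρ) c)).sum := by
  induction Z using Multiset.induction with
  | empty =>
    simp only [Multiset.map_zero, Multiset.prod_zero, Multiset.sum_zero]
    simp [logDeriv_apply]
  | cons a Z ih =>
    have ih' := ih fun ρ hρ => h0 ρ (Multiset.mem_cons_of_mem hρ)
    simp only [Multiset.map_cons, Multiset.prod_cons, Multiset.sum_cons]
    rw [← ih']
    refine logDeriv_mul (f := F a) (g := fun s => (Z.map (fun ρ => F ρ s)).prod) c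
      (h0 a (Multiset.mem_cons_self a Z)) ?_ (hd a).differentiableAt
      (differentiable_mprod hd).differentiableAt
    intro h
    rw [Multiset.prod_eq_zero_iff] at h
    obtain ⟨ρ, hρ, hz⟩ := Multiset.mem_map.mp h
    exact h0 ρ (Multiset.mem_cons_of_mem hρ) hz

/-- Borel-Caratheodory for the derivative at the centre -/
lemma norm_deriv_le {F : ℂ → ℂ} {c : ℂ} {r M : ℝ} (hr : 0 < r)
    (hF : DifferentiableOn ℂ F (Metric.ball c r)) (hFc : F c = 0) (hM : 0 ≤ M)
    (hre : ∀ z ∈ Metric.ball c r, (F z).re ≤ M) {d : ℂ} (hd : HasDerivAt F d c) :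
    ‖d‖ ≤ 2 * M / r := by
  have key : ∀ η : ℝ, 0 < η → ‖d‖ ≤ 2 * (M + η) / r := by
    intro η hη
    set F1 : ℂ → ℂ := fun z => F (c + z) with hF1
    have hmaps : ∀ z ∈ Metric.ball (0 : ℂ) r, c + z ∈ Metric.ball c r := by
      intro z hz
      rw [Metric.mem_ball, dist_eq_norm] at hz ⊢
      simpa using hz
    have hF1d : DifferentiableOn ℂ F1 (Metric.ball 0 r) := hF.comp (by fun_prop) hmaps
    have hF1re : Set.MapsTo F1 (Metric.ball 0 r) {z | z.re ≤ M + η} := by
      intro z hz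
      have := hre (c + z) (hmaps z hz)
      change (F (c + z)).re ≤ M + η
      linarith
    have hF10 : F1 0 = 0 := by simp [hF1, hFc]
    have hb : ∀ z ∈ Metric.ball c r, z ≠ c → ‖slope F c z‖ ≤ 2 * (M + η) / (r - ‖z - c‖) := by
      intro z hz hzc
      have hz' : z - c ∈ Metric.ball (0 : ℂ) r := by
        rw [Metric.mem_ball, dist_eq_norm] at hz ⊢
        simpa using hz
      have h1 := Complex.borelCaratheodory_zero (by linarith) hF1d hF1re hr hz' hF10
      have h2 : F1 (z - c) = F z := by simp [hF1]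
      rw [h2] at h1
      have hpos : 0 < ‖z - c‖ := norm_pos_iff.mpr (sub_ne_zero.mpr hzc)
      rw [slope_def_field, hFc, sub_zero, norm_div, div_le_iff₀ hpos]
      refine h1.trans (le_of_eq ?_)
      ring
    have ht1 : Filter.Tendsto (fun z => ‖slope F c z‖) (nhdsWithin c {c}ᶜ) (nhds ‖d‖) :=
      (hasDerivAt_iff_tendsto_slope.mp hd).norm
    have ht2 : Filter.Tendsto (fun z : ℂ => 2 * (M + η) / (r - ‖z - c‖)) (nhdsWithin c {c}ᶜ)
        (nhds (2 * (M + η) / (r - ‖c - c‖))) := by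
      refine Filter.Tendsto.mono_left ?_ nhdsWithin_le_nhds
      have hcont : ContinuousAt (fun z : ℂ => 2 * (M + η) / (r - ‖z - c‖)) c := by
        refine ContinuousAt.div continuousAt_const (by fun_prop) ?_
        simp only [sub_self, norm_zero, sub_zero]
        exact hr.ne'
      exact hcont
    simp only [sub_self, norm_zero, sub_zero] at ht2
    refine le_of_tendsto_of_tendsto ht1 ht2 ?_
    have hball : Metric.ball c r ∈ nhdsWithin c {c}ᶜ :=
      mem_nhdsWithin_of_mem_nhds (Metric.ball_mem_nhds c hr)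
    filter_upwards [hball, self_mem_nhdsWithin] with z hz hzc
    exact hb z hz hzc
  refine le_of_forall_pos_le_add fun ε hε => ?_
  have h := key (ε * r / 2) (by positivity)
  refine h.trans (le_of_eq ?_)
  field_simp

/-- the real part of one term -/
lemma term_nonneg {w : ℂ} {r : ℝ} (hr : 0 < r) (hw : 0 < w.re) (hwr : ‖w‖ ≤ r) :
    0 ≤ (1 / w - (starRingEnd ℂ) w / (r : ℂ) ^ 2).re := by
  have hw0 : w ≠ 0 := by
    rintro rfl
    simp at hw
  have hn : 0 < ‖w‖ := norm_pos_iff.mpr hw0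
  have h1 : (1 / w).re = w.re / ‖w‖ ^ 2 := by
    rw [one_div, Complex.inv_re, Complex.normSq_eq_norm_sq]
  have h2 : ((starRingEnd ℂ) w / (r : ℂ) ^ 2).re = w.re / r ^ 2 := by
    rw [← Complex.ofReal_pow, Complex.div_ofReal_re, Complex.conj_re]
  rw [Complex.sub_re, h1, h2, sub_nonneg]
  have h3 : ‖w‖ ^ 2 ≤ r ^ 2 := by gcongr
  gcongr

lemma re_msum (Z : Multiset ℂ) (F : ℂ → ℂ) : (Z.map F).sum.re = (Z.map fun ρ => (F ρ).re).sum := by
  induction Z using Multiset.induction with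
  | empty => simp
  | cons a Z ih => simp [ih]

lemma msum_sub (Z : Multiset ℂ) (F G : ℂ → ℂ) :
    (Z.map fun ρ => F ρ - G ρ).sum = (Z.map F).sum - (Z.map G).sum := by
  induction Z using Multiset.induction with
  | empty => simp
  | cons a Z ih =>
    simp only [Multiset.map_cons, Multiset.sum_cons, ih]
    ring

end LA

open LA Pool.Agent.Work.MP_37bd4f_nt in
theorem prf_LA : LA := by
  intro f c r M hf hfc hr hM hbd hnz
  have hr' : (r : ℂ) ≠ 0 := by exact_mod_cast hr.ne'
  obtain ⟨Z, g, hfac, hZ, hg⟩ := exists_fac hf hfc hr (K := {s | ‖s - c‖ ≤ r}) (fun s hs => hs)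
  have hZ' : ∀ ρ ∈ Z, ‖ρ - c‖ ≤ r := hZ
  have hgc : g c ≠ 0 := hg c (by
    change ‖c - c‖ ≤ r
    rw [sub_self, norm_zero]
    exact hr.le)
  have hfc0 : 0 < ‖f c‖ := norm_pos_iff.mpr hfc
  -- every `ρ ∈ Z` has smaller real part
  have hre : ∀ ρ ∈ Z, 0 < (c - ρ).re := by
    intro ρ hρ
    by_contra hcon
    rw [Complex.sub_re] at hcon
    exact hnz ρ (hZ' ρ hρ) (by linarith) (hfac.eq_zero hρ)
  have hne : ∀ ρ ∈ Z, c - ρ ≠ 0 := by
    intro ρ hρ h
    have := hre ρ hρ
    rw [h, Complex.zero_re] at this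
    exact lt_irrefl _ this
  set b : ℂ → ℂ → ℂ := fun ρ s => ((r : ℂ) ^ 2 - (starRingEnd ℂ) (ρ - c) * (s - c)) / r with hb
  have hbd' : ∀ ρ, Differentiable ℂ (b ρ) := by
    intro ρ
    rw [hb]
    fun_prop
  set B : ℂ → ℂ := fun s => (Z.map (fun ρ => b ρ s)).prod * g s with hB
  have hBd : Differentiable ℂ B := (differentiable_mprod hbd').mul hfac.1
  have hkey : ∀ s ρ : ℂ, ‖s - c‖ = r → ‖b ρ s‖ = ‖s - ρ‖ := by
    intro s ρ hs
    have h1 : (r : ℂ) ^ 2 = (s - c) * (starRingEnd ℂ) (s - c) := by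
      rw [Complex.mul_conj', hs]
    have h2 : (r : ℂ) ^ 2 - (starRingEnd ℂ) (ρ - c) * (s - c) =
        (s - c) * (starRingEnd ℂ) (s - ρ) := by
      rw [h1]
      simp only [map_sub]
      ring
    rw [hb]
    simp only
    rw [h2, norm_div, norm_mul, hs, RCLike.norm_conj, Complex.norm_real, Real.norm_eq_abs,
      abs_of_pos hr]
    field_simp
  have hbc : ∀ ρ, b ρ c = r := by
    intro ρ
    rw [hb]
    simp only [sub_self, mul_zero, sub_zero]
    field_simp
  have hBc : ‖B c‖ = r ^ Z.card * ‖g c‖ := by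
    rw [hB]
    simp only
    rw [norm_mul, norm_mprod]
    congr 1
    have : (Z.map fun ρ => ‖b ρ c‖) = Z.map (fun _ => r) :=
      Multiset.map_congr rfl fun ρ _ => by
        rw [hbc, Complex.norm_real, Real.norm_eq_abs, abs_of_pos hr]
    rw [this, Multiset.map_const', Multiset.prod_replicate]
  have hfB : ‖f c‖ ≤ ‖B c‖ := by
    rw [hBc, hfac.2 c, norm_mul, norm_mprod]
    gcongr
    refine mprod_le (fun _ _ => norm_nonneg _) (fun ρ hρ => ?_)
    rw [norm_sub_rev]
    exact hZ' ρ hρ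
  have hBM : ∀ s, ‖s - c‖ ≤ r → ‖B s‖ ≤ Real.exp M * ‖B c‖ := by
    intro s hs
    have h1 : ‖B s‖ ≤ Real.exp M * ‖f c‖ := by
      refine max_ball hBd hr (fun z hz => ?_) hs
      have : ‖B z‖ = ‖f z‖ := by
        rw [hfac.2 z, hB]
        simp only
        rw [norm_mul, norm_mul, norm_mprod, norm_mprod]
        congr 2
        exact Multiset.map_congr rfl fun ρ _ => hkey z ρ hz
      rw [this]
      exact hbd z hz.le
    refine h1.trans ?_
    gcongr
  have hB0 : ∀ z ∈ Metric.ball c r, B z ≠ 0 := by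
    intro z hz
    rw [Metric.mem_ball, dist_eq_norm] at hz
    refine mul_ne_zero ?_ (hg z hz.le)
    intro h
    rw [Multiset.prod_eq_zero_iff] at h
    obtain ⟨ρ, hρ, h0⟩ := Multiset.mem_map.mp h
    rw [hb] at h0
    simp only at h0
    rw [div_eq_zero_iff, or_iff_left hr', sub_eq_zero] at h0
    have h1 : r ^ 2 = ‖ρ - c‖ * ‖z - c‖ := by
      have := congrArg norm h0
      rw [norm_pow, Complex.norm_real, Real.norm_eq_abs, abs_of_pos hr, norm_mul,
        RCLike.norm_conj] at this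
      exact this
    have h2 : ‖ρ - c‖ * ‖z - c‖ ≤ r * ‖z - c‖ := by
      have := hZ' ρ hρ
      gcongr
    nlinarith
  have hcmem : c ∈ Metric.ball c r := Metric.mem_ball_self hr
  have hBc0 : B c ≠ 0 := hB0 c hcmem
  have hBcpos : 0 < ‖B c‖ := norm_pos_iff.mpr hBc0
  obtain ⟨F, hF, hFeq, hFc⟩ := exists_log hr hBd.differentiableOn hB0
  have hFre : ∀ z ∈ Metric.ball c r, (F z).re ≤ M := by
    intro z hz
    have h1 := hFeq z hz
    have h2 := hBM z (by
      rw [Metric.mem_ball, dist_eq_norm] at hz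
      exact hz.le)
    rw [h1, norm_mul, Complex.norm_exp, mul_comm] at h2
    exact Real.exp_le_exp.mp (le_of_mul_le_mul_right h2 hBcpos)
  have hFd : HasDerivAt F (deriv F c) c :=
    ((hF c hcmem).differentiableAt (Metric.isOpen_ball.mem_nhds hcmem)).hasDerivAt
  have hdF : ‖deriv F c‖ ≤ 2 * M / r := norm_deriv_le hr hF hFc hM hFre hFd
  -- logarithmic derivative of B
  have hBder : HasDerivAt B (B c * (Complex.exp (F c) * deriv F c)) c := by
    have h1 : HasDerivAt (fun z => B c * Complex.exp (F z)) (B c * (Complex.exp (F c) * deriv F c)) c :=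
      (hFd.cexp).const_mul (B c)
    refine h1.congr_of_eventuallyEq ?_
    filter_upwards [Metric.ball_mem_nhds c hr] with z hz
    exact hFeq z hz
  have hldB : logDeriv B c = deriv F c := by
    rw [logDeriv_apply, hBder.deriv, hFc, Complex.exp_zero, one_mul]
    field_simp
  have hprodb : (Z.map (fun ρ => b ρ c)).prod ≠ 0 := by
    intro h
    rw [Multiset.prod_eq_zero_iff] at h
    obtain ⟨ρ, -, h0⟩ := Multiset.mem_map.mp h
    rw [hbc] at h0
    exact hr' h0
  have hldb : ∀ ρ, logDeriv (b ρ) c = (starRingEnd ℂ) (c - ρ) / (r : ℂ) ^ 2 := by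
    intro ρ
    have h1 : HasDerivAt (b ρ) ((0 - (starRingEnd ℂ) (ρ - c) * 1) / r) c := by
      rw [hb]
      exact (((hasDerivAt_const c ((r : ℂ) ^ 2)).sub
        (((hasDerivAt_id c).sub_const c).const_mul ((starRingEnd ℂ) (ρ - c)))).div_const (r : ℂ))
    rw [logDeriv_apply, h1.deriv, hbc]
    have h2 : (starRingEnd ℂ) (c - ρ) = -(starRingEnd ℂ) (ρ - c) := by
      rw [← map_neg, neg_sub]
    rw [h2]
    field_simp
    ring
  have hldB2 : logDeriv B c =
      (Z.map (fun ρ => (starRingEnd ℂ) (c - ρ) / (r : ℂ) ^ 2)).sum + logDeriv g c := by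
    rw [hB, logDeriv_mul (f := fun s => (Z.map (fun ρ => b ρ s)).prod) (g := g) c hprodb hgc
      (differentiable_mprod hbd').differentiableAt hfac.1.differentiableAt,
      ld_mprod Z b c hbd' (fun ρ _ => by rw [hbc]; exact hr')]
    simp only [hldb]
  -- logarithmic derivative of f
  have hff : f = fun s => (Z.map (fun ρ => s - ρ)).prod * g s := funext hfac.2
  have hprodf : (Z.map (fun ρ => c - ρ)).prod ≠ 0 := by
    intro h
    rw [Multiset.prod_eq_zero_iff] at h
    obtain ⟨ρ, hρ, h0⟩ := Multiset.mem_map.mp h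
    exact hne ρ hρ h0
  have hldlin : ∀ ρ, logDeriv (fun s : ℂ => s - ρ) c = 1 / (c - ρ) := by
    intro ρ
    rw [logDeriv_apply, ((hasDerivAt_id' c).sub_const ρ).deriv]
  have hldf : logDeriv f c = (Z.map (fun ρ => 1 / (c - ρ))).sum + logDeriv g c := by
    rw [hff, logDeriv_mul (f := fun s => (Z.map (fun ρ => s - ρ)).prod) (g := g) c hprodf hgc
      (differentiable_mprod (F := fun ρ s => s - ρ)
        (fun ρ => differentiable_id.sub_const ρ)).differentiableAt hfac.1.differentiableAt,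
      ld_mprod Z (fun ρ s => s - ρ) c (fun ρ => differentiable_id.sub_const ρ) hne]
    simp only [hldlin]
  have hmain : deriv f c / f c = deriv F c +
      (Z.map (fun ρ => 1 / (c - ρ) - (starRingEnd ℂ) (c - ρ) / (r : ℂ) ^ 2)).sum := by
    rw [← logDeriv_apply, hldf, msum_sub, ← hldB, hldB2]
    ring
  have hFneg : -(deriv F c).re ≤ 2 * M / r := by
    have h1 := Complex.abs_re_le_norm (deriv F c)
    have h2 := neg_abs_le (deriv F c).re
    linarith
  have hterm : ∀ ρ ∈ Z, 0 ≤ (1 / (c - ρ) - (starRingEnd ℂ) (c - ρ) / (r : ℂ) ^ 2).re := by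
    intro ρ hρ
    refine term_nonneg hr (hre ρ hρ) ?_
    rw [norm_sub_rev]
    exact hZ' ρ hρ
  have hre2 : (deriv f c / f c).re = (deriv F c).re +
      (Z.map (fun ρ => (1 / (c - ρ) - (starRingEnd ℂ) (c - ρ) / (r : ℂ) ^ 2).re)).sum := by
    rw [hmain, Complex.add_re, re_msum]
  constructor
  · have h1 : 0 ≤ (Z.map (fun ρ =>
        (1 / (c - ρ) - (starRingEnd ℂ) (c - ρ) / (r : ℂ) ^ 2).re)).sum := by
      refine Multiset.sum_nonneg fun x hx => ?_
      obtain ⟨ρ, hρ, rfl⟩ := Multiset.mem_map.mp hx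
      exact hterm ρ hρ
    rw [hre2]
    linarith
  · intro d hd hdr hfd
    have hmemK : ‖(c - (d : ℂ)) - c‖ ≤ r := by
      rw [sub_sub_cancel_left, norm_neg, Complex.norm_real, Real.norm_eq_abs, abs_of_pos hd]
      exact hdr.le
    have hgd : g (c - (d : ℂ)) ≠ 0 := hg _ hmemK
    have hmem : c - (d : ℂ) ∈ Z := by
      rw [hfac.2 (c - (d : ℂ)), mul_eq_zero, or_iff_left hgd, Multiset.prod_eq_zero_iff] at hfd
      obtain ⟨ρ, hρ, h0⟩ := Multiset.mem_map.mp hfd
      rw [sub_eq_zero] at h0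
      rw [h0]
      exact hρ
    obtain ⟨Z1, hZ1⟩ := Multiset.exists_cons_of_mem hmem
    have h1 : (Z.map (fun ρ =>
        (1 / (c - ρ) - (starRingEnd ℂ) (c - ρ) / (r : ℂ) ^ 2).re)).sum ≥ 1 / d - d / r ^ 2 := by
      rw [hZ1, Multiset.map_cons, Multiset.sum_cons]
      have h2 : (1 / (c - (c - (d : ℂ))) -
          (starRingEnd ℂ) (c - (c - (d : ℂ))) / (r : ℂ) ^ 2).re = 1 / d - d / r ^ 2 := by
        rw [sub_sub_cancel, Complex.conj_ofReal]
        have : (1 / (d : ℂ) - (d : ℂ) / (r : ℂ) ^ 2) = ((1 / d - d / r ^ 2 : ℝ) : ℂ) := by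
          push_cast
          ring
        rw [this, Complex.ofReal_re]
      rw [h2]
      have h3 : 0 ≤ (Z1.map (fun ρ =>
          (1 / (c - ρ) - (starRingEnd ℂ) (c - ρ) / (r : ℂ) ^ 2).re)).sum := by
        refine Multiset.sum_nonneg fun x hx => ?_
        obtain ⟨ρ, hρ, rfl⟩ := Multiset.mem_map.mp hx
        exact hterm ρ (by rw [hZ1]; exact Multiset.mem_cons_of_mem hρ)
      linarith
    rw [hre2]
    linarith

end Pool.Agent.Work.MP_a8fbd7_nt.VK
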