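/-
Block VK (problem MP_a8fbd7_nt), item LG: local bounds for the logarithmic derivative at a height.
Author: helper85.
-/
import Pool.Agent.Work.MP_a8fbd7_nt.VK.Stmts

set_option autoImplicit false

namespace Pool.Agent.Work.MP_a8fbd7_nt.VK

open Finset

namespace LG

theorem evp (c : ℝ) (k : ℕ) : ∀ᶠ l : ℝ in Filter.atTop, c * l ^ k ≤ Real.exp l := by
  have h := (Real.tendsto_pow_mul_exp_neg_atTop_nhds_zero k).const_mul c
  rw [mul_zero] at h
  filter_upwards [h.eventually (ge_mem_nhds (show (0 : ℝ) < 1 by norm_num))] with l hl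
  have he : 0 < Real.exp l := Real.exp_pos l
  have h2 : c * l ^ k = (c * (l ^ k * Real.exp (-l))) * Real.exp l := by
    rw [mul_assoc c, mul_assoc (l ^ k), ← Real.exp_add, neg_add_cancel, Real.exp_zero, mul_one]
  rw [h2]
  calc _ ≤ 1 * Real.exp l := mul_le_mul_of_nonneg_right hl he.le
    _ = _ := one_mul _

/-- `ζ₁` in terms of `ζ` -/
theorem z1 (s : ℂ) (hs : s ≠ 1) : riemannZeta₁ s = (s - 1) * riemannZeta s := by
  rw [riemannZeta_eq_inv_sub_mul hs, ← mul_assoc, mul_inv_cancel₀ (sub_ne_zero.mpr hs), one_mul]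

/-- the bound on the disc -/
theorem disc (B T₁ : ℝ) (hB : 1 ≤ B)
    (hgr : ∀ s : ℂ, T₁ ≤ |s.im| →
      1 - B * (Real.log (Real.log |s.im|)) ^ 2 / Real.log |s.im| ≤ s.re →
      ‖riemannZeta s‖ ≤ (Real.log |s.im|) ^ 3)
    (hpz : ∀ σ t : ℝ, 1 < σ → σ ≤ 2 → (σ - 1) / 2 ≤ ‖riemannZeta (σ + t * Complex.I)‖)
    (g L l r : ℝ) (hg : T₁ + 1 ≤ g) (hg2 : 2 ≤ g) (hL : Real.log g = L) (hl : Real.log L = l)
    (hL32 : 32 ≤ L) (hr : B * l ^ 2 / (4 * L) = r) (hr1 : r ≤ 1)
    (σ τ : ℝ) (h1 : g ≤ |τ|) (h2 : |τ| ≤ 2 * g) (h3 : 1 + 1 / L ≤ σ) (h4 : σ ≤ 2)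
    (z : ℂ) (hz : ‖z - (σ + τ * Complex.I)‖ ≤ r) :
    ‖riemannZeta₁ z‖ ≤ Real.exp (5 * l) * ‖riemannZeta₁ (σ + τ * Complex.I)‖ := by
  have hL0 : 0 < L := by linarith
  have hel : Real.exp l = L := by rw [← hl]; exact Real.exp_log hL0
  have hg0 : 0 < g := by linarith
  have hlog2 := Real.log_two_lt_d9
  have hlog2' := Real.log_two_gt_d9
  -- l is at least 4 log 2
  have hl4 : 4 * Real.log 2 ≤ l := by
    have e : 4 * Real.log 2 = Real.log 16 := by
      rw [show (16 : ℝ) = 2 ^ 4 by norm_num, Real.log_pow]; norm_num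
    rw [e, ← hl]
    exact Real.log_le_log (by norm_num) (by linarith)
  have hl0 : 0 < l := by nlinarith
  set c : ℂ := σ + τ * Complex.I with hc
  have hcre : c.re = σ := by simp [hc]
  have hcim : c.im = τ := by simp [hc]
  have him : |z.im - τ| ≤ r := by
    have := Complex.abs_im_le_norm (z - c)
    rw [Complex.sub_im, hcim] at this
    exact this.trans hz
  have hre : |z.re - σ| ≤ r := by
    have := Complex.abs_re_le_norm (z - c)
    rw [Complex.sub_re, hcre] at this
    exact this.trans hz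
  have hy1 : g - 1 ≤ |z.im| := by
    have := abs_sub_abs_le_abs_sub τ z.im
    rw [abs_sub_comm] at this
    linarith
  have hy2 : |z.im| ≤ 2 * g + 1 := by
    have := abs_sub_abs_le_abs_sub z.im τ
    linarith
  have hzre : 1 - r ≤ z.re := by
    have := (abs_le.mp hre).1
    have : 0 < 1 / L := by positivity
    linarith
  set y : ℝ := |z.im| with hy
  have hy0 : 0 < y := by linarith
  have hly2 : Real.log y ≤ 2 * L := by
    calc Real.log y ≤ Real.log (4 * g) := Real.log_le_log hy0 (by linarith)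
      _ = Real.log 4 + L := by rw [Real.log_mul (by norm_num) hg0.ne', hL]
      _ = 2 * Real.log 2 + L := by
          rw [show (4 : ℝ) = 2 ^ 2 by norm_num, Real.log_pow]; norm_num
      _ ≤ 2 * L := by linarith
  have hly1 : L / 2 ≤ Real.log y := by
    calc L / 2 ≤ L - Real.log 2 := by linarith
      _ = Real.log (g / 2) := by rw [Real.log_div hg0.ne' (by norm_num), hL]
      _ ≤ Real.log y := Real.log_le_log (by positivity) (by linarith)
  have hlly : 3 / 4 * l ≤ Real.log (Real.log y) := by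
    calc 3 / 4 * l ≤ l - Real.log 2 := by linarith
      _ = Real.log (L / 2) := by rw [Real.log_div hL0.ne' (by norm_num), hl]
      _ ≤ _ := Real.log_le_log (by positivity) hly1
  have hly0 : 0 < Real.log y := by linarith
  have hB0 : 0 < B := by linarith
  have hkey : r ≤ B * (Real.log (Real.log y)) ^ 2 / Real.log y := by
    rw [← hr, div_le_div_iff₀ (by positivity) hly0]
    have a1 : (3 / 4 * l) ^ 2 ≤ (Real.log (Real.log y)) ^ 2 :=
      pow_le_pow_left₀ (by positivity) hlly 2
    have a2 : 0 ≤ B * l ^ 2 := by positivity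
    calc B * l ^ 2 * Real.log y ≤ B * l ^ 2 * (2 * L) := mul_le_mul_of_nonneg_left hly2 a2
      _ ≤ B * (3 / 4 * l) ^ 2 * (4 * L) := by
          have : 0 ≤ B * l ^ 2 * L := by positivity
          nlinarith
      _ ≤ B * (Real.log (Real.log y)) ^ 2 * (4 * L) := by gcongr
  have hzz : ‖riemannZeta z‖ ≤ (2 * L) ^ 3 := by
    refine (hgr z (by linarith) (by linarith)).trans ?_
    exact pow_le_pow_left₀ hly0.le hly2 3
  have hc1 : 1 ≤ ‖c - 1‖ ∧ r ≤ ‖c - 1‖ := by
    have := Complex.abs_im_le_norm (c - 1)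
    rw [Complex.sub_im, hcim, Complex.one_im, sub_zero] at this
    constructor <;> linarith
  have hz1 : ‖z - 1‖ ≤ 2 * ‖c - 1‖ := by
    have e : z - 1 = (z - c) + (c - 1) := by ring
    rw [e]
    refine (norm_add_le _ _).trans ?_
    linarith [hc1.2]
  have hzc : 1 / (2 * L) ≤ ‖riemannZeta c‖ := by
    refine le_trans ?_ (hpz σ τ (by have : 0 < 1 / L := by positivity
                                    linarith) h4)
    rw [show 1 / (2 * L) = (1 / L) / 2 by field_simp]
    linarith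
  have hzne : z ≠ 1 := by
    intro h
    rw [h] at hy
    simp at hy
    linarith
  have hcne : c ≠ 1 := by
    intro h
    have := hc1.1
    rw [h, sub_self, norm_zero] at this
    linarith
  rw [z1 z hzne, z1 c hcne, norm_mul, norm_mul]
  have hexp : Real.exp (5 * l) = L ^ 5 := by
    rw [← hel, ← Real.exp_nat_mul]; norm_num
  rw [hexp]
  have hn0 : 0 ≤ ‖c - 1‖ := norm_nonneg _
  calc ‖z - 1‖ * ‖riemannZeta z‖ ≤ (2 * ‖c - 1‖) * (2 * L) ^ 3 := by
        gcongr
    _ = (32 * L ^ 4) * (‖c - 1‖ * (1 / (2 * L))) := by field_simp; ring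
    _ ≤ L ^ 5 * (‖c - 1‖ * ‖riemannZeta c‖) := by
        have : 32 * L ^ 4 ≤ L ^ 5 := by nlinarith [pow_pos hL0 4]
        gcongr

end LG

open LG in
theorem prf_LG (h1 : GR) (h2 : LA) (h3 : PZ) : LG := by
  intro B hB
  obtain ⟨T₁, hT₁, hgr⟩ := h1 B hB
  obtain ⟨-, hpz, hld⟩ := h3
  have ev1 : ∀ᶠ x : ℝ in Filter.atTop, B * (Real.log (Real.log x)) ^ 2 ≤
      Real.exp (Real.log (Real.log x)) :=
    (Real.tendsto_log_atTop.comp Real.tendsto_log_atTop).eventually (evp B 2)
  have ev2 : ∀ᶠ x : ℝ in Filter.atTop, (32 : ℝ) ≤ Real.log x :=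
    Real.tendsto_log_atTop.eventually (Filter.eventually_ge_atTop 32)
  obtain ⟨T, hT⟩ := Filter.eventually_atTop.mp (ev1.and ev2)
  refine ⟨max T (T₁ + 1), le_max_of_le_right (by linarith), fun γ σ hγ hσ1 hσ2 => ?_⟩
  obtain ⟨c1, c2⟩ := hT |γ| ((le_max_left _ _).trans hγ)
  have hg1 : T₁ + 1 ≤ |γ| := (le_max_right _ _).trans hγ
  set g : ℝ := |γ| with hg
  set L : ℝ := Real.log g with hL
  set l : ℝ := Real.log L with hl
  have hL0 : 0 < L := by linarith
  have hel : Real.exp l = L := Real.exp_log hL0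
  rw [hel] at c1
  set r : ℝ := B * l ^ 2 / (4 * L) with hr
  have hB0 : 0 < B := by linarith
  have hl0 : 0 < l := Real.log_pos (by linarith)
  have hr0 : 0 < r := by positivity
  have hr1 : r ≤ 1 := by
    rw [hr, div_le_one (by positivity)]; linarith
  have h1L : 0 < 1 / L := by positivity
  -- the two centres
  have main : ∀ τ : ℝ, g ≤ |τ| → |τ| ≤ 2 * g →
      ((-(deriv riemannZeta (σ + τ * Complex.I) / riemannZeta (σ + τ * Complex.I))).re ≤
        10 * l / r + 1) ∧
      ∀ β : ℝ, β < 1 → σ - r < β → riemannZeta (β + τ * Complex.I) = 0 →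
        (-(deriv riemannZeta (σ + τ * Complex.I) / riemannZeta (σ + τ * Complex.I))).re ≤
        10 * l / r + 1 - 1 / (σ - β) + (σ - β) / r ^ 2 := by
    intro τ hτ1 hτ2
    have hd := disc B T₁ hB hgr hpz g L l r hg1 (by linarith) rfl rfl c2 rfl hr1 σ τ hτ1 hτ2
      hσ1 (by linarith)
    set c : ℂ := σ + τ * Complex.I with hc
    have hcre : c.re = σ := by simp [hc]
    have hcim : c.im = τ := by simp [hc]
    have hnc : 1 ≤ ‖c - 1‖ := by
      have := Complex.abs_im_le_norm (c - 1)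
      rw [Complex.sub_im, hcim, Complex.one_im, sub_zero] at this
      linarith
    have hcne : c ≠ 1 := by
      intro h
      rw [h, sub_self, norm_zero] at hnc
      linarith
    have hzc : riemannZeta c ≠ 0 := riemannZeta_ne_zero_of_one_le_re (by rw [hcre]; linarith)
    have hz1c : riemannZeta₁ c ≠ 0 := by
      rw [z1 c hcne]
      exact mul_ne_zero (sub_ne_zero.mpr hcne) hzc
    have hnz : ∀ z, ‖z - c‖ ≤ r → c.re ≤ z.re → riemannZeta₁ z ≠ 0 := by
      intro z _ hz
      have hz1 : z ≠ 1 := by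
        intro h
        rw [h, hcre] at hz
        simp at hz
        linarith
      rw [z1 z hz1]
      refine mul_ne_zero (sub_ne_zero.mpr hz1) (riemannZeta_ne_zero_of_one_le_re ?_)
      rw [hcre] at hz
      linarith
    obtain ⟨k1, k2⟩ := h2 riemannZeta₁ c r (5 * l) differentiable_riemannZeta₁ hz1c hr0
      (by positivity) hd hnz
    have hrel := hld c hcne hzc
    have hinv : (1 / (c - 1)).re ≤ 1 := by
      refine (Complex.re_le_norm _).trans ?_
      rw [norm_div, norm_one]
      exact div_le_one_of_le₀ hnc (norm_nonneg _)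
    have hre : (-(deriv riemannZeta c / riemannZeta c)).re =
        -(deriv riemannZeta₁ c / riemannZeta₁ c).re + (1 / (c - 1)).re := by
      rw [hrel, Complex.add_re, Complex.neg_re]; ring
    rw [hre]
    have e10 : 2 * (5 * l) / r = 10 * l / r := by ring
    rw [e10] at k1
    refine ⟨by linarith, fun β hβ1 hβ2 hβ0 => ?_⟩
    have hcd : c - ((σ - β : ℝ) : ℂ) = β + τ * Complex.I := by
      rw [hc]; push_cast; ring
    have hf : riemannZeta₁ (c - ((σ - β : ℝ) : ℂ)) = 0 := by
      rw [hcd]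
      have hne : (β + τ * Complex.I : ℂ) ≠ 1 := by
        intro h
        have := congrArg Complex.im h
        simp at this
        rw [this, abs_zero] at hτ1
        linarith
      rw [z1 _ hne, hβ0, mul_zero]
    have := k2 (σ - β) (by linarith) (by linarith) hf
    rw [e10] at this
    linarith
  have m1 := main γ le_rfl (by have := abs_nonneg γ; linarith)
  have m2 := (main (2 * γ) (by rw [abs_mul, abs_two]; have := abs_nonneg γ; linarith)
    (by rw [abs_mul, abs_two])).1
  refine ⟨⟨m1.1, ?_⟩, m1.2⟩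
  have e2 : ((2 * γ : ℝ) : ℂ) = 2 * γ := by push_cast; ring
  rw [e2] at m2
  exact m2

end Pool.Agent.Work.MP_a8fbd7_nt.VK
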