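import Pool.Agent.Work.MP_a8fbd7_nt.VK.Stmts

set_option autoImplicit false

/-! ITEM LI: Linnik's lemma. -/

namespace Pool.Agent.Work.MP_a8fbd7_nt.VK

open Finset

namespace LI

theorem emod_eq_of_dvd_sub {m z z' : ℤ} (h : m ∣ z - z') : z % m = z' % m :=
  Int.emod_eq_emod_iff_emod_sub_eq_zero.2 (Int.emod_eq_zero_of_dvd h)

theorem dvd_sub_of_emod_eq {m z z' : ℤ} (h : z % m = z' % m) : m ∣ z - z' :=
  Int.dvd_of_emod_eq_zero (Int.emod_eq_emod_iff_emod_sub_eq_zero.1 h)

/-- the number of integers in `[0, p ^ k)` congruent to `w` modulo `p ^ j` -/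
theorem card_res (p k j : ℕ) (hp : 0 < p) (hj : j ≤ k) (w : ℤ) :
    ((Ico (0 : ℤ) ((p : ℤ) ^ k)).filter fun z => (p : ℤ) ^ j ∣ z - w).card ≤ p ^ (k - j) := by
  have hp' : (0 : ℤ) < (p : ℤ) := by exact_mod_cast hp
  have hm : (0 : ℤ) < (p : ℤ) ^ j := pow_pos hp' j
  have hc : (Ico (0 : ℤ) (((p ^ (k - j) : ℕ) : ℤ))).card = p ^ (k - j) := by
    rw [Int.card_Ico, sub_zero, Int.toNat_natCast]
  rw [← hc]
  apply Finset.card_le_card_of_injOn (fun z => z / (p : ℤ) ^ j)
  · intro z hz
    rw [Finset.mem_coe, Finset.mem_filter, Finset.mem_Ico] at hz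
    rw [Finset.mem_coe, Finset.mem_Ico]
    refine ⟨Int.ediv_nonneg hz.1.1 hm.le, ?_⟩
    apply Int.ediv_lt_of_lt_mul hm
    have : ((p ^ (k - j) : ℕ) : ℤ) * (p : ℤ) ^ j = (p : ℤ) ^ k := by
      push_cast
      rw [← pow_add, Nat.sub_add_cancel hj]
    rw [this]
    exact hz.1.2
  · intro z hz z' hz' h
    rw [Finset.mem_coe, Finset.mem_filter, Finset.mem_Ico] at hz hz'
    have h1 : (p : ℤ) ^ j ∣ z - z' := by
      have := dvd_sub hz.2 hz'.2
      have e : z - w - (z' - w) = z - z' := by ring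
      rwa [e] at this
    have h2 : z % (p : ℤ) ^ j = z' % (p : ℤ) ^ j := emod_eq_of_dvd_sub h1
    have h3 : z / (p : ℤ) ^ j = z' / (p : ℤ) ^ j := h
    rw [← Int.mul_ediv_add_emod z ((p : ℤ) ^ j), ← Int.mul_ediv_add_emod z' ((p : ℤ) ^ j), h2, h3]

theorem prod_pow_eq (p k : ℕ) :
    ∏ j : Fin k, p ^ (k - (j.val + 1)) = p ^ (k * (k - 1) / 2) := by
  rw [Finset.prod_pow_eq_pow_sum, Fin.sum_univ_eq_sum_range (fun j => k - (j + 1)) k]
  congr 1
  have : ∑ j ∈ range k, (k - (j + 1)) = ∑ j ∈ range k, j := by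
    rw [← Finset.sum_range_reflect (fun j => j) k]
    apply Finset.sum_congr rfl
    intro j _
    omega
  rw [this, Finset.sum_range_id]

end LI

theorem prf_LI (h : LN) : LI := by
  classical
  intro k p hp hkp a w
  have hp0 : 0 < p := hp.pos
  have hpz : (0 : ℤ) < (p : ℤ) := by exact_mod_cast hp0
  have hq : (0 : ℤ) < (p : ℤ) ^ k := pow_pos hpz k
  set s := ((Dst k p (Finset.Ico a (a + (p : ℤ) ^ k))).filter fun x =>
    ∀ j : Fin k, (p : ℤ) ^ (j.val + 1) ∣ ps k x j - w j) with hs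
  set t : Finset (Fin k → ℤ) := Fintype.piFinset fun j : Fin k =>
    (Ico (0 : ℤ) ((p : ℤ) ^ k)).filter fun z => (p : ℤ) ^ (j.val + 1) ∣ z - w j with ht
  let f : (Fin k → ℤ) → (Fin k → ℤ) := fun x j => ps k x j % (p : ℤ) ^ k
  have hf : ∀ x ∈ s, f x ∈ t := by
    intro x hx
    rw [hs, Finset.mem_filter] at hx
    rw [ht, Fintype.mem_piFinset]
    intro j
    rw [Finset.mem_filter, Finset.mem_Ico]
    refine ⟨⟨Int.emod_nonneg _ hq.ne', Int.emod_lt_of_pos _ hq⟩, ?_⟩
    have h1 : (p : ℤ) ^ k ∣ ps k x j % (p : ℤ) ^ k - ps k x j := by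
      apply LI.dvd_sub_of_emod_eq
      exact Int.emod_emod_of_dvd _ (dvd_refl _)
    have h2 : (p : ℤ) ^ (j.val + 1) ∣ ps k x j % (p : ℤ) ^ k - ps k x j :=
      (pow_dvd_pow _ (by have := j.2; omega)).trans h1
    have h3 := dvd_add h2 (hx.2 j)
    have e : ps k x j % (p : ℤ) ^ k - ps k x j + (ps k x j - w j) =
        ps k x j % (p : ℤ) ^ k - w j := by ring
    rw [e] at h3
    exact h3
  have htc : t.card ≤ p ^ (k * (k - 1) / 2) := by
    rw [ht, Fintype.card_piFinset, ← LI.prod_pow_eq p k]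
    apply Finset.prod_le_prod'
    intro j _
    exact LI.card_res p k (j.val + 1) hp0 (by have := j.2; omega) (w j)
  have hfib : ∀ b ∈ t, (s.filter fun x => f x = b).card ≤ Nat.factorial k := by
    intro b _
    rcases Finset.eq_empty_or_nonempty (s.filter fun x => f x = b) with he | ⟨x0, hx0⟩
    · rw [he]; simp
    · have hmem : ∀ x ∈ s.filter (fun x => f x = b),
          (∀ i, a ≤ x i ∧ x i < a + (p : ℤ) ^ k) ∧
          (∀ i j : Fin k, i ≠ j → ¬ (p : ℤ) ∣ x i - x j) ∧ f x = b := by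
        intro x hx
        rw [Finset.mem_filter, hs, Finset.mem_filter] at hx
        have hx1 := hx.1.1
        unfold Dst tup at hx1
        rw [Finset.mem_filter, Fintype.mem_piFinset] at hx1
        refine ⟨fun i => ?_, hx1.2, hx.2⟩
        have := hx1.1 i
        rw [Finset.mem_Ico] at this
        exact this
      have hσ : ∀ x ∈ s.filter (fun x => f x = b),
          ∃ σ : Equiv.Perm (Fin k), ∀ i, (p : ℤ) ^ k ∣ x i - x0 (σ i) := by
        intro x hx
        refine h k p hp hkp x x0 (hmem x hx).2.1 (hmem x0 hx0).2.1 ?_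
        intro j
        apply LI.dvd_sub_of_emod_eq
        have h1 := congrFun ((hmem x hx).2.2.trans (hmem x0 hx0).2.2.symm) j
        exact h1
      choose! g hg using hσ
      have hcard : (Finset.univ : Finset (Equiv.Perm (Fin k))).card = Nat.factorial k := by
        rw [Finset.card_univ, Fintype.card_perm, Fintype.card_fin]
      rw [← hcard]
      apply Finset.card_le_card_of_injOn g (fun x _ => Finset.mem_coe.2 (Finset.mem_univ _))
      intro x hx y hy hxy
      rw [Finset.mem_coe] at hx hy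
      funext i
      have h1 := hg x hx i
      have h2 := hg y hy i
      rw [hxy] at h1
      have h3 : (p : ℤ) ^ k ∣ x i - y i := by
        have := dvd_sub h1 h2
        have e : x i - x0 (g y i) - (y i - x0 (g y i)) = x i - y i := by ring
        rwa [e] at this
      have hx2 := (hmem x hx).1 i
      have hy2 := (hmem y hy).1 i
      have h4 : |x i - y i| < (p : ℤ) ^ k := by
        rw [abs_lt]
        constructor <;> linarith
      have h5 := Int.eq_zero_of_abs_lt_dvd h3 h4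
      linarith
  calc s.card ≤ Nat.factorial k * t.card :=
        Finset.card_le_mul_card_image_of_maps_to hf (Nat.factorial k) hfib
    _ ≤ Nat.factorial k * p ^ (k * (k - 1) / 2) := Nat.mul_le_mul_left _ htc

end Pool.Agent.Work.MP_a8fbd7_nt.VK
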