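/-
Block VK (problem MP_a8fbd7_nt), item LN: Newton's identities and unique roots modulo `p ^ k`.
Author: helper4.
-/
import Pool.Agent.Work.MP_a8fbd7_nt.VK.Stmts

set_option autoImplicit false

namespace Pool.Agent.Work.MP_a8fbd7_nt.VK

open Finset

namespace LN

/-- Newton: equal power sums of orders `1..k` give equal elementary symmetric functions of orders
`0..k`, when `1..k` are units. -/
theorem esymm_eq {R : Type*} [CommRing R] {k : ℕ} (x y : Fin k → R)
    (hu : ∀ n : ℕ, 1 ≤ n → n ≤ k → IsUnit (n : R))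
    (hp : ∀ n : ℕ, 1 ≤ n → n ≤ k → ∑ i, x i ^ n = ∑ i, y i ^ n) :
    ∀ n : ℕ, n ≤ k → MvPolynomial.aeval x (MvPolynomial.esymm (Fin k) R n)
      = MvPolynomial.aeval y (MvPolynomial.esymm (Fin k) R n) := by
  intro n
  induction n using Nat.strong_induction_on with
  | _ n ih =>
    intro hn
    rcases Nat.eq_zero_or_pos n with h0 | h0
    · subst h0
      simp
    · have key : ∀ z : Fin k → R, (n : R) * MvPolynomial.aeval z (MvPolynomial.esymm (Fin k) R n)
          = (-1) ^ (n + 1) * ∑ a ∈ antidiagonal n with a.1 < n,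
            (-1) ^ a.1 * MvPolynomial.aeval z (MvPolynomial.esymm (Fin k) R a.1)
              * ∑ i, z i ^ a.2 := by
        intro z
        have h := congrArg (MvPolynomial.aeval z) (MvPolynomial.mul_esymm_eq_sum (Fin k) R n)
        simp only [map_mul, map_natCast, map_sum, map_pow, map_neg, map_one] at h
        rw [h]
        congr 1
        refine Finset.sum_congr rfl fun a _ => ?_
        congr 1
        simp [MvPolynomial.psum]
      refine (hu n h0 hn).mul_left_cancel ?_
      rw [key x, key y]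
      congr 1
      refine Finset.sum_congr rfl fun a ha => ?_
      rw [mem_filter, HasAntidiagonal.mem_antidiagonal] at ha
      rw [ih a.1 ha.2 (by omega), hp a.2 (by omega) (by omega)]

/-- Equal power sums give the vanishing of `∏ (x i - y j)`. -/
theorem prod_eq_zero {R : Type*} [CommRing R] {k : ℕ} (x y : Fin k → R)
    (hu : ∀ n : ℕ, 1 ≤ n → n ≤ k → IsUnit (n : R))
    (hp : ∀ n : ℕ, 1 ≤ n → n ≤ k → ∑ i, x i ^ n = ∑ i, y i ^ n) (i : Fin k) :
    ∏ j, (x i - y j) = 0 := by
  have hs : ∀ n : ℕ, n ≤ k → ((univ.val.map x).esymm n) = ((univ.val.map y).esymm n) := by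
    intro n hn
    have h := esymm_eq x y hu hp n hn
    rwa [MvPolynomial.aeval_esymm_eq_multiset_esymm,
      MvPolynomial.aeval_esymm_eq_multiset_esymm] at h
  have hP : ((univ.val.map x).map fun t => Polynomial.X - Polynomial.C t).prod
      = ((univ.val.map y).map fun t => Polynomial.X - Polynomial.C t).prod := by
    rw [Multiset.prod_X_sub_X_eq_sum_esymm, Multiset.prod_X_sub_X_eq_sum_esymm]
    have hc : ∀ z : Fin k → R, Multiset.card (univ.val.map z) = k := by
      intro z
      simp
    rw [hc, hc]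
    refine Finset.sum_congr rfl fun n hn => ?_
    rw [mem_range] at hn
    rw [hs n (by omega)]
  rw [Multiset.map_map, Multiset.map_map] at hP
  have h2 := congrArg (Polynomial.eval (x i)) hP
  have h3 : ∀ z : Fin k → R, Polynomial.eval (x i)
      (Multiset.map ((fun t => Polynomial.X - Polynomial.C t) ∘ z) univ.val).prod
        = ∏ j, (x i - z j) := by
    intro z
    change Polynomial.eval (x i) (∏ j, (Polynomial.X - Polynomial.C (z j))) = _
    rw [Polynomial.eval_prod]
    simp
  rw [h3, h3] at h2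
  rw [← h2]
  exact Finset.prod_eq_zero (mem_univ i) (sub_self _)

/-- A factor of a product of integers divisible by `p ^ k`, the other factors prime to `p`. -/
theorem factor {k p : ℕ} (hp : p.Prime) (hk : 1 ≤ k) (a : ℤ) (y : Fin k → ℤ)
    (hy : ∀ i j : Fin k, i ≠ j → ¬ (p : ℤ) ∣ y i - y j)
    (h : (p : ℤ) ^ k ∣ ∏ j, (a - y j)) : ∃ j, (p : ℤ) ^ k ∣ a - y j := by
  have hp' : Prime (p : ℤ) := Nat.prime_iff_prime_int.mp hp
  have h1 : (p : ℤ) ∣ ∏ j, (a - y j) := (dvd_pow_self _ (by omega)).trans h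
  obtain ⟨j, -, hj⟩ := hp'.exists_mem_finset_dvd h1
  refine ⟨j, ?_⟩
  rw [← Finset.mul_prod_erase univ (fun j => a - y j) (mem_univ j)] at h
  refine (IsCoprime.dvd_of_dvd_mul_right ?_ h)
  refine IsCoprime.pow_left ?_
  refine IsCoprime.prod_right fun i hi => ?_
  rw [mem_erase] at hi
  rw [Prime.coprime_iff_not_dvd hp']
  intro hd
  refine hy i j hi.1 ?_
  have := dvd_sub hj hd
  have e : a - y j - (a - y i) = y i - y j := by ring
  rwa [e] at this

end LN

/-- Item LN. -/
theorem prf_LN : LN := by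
  intro k p hp hkp x y hx hy hxy
  rcases Nat.eq_zero_or_pos k with h0 | h0
  · subst h0
    exact ⟨1, fun i => i.elim0⟩
  have hp' : Prime (p : ℤ) := Nat.prime_iff_prime_int.mp hp
  have hu : ∀ n : ℕ, 1 ≤ n → n ≤ k → IsUnit ((n : ℕ) : ZMod (p ^ k)) := by
    intro n h1 h2
    rw [ZMod.isUnit_iff_coprime]
    refine Nat.Coprime.pow_right k ?_
    rw [Nat.coprime_comm]
    exact (Nat.Prime.coprime_iff_not_dvd hp).mpr (Nat.not_dvd_of_pos_of_lt h1 (by omega))
  have hps : ∀ n : ℕ, 1 ≤ n → n ≤ k → ∑ i, ((x i : ℤ) : ZMod (p ^ k)) ^ n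
      = ∑ i, ((y i : ℤ) : ZMod (p ^ k)) ^ n := by
    intro n h1 h2
    have h := hxy ⟨n - 1, by omega⟩
    have e : ∀ z : Fin k → ℤ, ps k z ⟨n - 1, by omega⟩ = ∑ i, z i ^ n := by
      intro z
      simp only [ps, Finset.sum_apply, pv]
      refine Finset.sum_congr rfl fun i _ => ?_
      congr 1
      omega
    rw [e, e] at h
    have h2 : (((∑ i, x i ^ n - ∑ i, y i ^ n : ℤ)) : ZMod (p ^ k)) = 0 := by
      rw [ZMod.intCast_zmod_eq_zero_iff_dvd]
      push_cast
      exact h
    push_cast at h2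
    exact sub_eq_zero.mp h2
  have hf : ∀ i : Fin k, ∃ j, (p : ℤ) ^ k ∣ x i - y j := by
    intro i
    refine LN.factor hp h0 (x i) y hy ?_
    have h := LN.prod_eq_zero (fun i => ((x i : ℤ) : ZMod (p ^ k)))
      (fun i => ((y i : ℤ) : ZMod (p ^ k))) hu hps i
    have h2 : (((∏ j, (x i - y j) : ℤ)) : ZMod (p ^ k)) = 0 := by
      push_cast
      exact h
    rw [ZMod.intCast_zmod_eq_zero_iff_dvd] at h2
    push_cast at h2
    exact h2
  choose τ hτ using hf
  have hinj : Function.Injective τ := by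
    intro i j hij
    by_contra hne
    refine hx i j hne ?_
    have h1 := hτ i
    have h2 := hτ j
    rw [hij] at h1
    have h3 := dvd_sub h1 h2
    have e : x i - y (τ j) - (x j - y (τ j)) = x i - x j := by ring
    rw [e] at h3
    exact (dvd_pow_self _ (by omega)).trans h3
  exact ⟨Equiv.ofBijective τ (Finite.injective_iff_bijective.mp hinj), fun i => hτ i⟩

end Pool.Agent.Work.MP_a8fbd7_nt.VK
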