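/-
Block VK (problem MP_a8fbd7_nt): item MO, the congruence step.  Author: helper7.
-/
import Pool.Agent.Work.MP_a8fbd7_nt.VK.Stmts
import Pool.Agent.Work.MP_a8fbd7_nt.VK.Basic

set_option autoImplicit false
set_option linter.dupNamespace false

namespace Pool.Agent.Work.MP_a8fbd7_nt.VK

open Finset

namespace MO

lemma shift_sum {s : ℕ} (x : Fin s → ℤ) (b : ℤ) (l : ℕ) :
    ∑ i, (x i + b) ^ l =
      ∑ t ∈ range (l + 1), (∑ i, x i ^ t) * (b ^ (l - t) * (l.choose t : ℤ)) := by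
  simp_rw [add_pow, Finset.sum_mul]
  rw [Finset.sum_comm]
  refine Finset.sum_congr rfl fun t _ => Finset.sum_congr rfl fun i _ => by ring

lemma ps_apply {k s : ℕ} (x : Fin s → ℤ) (j : Fin k) :
    ps k x j = ∑ i, x i ^ (j.val + 1) := by
  simp [ps, pv, Finset.sum_apply]

lemma shifted {k m : ℕ} (x y : Fin k → ℤ) (u v : Fin m → ℤ) (b : ℤ)
    (h : ps k x + ps k u = ps k y + ps k v) (l : ℕ) (hl : l ≤ k) :
    ∑ i, (x i + b) ^ l + ∑ i, (u i + b) ^ l = ∑ i, (y i + b) ^ l + ∑ i, (v i + b) ^ l := by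
  rw [shift_sum, shift_sum, shift_sum, shift_sum, ← Finset.sum_add_distrib,
    ← Finset.sum_add_distrib]
  refine Finset.sum_congr rfl fun t ht => ?_
  rw [← add_mul, ← add_mul]
  congr 1
  rcases Nat.eq_zero_or_pos t with h0 | h0
  · subst h0
    simp
  · have htl : t ≤ l := Nat.lt_succ_iff.mp (Finset.mem_range.mp ht)
    have h1 := congrFun h ⟨t - 1, by omega⟩
    simp only [Pi.add_apply, ps_apply] at h1
    have h2 : t - 1 + 1 = t := by omega
    simpa [h2] using h1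

lemma congr_step {k m p : ℕ} (x y : Fin k → ℤ) (u v : Fin m → ℤ) (a : ℤ)
    (hu : ∀ i, (p : ℤ) ∣ u i - a) (hv : ∀ i, (p : ℤ) ∣ v i - a)
    (h : ps k x + ps k u = ps k y + ps k v) (j : Fin k) :
    (p : ℤ) ^ (j.val + 1) ∣ ps k (fun i => x i - a) j - ps k (fun i => y i - a) j := by
  have h1 := shifted x y u v (-a) h (j.val + 1) j.isLt
  simp only [← sub_eq_add_neg] at h1
  rw [ps_apply, ps_apply]
  have h2 : ∑ i, (x i - a) ^ (j.val + 1) - ∑ i, (y i - a) ^ (j.val + 1) =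
      ∑ i, (v i - a) ^ (j.val + 1) - ∑ i, (u i - a) ^ (j.val + 1) := by
    linarith
  rw [h2]
  exact dvd_sub (Finset.dvd_sum fun i _ => pow_dvd_pow_of_dvd (hv i) _)
    (Finset.dvd_sum fun i _ => pow_dvd_pow_of_dvd (hu i) _)

lemma mem_Dst {k p : ℕ} {A : Finset ℤ} {x : Fin k → ℤ} :
    x ∈ Dst k p A ↔ (∀ i, x i ∈ A) ∧ ∀ i j : Fin k, i ≠ j → ¬ (p : ℤ) ∣ x i - x j := by
  rw [Dst, Finset.mem_filter, mem_tup]

lemma mem_cls {p a : ℕ} {A : Finset ℤ} {x : ℤ} (h : x ∈ cls p a A) : (p : ℤ) ∣ x - a := by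
  rw [cls, Finset.mem_filter] at h
  have h2 := Int.emod_add_mul_ediv x p
  refine ⟨x / p, ?_⟩
  rw [h.2] at h2
  linarith

/-- For fixed `y` the number of `x`. -/
lemma fibre (h3 : LI) {k p X a : ℕ} (hp : p.Prime) (hk : k < p) (hX : X ≤ p ^ k)
    (y : Fin k → ℤ) :
    ((Dst k p (ivl X)).filter fun x => ∀ j : Fin k,
      (p : ℤ) ^ (j.val + 1) ∣ ps k (fun i => x i - a) j - ps k (fun i => y i - a) j).card ≤
      Nat.factorial k * p ^ (k * (k - 1) / 2) := by
  refine le_trans ?_ (h3 k p hp hk (-(a : ℤ)) (ps k fun i => y i - a))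
  refine Finset.card_le_card_of_injOn (fun x i => x i - (a : ℤ)) ?_ ?_
  · intro x hx
    rw [Finset.mem_coe, Finset.mem_filter] at hx
    rw [Finset.mem_coe, Finset.mem_filter]
    refine ⟨?_, hx.2⟩
    have h1 := mem_Dst.mp hx.1
    refine mem_Dst.mpr ⟨fun i => ?_, fun i j hij => ?_⟩
    · have h4 := mem_ivl.mp (h1.1 i)
      have hX' : (X : ℤ) ≤ (p : ℤ) ^ k := by exact_mod_cast hX
      rw [Finset.mem_Ico]
      constructor
      · linarith [h4.1]
      · linarith [h4.2]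
    · have h4 := h1.2 i j hij
      simpa using h4
  · intro x _ x' _ hxx
    funext i
    have h4 := congrFun hxx i
    simp only at h4
    linarith

end MO

theorem prf_MO (h1 : TD) (h2 : PO) (h3 : LI) : MO := by
  classical
  intro k m p X a hp hk hX ha
  set A := cls p a (ivl X) with hA
  set D := Dst k p (ivl X) with hD
  set C := Nat.factorial k * p ^ (k * (k - 1) / 2) with hC
  have hDc : D.card ≤ X ^ k := by
    calc D.card ≤ (tup k (ivl X)).card := Finset.card_filter_le _ _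
      _ = X ^ k := by rw [card_tup, card_ivl]
  -- good pairs
  set G : Finset ((Fin k → ℤ) × (Fin k → ℤ)) := (D ×ˢ D).filter fun z => ∀ j : Fin k,
      (p : ℤ) ^ (j.val + 1) ∣ ps k (fun i => z.1 i - a) j - ps k (fun i => z.2 i - a) j with hG
  have hGc : G.card ≤ X ^ k * C := by
    have h4 : G.card = ∑ y ∈ D, (D.filter fun x => ∀ j : Fin k,
      (p : ℤ) ^ (j.val + 1) ∣ ps k (fun i => x i - a) j - ps k (fun i => y i - a) j).card := by
      rw [hG, Finset.card_filter, Finset.sum_product_right]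
      refine Finset.sum_congr rfl fun y _ => ?_
      rw [Finset.card_filter]
    rw [h4]
    calc ∑ y ∈ D, (D.filter fun x => ∀ j : Fin k,
      (p : ℤ) ^ (j.val + 1) ∣ ps k (fun i => x i - a) j - ps k (fun i => y i - a) j).card
        ≤ ∑ y ∈ D, C := Finset.sum_le_sum fun y _ => MO.fibre h3 hp hk hX y
      _ = D.card * C := by rw [Finset.sum_const, smul_eq_mul]
      _ ≤ X ^ k * C := Nat.mul_le_mul_right _ hDc
  have hE : En k m A ≤ J k m (X / p + 1) := h1.2.2 k m p a X hp.pos ha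
  have hN : Nn k m D A ≤ ∑ z ∈ G, Rn k m A (ps k z.2 - ps k z.1) := by
    have h5 : ∑ z ∈ G, Rn k m A (ps k z.2 - ps k z.1) =
        (G.sigma fun z => (tup m A ×ˢ tup m A).filter fun t =>
          ps k t.1 = ps k t.2 + (ps k z.2 - ps k z.1)).card := by
      rw [Finset.card_sigma]
      rfl
    rw [h5]
    refine Finset.card_le_card_of_injOn
      (fun z => ⟨(z.1.1, z.2.1), (z.1.2, z.2.2)⟩) ?_ ?_
    · intro z hz
      rw [Finset.mem_coe, Finset.mem_filter, Finset.mem_product, Finset.mem_product,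
        Finset.mem_product] at hz
      obtain ⟨⟨⟨hx, hu⟩, hy, hv⟩, hz⟩ := hz
      rw [Finset.mem_coe, Finset.mem_sigma]
      refine ⟨?_, ?_⟩
      · rw [hG, Finset.mem_filter, Finset.mem_product]
        refine ⟨⟨hx, hy⟩, fun j => ?_⟩
        exact MO.congr_step z.1.1 z.2.1 z.1.2 z.2.2 a
          (fun i => MO.mem_cls (mem_tup.mp hu i)) (fun i => MO.mem_cls (mem_tup.mp hv i)) hz j
      · rw [Finset.mem_filter, Finset.mem_product]
        refine ⟨⟨hu, hv⟩, ?_⟩
        show ps k z.1.2 = ps k z.2.2 + (ps k z.2.1 - ps k z.1.1)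
        have h6 : ps k z.1.2 = (ps k z.1.1 + ps k z.1.2) - ps k z.1.1 := by abel
        rw [h6, hz]
        abel
    · rintro ⟨⟨x, u⟩, y, v⟩ _ ⟨⟨x', u'⟩, y', v'⟩ _ h
      simp only [Sigma.mk.injEq, Prod.mk.injEq, heq_eq_eq] at h
      obtain ⟨⟨rfl, rfl⟩, rfl, rfl⟩ := h
      rfl
  calc Nn k m D A ≤ ∑ z ∈ G, Rn k m A (ps k z.2 - ps k z.1) := hN
    _ ≤ ∑ z ∈ G, J k m (X / p + 1) :=
        Finset.sum_le_sum fun z _ => (h2.1 k m A _).trans hE
    _ = G.card * J k m (X / p + 1) := by rw [Finset.sum_const, smul_eq_mul]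
    _ ≤ X ^ k * C * J k m (X / p + 1) := Nat.mul_le_mul_right _ hGc

end Pool.Agent.Work.MP_a8fbd7_nt.VK
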