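/-
Block VK (problem MP_a8fbd7_nt), item PO: positivity.  Statement: helper44.  Proof: helper64.
-/
import Pool.Agent.Work.MP_a8fbd7_nt.VK.Stmts

set_option autoImplicit false

namespace Pool.Agent.Work.MP_a8fbd7_nt.VK

open Finset

namespace PO_aux

variable {k q : ℕ} (S : Chars k q)

/-- the exponential sum over `A` -/
noncomputable def fA (A : Finset ℤ) (ψ : S.Ψ) : ℂ := ∑ x ∈ A, S.e ψ (pv k x)

theorem e_sum (ψ : S.Ψ) {ι : Type} (T : Finset ι) (a : ι → Fin k → ℤ) :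
    S.e ψ (∑ i ∈ T, a i) = ∏ i ∈ T, S.e ψ (a i) := by
  classical
  induction T using Finset.induction_on with
  | empty => simp [S.e_zero]
  | insert i T hi ih => rw [Finset.sum_insert hi, Finset.prod_insert hi, S.e_add, ih]

theorem fA_pow (A : Finset ℤ) (ψ : S.Ψ) (s : ℕ) :
    fA S A ψ ^ s = ∑ x ∈ tup s A, S.e ψ (ps k x) := by
  have h1 : fA S A ψ ^ s = ∏ _i : Fin s, ∑ x ∈ A, S.e ψ (pv k x) := by
    rw [Finset.prod_const, Finset.card_univ, Fintype.card_fin]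
    rfl
  rw [h1, Finset.prod_univ_sum]
  refine Finset.sum_congr rfl fun x _ => ?_
  unfold ps
  rw [e_sum]

theorem sum_sub (A : Finset ℤ) (ψ : S.Ψ) (s : ℕ) (w : Fin k → ℤ) :
    ∑ z ∈ tup s A ×ˢ tup s A, S.e ψ (ps k z.1 - ps k z.2 - w) =
      ((‖fA S A ψ‖ ^ (2 * s) : ℝ) : ℂ) * (starRingEnd ℂ) (S.e ψ w) := by
  have h1 : ∀ z : (Fin s → ℤ) × (Fin s → ℤ), S.e ψ (ps k z.1 - ps k z.2 - w) =
      S.e ψ (ps k z.1) * (starRingEnd ℂ) (S.e ψ (ps k z.2)) * (starRingEnd ℂ) (S.e ψ w) := by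
    intro z
    rw [sub_eq_add_neg, sub_eq_add_neg, S.e_add, S.e_add, S.e_neg, S.e_neg]
  simp only [h1]
  rw [← Finset.sum_mul]
  congr 1
  rw [Finset.sum_product]
  simp only
  rw [← Finset.sum_mul_sum, ← fA_pow, ← map_sum, ← fA_pow, map_pow, ← mul_pow,
    Complex.mul_conj, Complex.normSq_eq_norm_sq]
  push_cast
  rw [pow_mul]

theorem key (A : Finset ℤ) (s : ℕ) (w : Fin k → ℤ)
    (hq : ∀ z ∈ tup s A ×ˢ tup s A, ∀ j, |(ps k z.1 - ps k z.2 - w) j| < (q : ℤ)) :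
    ∑ ψ ∈ S.fin.elems, ((‖fA S A ψ‖ ^ (2 * s) : ℝ) : ℂ) * (starRingEnd ℂ) (S.e ψ w) =
      (@Fintype.card S.Ψ S.fin : ℂ) * (Rn k s A w : ℂ) := by
  have h0 : ∀ ψ : S.Ψ, ((‖fA S A ψ‖ ^ (2 * s) : ℝ) : ℂ) * (starRingEnd ℂ) (S.e ψ w) =
      ∑ z ∈ tup s A ×ˢ tup s A, S.e ψ (ps k z.1 - ps k z.2 - w) := fun ψ => (sum_sub S A ψ s w).symm
  simp only [h0]
  rw [Finset.sum_comm]
  have h1 : ∀ z ∈ tup s A ×ˢ tup s A, ∑ ψ ∈ S.fin.elems, S.e ψ (ps k z.1 - ps k z.2 - w) =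
      if ps k z.1 = ps k z.2 + w then (@Fintype.card S.Ψ S.fin : ℂ) else 0 := by
    intro z hz
    have h2 := S.orth (ps k z.1 - ps k z.2 - w) (hq z hz)
    have h3 : (ps k z.1 - ps k z.2 - w = 0) ↔ ps k z.1 = ps k z.2 + w := by
      rw [sub_sub, sub_eq_zero]
    simp only [h3] at h2
    exact h2
  rw [Finset.sum_congr rfl h1, ← Finset.sum_filter, Finset.sum_const, nsmul_eq_mul, mul_comm]
  rfl

theorem exists_q (k s : ℕ) (A : Finset ℤ) (w : Fin k → ℤ) : ∃ q : ℕ, 0 < q ∧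
    (∀ z ∈ tup s A ×ˢ tup s A, ∀ j, |(ps k z.1 - ps k z.2 - w) j| < (q : ℤ)) ∧
    (∀ z ∈ tup s A ×ˢ tup s A, ∀ j, |(ps k z.1 - ps k z.2 - 0) j| < (q : ℤ)) := by
  have h : ∀ v : Fin k → ℤ, ∃ q : ℕ, ∀ z ∈ tup s A ×ˢ tup s A, ∀ j,
      |(ps k z.1 - ps k z.2 - v) j| < (q : ℤ) := by
    intro v
    refine ⟨(∑ z ∈ tup s A ×ˢ tup s A, ∑ j, ((ps k z.1 - ps k z.2 - v) j).natAbs) + 1,
      fun z hz j => ?_⟩
    have h1 : ((ps k z.1 - ps k z.2 - v) j).natAbs ≤
        ∑ j, ((ps k z.1 - ps k z.2 - v) j).natAbs :=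
      Finset.single_le_sum (f := fun j => ((ps k z.1 - ps k z.2 - v) j).natAbs)
        (fun _ _ => Nat.zero_le _) (Finset.mem_univ j)
    have h2 : ∑ j, ((ps k z.1 - ps k z.2 - v) j).natAbs ≤
        ∑ z ∈ tup s A ×ˢ tup s A, ∑ j, ((ps k z.1 - ps k z.2 - v) j).natAbs :=
      Finset.single_le_sum (f := fun z : (Fin s → ℤ) × (Fin s → ℤ) =>
        ∑ j, ((ps k z.1 - ps k z.2 - v) j).natAbs) (fun _ _ => Nat.zero_le _) hz
    have h3 := (h1.trans h2).trans_lt (Nat.lt_succ_self _)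
    rw [Int.abs_eq_natAbs]
    exact_mod_cast h3
  obtain ⟨q1, h1⟩ := h w
  obtain ⟨q2, h2⟩ := h 0
  refine ⟨q1 + q2 + 1, by omega, fun z hz j => ?_, fun z hz j => ?_⟩
  · have := h1 z hz j
    push_cast
    linarith [Int.natCast_nonneg q2]
  · have := h2 z hz j
    push_cast
    linarith [Int.natCast_nonneg q1]

theorem Rn_zero (k s : ℕ) (A : Finset ℤ) : Rn k s A 0 = En k s A := by
  unfold Rn En
  simp only [add_zero]

theorem Rn_le (h : CH) (k s : ℕ) (A : Finset ℤ) (w : Fin k → ℤ) : Rn k s A w ≤ En k s A := by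
  obtain ⟨q, hq, hw, h0⟩ := exists_q k s A w
  obtain ⟨S⟩ := h k q hq
  haveI := S.ne
  have hcard : 0 < @Fintype.card S.Ψ S.fin := @Fintype.card_pos S.Ψ S.fin S.ne
  have e1 := key S A s w hw
  have e0 := key S A s 0 h0
  rw [Rn_zero] at e0
  have hn1 : ‖(@Fintype.card S.Ψ S.fin : ℂ) * (Rn k s A w : ℂ)‖ =
      (@Fintype.card S.Ψ S.fin : ℝ) * (Rn k s A w : ℝ) := by
    rw [norm_mul, Complex.norm_natCast, Complex.norm_natCast]
  have hn2 : ((@Fintype.card S.Ψ S.fin : ℝ) * (En k s A : ℝ)) =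
      ∑ ψ ∈ S.fin.elems, ‖fA S A ψ‖ ^ (2 * s) := by
    have h2 : (((@Fintype.card S.Ψ S.fin : ℝ) * (En k s A : ℝ) : ℝ) : ℂ) =
        ((∑ ψ ∈ S.fin.elems, ‖fA S A ψ‖ ^ (2 * s) : ℝ) : ℂ) := by
      push_cast
      rw [← e0]
      refine Finset.sum_congr rfl fun ψ _ => ?_
      rw [S.e_zero, map_one, mul_one]
      push_cast
      rfl
    exact_mod_cast h2
  have h3 : (@Fintype.card S.Ψ S.fin : ℝ) * (Rn k s A w : ℝ) ≤
      (@Fintype.card S.Ψ S.fin : ℝ) * (En k s A : ℝ) := by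
    rw [← hn1, ← e1, hn2]
    refine (norm_sum_le _ _).trans (le_of_eq (Finset.sum_congr rfl fun ψ _ => ?_))
    rw [norm_mul, RCLike.norm_conj, S.e_norm, mul_one, Complex.norm_real, norm_pow, norm_norm]
  have h4 : (Rn k s A w : ℝ) ≤ (En k s A : ℝ) :=
    le_of_mul_le_mul_left h3 (by exact_mod_cast hcard)
  exact_mod_cast h4

theorem ps_split (k : ℕ) {n m : ℕ} (x : Fin (n + m) → ℤ) :
    ps k x = ps k (fun i => x (Fin.castAdd m i)) + ps k (fun i => x (Fin.natAdd n i)) := by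
  unfold ps
  rw [Fin.sum_univ_add]

theorem En_add (h : CH) (k n m : ℕ) (A : Finset ℤ) :
    En k (n + m) A ≤ A.card ^ (2 * n) * En k m A := by
  classical
  set T := (tup (n + m) A ×ˢ tup (n + m) A).filter fun z => ps k z.1 = ps k z.2 with hT
  set g : (Fin (n + m) → ℤ) × (Fin (n + m) → ℤ) → (Fin n → ℤ) × (Fin n → ℤ) :=
    fun z => (fun i => z.1 (Fin.castAdd m i), fun i => z.2 (Fin.castAdd m i)) with hg
  have hmaps : ∀ z ∈ T, g z ∈ tup n A ×ˢ tup n A := by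
    intro z hz
    rw [hT, Finset.mem_filter, Finset.mem_product] at hz
    unfold tup at hz
    rw [Fintype.mem_piFinset, Fintype.mem_piFinset] at hz
    rw [Finset.mem_product]
    unfold tup
    rw [Fintype.mem_piFinset, Fintype.mem_piFinset]
    exact ⟨fun i => hz.1.1 _, fun i => hz.1.2 _⟩
  have hfib : ∀ b ∈ tup n A ×ˢ tup n A, (T.filter fun z => g z = b).card ≤ En k m A := by
    intro b _
    refine le_trans ?_ (Rn_le h k m A (ps k b.2 - ps k b.1))
    unfold Rn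
    refine Finset.card_le_card_of_injOn
      (fun z => (fun i => z.1 (Fin.natAdd n i), fun i => z.2 (Fin.natAdd n i))) ?_ ?_
    · intro z hz
      rw [Finset.mem_coe, Finset.mem_filter, hT, Finset.mem_filter, Finset.mem_product] at hz
      obtain ⟨⟨⟨h1, h2⟩, h3⟩, h4⟩ := hz
      unfold tup at h1 h2
      rw [Fintype.mem_piFinset] at h1 h2
      rw [Finset.mem_coe, Finset.mem_filter, Finset.mem_product]
      unfold tup
      rw [Fintype.mem_piFinset, Fintype.mem_piFinset]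
      refine ⟨⟨fun i => h1 _, fun i => h2 _⟩, ?_⟩
      rw [ps_split, ps_split k z.2] at h3
      have h5 : (fun i => z.1 (Fin.castAdd m i)) = b.1 := congrArg Prod.fst h4
      have h6 : (fun i => z.2 (Fin.castAdd m i)) = b.2 := congrArg Prod.snd h4
      rw [h5, h6] at h3
      simp only
      rw [← sub_eq_zero] at h3 ⊢
      rw [← h3]
      abel
    · intro z hz z' hz' he
      rw [Finset.mem_coe, Finset.mem_filter] at hz hz'
      have h4 : g z = g z' := hz.2.trans hz'.2.symm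
      have h5 : (fun i => z.1 (Fin.castAdd m i)) = fun i => z'.1 (Fin.castAdd m i) :=
        congrArg Prod.fst h4
      have h6 : (fun i => z.2 (Fin.castAdd m i)) = fun i => z'.2 (Fin.castAdd m i) :=
        congrArg Prod.snd h4
      have h7 : (fun i => z.1 (Fin.natAdd n i)) = fun i => z'.1 (Fin.natAdd n i) :=
        congrArg Prod.fst he
      have h8 : (fun i => z.2 (Fin.natAdd n i)) = fun i => z'.2 (Fin.natAdd n i) :=
        congrArg Prod.snd he
      refine Prod.ext (funext fun i => ?_) (funext fun i => ?_)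
      · refine Fin.addCases (fun j => congrFun h5 j) (fun j => congrFun h7 j) i
      · refine Fin.addCases (fun j => congrFun h6 j) (fun j => congrFun h8 j) i
  have h1 := Finset.card_le_mul_card_image_of_maps_to hmaps (En k m A) hfib
  have h2 : (tup n A ×ˢ tup n A).card = A.card ^ (2 * n) := by
    rw [Finset.card_product]
    unfold tup
    rw [Fintype.card_piFinset, Finset.prod_const, Finset.card_univ, Fintype.card_fin, two_mul,
      pow_add]
  rw [h2, mul_comm] at h1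
  exact h1

end PO_aux

theorem prf_PO (h : CH) : PO := ⟨PO_aux.Rn_le h, PO_aux.En_add h⟩

end Pool.Agent.Work.MP_a8fbd7_nt.VK
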