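/-
Item PZ of block VK (problem MP_a8fbd7_nt).  Author: helper92.
-/
import Pool.Agent.Work.MP_a8fbd7_nt.VK.Stmts

set_option autoImplicit false

namespace Pool.Agent.Work.MP_a8fbd7_nt.VK

open Finset

namespace PZ

theorem z1_ne {s : ℂ} (hs : 1 ≤ s.re) : riemannZeta₁ s ≠ 0 := by
  by_cases h1 : s = 1
  · rw [h1, riemannZeta₁_one]; exact one_ne_zero
  · intro h
    have h2 := riemannZeta_eq_inv_sub_mul h1
    rw [h, mul_zero] at h2
    exact riemannZeta_ne_zero_of_one_le_re hs h2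

theorem logd (s : ℂ) (h1 : s ≠ 1) (hz : riemannZeta s ≠ 0) :
    deriv riemannZeta₁ s / riemannZeta₁ s = deriv riemannZeta s / riemannZeta s + 1 / (s - 1) := by
  have h2 := deriv_riemannZeta_eq_neg_inv_sub_sq_mul_add h1
  have h3 := riemannZeta_eq_inv_sub_mul h1
  have h4 : s - 1 ≠ 0 := sub_ne_zero.2 h1
  have h5 : riemannZeta₁ s ≠ 0 := by
    intro h
    rw [h, mul_zero] at h3
    exact hz h3
  rw [h2, h3]
  field_simp
  ring

theorem part1 : ∃ C : ℝ, ∀ σ : ℝ, 1 < σ → σ ≤ 2 →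
    (-(deriv riemannZeta (σ : ℂ) / riemannZeta (σ : ℂ))).re ≤ 1 / (σ - 1) + C := by
  have hc : ContinuousOn (fun σ : ℝ => ‖deriv riemannZeta₁ (σ : ℂ) / riemannZeta₁ (σ : ℂ)‖)
      (Set.Icc 1 2) := by
    refine ContinuousOn.norm ?_
    refine ContinuousOn.div ?_ ?_ ?_
    · exact (differentiable_riemannZeta₁.deriv.continuous.comp Complex.continuous_ofReal).continuousOn
    · exact (differentiable_riemannZeta₁.continuous.comp Complex.continuous_ofReal).continuousOn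
    · intro σ hσ
      exact z1_ne (by simpa using hσ.1)
  obtain ⟨C, hC⟩ := isCompact_Icc.bddAbove_image hc
  refine ⟨C, fun σ h1 h2 => ?_⟩
  have h3 : (σ : ℂ) ≠ 1 := by
    intro h
    have := congrArg Complex.re h
    simp at this
    linarith
  have h4 : riemannZeta (σ : ℂ) ≠ 0 := riemannZeta_ne_zero_of_one_le_re (by simpa using h1.le)
  have h5 := logd σ h3 h4
  have h6 : ‖deriv riemannZeta₁ (σ : ℂ) / riemannZeta₁ (σ : ℂ)‖ ≤ C :=
    hC ⟨σ, ⟨h1.le, h2⟩, rfl⟩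
  have h7 : -(deriv riemannZeta (σ : ℂ) / riemannZeta (σ : ℂ)) =
      1 / ((σ : ℂ) - 1) - deriv riemannZeta₁ (σ : ℂ) / riemannZeta₁ (σ : ℂ) := by
    rw [h5]
    ring
  rw [h7, Complex.sub_re]
  have h8 : (1 / ((σ : ℂ) - 1)).re = 1 / (σ - 1) := by
    have : (1 / ((σ : ℂ) - 1)) = ((1 / (σ - 1) : ℝ) : ℂ) := by push_cast; ring
    rw [this, Complex.ofReal_re]
  rw [h8]
  have h9 := Complex.abs_re_le_norm (deriv riemannZeta₁ (σ : ℂ) / riemannZeta₁ (σ : ℂ))
  have h10 := neg_le_of_abs_le (h9.trans h6)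
  linarith

theorem sum_le {σ : ℝ} (h1 : 1 < σ) : ∑' n : ℕ, 1 / ((n : ℝ) + 1) ^ σ ≤ 1 + 1 / (σ - 1) := by
  have h2 := ZetaAsymptotics.zeta_limit_aux1 h1
  have h3 : 0 ≤ ZetaAsymptotics.termTSum σ :=
    tsum_nonneg fun n => ZetaAsymptotics.term_nonneg _ _
  have h4 : 0 ≤ σ * ZetaAsymptotics.termTSum σ := by positivity
  linarith

theorem part2 (σ t : ℝ) (h1 : 1 < σ) (h2 : σ ≤ 2) :
    (σ - 1) / 2 ≤ ‖riemannZeta (σ + t * Complex.I)‖ := by
  set s : ℂ := σ + t * Complex.I with hs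
  have hre : s.re = σ := by simp [hs]
  have h3 : 1 < s.re := by rw [hre]; exact h1
  have h4 := LSeries_one_mul_Lseries_moebius h3
  rw [LSeries_one_eq_riemannZeta h3] at h4
  have h5 : ‖LSeries (fun n => (ArithmeticFunction.moebius n : ℂ)) s‖ ≤ 2 / (σ - 1) := by
    have hb : ∀ n : ℕ, ‖LSeries.term (fun n => (ArithmeticFunction.moebius n : ℂ)) s n‖ ≤
        ‖LSeries.term 1 s n‖ := by
      intro n
      refine LSeries.norm_term_le s ?_
      rw [Pi.one_apply, norm_one]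
      have h6 : |ArithmeticFunction.moebius n| ≤ 1 := ArithmeticFunction.abs_moebius_le_one
      have h7 : ‖((ArithmeticFunction.moebius n : ℤ) : ℂ)‖ = |((ArithmeticFunction.moebius n : ℤ) : ℝ)| := by
        rw [Complex.norm_intCast]
      rw [h7]
      exact_mod_cast h6
    have hs1 : Summable fun n : ℕ => ‖LSeries.term 1 s n‖ :=
      (LSeriesSummable_one_iff.mpr h3).norm
    have h6 : ‖LSeries (fun n => (ArithmeticFunction.moebius n : ℂ)) s‖ ≤
        ∑' n : ℕ, ‖LSeries.term 1 s n‖ := by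
      have h7 : Summable fun n : ℕ =>
          ‖LSeries.term (fun n => (ArithmeticFunction.moebius n : ℂ)) s n‖ :=
        Summable.of_nonneg_of_le (fun _ => norm_nonneg _) hb hs1
      exact (norm_tsum_le_tsum_norm h7).trans (h7.tsum_le_tsum hb hs1)
    have h8 : ∑' n : ℕ, ‖LSeries.term 1 s n‖ = ∑' n : ℕ, 1 / ((n : ℝ) + 1) ^ σ := by
      rw [hs1.tsum_eq_zero_add]
      have h9 : ‖LSeries.term 1 s 0‖ = 0 := by simp
      rw [h9, zero_add]
      refine tsum_congr fun n => ?_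
      rw [LSeries.norm_term_eq, hre]
      simp
    rw [h8] at h6
    refine h6.trans ((sum_le h1).trans ?_)
    have h10 : 0 < σ - 1 := by linarith
    rw [le_div_iff₀ h10]
    have : (1 + 1 / (σ - 1)) * (σ - 1) = σ := by field_simp; ring
    rw [this]
    exact h2
  have h6 := congrArg norm h4
  rw [norm_mul, norm_one] at h6
  have h7 : 0 < σ - 1 := by linarith
  have h8 : 1 ≤ ‖riemannZeta s‖ * (2 / (σ - 1)) := by
    exact h6.symm.le.trans (mul_le_mul_of_nonneg_left h5 (norm_nonneg _))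
  rw [mul_div_assoc', le_div_iff₀ h7] at h8
  linarith

end PZ

theorem prf_PZ : PZ := ⟨PZ.part1, PZ.part2, PZ.logd⟩

end Pool.Agent.Work.MP_a8fbd7_nt.VK
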