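/-
Block VK (problem MP_a8fbd7_nt), item RE: the recursion.  Author: helper41.
-/
import Pool.Agent.Work.MP_a8fbd7_nt.VK.Stmts

set_option autoImplicit false
set_option linter.dupNamespace false

namespace Pool.Agent.Work.MP_a8fbd7_nt.VK

open Finset

namespace RE

lemma card_ivl (X : ℕ) : (ivl X).card = X := by
  unfold ivl
  simp

/-- Every solution is good or has few classes on one side. -/
lemma split (k s p : ℕ) (A : Finset ℤ) :
    En k s A ≤ ((tup s A ×ˢ tup s A).filter fun z =>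
        ps k z.1 = ps k z.2 ∧ k ≤ ncl p z.1 ∧ k ≤ ncl p z.2).card +
      2 * ((tup s A ×ˢ tup s A).filter fun z => ps k z.1 = ps k z.2 ∧ ncl p z.1 < k).card := by
  classical
  have hswap : ((tup s A ×ˢ tup s A).filter fun z => ps k z.1 = ps k z.2 ∧ ncl p z.2 < k).card ≤
      ((tup s A ×ˢ tup s A).filter fun z => ps k z.1 = ps k z.2 ∧ ncl p z.1 < k).card := by
    refine Finset.card_le_card_of_injOn (fun z => (z.2, z.1)) ?_ ?_
    · intro z hz
      have hz' := Finset.mem_filter.1 (Finset.mem_coe.1 hz)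
      refine Finset.mem_coe.2 (Finset.mem_filter.2 ⟨?_, ?_, ?_⟩)
      · exact Finset.mem_product.2 ⟨(Finset.mem_product.1 hz'.1).2, (Finset.mem_product.1 hz'.1).1⟩
      · exact hz'.2.1.symm
      · exact hz'.2.2
    · intro z _ w _ hzw
      have h1 := congrArg Prod.fst hzw
      have h2 := congrArg Prod.snd hzw
      exact Prod.ext h2 h1
  have hsub : ((tup s A ×ˢ tup s A).filter fun z => ps k z.1 = ps k z.2) ⊆
      (((tup s A ×ˢ tup s A).filter fun z =>
        ps k z.1 = ps k z.2 ∧ k ≤ ncl p z.1 ∧ k ≤ ncl p z.2) ∪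
      ((tup s A ×ˢ tup s A).filter fun z => ps k z.1 = ps k z.2 ∧ ncl p z.1 < k)) ∪
      ((tup s A ×ˢ tup s A).filter fun z => ps k z.1 = ps k z.2 ∧ ncl p z.2 < k) := by
    intro z hz
    have hz' := Finset.mem_filter.1 hz
    by_cases h1 : ncl p z.1 < k
    · exact Finset.mem_union_left _ (Finset.mem_union_right _
        (Finset.mem_filter.2 ⟨hz'.1, hz'.2, h1⟩))
    · by_cases h2 : ncl p z.2 < k
      · exact Finset.mem_union_right _ (Finset.mem_filter.2 ⟨hz'.1, hz'.2, h2⟩)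
      · exact Finset.mem_union_left _ (Finset.mem_union_left _
          (Finset.mem_filter.2 ⟨hz'.1, hz'.2, not_lt.1 h1, not_lt.1 h2⟩))
  have hcard := (Finset.card_le_card hsub).trans (Finset.card_union_le _ _)
  have hcard2 := Finset.card_union_le ((tup s A ×ˢ tup s A).filter fun z =>
        ps k z.1 = ps k z.2 ∧ k ≤ ncl p z.1 ∧ k ≤ ncl p z.2)
      ((tup s A ×ˢ tup s A).filter fun z => ps k z.1 = ps k z.2 ∧ ncl p z.1 < k)
  unfold En
  omega

end RE

theorem prf_RE (h1 : TD) (h2 : PO) (h3 : HO) (h4 : BA) (h5 : MO) (h6 : GG) : RE := by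
  intro k m p X hk hm hp hkp hX
  have hp0 : 0 < p := hp.pos
  have hs : 1 ≤ k + m := by omega
  -- the good part
  have hgood := h6 k m p hp0 (ivl X)
  have hho := h3 k m p hp0 hm (Dst k p (ivl X)) (ivl X)
  have hsum : ∑ a ∈ range p, Nn k m (Dst k p (ivl X)) (cls p a (ivl X)) ≤
      p * (X ^ k * (Nat.factorial k * p ^ (k * (k - 1) / 2)) * J k m (X / p + 1)) := by
    have := Finset.sum_le_card_nsmul (range p)
      (fun a => Nn k m (Dst k p (ivl X)) (cls p a (ivl X)))
      (X ^ k * (Nat.factorial k * p ^ (k * (k - 1) / 2)) * J k m (X / p + 1))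
      (fun a ha => h5 k m p X a hp hkp hX (Finset.mem_range.1 ha))
    simpa [Finset.card_range, smul_eq_mul] using this
  have hN : Nn k m (Dst k p (ivl X)) (ivl X) ≤ p ^ (2 * m) *
      (X ^ k * (Nat.factorial k * p ^ (k * (k - 1) / 2)) * J k m (X / p + 1)) := by
    calc Nn k m (Dst k p (ivl X)) (ivl X)
        ≤ p ^ (2 * m - 1) * ∑ a ∈ range p, Nn k m (Dst k p (ivl X)) (cls p a (ivl X)) := hho
      _ ≤ p ^ (2 * m - 1) * (p *
          (X ^ k * (Nat.factorial k * p ^ (k * (k - 1) / 2)) * J k m (X / p + 1))) :=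
          Nat.mul_le_mul_left _ hsum
      _ = p ^ (2 * m) *
          (X ^ k * (Nat.factorial k * p ^ (k * (k - 1) / 2)) * J k m (X / p + 1)) := by
          rw [← mul_assoc, ← pow_succ]
          congr 2
          omega
  -- the bad part
  have hE : ∀ a < p, En k (k + m) (cls p a (ivl X)) ≤
      (X / p + 1) ^ (2 * k) * J k m (X / p + 1) := by
    intro a ha
    refine (h1.2.2 k (k + m) p a X hp0 ha).trans ?_
    have := h2.2 k k m (ivl (X / p + 1))
    rw [RE.card_ivl] at this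
    exact this
  have hbad := h4 k (k + m) p ((X / p + 1) ^ (2 * k) * J k m (X / p + 1)) hk hs hp0 (ivl X) hE
  have hsplit := RE.split k (k + m) p (ivl X)
  change En k (k + m) (ivl X) ≤ _
  set Jv := En k (k + m) (ivl X) with hJv
  set G := ((tup (k + m) (ivl X) ×ˢ tup (k + m) (ivl X)).filter fun z =>
        ps k z.1 = ps k z.2 ∧ k ≤ ncl p z.1 ∧ k ≤ ncl p z.2).card with hG
  set B := ((tup (k + m) (ivl X) ×ˢ tup (k + m) (ivl X)).filter fun z =>
        ps k z.1 = ps k z.2 ∧ ncl p z.1 < k).card with hB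
  set N := X ^ k * (Nat.factorial k * p ^ (k * (k - 1) / 2)) * J k m (X / p + 1) with hNdef
  set E := (X / p + 1) ^ (2 * k) * J k m (X / p + 1) with hEdef
  by_cases hcase : Jv ≤ 2 * G
  · have hGle : G ≤ (Nat.factorial (k + m)) ^ 2 * (p ^ (2 * m) * N) :=
      hgood.trans (Nat.mul_le_mul_left _ hN)
    calc Jv ≤ 2 * G := hcase
      _ ≤ 2 * ((Nat.factorial (k + m)) ^ 2 * (p ^ (2 * m) * N)) := Nat.mul_le_mul_left _ hGle
      _ = 2 * (Nat.factorial (k + m)) ^ 2 * p ^ (2 * m) * N := by ring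
      _ ≤ _ := Nat.le_add_right _ _
  · have hJB : Jv ≤ 4 * B := by omega
    rcases Nat.eq_zero_or_pos Jv with h0 | hpos
    · rw [h0]; exact Nat.zero_le _
    · have hsq : Jv * Jv ≤ (16 * p ^ (2 * (k - 1)) * k ^ (2 * (k + m)) * E) * Jv := by
        calc Jv * Jv ≤ (4 * B) * (4 * B) := Nat.mul_le_mul hJB hJB
          _ = 16 * B ^ 2 := by ring
          _ ≤ 16 * (p ^ (2 * (k - 1)) * k ^ (2 * (k + m)) * E * Jv) :=
              Nat.mul_le_mul_left _ hbad
          _ = (16 * p ^ (2 * (k - 1)) * k ^ (2 * (k + m)) * E) * Jv := by ring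
      have hfin := Nat.le_of_mul_le_mul_right hsq hpos
      exact hfin.trans (Nat.le_add_left _ _)

end Pool.Agent.Work.MP_a8fbd7_nt.VK
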