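/-
Block VK (problem MP_a8fbd7_nt), item SH: shift by `u v` and Taylor expansion of the logarithm.
Author: helper37.
-/
import Pool.Agent.Work.MP_a8fbd7_nt.VK.Stmts

set_option autoImplicit false

namespace Pool.Agent.Work.MP_a8fbd7_nt.VK

open Finset

namespace SH

/-- `n ^ (- i t)` written as an exponential. -/
noncomputable def aa (t : ℝ) (x : ℝ) : ℂ := Complex.exp (((-(t * Real.log x) : ℝ) : ℂ) * Complex.I)

theorem norm_aa (t x : ℝ) : ‖aa t x‖ = 1 := Complex.norm_exp_ofReal_mul_I _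

theorem cpow_eq (t : ℝ) (n : ℕ) (hn : 0 < n) :
    (n : ℂ) ^ (-((t : ℂ) * Complex.I)) = aa t n := by
  unfold aa
  rw [Complex.cpow_def_of_ne_zero (by exact_mod_cast hn.ne'), ← Complex.natCast_log]
  congr 1
  push_cast
  ring

theorem zs_eq (N N' : ℕ) (t : ℝ) : zs N N' t = ∑ n ∈ Ioc N N', aa t n := by
  unfold zs
  refine Finset.sum_congr rfl fun n hn => ?_
  exact cpow_eq t n (by have := (Finset.mem_Ioc.mp hn).1; omega)

/-- shifting the summation variable by one changes the sum by a boundary term -/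
theorem shift_one (f : ℕ → ℂ) (N N' : ℕ) (h : N ≤ N') :
    ∑ n ∈ Ioc N N', f n - ∑ n ∈ Ioc N N', f (n + 1) = f (N + 1) - f (N' + 1) := by
  induction N', h using Nat.le_induction with
  | base => simp
  | succ M hM ih =>
    rw [← Finset.insert_Ioc_right_eq_Ioc_add_one hM, Finset.sum_insert (by simp),
      Finset.sum_insert (by simp)]
    linear_combination ih

theorem shift (f : ℕ → ℂ) (hf : ∀ n, ‖f n‖ ≤ 1) (N N' : ℕ) (h : N ≤ N') (x : ℕ) :
    ‖∑ n ∈ Ioc N N', f n - ∑ n ∈ Ioc N N', f (n + x)‖ ≤ 2 * (x : ℝ) := by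
  induction x with
  | zero => simp
  | succ x ih =>
    have h1 := shift_one (fun n => f (n + x)) N N' h
    have h2 : ∑ n ∈ Ioc N N', f n - ∑ n ∈ Ioc N N', f (n + (x + 1)) =
        (∑ n ∈ Ioc N N', f n - ∑ n ∈ Ioc N N', f (n + x)) +
          (f (N + 1 + x) - f (N' + 1 + x)) := by
      rw [← h1]
      have h3 : ∀ n, f (n + (x + 1)) = f (n + 1 + x) := fun n => by congr 1; ring
      simp only [h3]
      ring
    rw [h2]
    calc _ ≤ ‖∑ n ∈ Ioc N N', f n - ∑ n ∈ Ioc N N', f (n + x)‖ +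
          ‖f (N + 1 + x) - f (N' + 1 + x)‖ := norm_add_le _ _
      _ ≤ 2 * (x : ℝ) + (1 + 1) := by
          refine add_le_add ih ((norm_sub_le _ _).trans (add_le_add (hf _) (hf _)))
      _ = _ := by push_cast; ring

/-- Taylor expansion -/
theorem taylor (k n x : ℕ) (t : ℝ) (hn : 0 < n) (hx : 2 * x ≤ n) :
    ‖aa t ((n : ℝ) + x) - aa t n * ee (∑ j : Fin k, al k t n j * (x : ℝ) ^ (j.val + 1))‖ ≤
      2 * |t| * ((x : ℝ) / n) ^ (k + 1) := by
  have hn' : (0 : ℝ) < n := by exact_mod_cast hn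
  have hx0 : (0 : ℝ) ≤ x := by positivity
  have hx' : 2 * (x : ℝ) ≤ n := by exact_mod_cast hx
  have hq0 : 0 ≤ (x : ℝ) / n := by positivity
  have hq : (x : ℝ) / n ≤ 1 / 2 := by
    rw [div_le_div_iff₀ hn' (by norm_num)]
    linarith
  have habs : |-((x : ℝ) / n)| = (x : ℝ) / n := by rw [abs_neg, abs_of_nonneg hq0]
  have hT := Real.abs_log_sub_add_sum_range_le (x := -((x : ℝ) / n)) (by rw [habs]; linarith) k
  rw [habs] at hT
  set R : ℝ := (∑ i ∈ range k, (-((x : ℝ) / n)) ^ (i + 1) / ((i : ℝ) + 1)) +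
    Real.log (1 - -((x : ℝ) / n)) with hR
  have hRb : |R| ≤ 2 * ((x : ℝ) / n) ^ (k + 1) := by
    refine hT.trans ?_
    rw [div_le_iff₀ (by linarith)]
    nlinarith [pow_nonneg hq0 (k + 1)]
  have hlog : Real.log ((n : ℝ) + x) = Real.log n + Real.log (1 - -((x : ℝ) / n)) := by
    rw [← Real.log_mul hn'.ne' (by linarith)]
    congr 1
    field_simp
    ring
  have hsum : 2 * Real.pi * (∑ j : Fin k, al k t n j * (x : ℝ) ^ (j.val + 1)) =
      t * ∑ i ∈ range k, (-((x : ℝ) / n)) ^ (i + 1) / ((i : ℝ) + 1) := by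
    rw [← Fin.sum_univ_eq_sum_range (fun i => (-((x : ℝ) / n)) ^ (i + 1) / ((i : ℝ) + 1)) k,
      Finset.mul_sum, Finset.mul_sum]
    refine Finset.sum_congr rfl fun j _ => ?_
    unfold al
    have hj : ((j.val : ℝ) + 1) ≠ 0 := by positivity
    have hpi : Real.pi ≠ 0 := Real.pi_ne_zero
    rw [neg_pow ((x : ℝ) / n), div_pow]
    field_simp
  have hprod : aa t n * ee (∑ j : Fin k, al k t n j * (x : ℝ) ^ (j.val + 1)) =
      aa t ((n : ℝ) + x) * Complex.exp (((t * R : ℝ) : ℂ) * Complex.I) := by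
    unfold aa ee
    rw [← Complex.exp_add, ← Complex.exp_add]
    congr 1
    have e1 : 2 * (Real.pi : ℂ) * Complex.I *
        ((∑ j : Fin k, al k t n j * (x : ℝ) ^ (j.val + 1) : ℝ) : ℂ) =
        ((2 * Real.pi * (∑ j : Fin k, al k t n j * (x : ℝ) ^ (j.val + 1)) : ℝ) : ℂ) *
          Complex.I := by
      push_cast
      ring
    rw [e1, hsum, hlog, ← add_mul, ← add_mul, ← Complex.ofReal_add, ← Complex.ofReal_add]
    congr 2
    rw [hR]
    ring
  rw [hprod]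
  have e2 : aa t ((n : ℝ) + x) - aa t ((n : ℝ) + x) *
      Complex.exp (((t * R : ℝ) : ℂ) * Complex.I) =
      -(aa t ((n : ℝ) + x) * (Complex.exp (((t * R : ℝ) : ℂ) * Complex.I) - 1)) := by ring
  rw [e2, norm_neg, norm_mul, norm_aa, one_mul]
  have e3 : ‖Complex.exp (((t * R : ℝ) : ℂ) * Complex.I) - 1‖ ≤ |t * R| := by
    have := Real.norm_exp_I_mul_ofReal_sub_one_le (x := t * R)
    rw [Real.norm_eq_abs] at this
    rwa [mul_comm]
  refine e3.trans ?_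
  rw [abs_mul]
  calc |t| * |R| ≤ |t| * (2 * ((x : ℝ) / n) ^ (k + 1)) :=
        mul_le_mul_of_nonneg_left hRb (abs_nonneg _)
    _ = _ := by ring

/-- the double sum of the shifted terms is close to `T` -/
theorem double (k Y n : ℕ) (t : ℝ) (N : ℕ) (hY : 1 ≤ Y) (hN : 2 * Y ^ 2 ≤ N) (hn : N < n) :
    ‖∑ u ∈ range Y, ∑ v ∈ range Y, aa t ((n + u * v : ℕ) : ℝ)‖ ≤
      ‖T k Y (al k t n)‖ + (Y : ℝ) ^ 2 * (2 * |t| * ((Y : ℝ) ^ 2 / N) ^ (k + 1)) := by
  have hn0 : 0 < n := by omega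
  have hN0 : (0 : ℝ) < N := by
    have : 0 < N := by
      have : 1 ≤ Y ^ 2 := Nat.one_le_pow _ _ hY
      omega
    exact_mod_cast this
  have hterm : ∀ u ∈ range Y, ∀ v ∈ range Y,
      ‖aa t ((n + u * v : ℕ) : ℝ) - aa t n *
        ee (∑ j : Fin k, al k t n j * ((u : ℝ) * (v : ℝ)) ^ (j.val + 1))‖ ≤
      2 * |t| * ((Y : ℝ) ^ 2 / N) ^ (k + 1) := by
    intro u hu v hv
    have hu' := Finset.mem_range.mp hu
    have hv' := Finset.mem_range.mp hv
    have huv : u * v ≤ Y ^ 2 := by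
      rw [pow_two]
      exact Nat.mul_le_mul hu'.le hv'.le
    have h1 := taylor k n (u * v) t hn0 (by omega)
    push_cast at h1
    push_cast
    refine h1.trans ?_
    have huv' : (u : ℝ) * v ≤ (Y : ℝ) ^ 2 := by exact_mod_cast huv
    have hnN : (N : ℝ) ≤ n := by exact_mod_cast hn.le
    refine mul_le_mul_of_nonneg_left ?_ (by positivity)
    refine pow_le_pow_left₀ (by positivity) ?_ _
    exact div_le_div₀ (by positivity) huv' hN0 hnN
  have hsplit : ∑ u ∈ range Y, ∑ v ∈ range Y, aa t ((n + u * v : ℕ) : ℝ) =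
      aa t n * T k Y (al k t n) +
      ∑ u ∈ range Y, ∑ v ∈ range Y, (aa t ((n + u * v : ℕ) : ℝ) - aa t n *
        ee (∑ j : Fin k, al k t n j * ((u : ℝ) * (v : ℝ)) ^ (j.val + 1))) := by
    unfold T
    simp only [Finset.sum_sub_distrib, Finset.mul_sum]
    ring
  rw [hsplit]
  refine (norm_add_le _ _).trans (add_le_add ?_ ?_)
  · rw [norm_mul, norm_aa, one_mul]
  · refine (norm_sum_le _ _).trans ?_
    have : ∀ u ∈ range Y, ‖∑ v ∈ range Y, (aa t ((n + u * v : ℕ) : ℝ) - aa t n *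
        ee (∑ j : Fin k, al k t n j * ((u : ℝ) * (v : ℝ)) ^ (j.val + 1)))‖ ≤
        Y * (2 * |t| * ((Y : ℝ) ^ 2 / N) ^ (k + 1)) := by
      intro u hu
      refine (norm_sum_le _ _).trans ?_
      refine (Finset.sum_le_sum (hterm u hu)).trans ?_
      rw [Finset.sum_const, Finset.card_range, nsmul_eq_mul]
    refine (Finset.sum_le_sum this).trans ?_
    rw [Finset.sum_const, Finset.card_range, nsmul_eq_mul]
    exact le_of_eq (by ring)

end SH

theorem prf_SH : SH := by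
  intro k Y N N' t hY hN hNN hN'
  have hY0 : (0 : ℝ) < Y := by exact_mod_cast hY
  have hYY : (0 : ℝ) < (Y : ℝ) ^ 2 := by positivity
  set E : ℝ := 2 * |t| * ((Y : ℝ) ^ 2 / N) ^ (k + 1) with hE
  have hE0 : 0 ≤ E := by positivity
  rw [SH.zs_eq]
  set Z : ℂ := ∑ n ∈ Ioc N N', SH.aa t n with hZ
  -- averaging
  have h1 : (Y : ℂ) ^ 2 * Z = ∑ n ∈ Ioc N N', ∑ u ∈ range Y, ∑ v ∈ range Y,
      SH.aa t ((n + u * v : ℕ) : ℝ) + ∑ u ∈ range Y, ∑ v ∈ range Y,
      (Z - ∑ n ∈ Ioc N N', SH.aa t ((n + u * v : ℕ) : ℝ)) := by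
    have hc : ∑ n ∈ Ioc N N', ∑ u ∈ range Y, ∑ v ∈ range Y,
        SH.aa t ((n + u * v : ℕ) : ℝ) = ∑ u ∈ range Y, ∑ v ∈ range Y,
        ∑ n ∈ Ioc N N', SH.aa t ((n + u * v : ℕ) : ℝ) := by
      rw [Finset.sum_comm]
      refine Finset.sum_congr rfl fun u _ => ?_
      rw [Finset.sum_comm]
    rw [hc]
    simp only [Finset.sum_sub_distrib, Finset.sum_const, Finset.card_range, nsmul_eq_mul]
    ring
  have h2 : ‖∑ u ∈ range Y, ∑ v ∈ range Y,
      (Z - ∑ n ∈ Ioc N N', SH.aa t ((n + u * v : ℕ) : ℝ))‖ ≤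
      (Y : ℝ) ^ 2 * (2 * (Y : ℝ) ^ 2) := by
    refine (norm_sum_le _ _).trans ?_
    have hu : ∀ u ∈ range Y, ‖∑ v ∈ range Y,
        (Z - ∑ n ∈ Ioc N N', SH.aa t ((n + u * v : ℕ) : ℝ))‖ ≤ Y * (2 * (Y : ℝ) ^ 2) := by
      intro u hu
      refine (norm_sum_le _ _).trans ?_
      have hv : ∀ v ∈ range Y, ‖Z - ∑ n ∈ Ioc N N', SH.aa t ((n + u * v : ℕ) : ℝ)‖ ≤
          2 * (Y : ℝ) ^ 2 := by
        intro v hv
        have hs := SH.shift (fun n => SH.aa t (n : ℝ)) (fun n => (SH.norm_aa _ _).le) N N' hNN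
          (u * v)
        refine hs.trans ?_
        have huv : u * v ≤ Y ^ 2 := by
          rw [pow_two]
          exact Nat.mul_le_mul (Finset.mem_range.mp hu).le (Finset.mem_range.mp hv).le
        have : ((u * v : ℕ) : ℝ) ≤ (Y : ℝ) ^ 2 := by exact_mod_cast huv
        linarith
      refine (Finset.sum_le_sum hv).trans ?_
      rw [Finset.sum_const, Finset.card_range, nsmul_eq_mul]
    refine (Finset.sum_le_sum hu).trans ?_
    rw [Finset.sum_const, Finset.card_range, nsmul_eq_mul]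
    exact le_of_eq (by ring)
  have h3 : ‖∑ n ∈ Ioc N N', ∑ u ∈ range Y, ∑ v ∈ range Y,
      SH.aa t ((n + u * v : ℕ) : ℝ)‖ ≤
      ∑ n ∈ Ioc N N', ‖T k Y (al k t n)‖ + N * ((Y : ℝ) ^ 2 * E) := by
    refine (norm_sum_le _ _).trans ?_
    have hn : ∀ n ∈ Ioc N N', ‖∑ u ∈ range Y, ∑ v ∈ range Y,
        SH.aa t ((n + u * v : ℕ) : ℝ)‖ ≤ ‖T k Y (al k t n)‖ + (Y : ℝ) ^ 2 * E :=
      fun n hn => SH.double k Y n t N hY hN (Finset.mem_Ioc.mp hn).1
    refine (Finset.sum_le_sum hn).trans ?_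
    rw [Finset.sum_add_distrib, Finset.sum_const, Nat.card_Ioc, nsmul_eq_mul]
    refine add_le_add le_rfl (mul_le_mul_of_nonneg_right ?_ (by positivity))
    have : N' - N ≤ N := by omega
    exact_mod_cast this
  have h4 : (Y : ℝ) ^ 2 * ‖Z‖ ≤ ∑ n ∈ Ioc N N', ‖T k Y (al k t n)‖ +
      N * ((Y : ℝ) ^ 2 * E) + (Y : ℝ) ^ 2 * (2 * (Y : ℝ) ^ 2) := by
    have h5 : ‖(Y : ℂ) ^ 2 * Z‖ = (Y : ℝ) ^ 2 * ‖Z‖ := by
      rw [norm_mul, norm_pow, Complex.norm_natCast]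
    rw [← h5, h1]
    exact (norm_add_le _ _).trans (add_le_add h3 h2)
  have h6 : ‖Z‖ ≤ (∑ n ∈ Ioc N N', ‖T k Y (al k t n)‖ +
      N * ((Y : ℝ) ^ 2 * E) + (Y : ℝ) ^ 2 * (2 * (Y : ℝ) ^ 2)) / (Y : ℝ) ^ 2 := by
    rw [le_div_iff₀ hYY]
    linarith
  refine h6.trans (le_of_eq ?_)
  rw [hE]
  field_simp

end Pool.Agent.Work.MP_a8fbd7_nt.VK
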