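/-
Block VK (problem MP_a8fbd7_nt), item TD: translation and dilation, monotonicity.
Author: helper9.
-/
import Pool.Agent.Work.MP_a8fbd7_nt.VK.Stmts

set_option autoImplicit false

namespace Pool.Agent.Work.MP_a8fbd7_nt.VK

open Finset

namespace TD

theorem mono (k s : ℕ) (A B : Finset ℤ) (h : A ⊆ B) : En k s A ≤ En k s B := by
  unfold En
  apply card_le_card
  apply filter_subset_filter
  have h1 : tup s A ⊆ tup s B := by
    unfold tup
    exact Fintype.piFinset_subset _ _ fun _ => h
  exact product_subset_product h1 h1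

/-- equal power sums of `a + b x` and `a + b y` give equal power sums of `x` and `y` -/
theorem sums_eq {k s : ℕ} {a b : ℤ} (hb : b ≠ 0) (x y : Fin s → ℤ)
    (h : ∀ l ≤ k, ∑ i, (a + b * x i) ^ l = ∑ i, (a + b * y i) ^ l) :
    ∀ l ≤ k, ∑ i, x i ^ l = ∑ i, y i ^ l := by
  intro l
  induction l using Nat.strong_induction_on with
  | _ l ih =>
    intro hl
    have e : ∀ z : Fin s → ℤ, ∑ i, (a + b * z i) ^ l =
        (∑ m ∈ range l, (b ^ m * a ^ (l - m) * (l.choose m : ℤ)) * ∑ i, z i ^ m) +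
          b ^ l * ∑ i, z i ^ l := by
      intro z
      have e1 : ∀ i, (a + b * z i) ^ l =
          ∑ m ∈ range (l + 1), (b ^ m * a ^ (l - m) * (l.choose m : ℤ)) * z i ^ m := by
        intro i
        rw [add_comm, add_pow]
        refine sum_congr rfl fun m _ => ?_
        rw [mul_pow]
        ring
      rw [sum_congr rfl fun i _ => e1 i, sum_comm, sum_range_succ]
      congr 1
      · refine sum_congr rfl fun m _ => ?_
        rw [mul_sum]
      · rw [mul_sum]
        refine sum_congr rfl fun i _ => ?_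
        rw [Nat.sub_self, pow_zero, Nat.choose_self]
        ring
    have h1 := h l hl
    rw [e x, e y] at h1
    have h2 : ∑ m ∈ range l, (b ^ m * a ^ (l - m) * (l.choose m : ℤ)) * ∑ i, x i ^ m =
        ∑ m ∈ range l, (b ^ m * a ^ (l - m) * (l.choose m : ℤ)) * ∑ i, y i ^ m := by
      refine sum_congr rfl fun m hm => ?_
      rw [ih m (mem_range.1 hm) (by have := mem_range.1 hm; omega)]
    rw [h2] at h1
    exact mul_left_cancel₀ (pow_ne_zero l hb) (add_left_cancel h1)

theorem ps_apply (k : ℕ) {s : ℕ} (x : Fin s → ℤ) (j : Fin k) :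
    ps k x j = ∑ i, x i ^ (j.val + 1) := by
  unfold ps
  rw [Finset.sum_apply]
  rfl

theorem ps_eq {k s : ℕ} {a b : ℤ} (hb : b ≠ 0) (x y : Fin s → ℤ)
    (h : ps k (fun i => a + b * x i) = ps k (fun i => a + b * y i)) : ps k x = ps k y := by
  have h1 : ∀ l ≤ k, ∑ i, (a + b * x i) ^ l = ∑ i, (a + b * y i) ^ l := by
    intro l hl
    rcases Nat.eq_zero_or_pos l with h0 | h0
    · subst h0
      simp
    · have h2 := congrFun h ⟨l - 1, by omega⟩
      rw [ps_apply, ps_apply] at h2
      simp only at h2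
      rwa [Nat.sub_add_cancel h0] at h2
  funext j
  rw [ps_apply, ps_apply]
  exact sums_eq hb x y h1 _ (by omega)

theorem dil (k s : ℕ) (a b : ℤ) (hb : b ≠ 0) (A : Finset ℤ) :
    En k s (A.image fun x => a + b * x) ≤ En k s A := by
  unfold En
  have key : ∀ y ∈ A.image (fun x => a + b * x), (y - a) / b ∈ A ∧ a + b * ((y - a) / b) = y := by
    intro y hy
    obtain ⟨x, hx, rfl⟩ := mem_image.1 hy
    have e : (a + b * x - a) / b = x := by
      rw [add_sub_cancel_left, Int.mul_ediv_cancel_left x hb]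
    rw [e]
    exact ⟨hx, rfl⟩
  refine card_le_card_of_injOn
    (fun z => (fun i => (z.1 i - a) / b, fun i => (z.2 i - a) / b)) ?_ ?_
  · intro z hz
    have hz := (mem_filter.1 (Finset.mem_coe.1 hz))
    obtain ⟨hz1, hz2⟩ := hz
    obtain ⟨hx, hy⟩ := mem_product.1 hz1
    have hx := Fintype.mem_piFinset.1 hx
    have hy := Fintype.mem_piFinset.1 hy
    apply Finset.mem_coe.2
    refine mem_filter.2 ⟨mem_product.2 ⟨Fintype.mem_piFinset.2 fun i => (key _ (hx i)).1,
      Fintype.mem_piFinset.2 fun i => (key _ (hy i)).1⟩, ?_⟩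
    apply ps_eq (a := a) hb
    have e1 : (fun i => a + b * ((z.1 i - a) / b)) = z.1 := funext fun i => (key _ (hx i)).2
    have e2 : (fun i => a + b * ((z.2 i - a) / b)) = z.2 := funext fun i => (key _ (hy i)).2
    simp only
    rw [e1, e2]
    exact hz2
  · intro z hz z' hz' he
    have hz := (mem_filter.1 (Finset.mem_coe.1 hz)).1
    have hz' := (mem_filter.1 (Finset.mem_coe.1 hz')).1
    obtain ⟨hx, hy⟩ := mem_product.1 hz
    obtain ⟨hx', hy'⟩ := mem_product.1 hz'
    have hx := Fintype.mem_piFinset.1 hx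
    have hy := Fintype.mem_piFinset.1 hy
    have hx' := Fintype.mem_piFinset.1 hx'
    have hy' := Fintype.mem_piFinset.1 hy'
    simp only [Prod.mk.injEq] at he
    apply Prod.ext
    · funext i
      rw [← (key _ (hx i)).2, ← (key _ (hx' i)).2, congrFun he.1 i]
    · funext i
      rw [← (key _ (hy i)).2, ← (key _ (hy' i)).2, congrFun he.2 i]

theorem cls_sub (p a X : ℕ) (hp : 0 < p) :
    cls p a (ivl X) ⊆ (ivl (X / p + 1)).image fun x => (a : ℤ) + (p : ℤ) * x := by
  intro y hy
  unfold cls at hy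
  obtain ⟨h1, h2⟩ := mem_filter.1 hy
  unfold ivl at h1
  obtain ⟨h3, h4⟩ := Finset.mem_Ico.1 h1
  have hp' : (0 : ℤ) < (p : ℤ) := by exact_mod_cast hp
  refine mem_image.2 ⟨y / p, ?_, ?_⟩
  · unfold ivl
    refine Finset.mem_Ico.2 ⟨Int.ediv_nonneg h3 hp'.le, ?_⟩
    push_cast
    have := Int.ediv_le_ediv hp' h4.le
    omega
  · rw [← h2]
    exact Int.emod_add_mul_ediv y p

end TD

theorem prf_TD : TD := by
  refine ⟨TD.mono, fun k s a b hb A => TD.dil k s a b hb A, ?_⟩
  intro k s p a X hp _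
  refine le_trans (TD.mono k s _ _ (TD.cls_sub p a X hp)) ?_
  exact TD.dil k s a p (by exact_mod_cast hp.ne') _

end Pool.Agent.Work.MP_a8fbd7_nt.VK
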