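import Pool.Agent.Work.MP_a8fbd7_nt.VK.Stmts

/-!
Block VK (MP_a8fbd7_nt), item TF: the three four one inequality for the logarithmic derivative of zeta.
-/

set_option autoImplicit false

namespace Pool.Agent.Work.MP_a8fbd7_nt.VK

open Finset

namespace TF

open ArithmeticFunction in
/-- real part of a term of the Dirichlet series of the von Mangoldt function -/
theorem re_term (σ t : ℝ) (n : ℕ) (hn : n ≠ 0) :
    (LSeries.term (fun n => ((vonMangoldt n : ℝ) : ℂ)) (σ + t * Complex.I) n).re =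
      vonMangoldt n * (n : ℝ) ^ (-σ) * Real.cos (t * Real.log n) := by
  have hn0 : (n : ℂ) ≠ 0 := by exact_mod_cast hn
  have hnp : (0 : ℝ) < n := by exact_mod_cast Nat.pos_of_ne_zero hn
  rw [LSeries.term_of_ne_zero hn]
  have h1 : (n : ℂ) ^ ((σ : ℂ) + t * Complex.I) =
      (((n : ℝ) ^ σ : ℝ) : ℂ) * Complex.exp (((t * Real.log n : ℝ) : ℂ) * Complex.I) := by
    rw [Complex.cpow_add _ _ hn0]
    congr 1
    · rw [Complex.ofReal_cpow hnp.le]; simp
    · rw [Complex.cpow_def_of_ne_zero hn0]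
      congr 1
      rw [← Complex.natCast_log]
      push_cast
      ring
  rw [h1]
  have h2 : ((vonMangoldt n : ℝ) : ℂ) / ((((n : ℝ) ^ σ : ℝ) : ℂ) *
      Complex.exp (((t * Real.log n : ℝ) : ℂ) * Complex.I)) =
      ((vonMangoldt n * (n : ℝ) ^ (-σ) : ℝ) : ℂ) *
        Complex.exp (((-(t * Real.log n) : ℝ) : ℂ) * Complex.I) := by
    rw [div_eq_mul_inv, mul_inv, ← Complex.exp_neg, Real.rpow_neg hnp.le]
    push_cast
    ring_nf
  rw [h2, Complex.re_ofReal_mul, Complex.exp_ofReal_mul_I_re, Real.cos_neg]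

open ArithmeticFunction in
/-- the real part of the logarithmic derivative as a series -/
theorem hasSum_re (σ t : ℝ) (hσ : 1 < σ) :
    HasSum (fun n : ℕ => if n = 0 then (0 : ℝ) else
      vonMangoldt n * (n : ℝ) ^ (-σ) * Real.cos (t * Real.log n))
      (-(deriv riemannZeta (σ + t * Complex.I) / riemannZeta (σ + t * Complex.I))).re := by
  have hs : 1 < ((σ : ℂ) + t * Complex.I).re := by simpa using hσ
  have h1 := (LSeriesSummable_vonMangoldt hs).hasSum
  have h2 : LSeries (fun n => ((vonMangoldt n : ℝ) : ℂ)) (σ + t * Complex.I) =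
      -(deriv riemannZeta (σ + t * Complex.I) / riemannZeta (σ + t * Complex.I)) := by
    rw [LSeries_vonMangoldt_eq_deriv_riemannZeta_div hs]
    ring
  rw [← h2]
  have h3 := Complex.hasSum_re h1
  have h4 : (fun n : ℕ => if n = 0 then (0 : ℝ) else
      vonMangoldt n * (n : ℝ) ^ (-σ) * Real.cos (t * Real.log n)) =
      fun n : ℕ => (LSeries.term (fun n => ((vonMangoldt n : ℝ) : ℂ)) (σ + t * Complex.I) n).re := by
    funext n
    by_cases hn : n = 0
    · subst hn; simp
    · simp only [hn, if_false]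
      exact (re_term σ t n hn).symm
  rw [h4]
  exact h3

end TF

open ArithmeticFunction in
theorem prf_TF : TF := by
  intro σ t hσ
  have a0 := TF.hasSum_re σ 0 hσ
  have a1 := TF.hasSum_re σ t hσ
  have a2 := TF.hasSum_re σ (2 * t) hσ
  have e0 : (σ : ℂ) + ((0 : ℝ) : ℂ) * Complex.I = (σ : ℂ) := by simp
  have e2 : (σ : ℂ) + ((2 * t : ℝ) : ℂ) * Complex.I = (σ : ℂ) + 2 * t * Complex.I := by
    push_cast; ring
  rw [e0] at a0
  rw [e2] at a2
  have hs := ((a0.mul_left 3).add (a1.mul_left 4)).add a2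
  refine hs.nonneg ?_
  intro n
  by_cases hn : n = 0
  · simp [hn]
  · simp only [hn, if_false]
    have hΛ : 0 ≤ vonMangoldt n := vonMangoldt_nonneg
    have hp : 0 ≤ (n : ℝ) ^ (-σ) := Real.rpow_nonneg (Nat.cast_nonneg n) _
    have h2 : Real.cos (2 * t * Real.log n) = 2 * Real.cos (t * Real.log n) ^ 2 - 1 := by
      rw [mul_assoc, Real.cos_two_mul]
    rw [h2]
    simp only [zero_mul, Real.cos_zero]
    have hk : 3 * (vonMangoldt n * (n : ℝ) ^ (-σ) * 1) +
        4 * (vonMangoldt n * (n : ℝ) ^ (-σ) * Real.cos (t * Real.log n)) +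
        vonMangoldt n * (n : ℝ) ^ (-σ) * (2 * Real.cos (t * Real.log n) ^ 2 - 1) =
        2 * (vonMangoldt n * (n : ℝ) ^ (-σ)) * (1 + Real.cos (t * Real.log n)) ^ 2 := by ring
    rw [hk]
    positivity

end Pool.Agent.Work.MP_a8fbd7_nt.VK
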