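import Pool.Agent.Work.MP_a8fbd7_nt.VK.Stmts
import Pool.Agent.Work.MP_37bd4f_nt.Factor

/-!
Block VK (MP_a8fbd7_nt), item V3: the logarithmic derivative of zeta in the zero-free region.
-/

set_option autoImplicit false

namespace Pool.Agent.Work.MP_a8fbd7_nt.VK

open Finset

namespace V3

/-- The logarithmic derivative by a local logarithm, Borel-Caratheodory and Cauchy. -/
theorem logDeriv_le {g : ℂ → ℂ} {c s : ℂ} {R M : ℝ} (hR : 0 < R) (hM : 0 < M)
    (hg : DifferentiableOn ℂ g (Metric.ball c R)) (h0 : ∀ z ∈ Metric.ball c R, g z ≠ 0)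
    (hb : ∀ z ∈ Metric.ball c R, ‖g z‖ ≤ Real.exp M * ‖g c‖) (hs : ‖s - c‖ ≤ R / 2) :
    ‖deriv g s / g s‖ ≤ 24 * M / R := by
  obtain ⟨F, hF, hFeq, hFc⟩ := MP_37bd4f_nt.exists_log hR hg h0
  have hcm : c ∈ Metric.ball c R := Metric.mem_ball_self hR
  have hgc : 0 < ‖g c‖ := norm_pos_iff.mpr (h0 c hcm)
  have hsm : s ∈ Metric.ball c R := by
    rw [Metric.mem_ball, dist_eq_norm]; linarith
  set F1 : ℂ → ℂ := fun z => F (c + z) with hF1
  have hmaps : ∀ z ∈ Metric.ball (0 : ℂ) R, c + z ∈ Metric.ball c R := by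
    intro z hz
    rw [Metric.mem_ball, dist_eq_norm] at hz ⊢
    simpa using hz
  have hF1d : DifferentiableOn ℂ F1 (Metric.ball 0 R) :=
    hF.comp (by fun_prop) hmaps
  have hF1re : Set.MapsTo F1 (Metric.ball 0 R) {z | z.re ≤ M} := by
    intro z hz
    have h1 := hFeq (c + z) (hmaps z hz)
    have h2 := hb (c + z) (hmaps z hz)
    rw [h1, norm_mul, Complex.norm_exp] at h2
    have h3 : Real.exp (F (c + z)).re ≤ Real.exp M := by
      rw [mul_comm] at h2
      exact le_of_mul_le_mul_right h2 hgc
    exact Real.exp_le_exp.mp h3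
  have hbound : ∀ z : ℂ, ‖z - c‖ ≤ 3 * R / 4 → ‖F z‖ ≤ 6 * M := by
    intro z hz
    have hzm : z - c ∈ Metric.ball (0 : ℂ) R := by
      rw [mem_ball_zero_iff]; linarith
    have hBC := Complex.borelCaratheodory_zero hM hF1d hF1re hR hzm (by simp [hF1, hFc])
    have h1 : F1 (z - c) = F z := by simp [hF1]
    rw [h1] at hBC
    refine hBC.trans ?_
    have hn : 0 ≤ ‖z - c‖ := norm_nonneg _
    rw [div_le_iff₀ (by linarith)]
    nlinarith
  have hsub : Metric.closedBall s (R / 4) ⊆ Metric.ball c R := by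
    intro z hz
    rw [Metric.mem_closedBall, dist_eq_norm] at hz
    rw [Metric.mem_ball, dist_eq_norm]
    have : ‖z - c‖ ≤ ‖z - s‖ + ‖s - c‖ := by
      have := norm_add_le (z - s) (s - c)
      simpa using this
    linarith
  have hcauchy : ‖deriv F s‖ ≤ 6 * M / (R / 4) := by
    refine Complex.norm_deriv_le_of_forall_mem_sphere_norm_le (by positivity) ?_ ?_
    · refine DifferentiableOn.diffContOnCl (hF.mono ?_)
      exact (Metric.closure_ball_subset_closedBall).trans hsub
    · intro z hz
      rw [mem_sphere_iff_norm] at hz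
      refine hbound z ?_
      have : ‖z - c‖ ≤ ‖z - s‖ + ‖s - c‖ := by
        have := norm_add_le (z - s) (s - c)
        simpa using this
      linarith
  have hopen : IsOpen (Metric.ball c R) := Metric.isOpen_ball
  have hFs : HasDerivAt F (deriv F s) s :=
    ((hF s hsm).differentiableAt (hopen.mem_nhds hsm)).hasDerivAt
  have h1 : HasDerivAt (fun z => g c * Complex.exp (F z))
      (g c * (Complex.exp (F s) * deriv F s)) s := (hFs.cexp).const_mul (g c)
  have h2 : HasDerivAt g (g c * (Complex.exp (F s) * deriv F s)) s := by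
    refine h1.congr_of_eventuallyEq ?_
    filter_upwards [hopen.mem_nhds hsm] with z hz using hFeq z hz
  have h3 : deriv g s / g s = deriv F s := by
    rw [h2.deriv, hFeq s hsm]
    have : g c ≠ 0 := h0 c hcm
    have : Complex.exp (F s) ≠ 0 := Complex.exp_ne_zero _
    field_simp
  rw [h3]
  refine hcauchy.trans (le_of_eq ?_)
  field_simp
  norm_num

open ArithmeticFunction in
/-- The logarithmic derivative to the right of a real point. -/
theorem logDeriv_right {σ : ℝ} {s : ℂ} (hσ : 1 < σ) (hs : σ ≤ s.re) :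
    ‖deriv riemannZeta s / riemannZeta s‖ ≤
      (-(deriv riemannZeta (σ : ℂ) / riemannZeta (σ : ℂ))).re := by
  have h0 : 1 < ((σ : ℂ)).re := by simpa using hσ
  have h1 : 1 < s.re := lt_of_lt_of_le hσ hs
  have e1 : deriv riemannZeta s / riemannZeta s =
      -LSeries (fun n => ((vonMangoldt n : ℝ) : ℂ)) s := by
    rw [LSeries_vonMangoldt_eq_deriv_riemannZeta_div h1]
    ring
  have e0 : -(deriv riemannZeta (σ : ℂ) / riemannZeta (σ : ℂ)) =
      LSeries (fun n => ((vonMangoldt n : ℝ) : ℂ)) (σ : ℂ) := by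
    rw [LSeries_vonMangoldt_eq_deriv_riemannZeta_div h0]
    ring
  rw [e1, e0, norm_neg]
  have hsum := LSeriesSummable_vonMangoldt h0
  have hsum1 := LSeriesSummable_vonMangoldt h1
  have hre : ∀ n : ℕ, (LSeries.term (fun n => ((vonMangoldt n : ℝ) : ℂ)) (σ : ℂ) n).re =
      ‖LSeries.term (fun n => ((vonMangoldt n : ℝ) : ℂ)) (σ : ℂ) n‖ := by
    intro n
    by_cases hn : n = 0
    · subst hn; simp
    · have hnp : (0 : ℝ) < n := by exact_mod_cast Nat.pos_of_ne_zero hn
      have e : LSeries.term (fun n => ((vonMangoldt n : ℝ) : ℂ)) (σ : ℂ) n =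
          ((vonMangoldt n / (n : ℝ) ^ σ : ℝ) : ℂ) := by
        rw [LSeries.term_of_ne_zero hn]
        push_cast
        rw [Complex.ofReal_cpow hnp.le]
        simp
      rw [e, Complex.norm_real, Complex.ofReal_re, Real.norm_eq_abs, abs_of_nonneg]
      exact div_nonneg vonMangoldt_nonneg (Real.rpow_nonneg hnp.le _)
  have hS : (LSeries (fun n => ((vonMangoldt n : ℝ) : ℂ)) (σ : ℂ)).re =
      ∑' n : ℕ, ‖LSeries.term (fun n => ((vonMangoldt n : ℝ) : ℂ)) (σ : ℂ) n‖ := by
    have := (Complex.hasSum_re hsum.hasSum).tsum_eq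
    rw [LSeries, ← this]
    exact tsum_congr hre
  rw [hS, LSeries]
  refine (norm_tsum_le_tsum_norm hsum1.norm).trans ?_
  refine Summable.tsum_le_tsum (fun n => ?_) hsum1.norm hsum.norm
  exact LSeries.norm_term_le_of_re_le_re _ (by simpa using hs) n

/-- Elementary comparison of logarithms at neighbouring heights. -/
theorem heights {t y : ℝ} (ht : 3 ≤ t) (hL : 4 ≤ Real.log t) (hl : 4 ≤ Real.log (Real.log t))
    (h1 : t - 1 ≤ y) (h2 : y ≤ t + 1) :
    Real.log t / 2 ≤ Real.log y ∧ Real.log y ≤ 2 * Real.log t ∧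
      Real.log (Real.log t) / 2 ≤ Real.log (Real.log y) := by
  have hy : 0 < y := by linarith
  have a1 : Real.log t / 2 ≤ Real.log y := by
    have : Real.log t ≤ Real.log (y ^ 2) := by
      apply Real.log_le_log (by linarith)
      nlinarith
    rw [Real.log_pow] at this
    push_cast at this
    linarith
  have a2 : Real.log y ≤ 2 * Real.log t := by
    have : Real.log y ≤ Real.log (t ^ 2) := by
      apply Real.log_le_log hy
      nlinarith
    rw [Real.log_pow] at this
    push_cast at this
    linarith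
  refine ⟨a1, a2, ?_⟩
  have a3 : Real.log (Real.log t / 2) ≤ Real.log (Real.log y) :=
    Real.log_le_log (by linarith) a1
  rw [Real.log_div (by linarith) (by norm_num)] at a3
  have : Real.log 2 < 1 := by linarith [Real.log_two_lt_d9]
  linarith

end V3

theorem prf_V3 (h1 : GR) (h2 : PZ) (h3 : VK) : V3 := by
  intro C hC
  obtain ⟨T1, hT1, H1⟩ := h1 1 le_rfl
  obtain ⟨T3, hT3, H3⟩ := h3 (16 * C)
  obtain ⟨⟨D, hD⟩, hPZ, -⟩ := h2
  have hl0 : Filter.Tendsto Real.log Filter.atTop Filter.atTop := Real.tendsto_log_atTop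
  have hl1 : Filter.Tendsto (fun t : ℝ => Real.log (Real.log t)) Filter.atTop Filter.atTop :=
    hl0.comp hl0
  have hsmall : ∀ᶠ x : ℝ in Filter.atTop, Real.log x ≤ (1 / (4 * C)) * x := by
    have := Real.isLittleO_log_id_atTop.def (c := 1 / (4 * C)) (by positivity)
    filter_upwards [this, Filter.eventually_ge_atTop (1 : ℝ)] with x hx hx1
    have h4 : 0 ≤ Real.log x := Real.log_nonneg hx1
    simp only [id, Real.norm_eq_abs, abs_of_nonneg h4, abs_of_nonneg (by linarith : (0 : ℝ) ≤ x)]
      at hx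
    exact hx
  obtain ⟨T, hT⟩ := Filter.eventually_atTop.mp
    (((hl0.eventually_ge_atTop 16).and (hl1.eventually_ge_atTop (24 * C))).and
      (hl0.eventually hsmall))
  refine ⟨31 + |D|, max (max T1 T3 + 1) (max T 3), by have := abs_nonneg D; linarith,
    (le_max_right T 3).trans (le_max_right _ _), ?_⟩
  intro s hs hre
  set t : ℝ := |s.im| with ht
  have b1 : T1 + 1 ≤ t := by
    have := (le_max_left _ _).trans hs
    have := le_max_left T1 T3
    linarith
  have b3 : T3 + 1 ≤ t := by
    have := (le_max_left _ _).trans hs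
    have := le_max_right T1 T3
    linarith
  have bT : T ≤ t := ((le_max_left T 3).trans (le_max_right _ _)).trans hs
  have b0 : 3 ≤ t := ((le_max_right T 3).trans (le_max_right _ _)).trans hs
  obtain ⟨⟨c1, c2⟩, c3⟩ := hT t bT
  set L : ℝ := Real.log t with hL
  set l : ℝ := Real.log L with hl
  have hLpos : 0 < L := by linarith
  have hlpos : 0 < l := by nlinarith
  set η : ℝ := C * l / L with hη
  have hηpos : 0 < η := by positivity
  have hη4 : η ≤ 1 / 4 := by
    rw [hη, div_le_iff₀ hLpos]
    have : l ≤ 1 / (4 * C) * L := c3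
    have h5 : C * l ≤ C * (1 / (4 * C) * L) := by gcongr
    have h6 : C * (1 / (4 * C) * L) = 1 / 4 * L := by field_simp
    linarith
  set c : ℂ := ((1 + η : ℝ) : ℂ) + s.im * Complex.I with hc
  have hcre : c.re = 1 + η := by simp [hc]
  have hcim : c.im = s.im := by simp [hc]
  have hre' : 1 - η ≤ s.re := hre
  have hball : ∀ z ∈ Metric.ball c (4 * η), 1 - 3 * η ≤ z.re ∧ t - 1 ≤ |z.im| ∧ |z.im| ≤ t + 1 := by
    intro z hz
    rw [Metric.mem_ball, dist_eq_norm] at hz
    have d1 : |z.re - c.re| ≤ ‖z - c‖ := by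
      have := Complex.abs_re_le_norm (z - c); simpa using this
    have d2 : |z.im - c.im| ≤ ‖z - c‖ := by
      have := Complex.abs_im_le_norm (z - c); simpa using this
    rw [hcre] at d1
    rw [hcim] at d2
    have d3 := (abs_le.mp d1).1
    have d4 : |z.im - s.im| ≤ 1 := by linarith
    have d5 : |s.im| ≤ |z.im| + |z.im - s.im| := by
      have := abs_sub_abs_le_abs_sub s.im z.im
      rw [abs_sub_comm s.im z.im] at this
      linarith
    have d6 : |z.im| ≤ |s.im| + |z.im - s.im| := by
      have := abs_sub_abs_le_abs_sub z.im s.im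
      linarith
    refine ⟨by linarith, by rw [ht]; linarith, by rw [ht]; linarith⟩
  have hz0 : ∀ z ∈ Metric.ball c (4 * η), riemannZeta z ≠ 0 := by
    intro z hz
    obtain ⟨e1, e2, e3⟩ := hball z hz
    obtain ⟨f1, f2, f3⟩ := V3.heights b0 (by linarith) (by nlinarith) e2 e3
    refine H3 z (by linarith) ?_
    refine le_trans ?_ e1
    have hy : 0 < Real.log |z.im| := by linarith
    have : 3 * η ≤ 16 * C * Real.log (Real.log |z.im|) / Real.log |z.im| := by
      rw [le_div_iff₀ hy]
      calc 3 * η * Real.log |z.im| ≤ 3 * η * (2 * L) := by gcongr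
        _ = 6 * (C * l) := by rw [hη]; field_simp; ring
        _ ≤ 16 * C * (l / 2) := by nlinarith [mul_pos (by linarith : 0 < C) hlpos]
        _ ≤ 16 * C * Real.log (Real.log |z.im|) := by gcongr
    linarith
  have hzb : ∀ z ∈ Metric.ball c (4 * η), ‖riemannZeta z‖ ≤ 8 * L ^ 3 := by
    intro z hz
    obtain ⟨e1, e2, e3⟩ := hball z hz
    obtain ⟨f1, f2, f3⟩ := V3.heights b0 (by linarith) (by nlinarith) e2 e3
    have hy : 0 < Real.log |z.im| := by linarith
    have g1 : 3 * η ≤ 1 * (Real.log (Real.log |z.im|)) ^ 2 / Real.log |z.im| := by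
      rw [le_div_iff₀ hy]
      calc 3 * η * Real.log |z.im| ≤ 3 * η * (2 * L) := by gcongr
        _ = 6 * (C * l) := by rw [hη]; field_simp; ring
        _ ≤ (l / 2) ^ 2 := by nlinarith
        _ ≤ (Real.log (Real.log |z.im|)) ^ 2 := by gcongr
        _ = 1 * (Real.log (Real.log |z.im|)) ^ 2 := by ring
    have := H1 z (by linarith) (by linarith)
    refine this.trans ?_
    calc (Real.log |z.im|) ^ 3 ≤ (2 * L) ^ 3 := by gcongr
      _ = 8 * L ^ 3 := by ring
  have hlc : η / 2 ≤ ‖riemannZeta c‖ := by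
    have := hPZ (1 + η) s.im (by linarith) (by linarith)
    rw [hc]
    push_cast at this ⊢
    linarith
  have hs0 : riemannZeta s ≠ 0 ∨ 1 + 3 * η < s.re := by
    by_cases h : s.re ≤ 1 + 3 * η
    · left
      refine hz0 s ?_
      rw [Metric.mem_ball, dist_eq_norm]
      have e : s - c = ((s.re - (1 + η) : ℝ) : ℂ) := by
        apply Complex.ext
        · simp [hcre]
        · simp [hcim]
      rw [e, Complex.norm_real, Real.norm_eq_abs, abs_lt]
      constructor <;> linarith
    · right; linarith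
  have hLL : L ≤ L ^ 2 := by nlinarith
  by_cases hcase : s.re ≤ 1 + 3 * η
  · have hne : riemannZeta s ≠ 0 := by
      rcases hs0 with h | h
      · exact h
      · linarith
    refine ⟨hne, ?_⟩
    have e : s - c = ((s.re - (1 + η) : ℝ) : ℂ) := by
      apply Complex.ext
      · simp [hcre]
      · simp [hcim]
    have hsc : ‖s - c‖ ≤ 4 * η / 2 := by
      rw [e, Complex.norm_real, Real.norm_eq_abs, abs_le]
      constructor <;> linarith
    have hdiff : DifferentiableOn ℂ riemannZeta (Metric.ball c (4 * η)) := by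
      intro z hz
      obtain ⟨e1, e2, e3⟩ := hball z hz
      refine (differentiableAt_riemannZeta ?_).differentiableWithinAt
      intro h
      rw [h] at e2
      simp at e2
      linarith
    have key := V3.logDeriv_le (g := riemannZeta) (c := c) (s := s) (R := 4 * η) (M := 5 * l)
      (by positivity) (by positivity) hdiff hz0 (by
        intro z hz
        have k1 := hzb z hz
        have k2 : Real.exp (5 * l) = L ^ 5 := by
          rw [hl, mul_comm, Real.exp_mul, Real.exp_log hLpos]
          norm_cast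
        rw [k2]
        have k3 : 1 / (2 * L) ≤ ‖riemannZeta c‖ := by
          refine le_trans ?_ hlc
          rw [hη, div_div, div_le_div_iff₀ (by positivity) (by positivity)]
          nlinarith [mul_pos hlpos hLpos]
        calc ‖riemannZeta z‖ ≤ 8 * L ^ 3 := k1
          _ ≤ L ^ 5 * (1 / (2 * L)) := by
              have : L ^ 5 * (1 / (2 * L)) = L ^ 4 / 2 := by field_simp
              rw [this]
              nlinarith [pow_pos hLpos 3]
          _ ≤ L ^ 5 * ‖riemannZeta c‖ := by gcongr) hsc
    refine key.trans ?_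
    have k4 : 24 * (5 * l) / (4 * η) = 30 * L / C := by
      rw [hη]; field_simp; norm_num
    rw [k4]
    have k7 : 0 ≤ |D| * L ^ 2 := by positivity
    calc 30 * L / C ≤ 30 * L := div_le_self (by positivity) hC
      _ ≤ 30 * L ^ 2 := by linarith
      _ ≤ (31 + |D|) * L ^ 2 := by linarith [sq_nonneg L]
  · push Not at hcase
    have hs1 : 1 < s.re := by linarith
    refine ⟨riemannZeta_ne_zero_of_one_le_re hs1.le, ?_⟩
    have key := V3.logDeriv_right (σ := 1 + η) (s := s) (by linarith) (by linarith)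
    have k1 := hD (1 + η) (by linarith) (by linarith)
    refine (key.trans k1).trans ?_
    have k2 : 1 / (1 + η - 1) = L / (C * l) := by
      rw [hη]; field_simp; ring
    rw [k2]
    have k3 : L / (C * l) ≤ L := by
      apply div_le_self hLpos.le
      have q1 : 1 ≤ l := by linarith
      exact one_le_mul_of_one_le_of_one_le hC q1
    have k5 : D ≤ |D| := le_abs_self D
    have k4 : 0 ≤ |D| := abs_nonneg D
    have k6 : 1 ≤ L ^ 2 := by nlinarith
    have k7 : |D| ≤ |D| * L ^ 2 := le_mul_of_one_le_right k4 k6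
    calc L / (C * l) + D ≤ L ^ 2 + |D| * L ^ 2 := by linarith
      _ ≤ (31 + |D|) * L ^ 2 := by linarith [sq_nonneg L]

end Pool.Agent.Work.MP_a8fbd7_nt.VK
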