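/-
Block VK (problem MP_a8fbd7_nt), item VK: the zero-free region.  Author of this file: helper95.
-/
import Pool.Agent.Work.MP_a8fbd7_nt.VK.Stmts

set_option autoImplicit false
set_option linter.dupNamespace false

namespace Pool.Agent.Work.MP_a8fbd7_nt.VK

open Finset

namespace VK

/-- `loglog x / log x` tends to `0`. -/
lemma lim0 : Filter.Tendsto (fun x : ℝ => Real.log (Real.log x) / Real.log x) Filter.atTop
    (nhds 0) := by
  have h1 : Filter.Tendsto (fun y : ℝ => Real.log y / y) Filter.atTop (nhds 0) := by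
    have h := Real.isLittleO_log_id_atTop.tendsto_div_nhds_zero
    simpa using h
  exact h1.comp Real.tendsto_log_atTop

/-- The numerical contradiction. Here `L = log |γ|`, `l = log L`, `c` is the constant of the
region, `K` the constant of PZ. -/
lemma num (c L l K D a0 a1 a2 : ℝ) (hc : 1 ≤ c) (hl : 1 ≤ l) (hL : 0 < L)
    (hbig : 40 * (3 * |K| + 6) * (c * l / L) < 1)
    (hD1 : 0 < D) (hD2 : D ≤ 7 * (c * l / L))
    (h0 : 0 ≤ 3 * a0 + 4 * a1 + a2)
    (ha0 : a0 ≤ 1 / (6 * (c * l / L)) + K)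
    (ha1 : a1 ≤ 10 * l / (10 ^ 4 * c * l ^ 2 / (4 * L)) + 1 - 1 / D +
      D / (10 ^ 4 * c * l ^ 2 / (4 * L)) ^ 2)
    (ha2 : a2 ≤ 10 * l / (10 ^ 4 * c * l ^ 2 / (4 * L)) + 1) : False := by
  have hc0 : 0 < c := by linarith
  have hl0 : 0 < l := by linarith
  set e : ℝ := c * l / L with he
  have he0 : 0 < e := by positivity
  -- `u = 1 / η`
  set u : ℝ := 1 / e with hu
  have hu0 : 0 < u := by positivity
  have hLe : L = c * l * u := by
    rw [hu, he]
    field_simp
  have hr : 10 ^ 4 * c * l ^ 2 / (4 * L) = 2500 * l / u := by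
    rw [hLe]
    field_simp
    ring
  have h10 : 10 * l / (10 ^ 4 * c * l ^ 2 / (4 * L)) = u / 250 := by
    rw [hr]
    field_simp
    ring
  have hDu : 1 / D ≥ u / 7 := by
    rw [ge_iff_le, hu, div_div, div_le_div_iff₀ (by positivity) hD1]
    linarith
  have hDr : D / (10 ^ 4 * c * l ^ 2 / (4 * L)) ^ 2 ≤ u / 10 ^ 5 := by
    rw [hr]
    have h1 : D ≤ 7 / u := by
      rw [hu]
      simpa using hD2
    have h2 : D / (2500 * l / u) ^ 2 = D * u ^ 2 / (2500 * l) ^ 2 := by
      field_simp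
    rw [h2, div_le_div_iff₀ (by positivity) (by positivity)]
    have h3 : D * u ≤ 7 := by
      rwa [le_div_iff₀ hu0] at h1
    have h4 : (1 : ℝ) ≤ l ^ 2 := by nlinarith
    have h5 : D * u ^ 2 * 10 ^ 5 ≤ 7 * u * 10 ^ 5 := by nlinarith
    have h6 : 7 * u * 10 ^ 5 ≤ u * (2500 * l) ^ 2 := by nlinarith
    linarith
  have h6 : 1 / (6 * e) = u / 6 := by
    rw [hu]
    field_simp
  have hK : K ≤ |K| := le_abs_self K
  have hbig2 : 40 * (3 * |K| + 6) < u := by
    rw [hu, lt_div_iff₀ he0]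
    exact hbig
  rw [h6] at ha0
  rw [h10] at ha1 ha2
  nlinarith [abs_nonneg K]

end VK

/-- ITEM VK. -/
theorem prf_VK (h1 : TF) (h2 : PZ) (h3 : LG) : VK := by
  intro C
  obtain ⟨K, hK⟩ := h2.1
  set c : ℝ := max C 1 with hc
  have hc1 : 1 ≤ c := le_max_right _ _
  have hCc : C ≤ c := le_max_left _ _
  obtain ⟨T₁, hT₁, hLG⟩ := h3 (10 ^ 4 * c) (by linarith)
  have hpos : (0 : ℝ) < 1 / (c * (40 * (3 * |K| + 6))) := by positivity
  have ev1 : ∀ᶠ x : ℝ in Filter.atTop, Real.log (Real.log x) / Real.log x <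
      1 / (c * (40 * (3 * |K| + 6))) := VK.lim0.eventually_lt_const hpos
  have ev2 : ∀ᶠ x : ℝ in Filter.atTop, 1 ≤ Real.log (Real.log x) :=
    (Real.tendsto_log_atTop.comp Real.tendsto_log_atTop).eventually_ge_atTop 1
  have ev3 : ∀ᶠ x : ℝ in Filter.atTop, 0 < Real.log x :=
    Real.tendsto_log_atTop.eventually_gt_atTop 0
  obtain ⟨T₂, hT₂⟩ := Filter.eventually_atTop.1 ((ev1.and ev2).and ev3)
  refine ⟨max (max T₁ T₂) 3, le_max_right _ _, ?_⟩
  intro s hs hre h0
  have hs1 : T₁ ≤ |s.im| := ((le_max_left _ _).trans (le_max_left _ _)).trans hs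
  have hs2 : T₂ ≤ |s.im| := ((le_max_right _ _).trans (le_max_left _ _)).trans hs
  obtain ⟨⟨e1, hl⟩, hL⟩ := hT₂ _ hs2
  have hlt : s.re < 1 := by
    by_contra h
    exact riemannZeta_ne_zero_of_one_le_re (not_lt.1 h) h0
  set L : ℝ := Real.log |s.im| with hLdef
  set l : ℝ := Real.log L with hldef
  have hl0 : 0 < l := by linarith
  have hKn : 0 < 40 * (3 * |K| + 6) := by positivity
  have hc0 : 0 < c := by linarith
  have hbig : 40 * (3 * |K| + 6) * (c * l / L) < 1 := by
    rw [lt_div_iff₀ (by positivity)] at e1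
    calc 40 * (3 * |K| + 6) * (c * l / L) = l / L * (c * (40 * (3 * |K| + 6))) := by ring
      _ < 1 := e1
  have heta : 0 < c * l / L := by positivity
  have heta2 : 240 * (c * l / L) < 1 := by nlinarith [abs_nonneg K]
  have hCre : 1 - c * l / L ≤ s.re := by
    have h5 : C * l / L ≤ c * l / L := by gcongr
    linarith
  have hr : 6 * (c * l / L) ≤ 10 ^ 4 * c * l ^ 2 / (4 * L) := by
    rw [mul_div_assoc', div_le_div_iff₀ hL (by positivity)]
    have h6 : l ≤ l ^ 2 := by nlinarith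
    have h7 : 0 < c * L := by positivity
    nlinarith
  have hr7 : 7 * (c * l / L) < 10 ^ 4 * c * l ^ 2 / (4 * L) := by
    rw [mul_div_assoc', div_lt_div_iff₀ hL (by positivity)]
    have h6 : l ≤ l ^ 2 := by nlinarith
    have h7 : 0 < c * L := by positivity
    have h8 : 0 < c * L * l := by positivity
    nlinarith
  have hσ1 : 1 + 1 / L ≤ 1 + 6 * (c * l / L) := by
    have : 1 / L ≤ 6 * (c * l / L) := by
      rw [mul_div_assoc']
      gcongr
      nlinarith
    linarith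
  obtain ⟨⟨_, hA2⟩, hA1⟩ := hLG s.im (1 + 6 * (c * l / L)) hs1 hσ1 (by linarith)
  have hz : riemannZeta ((s.re : ℂ) + (s.im : ℂ) * Complex.I) = 0 := by
    rw [Complex.re_add_im]
    exact h0
  have hA1' := hA1 s.re hlt (by linarith) hz
  have hA0 := hK (1 + 6 * (c * l / L)) (by linarith) (by linarith)
  have h341 := h1 (1 + 6 * (c * l / L)) s.im (by linarith)
  have hsub : 1 + 6 * (c * l / L) - 1 = 6 * (c * l / L) := by ring
  rw [hsub] at hA0
  exact VK.num c L l K (1 + 6 * (c * l / L) - s.re) _ _ _ hc1 hl hL hbig (by linarith)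
    (by linarith) h341 hA0 hA1' hA2

end Pool.Agent.Work.MP_a8fbd7_nt.VK
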