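/-
Block VK (problem MP_a8fbd7_nt), item VM: the mean value theorem from the induction.
Author: helper8.
-/
import Pool.Agent.Work.MP_a8fbd7_nt.VK.Stmts

set_option autoImplicit false

namespace Pool.Agent.Work.MP_a8fbd7_nt.VK

open Finset

namespace VM

/-- `50 k (k + 1) ≤ 2 ^ k` for `k ≥ 20`. -/
lemma two_pow_ge : ∀ k : ℕ, 20 ≤ k → 50 * (k * (k + 1)) ≤ 2 ^ k := by
  intro k hk
  induction k, hk using Nat.le_induction with
  | base => norm_num
  | succ n hn ih =>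
    rw [pow_succ]
    nlinarith

/-- The saving. -/
lemma saving (k : ℕ) (hk : 20 ≤ k) :
    (k : ℝ) * (k + 1) / 2 * (1 - 1 / (k : ℝ)) ^ (k ^ 2) ≤ 1 / 100 := by
  have hk0 : (20 : ℝ) ≤ k := by exact_mod_cast hk
  have hkp : (0 : ℝ) < k := by linarith
  have h0 : 0 ≤ 1 - 1 / (k : ℝ) := by
    rw [sub_nonneg, div_le_one hkp]; linarith
  have h1 : (1 - 1 / (k : ℝ)) ^ (k ^ 2) ≤ Real.exp (-(k : ℝ)) := by
    have h2 : 1 - 1 / (k : ℝ) ≤ Real.exp (-(1 / (k : ℝ))) := by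
      have := Real.add_one_le_exp (-(1 / (k : ℝ)))
      linarith
    calc (1 - 1 / (k : ℝ)) ^ (k ^ 2) ≤ (Real.exp (-(1 / (k : ℝ)))) ^ (k ^ 2) :=
          pow_le_pow_left₀ h0 h2 _
      _ = Real.exp (-(k : ℝ)) := by
          rw [← Real.exp_nat_mul]
          congr 1
          push_cast
          field_simp
  have h3 : Real.exp (-(k : ℝ)) ≤ 1 / (2 : ℝ) ^ k := by
    have h4 : (2 : ℝ) ≤ Real.exp 1 := by
      have := Real.add_one_le_exp (1 : ℝ)
      linarith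
    have h5 : (2 : ℝ) ^ k ≤ Real.exp (k : ℝ) := by
      calc (2 : ℝ) ^ k ≤ (Real.exp 1) ^ k := pow_le_pow_left₀ (by norm_num) h4 _
        _ = Real.exp (k : ℝ) := by rw [← Real.exp_nat_mul, mul_one]
    rw [Real.exp_neg, ← one_div]
    exact one_div_le_one_div_of_le (by positivity) h5
  have h6 : 50 * ((k : ℝ) * (k + 1)) ≤ 2 ^ k := by
    exact_mod_cast two_pow_ge k hk
  have h7 : (0 : ℝ) < 2 ^ k := by positivity
  calc (k : ℝ) * (k + 1) / 2 * (1 - 1 / (k : ℝ)) ^ (k ^ 2)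
      ≤ (k : ℝ) * (k + 1) / 2 * (1 / (2 : ℝ) ^ k) := by
        apply mul_le_mul_of_nonneg_left (h1.trans h3)
        positivity
    _ ≤ 1 / 100 := by
        rw [mul_one_div, div_le_iff₀ h7]
        linarith

end VM

/-- The mean value theorem. -/
theorem prf_VM (h : IN) : VM := by
  intro k hk X hX
  have h1 := h k (by omega) (k ^ 2) le_rfl X hX
  have e1 : k ^ 2 + k * k ^ 2 = k ^ 3 + k ^ 2 := by ring
  rw [e1] at h1
  refine h1.trans ?_
  have hk0 : (20 : ℝ) ≤ k := by exact_mod_cast hk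
  have hX1 : (1 : ℝ) ≤ X := by exact_mod_cast hX
  have hs := VM.saving k hk
  push_cast
  apply mul_le_mul
  · apply Real.exp_le_exp.2
    have h2 : (1 : ℝ) ≤ (k : ℝ) ^ 2 := by nlinarith
    have h3 : (0 : ℝ) ≤ (k : ℝ) ^ 4 := by positivity
    nlinarith
  · apply Real.rpow_le_rpow_of_exponent_le hX1
    have e2 : 2 * ((k : ℝ) ^ 2 + k * (k : ℝ) ^ 2) = 2 * ((k : ℝ) ^ 3 + (k : ℝ) ^ 2) := by ring
    rw [e2]
    linarith
  · positivity
  · positivity

end Pool.Agent.Work.MP_a8fbd7_nt.VK
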