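import Pool.Agent.Work.MP_a8fbd7_nt.VK.Stmts

set_option autoImplicit false

namespace Pool.Agent.Work.MP_a8fbd7_nt.VK

open Finset

namespace WB

lemma norm_ee (x : ℝ) : ‖ee x‖ = 1 := by
  have : (2 * Real.pi * Complex.I * (x : ℂ)) = ((2 * Real.pi * x : ℝ) : ℂ) * Complex.I := by
    push_cast; ring
  rw [ee, this, Complex.norm_exp_ofReal_mul_I]

lemma ee_add (x y : ℝ) : ee (x + y) = ee x * ee y := by
  rw [ee, ee, ee, ← Complex.exp_add]
  congr 1
  push_cast
  ring

lemma ee_int (n : ℤ) : ee (n : ℝ) = 1 := by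
  rw [ee, Complex.exp_eq_one_iff]
  exact ⟨n, by push_cast; ring⟩

lemma trivial_inner (H : ℕ) (f : ℤ → ℝ) :
    ‖∑ l ∈ Icc (-(H : ℤ)) (H : ℤ), ee (f l)‖ ≤ 2 * (H : ℝ) + 1 := by
  refine (norm_sum_le _ _).trans ?_
  simp only [norm_ee, Finset.sum_const, nsmul_eq_mul, mul_one, Int.card_Icc]
  have : ((H : ℤ) + 1 - -(H : ℤ)).toNat = 2 * H + 1 := by omega
  rw [this]
  push_cast
  exact le_rfl

/-- lower bound for `|ee θ - 1|` -/
lemma norm_ee_sub_one (θ : ℝ) : 4 * |θ - round θ| ≤ ‖ee θ - 1‖ := by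
  set y : ℝ := θ - round θ with hy
  have h1 : ee θ = ee y := by
    have : θ = y + (round θ : ℤ) := by rw [hy]; ring
    rw [this, ee_add, ee_int, mul_one]
  have hy2 : |y| ≤ 1 / 2 := abs_sub_round θ
  have h2 : ‖ee y - 1‖ = ‖2 * Real.sin (Real.pi * y)‖ := by
    have e1 : ee y = Complex.exp (Complex.I * ((2 * Real.pi * y : ℝ) : ℂ)) := by
      rw [ee]; congr 1; push_cast; ring
    rw [e1, Complex.norm_exp_I_mul_ofReal_sub_one]
    congr 3
    ring
  rw [h1, h2, Real.norm_eq_abs, abs_mul, abs_two]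
  have h3 : |Real.sin (Real.pi * y)| = Real.sin (Real.pi * |y|) := by
    rcases le_total 0 y with h | h
    · rw [abs_of_nonneg h, abs_of_nonneg]
      refine Real.sin_nonneg_of_nonneg_of_le_pi (by positivity) ?_
      rw [abs_of_nonneg h] at hy2
      nlinarith [Real.pi_pos]
    · rw [abs_of_nonpos h, mul_neg, Real.sin_neg, abs_of_nonpos]
      rw [abs_of_nonpos h] at hy2
      have : 0 ≤ Real.sin (Real.pi * (-y)) :=
        Real.sin_nonneg_of_nonneg_of_le_pi (by nlinarith [Real.pi_pos]) (by nlinarith [Real.pi_pos])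
      rw [mul_neg, Real.sin_neg] at this
      linarith
  rw [h3]
  have h4 := Real.mul_le_sin (x := Real.pi * |y|) (by positivity)
    (by nlinarith [Real.pi_pos])
  have h5 : 2 / Real.pi * (Real.pi * |y|) = 2 * |y| := by
    field_simp
  rw [h5] at h4
  linarith

/-- the geometric sum -/
lemma geom (H : ℕ) (θ : ℝ) :
    ‖∑ l ∈ Icc (-(H : ℤ)) (H : ℤ), ee (θ * l)‖ * (2 * |θ - round θ|) ≤ 1 := by
  have key : ∀ H : ℕ, (∑ l ∈ Icc (-(H : ℤ)) (H : ℤ), ee (θ * l)) * (ee θ - 1) =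
      ee (θ * (H + 1)) - ee (-(θ * H)) := by
    intro H
    induction H with
    | zero =>
      simp only [Nat.cast_zero, neg_zero, Finset.Icc_self, Finset.sum_singleton, Int.cast_zero,
        mul_zero, zero_add, mul_one]
      have : ee 0 = 1 := by simpa using ee_int 0
      rw [this]
      ring
    | succ H ih =>
      have hset : Icc (-((H + 1 : ℕ) : ℤ)) ((H + 1 : ℕ) : ℤ) =
          insert (-((H : ℤ) + 1)) (insert ((H : ℤ) + 1) (Icc (-(H : ℤ)) (H : ℤ))) := by
        ext l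
        simp only [Finset.mem_Icc, Finset.mem_insert]
        push_cast
        omega
      rw [hset, Finset.sum_insert, Finset.sum_insert, add_mul, add_mul, ih]
      · push_cast
        have e1 : ee (θ * -((H : ℝ) + 1)) * (ee θ - 1) =
            ee (-(θ * H)) - ee (-(θ * ((H : ℝ) + 1))) := by
          rw [mul_sub, ← ee_add, mul_one]
          congr 2 <;> ring
        have e2 : ee (θ * ((H : ℝ) + 1)) * (ee θ - 1) =
            ee (θ * ((H : ℝ) + 1 + 1)) - ee (θ * ((H : ℝ) + 1)) := by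
          rw [mul_sub, ← ee_add, mul_one]
          congr 2; ring
        rw [e1, e2]
        ring
      · simp
      · simp only [Finset.mem_insert, Finset.mem_Icc, not_or]
        constructor <;> omega
  have h1 := congrArg norm (key H)
  rw [norm_mul] at h1
  have h2 : ‖ee (θ * (H + 1)) - ee (-(θ * H))‖ ≤ 2 := by
    refine (norm_sub_le _ _).trans ?_
    rw [norm_ee, norm_ee]
    norm_num
  have h3 := norm_ee_sub_one θ
  have h4 : 0 ≤ ‖∑ l ∈ Icc (-(H : ℤ)) (H : ℤ), ee (θ * l)‖ := norm_nonneg _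
  have h5 := mul_le_mul_of_nonneg_left h3 h4
  rw [h1] at h5
  linarith

/-- integers in an interval -/
lemma card_int (S : Finset ℤ) (x y : ℝ) (hxy : x ≤ y) (h : ∀ m ∈ S, x ≤ m ∧ (m : ℝ) ≤ y) :
    (S.card : ℝ) ≤ y - x + 1 := by
  have h1 : S ⊆ Icc ⌈x⌉ ⌊y⌋ := by
    intro m hm
    rw [Finset.mem_Icc]
    exact ⟨Int.ceil_le.mpr (h m hm).1, Int.le_floor.mpr (h m hm).2⟩
  have h2 := Finset.card_le_card h1
  rw [Int.card_Icc] at h2
  have h3 : ((⌊y⌋ + 1 - ⌈x⌉).toNat : ℝ) ≤ y - x + 1 := by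
    rcases le_total 0 (⌊y⌋ + 1 - ⌈x⌉) with h0 | h0
    · have : ((⌊y⌋ + 1 - ⌈x⌉).toNat : ℝ) = ((⌊y⌋ + 1 - ⌈x⌉ : ℤ) : ℝ) := by
        exact_mod_cast Int.toNat_of_nonneg h0
      rw [this]
      push_cast
      have := Int.floor_le y
      have := Int.le_ceil x
      linarith
    · rw [Int.toNat_of_nonpos h0]
      push_cast
      linarith
  exact le_trans (by exact_mod_cast h2) h3

/-- points of a finite set close to integers -/
lemma count_aux (S : Finset ℤ) (H a Δ : ℝ) (hH : 0 ≤ H) (ha : a ≠ 0) (hΔ : 0 < Δ)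
    (h1 : ∀ μ ∈ S, |(μ : ℝ)| ≤ H) (h2 : ∀ μ ∈ S, |a * μ - round (a * μ)| < Δ) :
    (S.card : ℝ) ≤ (2 * H * |a| + 2) * (2 * Δ / |a| + 1) := by
  classical
  have hapos : 0 < |a| := abs_pos.mpr ha
  have h3 : S.card = ∑ n ∈ S.image (fun μ : ℤ => round (a * (μ : ℝ))),
      (S.filter fun μ : ℤ => round (a * (μ : ℝ)) = n).card :=
    Finset.card_eq_sum_card_fiberwise fun μ hμ => Finset.mem_coe.mpr
      (Finset.mem_image_of_mem _ (Finset.mem_coe.mp hμ))
  have h4 : ∀ n ∈ S.image (fun μ : ℤ => round (a * (μ : ℝ))),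
      (((S.filter fun μ : ℤ => round (a * (μ : ℝ)) = n).card : ℕ) : ℝ) ≤ 2 * Δ / |a| + 1 := by
    intro n _
    have h5 : ∀ m ∈ S.filter (fun μ : ℤ => round (a * (μ : ℝ)) = n),
        n / a - Δ / |a| ≤ (m : ℝ) ∧ (m : ℝ) ≤ n / a + Δ / |a| := by
      intro m hm
      rw [Finset.mem_filter] at hm
      have h6 := h2 m hm.1
      rw [hm.2] at h6
      have h7 : |(m : ℝ) - n / a| ≤ Δ / |a| := by
        have e : a * (m : ℝ) - n = a * ((m : ℝ) - n / a) := by field_simp
        rw [e, abs_mul] at h6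
        rw [le_div_iff₀ hapos, mul_comm]
        exact h6.le
      rw [abs_le] at h7
      constructor <;> linarith [h7.1, h7.2]
    have h0 : 0 ≤ Δ / |a| := by positivity
    have := card_int _ _ _ (by linarith) h5
    refine this.trans (le_of_eq ?_)
    ring
  have h5 : ((S.image (fun μ : ℤ => round (a * (μ : ℝ)))).card : ℝ) ≤ 2 * H * |a| + 2 := by
    have h6 : ∀ n ∈ S.image (fun μ : ℤ => round (a * (μ : ℝ))),
        -(H * |a| + 1 / 2) ≤ (n : ℝ) ∧ (n : ℝ) ≤ H * |a| + 1 / 2 := by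
      intro n hn
      rw [Finset.mem_image] at hn
      obtain ⟨μ, hμ, rfl⟩ := hn
      have h7 : |a * (μ : ℝ)| ≤ H * |a| := by
        rw [abs_mul, mul_comm]
        exact mul_le_mul_of_nonneg_right (h1 μ hμ) hapos.le
      have h8 := abs_sub_round (a * (μ : ℝ))
      rw [abs_le] at h7 h8
      constructor <;> linarith [h7.1, h7.2, h8.1, h8.2]
    have h0 : 0 ≤ H * |a| := by positivity
    have := card_int _ _ _ (by linarith) h6
    linarith
  rw [h3]
  push_cast
  calc ∑ n ∈ S.image (fun μ : ℤ => round (a * (μ : ℝ))),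
        (((S.filter fun μ : ℤ => round (a * (μ : ℝ)) = n).card : ℕ) : ℝ)
      ≤ ∑ n ∈ S.image (fun μ : ℤ => round (a * (μ : ℝ))), (2 * Δ / |a| + 1) :=
        Finset.sum_le_sum h4
    _ = ((S.image (fun μ : ℤ => round (a * (μ : ℝ)))).card : ℝ) * (2 * Δ / |a| + 1) := by
        rw [Finset.sum_const, nsmul_eq_mul]
    _ ≤ _ := by
      refine mul_le_mul_of_nonneg_right h5 ?_
      positivity

/-- counting `μ` with `a μ` close to an integer -/
lemma count (H : ℕ) (a Δ : ℝ) (ha : a ≠ 0) (hΔ : 0 < Δ) :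
    ((((Icc (-(H : ℤ)) (H : ℤ)).filter fun μ : ℤ => |a * μ - round (a * μ)| < Δ).card : ℕ) : ℝ) ≤
      (2 * H * |a| + 2) * (2 * Δ / |a| + 1) := by
  refine count_aux _ H a Δ (by positivity) ha hΔ (fun μ hμ => ?_) (fun μ hμ => ?_)
  · rw [Finset.mem_filter, Finset.mem_Icc] at hμ
    rw [abs_le]
    exact ⟨by exact_mod_cast hμ.1.1, by exact_mod_cast hμ.1.2⟩
  · exact (Finset.mem_filter.mp hμ).2

lemma card_Icc_sym (H : ℕ) : ((Icc (-(H : ℤ)) (H : ℤ)).card : ℝ) = 2 * H + 1 := by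
  rw [Int.card_Icc]
  have : ((H : ℤ) + 1 - -(H : ℤ)).toNat = 2 * H + 1 := by omega
  rw [this]
  push_cast
  ring

lemma main (H : ℕ) (a Δ : ℝ) (ha : a ≠ 0) (hΔ : 0 < Δ) :
    W H a ≤ (2 * H + 1) * ((2 * H * |a| + 2) * (2 * Δ / |a| + 1)) + (2 * H + 1) * (1 / (2 * Δ)) := by
  classical
  rw [W, ← Finset.sum_filter_add_sum_filter_not (Icc (-(H : ℤ)) (H : ℤ))
    (fun μ : ℤ => |a * μ - round (a * μ)| < Δ)]
  refine add_le_add ?_ ?_
  · calc _ ≤ ∑ μ ∈ (Icc (-(H : ℤ)) (H : ℤ)).filter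
          (fun μ : ℤ => |a * μ - round (a * μ)| < Δ), (2 * (H : ℝ) + 1) :=
          Finset.sum_le_sum fun μ _ => trivial_inner H fun l => a * l * μ
      _ = _ := by rw [Finset.sum_const, nsmul_eq_mul]
      _ ≤ ((2 * H * |a| + 2) * (2 * Δ / |a| + 1)) * (2 * (H : ℝ) + 1) :=
          mul_le_mul_of_nonneg_right (count H a Δ ha hΔ) (by positivity)
      _ = _ := by ring
  · calc _ ≤ ∑ μ ∈ (Icc (-(H : ℤ)) (H : ℤ)).filter
          (fun μ : ℤ => ¬ |a * μ - round (a * μ)| < Δ), (1 / (2 * Δ)) := by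
          refine Finset.sum_le_sum fun μ hμ => ?_
          rw [Finset.mem_filter, not_lt] at hμ
          have h1 := geom H (a * μ)
          have h2 : (∑ l ∈ Icc (-(H : ℤ)) (H : ℤ), ee (a * l * μ)) =
              ∑ l ∈ Icc (-(H : ℤ)) (H : ℤ), ee (a * μ * l) :=
            Finset.sum_congr rfl fun l _ => by congr 1; ring
          rw [h2, le_div_iff₀ (by positivity)]
          refine le_trans ?_ h1
          exact mul_le_mul_of_nonneg_left (by linarith [hμ.2]) (norm_nonneg _)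
      _ = _ := by rw [Finset.sum_const, nsmul_eq_mul]
      _ ≤ ((Icc (-(H : ℤ)) (H : ℤ)).card : ℝ) * (1 / (2 * Δ)) := by
          refine mul_le_mul_of_nonneg_right ?_ (by positivity)
          exact_mod_cast Finset.card_filter_le _ _
      _ = _ := by rw [card_Icc_sym]

end WB

theorem prf_WB : WB := by
  constructor
  · intro H a
    rw [W]
    have h0 : ∀ μ ∈ Icc (-(H : ℤ)) (H : ℤ),
        ‖∑ l ∈ Icc (-(H : ℤ)) (H : ℤ), ee (a * l * μ)‖ ≤ 2 * (H : ℝ) + 1 :=
      fun μ _ => WB.trivial_inner H fun l => a * l * μ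
    refine (Finset.sum_le_sum h0).trans ?_
    rw [Finset.sum_const, nsmul_eq_mul, WB.card_Icc_sym]
    exact le_of_eq (by ring)
  · intro H a hH ha ha1
    have hH1 : (1 : ℝ) ≤ H := by exact_mod_cast hH
    set A : ℝ := |a| with hA
    have hApos : 0 < A := abs_pos.mpr ha
    set r : ℝ := Real.sqrt A with hr
    set q : ℝ := Real.sqrt H with hq
    have hrpos : 0 < r := Real.sqrt_pos.mpr hApos
    have hqpos : 0 < q := Real.sqrt_pos.mpr (by linarith)
    have hr2 : r * r = A := Real.mul_self_sqrt hApos.le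
    have hq2 : q * q = H := Real.mul_self_sqrt (by linarith)
    have hq1 : 1 ≤ q := by
      rw [hq]; exact Real.one_le_sqrt.mpr hH1
    set x : ℝ := min r (1 / q) with hx
    have hxpos : 0 < x := lt_min hrpos (by positivity)
    have h1 := WB.main H a (x / 2) ha (by positivity)
    have hx1 : x ≤ r := min_le_left _ _
    have hx2 : x ≤ 1 / q := min_le_right _ _
    have hxi : 1 / x ≤ 1 / r + q := by
      rcases min_cases r (1 / q) with h | h
      · rw [hx, h.1]; linarith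
      · rw [hx, h.1, one_div_one_div]
        have : 0 ≤ 1 / r := by positivity
        linarith
    have e1 : (2 : ℝ) * H * x ≤ 2 * q := by
      calc (2 : ℝ) * H * x ≤ 2 * H * (1 / q) := by gcongr
        _ = 2 * q := by rw [← hq2]; field_simp
    have e2 : x / A ≤ 1 / r := by
      rw [div_le_div_iff₀ hApos hrpos, ← hr2]
      nlinarith
    have h2 : (2 * (H : ℝ) * A + 2) * (2 * (x / 2) / A + 1) + 1 / (2 * (x / 2)) ≤
        3 * q + 2 * H * A + 3 * (1 / r) + 2 := by
      have e3 : (2 * (H : ℝ) * A + 2) * (2 * (x / 2) / A + 1) =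
          2 * H * x + 2 * H * A + 2 * (x / A) + 2 := by
        field_simp
        ring
      have e4 : 1 / (2 * (x / 2)) = 1 / x := by
        congr 1; ring
      rw [e3, e4]
      linarith
    have h3 : W H a ≤ 3 * H * (3 * q + 2 * H * A + 3 * (1 / r) + 2) := by
      calc W H a ≤ (2 * H + 1) * ((2 * (H : ℝ) * A + 2) * (2 * (x / 2) / A + 1) +
            1 / (2 * (x / 2))) := by linarith [h1]
        _ ≤ (2 * H + 1) * (3 * q + 2 * H * A + 3 * (1 / r) + 2) := by gcongr
        _ ≤ _ := by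
          refine mul_le_mul_of_nonneg_right (by linarith) ?_
          positivity
    refine h3.trans ?_
    have e6 : 100 * (H : ℝ) ^ 2 * (1 / q + A + 1 / (H * r)) =
        100 * (H * q) + 100 * H ^ 2 * A + 100 * (H * (1 / r)) := by
      rw [← hq2]
      field_simp
    rw [e6]
    have p1 : 0 ≤ (H : ℝ) * (1 / r) := by positivity
    have p2 : 0 ≤ (H : ℝ) ^ 2 * A := by positivity
    have p3 : (H : ℝ) ≤ H * q := by nlinarith
    nlinarith

end Pool.Agent.Work.MP_a8fbd7_nt.VK
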