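/-
Block VK (problem MP_a8fbd7_nt): assembly.  Author: helper44.
-/
import Pool.Agent.Work.MP_a8fbd7_nt.VK.I_CH
import Pool.Agent.Work.MP_a8fbd7_nt.VK.I_TD
import Pool.Agent.Work.MP_a8fbd7_nt.VK.I_PO
import Pool.Agent.Work.MP_a8fbd7_nt.VK.I_HO
import Pool.Agent.Work.MP_a8fbd7_nt.VK.I_BA
import Pool.Agent.Work.MP_a8fbd7_nt.VK.I_LN
import Pool.Agent.Work.MP_a8fbd7_nt.VK.I_LI
import Pool.Agent.Work.MP_a8fbd7_nt.VK.I_MO
import Pool.Agent.Work.MP_a8fbd7_nt.VK.I_GG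
import Pool.Agent.Work.MP_a8fbd7_nt.VK.I_RE
import Pool.Agent.Work.MP_a8fbd7_nt.VK.I_IN
import Pool.Agent.Work.MP_a8fbd7_nt.VK.I_VM
import Pool.Agent.Work.MP_a8fbd7_nt.VK.I_DB
import Pool.Agent.Work.MP_a8fbd7_nt.VK.I_WB
import Pool.Agent.Work.MP_a8fbd7_nt.VK.I_SH
import Pool.Agent.Work.MP_a8fbd7_nt.VK.I_GA
import Pool.Agent.Work.MP_a8fbd7_nt.VK.I_EX
import Pool.Agent.Work.MP_a8fbd7_nt.VK.I_AP
import Pool.Agent.Work.MP_a8fbd7_nt.VK.I_AB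
import Pool.Agent.Work.MP_a8fbd7_nt.VK.I_GR
import Pool.Agent.Work.MP_a8fbd7_nt.VK.I_LA
import Pool.Agent.Work.MP_a8fbd7_nt.VK.I_TF
import Pool.Agent.Work.MP_a8fbd7_nt.VK.I_PZ
import Pool.Agent.Work.MP_a8fbd7_nt.VK.I_LG
import Pool.Agent.Work.MP_a8fbd7_nt.VK.I_VK
import Pool.Agent.Work.MP_a8fbd7_nt.VK.I_V3

set_option autoImplicit false

namespace Pool.Agent.Work.MP_a8fbd7_nt.VK

theorem po : PO := prf_PO prf_CH

theorem vinogradov : VM :=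
  prf_VM (prf_IN (prf_RE prf_TD po (prf_HO prf_CH) (prf_BA prf_CH)
    (prf_MO prf_TD po (prf_LI prf_LN)) prf_GG))

/-- VK2: sums of `n ^ (- i t)`. -/
theorem VK2 : EX := prf_EX vinogradov (prf_DB po) prf_SH (prf_GA prf_WB)

/-- Growth of the zeta function near the line `Re s = 1`. -/
theorem growth : GR := prf_GR VK2 prf_AP prf_AB

/-- VK1: the zero-free region. -/
theorem VK1 : VK := prf_VK prf_TF prf_PZ (prf_LG growth prf_LA prf_PZ)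

/-- VK3: the logarithmic derivative. -/
theorem VK3 : V3 := prf_V3 growth prf_PZ VK1

end Pool.Agent.Work.MP_a8fbd7_nt.VK
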