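/-
Block VK (problem MP_a8fbd7_nt), item AB: Abel summation for n ^ (-s).  Author: helper22.
-/
import Pool.Agent.Work.MP_a8fbd7_nt.VK.Stmts

set_option autoImplicit false

namespace Pool.Agent.Work.MP_a8fbd7_nt.VK

open Finset

namespace AB

/-- Abel's identity. -/
theorem abel_id (a : ℕ → ℂ) (f : ℕ → ℝ) (N : ℕ) :
    ∀ N' : ℕ, N ≤ N' → ∑ n ∈ Ioc N N', (f n : ℂ) * a n
      = (f N' : ℂ) * ∑ n ∈ Ioc N N', a n
        + ∑ n ∈ Ico N N', ((f n - f (n + 1) : ℝ) : ℂ) * ∑ m ∈ Ioc N n, a m := by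
  intro N' h
  induction N', h using Nat.le_induction with
  | base => simp
  | succ M hM ih =>
    rw [← Finset.insert_Ioc_right_eq_Ioc_add_one hM, Finset.sum_insert (by simp),
      Finset.sum_insert (by simp), Finset.sum_Ico_succ_top hM, ih]
    push_cast
    ring

/-- Abel's inequality. -/
theorem abel_le (a : ℕ → ℂ) (f : ℕ → ℝ) (N N' : ℕ) (G : ℝ) (h : N ≤ N')
    (hf0 : 0 ≤ f N') (hf : ∀ n, N ≤ n → f (n + 1) ≤ f n)
    (hA : ∀ M, N ≤ M → M ≤ N' → ‖∑ n ∈ Ioc N M, a n‖ ≤ G) :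
    ‖∑ n ∈ Ioc N N', (f n : ℂ) * a n‖ ≤ f N * G := by
  rw [abel_id a f N N' h]
  have h1 : ‖(f N' : ℂ) * ∑ n ∈ Ioc N N', a n‖ ≤ f N' * G := by
    rw [norm_mul, Complex.norm_real, Real.norm_eq_abs, abs_of_nonneg hf0]
    exact mul_le_mul_of_nonneg_left (hA N' h le_rfl) hf0
  have h2 : ‖∑ n ∈ Ico N N', ((f n - f (n + 1) : ℝ) : ℂ) * ∑ m ∈ Ioc N n, a m‖
      ≤ ∑ n ∈ Ico N N', (f n - f (n + 1)) * G := by
    refine (norm_sum_le _ _).trans (Finset.sum_le_sum fun n hn => ?_)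
    rw [Finset.mem_Ico] at hn
    have h0 : 0 ≤ f n - f (n + 1) := sub_nonneg.mpr (hf n hn.1)
    rw [norm_mul, Complex.norm_real, Real.norm_eq_abs, abs_of_nonneg h0]
    exact mul_le_mul_of_nonneg_left (hA n hn.1 hn.2.le) h0
  have h3 : ∑ n ∈ Ico N N', (f n - f (n + 1)) = f N - f N' := by
    rw [Finset.sum_Ico_eq_sub _ h]
    have := Finset.sum_range_sub' f N'
    have h4 := Finset.sum_range_sub' f N
    rw [this, h4]
    ring
  rw [← Finset.sum_mul, h3] at h2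
  refine (norm_add_le _ _).trans ((add_le_add h1 h2).trans (le_of_eq ?_))
  ring

/-- Splitting of the power. -/
theorem cpow_split (n : ℕ) (hn : 1 ≤ n) (s : ℂ) :
    (n : ℂ) ^ (-s) = (((n : ℝ) ^ (-s.re) : ℝ) : ℂ) * (n : ℂ) ^ (-((s.im : ℂ) * Complex.I)) := by
  have hn0 : (n : ℂ) ≠ 0 := by exact_mod_cast (by omega : n ≠ 0)
  have h : -s = ((-s.re : ℝ) : ℂ) + -((s.im : ℂ) * Complex.I) := by
    apply Complex.ext <;> simp
  conv_lhs => rw [h]
  rw [Complex.cpow_add _ _ hn0, Complex.ofReal_cpow (by positivity)]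
  simp

/-- Conjugation of the sum. -/
theorem norm_neg (A : Finset ℕ) (t : ℝ) :
    ‖∑ n ∈ A, (n : ℂ) ^ (-(((-t : ℝ) : ℂ) * Complex.I))‖
      = ‖∑ n ∈ A, (n : ℂ) ^ (-((t : ℂ) * Complex.I))‖ := by
  rw [← Complex.norm_conj (∑ n ∈ A, (n : ℂ) ^ (-((t : ℂ) * Complex.I))), map_sum]
  congr 1
  refine Finset.sum_congr rfl fun n _ => ?_
  have harg : (n : ℂ).arg ≠ Real.pi := by
    rw [Complex.natCast_arg]
    exact Real.pi_pos.ne
  have := Complex.conj_cpow (n : ℂ) (-((t : ℂ) * Complex.I)) harg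
  rw [Complex.conj_natCast] at this
  have h2 := Complex.cpow_conj (n : ℂ) (-((t : ℂ) * Complex.I)) harg
  rw [Complex.conj_natCast] at h2
  rw [← h2]
  congr 1
  simp

/-- The partial sums in absolute value of the imaginary part. -/
theorem part (N M : ℕ) (t : ℝ) :
    ‖∑ n ∈ Ioc N M, (n : ℂ) ^ (-((t : ℂ) * Complex.I))‖ = ‖zs N M |t|‖ := by
  unfold zs
  rcases abs_choice t with h | h
  · rw [h]
  · rw [h, norm_neg]

end AB

theorem prf_AB : AB := by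
  intro N N' s G hN hNN hs hG
  have h1 : ∑ n ∈ Ioc N N', (n : ℂ) ^ (-s)
      = ∑ n ∈ Ioc N N', (((n : ℝ) ^ (-s.re) : ℝ) : ℂ) *
        (n : ℂ) ^ (-((s.im : ℂ) * Complex.I)) := by
    refine Finset.sum_congr rfl fun n hn => ?_
    rw [Finset.mem_Ioc] at hn
    exact AB.cpow_split n (by omega) s
  rw [h1]
  refine AB.abel_le (fun n => (n : ℂ) ^ (-((s.im : ℂ) * Complex.I)))
    (fun n => (n : ℝ) ^ (-s.re)) N N' G hNN (by positivity) ?_ ?_
  · intro n hn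
    have hn1 : (0 : ℝ) < (n : ℝ) := by exact_mod_cast (by omega : 0 < n)
    refine Real.rpow_le_rpow_of_nonpos hn1 ?_ (by linarith)
    push_cast
    linarith
  · intro M h1 h2
    rw [AB.part]
    exact hG M h1 h2

end Pool.Agent.Work.MP_a8fbd7_nt.VK
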