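import Pool.Agent.Work.MP_a8fbd7_nt.VK.Stmts

set_option autoImplicit false

namespace Pool.Agent.Work.MP_a8fbd7_nt.VK

open Finset

namespace GG

/-- a permutation which brings `k` incongruent entries to the front -/
lemma exists_perm (k m p : ℕ) (x : Fin (k + m) → ℤ) (h : k ≤ ncl p x) :
    ∃ π : Equiv.Perm (Fin (k + m)), ∀ i j : Fin k, i ≠ j →
      ¬ (p : ℤ) ∣ x (π (Fin.castAdd m i)) - x (π (Fin.castAdd m j)) := by
  classical
  obtain ⟨R, hR, hRc⟩ := Finset.exists_subset_card_eq h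
  have hpre : ∀ r ∈ R, ∃ i : Fin (k + m), x i % (p : ℤ) = r := by
    intro r hr
    obtain ⟨i, _, hi⟩ := Finset.mem_image.1 (hR hr)
    exact ⟨i, hi⟩
  choose c hc using hpre
  let e : Fin k ≃ R := (Finset.equivFinOfCardEq hRc).symm
  let g : Fin k → Fin (k + m) := fun i => c (e i) (e i).2
  have hg : ∀ i, x (g i) % (p : ℤ) = (e i : ℤ) := fun i => hc _ (e i).2
  have hinj : Function.Injective g := by
    intro i j hij
    have h1 : (e i : ℤ) = e j := by rw [← hg i, ← hg j, hij]
    exact e.injective (Subtype.ext h1)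
  have hca : Function.Injective (Fin.castAdd m : Fin k → Fin (k + m)) :=
    Fin.castAdd_injective k m
  let E : {y // y ∈ Set.range (Fin.castAdd m : Fin k → Fin (k + m))} ≃ {y // y ∈ Set.range g} :=
    (Equiv.ofInjective _ hca).symm.trans (Equiv.ofInjective _ hinj)
  refine ⟨E.extendSubtype, ?_⟩
  have hE : ∀ i : Fin k, E.extendSubtype (Fin.castAdd m i) = g i := by
    intro i
    have h1 : Fin.castAdd m i ∈ Set.range (Fin.castAdd m : Fin k → Fin (k + m)) := ⟨i, rfl⟩
    rw [Equiv.extendSubtype_apply_of_mem E _ h1]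
    have h2 : (Equiv.ofInjective _ hca).symm ⟨Fin.castAdd m i, h1⟩ = i :=
      Equiv.ofInjective_symm_apply hca i
    change ((Equiv.ofInjective _ hinj) ((Equiv.ofInjective _ hca).symm ⟨Fin.castAdd m i, h1⟩) :
      Fin (k + m)) = g i
    rw [h2]
    rfl
  intro i j hij hd
  rw [hE, hE] at hd
  have h1 : x (g i) % (p : ℤ) = x (g j) % (p : ℤ) := by
    have h2 : x (g j) ≡ x (g i) [ZMOD (p : ℤ)] := Int.modEq_iff_dvd.2 hd
    exact h2.symm
  rw [hg, hg] at h1
  exact hij (e.injective (Subtype.ext h1))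

end GG

open Classical in
theorem prf_GG : GG := by
  intro k m p hp A
  have hex : ∀ x : Fin (k + m) → ℤ, ∃ π : Equiv.Perm (Fin (k + m)), k ≤ ncl p x →
      ∀ i j : Fin k, i ≠ j →
      ¬ (p : ℤ) ∣ x (π (Fin.castAdd m i)) - x (π (Fin.castAdd m j)) := by
    intro x
    by_cases h : k ≤ ncl p x
    · obtain ⟨π, hπ⟩ := GG.exists_perm k m p x h
      exact ⟨π, fun _ => hπ⟩
    · exact ⟨1, fun h' => absurd h' h⟩
  choose π hπ using hex
  have hcard : (Nat.factorial (k + m)) ^ 2 * Nn k m (Dst k p A) A =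
      (((univ : Finset (Equiv.Perm (Fin (k + m)))) ×ˢ
        (univ : Finset (Equiv.Perm (Fin (k + m))))) ×ˢ
        (((Dst k p A ×ˢ tup m A) ×ˢ (Dst k p A ×ˢ tup m A)).filter fun z =>
          ps k z.1.1 + ps k z.1.2 = ps k z.2.1 + ps k z.2.2)).card := by
    rw [Finset.card_product, Finset.card_product, Finset.card_univ, Fintype.card_perm,
      Fintype.card_fin, sq]
    rfl
  rw [hcard]
  have hps : ∀ (x : Fin (k + m) → ℤ) (σ : Equiv.Perm (Fin (k + m))),
      ps k (fun i : Fin k => x (σ (Fin.castAdd m i))) +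
        ps k (fun i : Fin m => x (σ (Fin.natAdd k i))) = ps k x := by
    intro x σ
    unfold ps
    rw [← Equiv.sum_comp σ (fun i => pv k (x i)), Fin.sum_univ_add]
  refine Finset.card_le_card_of_injOn (fun z =>
    ((π z.1, π z.2), ((fun i : Fin k => z.1 (π z.1 (Fin.castAdd m i)),
      fun i : Fin m => z.1 (π z.1 (Fin.natAdd k i))),
      (fun i : Fin k => z.2 (π z.2 (Fin.castAdd m i)),
      fun i : Fin m => z.2 (π z.2 (Fin.natAdd k i)))))) ?_ ?_
  · intro z hz
    have hz' := Finset.mem_filter.1 (Finset.mem_coe.1 hz)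
    obtain ⟨hzA, hzp, hz1, hz2⟩ := hz'
    obtain ⟨hA1, hA2⟩ := Finset.mem_product.1 hzA
    unfold tup at hA1 hA2
    rw [Fintype.mem_piFinset] at hA1 hA2
    rw [Finset.mem_coe, Finset.mem_product]
    refine ⟨by simp, ?_⟩
    rw [Finset.mem_filter, Finset.mem_product, Finset.mem_product, Finset.mem_product]
    refine ⟨⟨⟨?_, ?_⟩, ⟨?_, ?_⟩⟩, ?_⟩
    · unfold Dst tup
      rw [Finset.mem_filter, Fintype.mem_piFinset]
      exact ⟨fun i => hA1 _, hπ z.1 hz1⟩
    · unfold tup
      rw [Fintype.mem_piFinset]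
      exact fun i => hA1 _
    · unfold Dst tup
      rw [Finset.mem_filter, Fintype.mem_piFinset]
      exact ⟨fun i => hA2 _, hπ z.2 hz2⟩
    · unfold tup
      rw [Fintype.mem_piFinset]
      exact fun i => hA2 _
    · simp only
      rw [hps, hps]
      exact hzp
  · intro z _ z' _ h
    simp only [Prod.mk.injEq] at h
    obtain ⟨⟨h1, h2⟩, ⟨h3, h4⟩, ⟨h5, h6⟩⟩ := h
    have key : ∀ (x x' : Fin (k + m) → ℤ) (σ : Equiv.Perm (Fin (k + m))),
        (fun i : Fin k => x (σ (Fin.castAdd m i))) = (fun i : Fin k => x' (σ (Fin.castAdd m i))) →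
        (fun i : Fin m => x (σ (Fin.natAdd k i))) = (fun i : Fin m => x' (σ (Fin.natAdd k i))) →
        x = x' := by
      intro x x' σ ha hb
      have hall : ∀ i : Fin (k + m), x (σ i) = x' (σ i) := by
        intro i
        refine Fin.addCases (fun i => ?_) (fun i => ?_) i
        · exact congrFun ha i
        · exact congrFun hb i
      funext i
      have := hall (σ.symm i)
      rwa [Equiv.apply_symm_apply] at this
    rw [← h1] at h3 h4
    rw [← h2] at h5 h6
    exact Prod.ext (key _ _ _ h3 h4) (key _ _ _ h5 h6)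

end Pool.Agent.Work.MP_a8fbd7_nt.VK
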